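import Pool.Agent.MP_c4844d_an.TD

noncomputable section

open Complex

namespace Pool.Agent.MP_c4844d_an

/-- complex three-space -/
abbrev V3 : Type := Fin 3 → ℂ

/-- square root of two -/
def s2 : ℂ := (Real.sqrt 2 : ℝ)
/-- square root of three -/
def s3 : ℂ := (Real.sqrt 3 : ℝ)

lemma hs2 : s2 ^ 2 = 2 := by
  rw [s2, ← ofReal_pow, Real.sq_sqrt (by norm_num)]; norm_num
lemma hs3 : s3 ^ 2 = 3 := by
  rw [s3, ← ofReal_pow, Real.sq_sqrt (by norm_num)]; norm_num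

/-- complex cross product -/
def crs (n x : V3) : V3 := ![n 1 * x 2 - n 2 * x 1, n 2 * x 0 - n 0 * x 2, n 0 * x 1 - n 1 * x 0]
@[simp] lemma crs0 (n x : V3) : crs n x 0 = n 1 * x 2 - n 2 * x 1 := rfl
@[simp] lemma crs1 (n x : V3) : crs n x 1 = n 2 * x 0 - n 0 * x 2 := rfl
@[simp] lemma crs2 (n x : V3) : crs n x 2 = n 0 * x 1 - n 1 * x 0 := rfl

/-- vector with given coordinates -/
def vec (a b c : ℂ) : V3 := ![a, b, c]
@[simp] lemma vec0 (a b c : ℂ) : vec a b c 0 = a := rfl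
@[simp] lemma vec1 (a b c : ℂ) : vec a b c 1 = b := rfl
@[simp] lemma vec2 (a b c : ℂ) : vec a b c 2 = c := rfl

lemma v3_ext {x y : V3} (h0 : x 0 = y 0) (h1 : x 1 = y 1) (h2 : x 2 = y 2) : x = y := by
  ext i; fin_cases i
  exacts [h0, h1, h2]

/-- cyclic permutation of the coordinates -/
def cyc (x : V3) : V3 := vec (x 1) (x 2) (x 0)
/-- exchange of the last two coordinates -/
def sw (x : V3) : V3 := vec (x 0) (x 2) (x 1)

/-- centre of the triangle -/
def cc : V3 := vec (s3 / 3) (s3 / 3) (s3 / 3)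
/-- first vector of the frame at the centre -/
def c1 : V3 := vec (-(s2 * s3 / 3)) (s2 * s3 / 6) (s2 * s3 / 6)
/-- second vector of the frame at the centre -/
def c2 : V3 := vec 0 (-(s2 / 2)) (s2 / 2)

/-- a representation of the rotation algebra with Casimir value `-lam` -/
structure SO3 (lam : ℂ) {M : Type*} [AddCommGroup M] [Module ℂ M]
    (L : V3 → Module.End ℂ M) : Prop where
  add : ∀ a b, L (a + b) = L a + L b
  smul : ∀ (c : ℂ) a, L (c • a) = c • L a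
  comm : ∀ a b, L a * L b = L b * L a - L (crs a b)
  cas : L (vec 1 0 0) * L (vec 1 0 0) + L (vec 0 1 0) * L (vec 0 1 0) +
    L (vec 0 0 1) * L (vec 0 0 1) = (-lam) • (1 : Module.End ℂ M)

/-- the quartic operator -/
def D4 {M : Type*} [AddCommGroup M] [Module ℂ M] (L : V3 → Module.End ℂ M) : Module.End ℂ M :=
  L (vec 1 0 0) ^ 4 + L (vec 0 1 0) ^ 4 + L (vec 0 0 1) ^ 4

section
variable {lam : ℂ} {M : Type*} [AddCommGroup M] [Module ℂ M] {L : V3 → Module.End ℂ M}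

lemma SO3.comb (hL : SO3 lam L) (x y z : ℂ) (a b c : V3) :
    L (x • a + y • b + z • c) = x • L a + y • L b + z • L c := by
  rw [hL.add, hL.add, hL.smul, hL.smul, hL.smul]

lemma SO3.vec_eq (hL : SO3 lam L) (x y z : ℂ) :
    L (vec x y z) = x • L (vec 1 0 0) + y • L (vec 0 1 0) + z • L (vec 0 0 1) := by
  rw [← hL.comb]; congr 1; apply v3_ext <;> simp

lemma SO3.cas' (hL : SO3 lam L) :
    L c1 * L c1 + L c2 * L c2 + L cc * L cc = (-lam) • (1 : Module.End ℂ M) := by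
  rw [← hL.cas, c1, c2, cc, hL.vec_eq (-(s2 * s3 / 3)), hL.vec_eq 0 (-(s2 / 2)),
    hL.vec_eq (s3 / 3)]
  have h2 := hs2
  have h3 := hs3
  simp only [mul_add, add_mul, smul_mul_assoc, mul_smul_comm]
  match_scalars <;> grind

lemma crs_c1_c2 : crs c1 c2 = cc := by
  have h2 := hs2
  have h3 := hs3
  apply v3_ext <;> simp [c1, c2, cc] <;> grind
lemma crs_c2_cc : crs c2 cc = c1 := by
  apply v3_ext <;> simp [c1, c2, cc] <;> ring
lemma crs_cc_c1 : crs cc c1 = c2 := by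
  have h2 := hs2
  have h3 := hs3
  apply v3_ext <;> simp [c1, c2, cc] <;> grind

/-- raising operator at the centre -/
def Pc (L : V3 → Module.End ℂ M) : Module.End ℂ M := (-I) • L c1 + L c2
/-- lowering operator at the centre -/
def Mc (L : V3 → Module.End ℂ M) : Module.End ℂ M := I • L c1 + L c2
/-- weight operator at the centre -/
def Hc (L : V3 → Module.End ℂ M) : Module.End ℂ M := (-I) • L cc

lemma SO3.PH (hL : SO3 lam L) : Pc L * Hc L = Hc L * Pc L - Pc L := by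
  have h1 := hL.comm c2 cc
  have h2 := hL.comm cc c1
  rw [crs_c2_cc] at h1
  rw [crs_cc_c1] at h2
  simp only [Pc, Hc, mul_add, add_mul, smul_mul_assoc, mul_smul_comm, h1, h2]
  have := I_sq
  match_scalars <;> grind

lemma SO3.MH (hL : SO3 lam L) : Mc L * Hc L = Hc L * Mc L + Mc L := by
  have h1 := hL.comm c2 cc
  have h2 := hL.comm cc c1
  rw [crs_c2_cc] at h1
  rw [crs_cc_c1] at h2
  simp only [Mc, Hc, mul_add, add_mul, smul_mul_assoc, mul_smul_comm, h1, h2]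
  have := I_sq
  match_scalars <;> grind

lemma SO3.MP (hL : SO3 lam L) :
    Mc L * Pc L = Hc L * Hc L + Hc L - lam • (1 : Module.End ℂ M) := by
  have h1 := hL.comm c1 c2
  rw [crs_c1_c2] at h1
  have h2 : L c1 * L c1 = (-lam) • (1 : Module.End ℂ M) - L c2 * L c2 - L cc * L cc := by
    rw [← hL.cas']; abel
  simp only [Mc, Pc, Hc, mul_add, add_mul, smul_mul_assoc, mul_smul_comm, h1, h2]
  have := I_sq
  match_scalars <;> grind

lemma SO3.PM (hL : SO3 lam L) :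
    Pc L * Mc L = Hc L * Hc L - Hc L - lam • (1 : Module.End ℂ M) := by
  have h1 := hL.comm c1 c2
  rw [crs_c1_c2] at h1
  have h2 : L c1 * L c1 = (-lam) • (1 : Module.End ℂ M) - L c2 * L c2 - L cc * L cc := by
    rw [← hL.cas']; abel
  simp only [Mc, Pc, Hc, mul_add, add_mul, smul_mul_assoc, mul_smul_comm, h1, h2]
  have := I_sq
  match_scalars <;> grind

lemma SO3.frame (hL : SO3 lam L) (p q t : ℂ) :
    L (p • c1 + q • c2 + t • cc) =
      (I / 2 * (p - I * q)) • Pc L + (I * t) • Hc L + (-I / 2 * (p + I * q)) • Mc L := by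
  rw [hL.comb]
  simp only [Mc, Pc, Hc]
  have := I_sq
  match_scalars <;> grind

/-- jets at the centre -/
def cj (L : V3 → Module.End ℂ M) (ℓ : M →ₗ[ℂ] ℂ) : M →ₗ[ℂ] (ℤ → ℂ) :=
  LinearMap.pi fun j => if 0 ≤ j then ℓ ∘ₗ (Mc L ^ j.toNat) else ℓ ∘ₗ (Pc L ^ (-j).toNat)

lemma cj_nat (ℓ : M →ₗ[ℂ] ℂ) (v : M) (n : ℕ) : cj L ℓ v n = ℓ ((Mc L ^ n) v) := by
  simp [cj]

lemma cj_neg (ℓ : M →ₗ[ℂ] ℂ) (v : M) (n : ℕ) : cj L ℓ v (-n) = ℓ ((Pc L ^ n) v) := by
  rcases n with _ | n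
  · simp [cj]
  · have : ¬ (0 : ℤ) ≤ -((n + 1 : ℕ) : ℤ) := by omega
    simp only [cj, LinearMap.pi_apply, this, if_false, neg_neg, Int.toNat_natCast]
    rfl

variable {ℓ : M →ₗ[ℂ] ℂ}

lemma SO3.MnH (hL : SO3 lam L) (hℓ : ∀ v, ℓ (L cc v) = 0) (n : ℕ) (v : M) :
    ℓ ((Mc L ^ n) (Hc L v)) = n * ℓ ((Mc L ^ n) v) := by
  induction n generalizing v with
  | zero => simp [Hc, hℓ]
  | succ n ih =>
    have := LinearMap.congr_fun hL.MH v
    simp only [Module.End.mul_apply, LinearMap.add_apply] at this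
    simp only [pow_succ, Module.End.mul_apply, this, map_add, ih]
    push_cast; ring

lemma SO3.PnH (hL : SO3 lam L) (hℓ : ∀ v, ℓ (L cc v) = 0) (n : ℕ) (v : M) :
    ℓ ((Pc L ^ n) (Hc L v)) = -n * ℓ ((Pc L ^ n) v) := by
  induction n generalizing v with
  | zero => simp [Hc, hℓ]
  | succ n ih =>
    have := LinearMap.congr_fun hL.PH v
    simp only [Module.End.mul_apply, LinearMap.sub_apply] at this
    simp only [pow_succ, Module.End.mul_apply, this, map_sub, ih]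
    push_cast; ring

/-- weights at the centre -/
def wC (j : ℤ) : ℂ := j
/-- raising coefficients at the centre -/
def uC (lam : ℂ) (j : ℤ) : ℂ := if 0 ≤ j then j * (j + 1) - lam else 1
/-- lowering coefficients at the centre -/
def vC (lam : ℂ) (j : ℤ) : ℂ := if 1 ≤ j then 1 else (j - 1) * j - lam

lemma SO3.cj_H (hL : SO3 lam L) (hℓ : ∀ v, ℓ (L cc v) = 0) (v : M) :
    cj L ℓ (Hc L v) = opD wC (cj L ℓ v) := by
  ext j
  obtain ⟨n, rfl | rfl⟩ := Int.eq_nat_or_neg j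
  · rw [opD_apply, cj_nat, cj_nat, hL.MnH hℓ]; simp [wC]
  · rw [opD_apply, cj_neg, cj_neg, hL.PnH hℓ]; simp [wC]

lemma SO3.cj_P (hL : SO3 lam L) (hℓ : ∀ v, ℓ (L cc v) = 0) (v : M) :
    cj L ℓ (Pc L v) = opU (uC lam) (cj L ℓ v) := by
  ext j
  rw [opU_apply]
  rcases le_or_gt 1 j with hj | hj
  · obtain ⟨n, rfl⟩ : ∃ n : ℕ, j = ((n + 1 : ℕ) : ℤ) := ⟨(j - 1).toNat, by omega⟩
    have e : ((n + 1 : ℕ) : ℤ) - 1 = n := by omega
    have := LinearMap.congr_fun hL.MP v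
    simp only [Module.End.mul_apply, LinearMap.add_apply, LinearMap.sub_apply,
      LinearMap.smul_apply, Module.End.one_apply] at this
    rw [e, cj_nat, cj_nat, pow_succ, Module.End.mul_apply, this]
    simp only [map_sub, map_add, map_smul, hL.MnH hℓ, uC, Nat.cast_nonneg, if_true, smul_eq_mul]
    push_cast; ring
  · obtain ⟨n, rfl⟩ : ∃ n : ℕ, j = -(n : ℤ) := ⟨(-j).toNat, by omega⟩
    have e : -(n : ℤ) - 1 = -((n + 1 : ℕ) : ℤ) := by omega
    have e2 : ¬ (0 : ℤ) ≤ -((n + 1 : ℕ) : ℤ) := by omega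
    rw [e, cj_neg, cj_neg, pow_succ, Module.End.mul_apply, uC, if_neg e2, one_mul]

lemma SO3.cj_M (hL : SO3 lam L) (hℓ : ∀ v, ℓ (L cc v) = 0) (v : M) :
    cj L ℓ (Mc L v) = opV (vC lam) (cj L ℓ v) := by
  ext j
  rw [opV_apply]
  rcases le_or_gt 0 j with hj | hj
  · obtain ⟨n, rfl⟩ : ∃ n : ℕ, j = (n : ℤ) := ⟨j.toNat, by omega⟩
    have e : (n : ℤ) + 1 = ((n + 1 : ℕ) : ℤ) := by omega
    have e2 : (1 : ℤ) ≤ ((n + 1 : ℕ) : ℤ) := by omega
    rw [e, cj_nat, cj_nat, pow_succ, Module.End.mul_apply, vC, if_pos e2, one_mul]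
  · obtain ⟨n, rfl⟩ : ∃ n : ℕ, j = -((n + 1 : ℕ) : ℤ) := ⟨(-j - 1).toNat, by omega⟩
    have e : -((n + 1 : ℕ) : ℤ) + 1 = -(n : ℤ) := by omega
    have e2 : ¬ (1 : ℤ) ≤ -(n : ℤ) := by omega
    have := LinearMap.congr_fun hL.PM v
    simp only [Module.End.mul_apply, LinearMap.sub_apply,
      LinearMap.smul_apply, Module.End.one_apply] at this
    rw [e, cj_neg, cj_neg, pow_succ, Module.End.mul_apply, this, vC, if_neg e2]
    simp only [map_sub, map_smul, hL.PnH hℓ, smul_eq_mul]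
    push_cast; ring

lemma SO3.cj_L (hL : SO3 lam L) (hℓ : ∀ v, ℓ (L cc v) = 0) (p q t : ℂ) (k : ℕ) (v : M) :
    cj L ℓ ((L (p • c1 + q • c2 + t • cc) ^ k) v) =
      (Lt wC (uC lam) (vC lam) (I / 2 * (p - I * q)) (I * t) (-I / 2 * (p + I * q)) ^ k)
        (cj L ℓ v) := by
  induction k with
  | zero => simp
  | succ k ih =>
    rw [pow_succ', pow_succ', Module.End.mul_apply, Module.End.mul_apply, ← ih]
    generalize (L (p • c1 + q • c2 + t • cc) ^ k) v = w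
    rw [hL.frame]
    simp only [LinearMap.add_apply, LinearMap.smul_apply, map_add, map_smul, hL.cj_H hℓ,
      hL.cj_P hℓ, hL.cj_M hℓ, Lt]

lemma uC_vC (lam : ℂ) (j : ℤ) : uC lam j * vC lam (j + 1) = wC j * (wC j + 1) - lam := by
  unfold uC vC wC
  by_cases h : 0 ≤ j
  · rw [if_pos h, if_pos (by omega)]; ring
  · rw [if_neg h, if_neg (by omega)]; push_cast; ring

lemma SO3.cj_rec (hL : SO3 lam L) (hℓ : ∀ v, ℓ (L cc v) = 0) (v : M) (j : ℤ) :
    cj L ℓ (D4 L v) j =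
      (lam ^ 2 / 2 + (lam - 5 / 6) * wC j ^ 2 - 7 / 6 * wC j ^ 4) * cj L ℓ v j +
      (-s2 / 12) * (4 * wC j - 6) * (uC lam (j - 1) * uC lam (j - 1 - 1) * uC lam (j - 1 - 1 - 1)) *
        cj L ℓ v (j - 1 - 1 - 1) +
      (s2 / 12) * (4 * wC j + 6) * (vC lam (j + 1) * vC lam (j + 1 + 1) * vC lam (j + 1 + 1 + 1)) *
        cj L ℓ v (j + 1 + 1 + 1) := by
  have h2 := hs2
  have h3 := hs3
  have hI := I_sq
  have e0 : vec 1 0 0 = (-(s2 * s3 / 3)) • c1 + (0 : ℂ) • c2 + (s3 / 3) • cc := by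
    apply v3_ext <;> simp [c1, c2, cc] <;> grind
  have e1 : vec 0 1 0 = (s2 * s3 / 6) • c1 + (-(s2 / 2)) • c2 + (s3 / 3) • cc := by
    apply v3_ext <;> simp [c1, c2, cc] <;> grind
  have e2 : vec 0 0 1 = (s2 * s3 / 6) • c1 + (s2 / 2) • c2 + (s3 / 3) • cc := by
    apply v3_ext <;> simp [c1, c2, cc] <;> grind
  rw [D4, e0, e1, e2, LinearMap.add_apply, LinearMap.add_apply, map_add, map_add,
    hL.cj_L hℓ, hL.cj_L hℓ, hL.cj_L hℓ, ← LinearMap.add_apply, ← LinearMap.add_apply]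
  refine td_formula (fun j => by simp [wC]) (uC_vC lam) ?_ ?_ ?_ ?_ ?_ ?_ ?_ ?_ ?_ ?_ ?_ ?_ ?_ ?_ ?_
    _ _ <;> grind

lemma s2_ne : s2 ≠ 0 := fun h => by have := hs2; rw [h] at this; norm_num at this

lemma SO3.cj_support (hL : SO3 lam L) (hℓ : ∀ v, ℓ (L cc v) = 0) {v : M} {h : ℂ}
    (hv : D4 L v = h • v) (a1 : ℓ (Pc L v) = 0) (a2 : ℓ (Mc L v) = 0)
    (a3 : ℓ (Pc L (Pc L v)) = 0) (a4 : ℓ (Mc L (Mc L v)) = 0) (j : ℤ) (hj : ¬ 3 ∣ j) :
    cj L ℓ v j = 0 := by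
  have key : ∀ n : ℕ, ∀ j : ℤ, -(n + 2) ≤ j → j ≤ n + 2 → ¬ 3 ∣ j → cj L ℓ v j = 0 := by
    intro n
    induction n with
    | zero =>
      intro j h1 h2 h3
      have : j = -((2 : ℕ) : ℤ) ∨ j = -((1 : ℕ) : ℤ) ∨ j = ((1 : ℕ) : ℤ) ∨ j = ((2 : ℕ) : ℤ) := by
        omega
      rcases this with rfl | rfl | rfl | rfl
      · rw [cj_neg]; simpa [pow_succ] using a3
      · rw [cj_neg]; simpa using a1
      · rw [cj_nat]; simpa using a2
      · rw [cj_nat]; simpa [pow_succ] using a4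
    | succ n ih =>
      intro j h1 h2 h3
      by_cases hj1 : j = n + 3
      · have r := hL.cj_rec hℓ v n
        rw [hv, map_smul, Pi.smul_apply, ih n (by omega) (by omega) (by omega),
          ih (n - 1 - 1 - 1) (by omega) (by omega) (by omega), vC, vC, vC, if_pos (by omega),
          if_pos (by omega), if_pos (by omega)] at r
        have e : (n : ℤ) + 1 + 1 + 1 = j := by omega
        rw [e] at r
        have hn : (4 * wC n + 6) ≠ 0 := by
          have : ((4 * n + 6 : ℕ) : ℂ) ≠ 0 := Nat.cast_ne_zero.2 (by omega)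
          simpa [wC] using this
        have := s2_ne
        simpa [hn, this] using r.symm
      by_cases hj2 : j = -(n + 3)
      · have r := hL.cj_rec hℓ v (-n)
        rw [hv, map_smul, Pi.smul_apply, ih (-n) (by omega) (by omega) (by omega),
          ih (-n + 1 + 1 + 1) (by omega) (by omega) (by omega), uC, uC, uC, if_neg (by omega),
          if_neg (by omega), if_neg (by omega)] at r
        have e : -(n : ℤ) - 1 - 1 - 1 = j := by omega
        rw [e] at r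
        have hn : (4 * wC (-n) - 6) ≠ 0 := by
          have : ((4 * n + 6 : ℕ) : ℂ) ≠ 0 := Nat.cast_ne_zero.2 (by omega)
          intro h0; apply this; simp only [wC] at h0; push_cast at h0 ⊢; linear_combination -h0
        have := s2_ne
        simpa [hn, this] using r.symm
      exact ih j (by omega) (by omega) h3
  exact key j.natAbs j (by omega) (by omega) hj

/-- a primitive cube root of unity -/
def om : ℂ := -1 / 2 + I * s3 / 2

lemma om_cube : om ^ 3 = 1 := by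
  have h3 := hs3
  have hI := I_sq
  unfold om; grind

lemma om_ne : om ≠ 0 := fun h => by have := om_cube; rw [h] at this; norm_num at this

lemma Lt_conj (w u v : ℤ → ℂ) (α γ : ℂ) (k : ℕ) {a : ℤ → ℂ} (ha : ∀ j, ¬ 3 ∣ j → a j = 0)
    (j : ℤ) : (Lt w u v (om * α) 0 (om ^ 2 * γ) ^ k) a j = om ^ j * (Lt w u v α 0 γ ^ k) a j := by
  induction k generalizing j with
  | zero =>
    simp only [pow_zero, Module.End.one_apply]
    by_cases h : 3 ∣ j
    · obtain ⟨i, rfl⟩ := h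
      rw [zpow_mul]
      have : om ^ (3 : ℤ) = 1 := by exact_mod_cast om_cube
      simp [this]
    · simp [ha j h]
  | succ k ih =>
    rw [pow_succ' (Lt w u v α 0 γ), pow_succ' (Lt w u v _ 0 _), Module.End.mul_apply,
      Module.End.mul_apply, Lt_apply, Lt_apply, ih, ih, ih, zpow_sub_one₀ om_ne, zpow_add_one₀ om_ne]
    have h0 := om_ne
    field_simp
    linear_combination (γ * v (j + 1) * (Lt w u v α 0 γ ^ k) a (j + 1)) * om_cube

/-- all jets at the centre in tangent directions are invariant under the cyclic rotation -/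
theorem SO3.jets_cyc (hL : SO3 lam L) (hℓ : ∀ v, ℓ (L cc v) = 0) {v : M} {h : ℂ}
    (hv : D4 L v = h • v) (a1 : ℓ (Pc L v) = 0) (a2 : ℓ (Mc L v) = 0)
    (a3 : ℓ (Pc L (Pc L v)) = 0) (a4 : ℓ (Mc L (Mc L v)) = 0) {n : V3} (hn : n 0 + n 1 + n 2 = 0)
    (k : ℕ) : ℓ ((L (cyc n) ^ k) v) = ℓ ((L n ^ k) v) := by
  have h2 := hs2
  have h3 := hs3
  have hI := I_sq
  set p := s2 * s3 / 6 * (-2 * n 0 + n 1 + n 2) with hp
  set q := s2 / 2 * (n 2 - n 1) with hq
  have e1 : n = p • c1 + q • c2 + (0 : ℂ) • cc := by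
    apply v3_ext <;> simp [c1, c2] <;> grind
  have e2 : cyc n = (-p / 2 + s3 * q / 2) • c1 + (-s3 * p / 2 - q / 2) • c2 + (0 : ℂ) • cc := by
    apply v3_ext <;> simp [c1, c2, cyc] <;> grind
  have r1 := congrFun (hL.cj_L hℓ p q 0 k v) ((0 : ℕ) : ℤ)
  have r2 := congrFun (hL.cj_L hℓ (-p / 2 + s3 * q / 2) (-s3 * p / 2 - q / 2) 0 k v) ((0 : ℕ) : ℤ)
  rw [← e1, cj_nat] at r1
  rw [← e2, cj_nat] at r2
  have f1 : I / 2 * (-p / 2 + s3 * q / 2 - I * (-s3 * p / 2 - q / 2)) =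
      om * (I / 2 * (p - I * q)) := by unfold om; grind
  have f2 : -I / 2 * (-p / 2 + s3 * q / 2 + I * (-s3 * p / 2 - q / 2)) =
      om ^ 2 * (-I / 2 * (p + I * q)) := by unfold om; grind
  rw [f1, f2, mul_zero, Lt_conj _ _ _ _ _ _ (hL.cj_support hℓ hv a1 a2 a3 a4)] at r2
  rw [mul_zero] at r1
  simp only [pow_zero, Module.End.one_apply] at r1 r2
  rw [r1, r2]; simp

end

end Pool.Agent.MP_c4844d_an
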