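import Pool.Agent.MP_c4844d_an.Defs

/-!
The explicit system of equations in the two unknowns `lam` and `h`.
-/

noncomputable section

namespace Pool.Agent.MP_c4844d_an

/-- The exponent 3k + 3/2 of the k-th symmetric Dirichlet mode at a vertex of angle 2π/3. -/
def ex (k : ℕ) : ℝ := 3 * k + 3 / 2

/-- The three-term recurrence with parameters `lam` and `h`, where m = 3k + 3/2.
For k = 0 the last coefficient vanishes because 2m - 3 = 0. -/
def Rec (lam h : ℝ) (β : ℕ → ℝ) : Prop :=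
  ∀ k : ℕ,
    4 * (2 * ex k + 3) * (ex k + 1) * (ex k + 2) * (ex k + 3) * β (k + 1) +
      (3 * lam ^ 2 + (6 * lam - 5) * ex k ^ 2 - 7 * ex k ^ 4 - 6 * h) * β k +
      (2 * ex k - 3) * (lam - (ex k - 3) * (ex k - 2)) * (lam - (ex k - 2) * (ex k - 1)) *
        (lam - (ex k - 1) * ex k) / (2 * ex k * (ex k - 1) * (ex k - 2)) * β (k - 1) = 0

/-- The system: for some `h`, the solution of the recurrence with first term 1 decays
geometrically and satisfies two series equations. -/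
def Sol (lam : ℝ) : Prop :=
  ∃ (h : ℝ) (β : ℕ → ℝ), β 0 = 1 ∧ Rec lam h β ∧
    (∃ R C : ℝ, 1 < R ∧ ∀ k, |β k| * R ^ k ≤ C) ∧
    HasSum (fun k => β k * ex k * (4 * hyp lam (ex k - 1) (1 / 3) - hyp lam (ex k) (1 / 3))) 0 ∧
    HasSum (fun k => β k * (ex k ^ 2 - 4 * lam / 9) * hyp lam (ex k) (1 / 3)) 0

end Pool.Agent.MP_c4844d_an
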