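import Pool.Agent.MP_c4844d_an.Cont
import Pool.Agent.MP_c4844d_an.Sol

noncomputable section

open Filter Topology Real Set

namespace Pool.Agent.MP_c4844d_an

/-- direction of the vertex -/
def tv : V3 := vec (-1) 1 1

section
variable {lam : ℂ} {M : Type*} [AddCommGroup M] [Module ℂ M] {L : V3 → Module.End ℂ M}

lemma SO3.tet (hL : SO3 lam L) :
    L tv * L tv + L (cyc tv) * L (cyc tv) + L (cyc (cyc tv)) * L (cyc (cyc tv)) +
      (3 : ℂ) • (L cc * L cc) = (-4 * lam) • (1 : Module.End ℂ M) := by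
  have e : (-4 * lam) • (1 : Module.End ℂ M) = (4 : ℂ) • ((-lam) • (1 : Module.End ℂ M)) := by
    rw [smul_smul]; congr 1; ring
  have e1 : cyc tv = vec 1 1 (-1) := rfl
  have e2 : cyc (vec 1 1 (-1)) = vec 1 (-1) 1 := rfl
  rw [e, ← hL.cas, e1, e2, tv, cc, hL.vec_eq (-1), hL.vec_eq 1 1, hL.vec_eq 1 (-1),
    hL.vec_eq (s3 / 3)]
  have h3 := hs3
  simp only [mul_add, add_mul, smul_mul_assoc, mul_smul_comm]
  match_scalars <;> grind

lemma SO3.tri (hL : SO3 lam L) : L c2 + L (cyc c2) + L (cyc (cyc c2)) = 0 := by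
  rw [← hL.add, ← hL.add, ← zero_smul ℂ (L 0), ← hL.smul]
  congr 1
  apply v3_ext <;> simp [cyc, c2]

lemma SO3.jets (hL : SO3 lam L) {ℓ : M →ₗ[ℂ] ℂ} (hℓ : ∀ v, ℓ (L cc v) = 0) {v : M} {h : ℂ}
    (hv : D4 L v = h • v) (z1 : ℓ (L c1 v) = 0) (z2 : ℓ (L c2 v) = 0)
    (z12 : ℓ (L c1 (L c2 v)) = 0) (z21 : ℓ (L c2 (L c1 v)) = 0)
    (z3 : ℓ (L tv (L tv v)) = -(4 * lam / 3) * ℓ v) {n : V3} (hn : n 0 + n 1 + n 2 = 0) (k : ℕ) :
    ℓ ((L (cyc n) ^ k) v) = ℓ ((L n ^ k) v) := by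
  have h2 := hs2
  have h3 := hs3
  have hI := Complex.I_sq
  have e : tv = (2 * s2 * s3 / 3) • c1 + (s3 / 3) • cc := by
    apply v3_ext <;> simp [tv, c1, cc] <;> grind
  have a := congrArg ℓ (LinearMap.congr_fun (hL.comm cc c1) v)
  have b := congrArg ℓ (LinearMap.congr_fun hL.cas' v)
  rw [crs_cc_c1] at a
  rw [e, hL.add, hL.smul, hL.smul] at z3
  simp only [Module.End.mul_apply, LinearMap.sub_apply, LinearMap.add_apply, LinearMap.smul_apply,
    Module.End.one_apply, map_sub, map_add, map_smul, smul_eq_mul, hℓ, z2] at a b z3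
  have q : ℓ (L c2 (L c2 v)) = ℓ (L c1 (L c1 v)) := by grind
  refine hL.jets_cyc hℓ hv ?_ ?_ ?_ ?_ hn k <;>
    simp only [Pc, Mc, LinearMap.add_apply, LinearMap.smul_apply, map_add, map_smul, smul_eq_mul,
      z1, z2, z12, z21, q] <;> grind

end

/-- the centre in the two variables -/
def p0 : ℂ × ℂ := (((r2 / 2 : ℝ) : ℂ), ((1 / 3 : ℝ) : ℂ))

lemma zs_cc : zs cc = p0 := by
  have h2 := hs2
  have h3 := hs3
  have e1 : f1 cc = 2 * s2 / 3 := by simp only [f1, cc, vec0, vec1, vec2]; grind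
  have e2 : f2 cc = 0 := by simp [f2, cc]
  have e3 : f3 cc = 1 / 3 := by simp only [f3, cc, vec0, vec1, vec2]; grind
  rw [zs, e1, e2, e3, p0, s2_eq]
  push_cast
  congr 1 <;> ring

lemma Rad.p0_mem {r : ℝ} (hr : Rad r) : p0 ∈ Dom r := zs_cc ▸ hr.cc_mem.1

lemma Ev_cc (lam : ℝ) {r : ℝ} (hr : Rad r) (v : GP r) :
    Ev lam v cc = Phi lam ((v.1 : ℤ → ℂ) + v.2) p0 := by
  have : sw cc = cc := rfl
  rw [Ev, this, ev, ev, zs_cc, Phi_add lam hr.le v.1.2 v.2.2 hr.p0_mem]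

lemma mir_c1 : mir c1 = (-1 : ℂ) • c1 := by apply v3_ext <;> simp [mir, sw, c1]
lemma mir_c2 : mir c2 = c2 := by apply v3_ext <;> simp [mir, sw, c2]
lemma mir_tv : mir tv = (-1 : ℂ) • tv := by apply v3_ext <;> simp [mir, sw, tv]

lemma Lv_neg (lam : ℝ) (n : V3) : Lv lam (-n) = -Lv lam n := by
  rw [← neg_one_smul ℂ n, (so3_Lv lam).smul]
  exact neg_one_smul ℂ (Lv lam n)

lemma Phi_zero (lam : ℝ) (p : ℂ × ℂ) : Phi lam 0 p = 0 := by simp [Phi]

/-- the common factor -/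
def qq : ℝ := (r2 / 2) ^ (1 / 2 : ℝ)

lemma qq_pos : 0 < qq := rpow_pos_of_pos (by have := r2_pos; positivity) _

lemma ex_eq (k : ℕ) : mu (jx k) = ex k := mu_jx k

lemma md_p0 (lam : ℝ) (j : ℤ) :
    md lam j p0 = (((r2 / 2) ^ mu j * hyp lam (mu j) (1 / 3) : ℝ) : ℂ) := by
  have := r2_pos
  rw [md, p0, hypC_ofReal, muC, ← Complex.ofReal_cpow (by positivity), Complex.ofReal_mul]

lemma pw_low (k : ℕ) : (2 * r2) ^ k * (r2 / 2) ^ (ex k - 1) = qq := by
  have := r2_pos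
  have h2 := hr2
  have e : ex k - 1 = ((3 * k : ℕ) : ℝ) + 1 / 2 := by rw [ex]; push_cast; ring
  have e2 : 2 * r2 * (r2 / 2) ^ 3 = 1 := by grind
  rw [e, rpow_add (by positivity), rpow_natCast, pow_mul, ← mul_assoc, ← mul_pow, e2, one_pow,
    one_mul, qq]

lemma pw_up (k : ℕ) : (2 * r2) ^ k * (r2 / 2) ^ ex k = qq * (r2 / 2) := by
  have := r2_pos
  rw [← pw_low k, mul_assoc, ← rpow_add_one (by positivity), sub_add_cancel]

section
variable (lam : ℝ) {r c : ℝ} (hr : Rad r) {b β : ℕ → ℝ} (hb : Gr r b)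
include hr

lemma Ev_z1 : Ev lam (LL lam r c1 (pr hb)) cc = 0 := by
  rw [Ev_cc lam hr, ← Phi_zero lam p0]
  simp [LL_apply, pr, mir_c1, Lv_neg]

lemma Ev_z12 : Ev lam (LL lam r c1 (LL lam r c2 (pr hb))) cc = 0 := by
  rw [Ev_cc lam hr, ← Phi_zero lam p0]
  simp [LL_apply, pr, mir_c1, mir_c2, Lv_neg]

lemma Ev_z21 : Ev lam (LL lam r c2 (LL lam r c1 (pr hb))) cc = 0 := by
  rw [Ev_cc lam hr, ← Phi_zero lam p0]
  simp [LL_apply, pr, mir_c1, mir_c2, Lv_neg]

variable (e : ∀ k, b k = c * β k * (2 * r2) ^ k)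
include e

lemma hasSum_c2 : HasSum (fun k => ((-(c * qq / 2) *
    (β k * ex k * (4 * hyp lam (ex k - 1) (1 / 3) - hyp lam (ex k) (1 / 3))) : ℝ) : ℂ))
    (Ev lam (LL lam r c2 (pr hb)) cc) := by
  have h2 := hs2
  have hI := Complex.I_sq
  have g := hb.good
  have e1 : ((LL lam r c2 (pr hb)).1 : ℤ → ℂ) + (LL lam r c2 (pr hb)).2 =
      (-1 : ℂ) • (Ap lam (sqn b) + Am (sqn b)) := by
    have a1 : al c2 = -1 / 2 := by simp only [al, f1, f2, c2, vec0, vec1, vec2]; grind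
    have a2 : be c2 = 0 := by simp [be, f3, c2]
    have a3 : ga c2 = -1 / 2 := by simp only [ga, f1, f2, c2, vec0, vec1, vec2]; grind
    funext j
    simp [LL_apply, pr, mir_c2, Lv, Lt_apply, a1, a2, a3, Ap, Am]
    ring
  have t := Phi_three lam hr.le g hr.p0_mem
  have e2 : Ev lam (LL lam r c2 (pr hb)) cc =
      -2 * Phi lam (Am (sqn b)) p0 + s2 / 2 * Phi lam (A3 (sqn b)) p0 := by
    rw [Ev_cc lam hr, e1, Phi_smul, Phi_add lam hr.le (good_Ap lam g) (good_Am g) hr.p0_mem]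
    have := s2_ne
    have e3 : p0.1 = s2 / 2 := by simp [p0, s2_eq]
    have e4 : p0.2 = 1 / 3 := by simp [p0]
    rw [e3, e4] at t
    field_simp at t
    grind
  rw [e2]
  refine hs_congr (((hasSum_sqn (hasSum_Am lam hr.le g hr.p0_mem)).mul_left (-2)).add
    ((hasSum_sqn (hasSum_A3 lam hr.le g hr.p0_mem)).mul_left (s2 / 2))) fun k => ?_
  have u1 := pw_low k
  have u2 := pw_up k
  have u3 := hr2
  simp only [md_p0, muC, mu_sub_one, ex_eq, s2_eq, e]
  norm_cast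
  push_cast
  linear_combination (2 * c * β k * ex k * hyp lam (ex k - 1) (1 / 3)) * u1 -
    (r2 / 2 * c * β k * ex k * hyp lam (ex k) (1 / 3)) * u2 -
    (c * qq * β k * ex k * hyp lam (ex k) (1 / 3) / 4) * u3

lemma hasSum_c3 : HasSum (fun k => ((-(3 * c * qq * r2) *
    (β k * (ex k ^ 2 - 4 * lam / 9) * hyp lam (ex k) (1 / 3)) : ℝ) : ℂ))
    (Ev lam (LL lam r tv (LL lam r tv (pr hb))) cc + 4 * lam / 3 * Ev lam (pr hb) cc) := by
  have h3 := hs3
  have hI := Complex.I_sq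
  have g := hb.good
  have e1 : ((LL lam r tv (LL lam r tv (pr hb))).1 : ℤ → ℂ) +
      (LL lam r tv (LL lam r tv (pr hb))).2 = (-6 : ℂ) • A3 (A3 (sqn b)) := by
    have a1 : al tv = 0 := by simp [al, f1, f2, tv]; norm_num
    have a2 : be tv = Complex.I * s3 := by simp only [be, f3, tv, vec0, vec1, vec2]; ring
    have a3 : ga tv = 0 := by simp [ga, f1, f2, tv]; norm_num
    funext j
    simp only [LL_apply, pr, mir_tv, LG_coe, (so3_Lv lam).smul, LinearMap.smul_apply, map_smul]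
    simp [Lv, Lt_apply, a1, a2, a3, A3]
    grind
  have e2 : ((pr hb).1 : ℤ → ℂ) + (pr hb).2 = (2 : ℂ) • sqn b := (two_smul ℂ _).symm
  have S : HasSum (fun j => sqn b j * (muC j * (muC j * md lam j p0)))
      (Phi lam (A3 (A3 (sqn b))) p0) :=
    hs_congr (hasSum_A3 lam hr.le (good_A3 g) hr.p0_mem) fun j => by simp [A3]; ring
  rw [Ev_cc lam hr, Ev_cc lam hr, e1, e2, Phi_smul, Phi_smul]
  refine hs_congr (((hasSum_sqn S).mul_left (-6)).add
    (((hasSum_sqn (hasSum_Phi lam hr.le g hr.p0_mem)).mul_left 2).mul_left (4 * (lam : ℂ) / 3)))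
    fun k => ?_
  have u2 := pw_up k
  simp only [md_p0, muC, ex_eq, e]
  norm_cast
  push_cast
  linear_combination (6 * c * β k * (ex k ^ 2 - 4 * lam / 9) * hyp lam (ex k) (1 / 3)) * u2

end

lemma rec_iff {lam h c : ℝ} (hc : c ≠ 0) {b β : ℕ → ℝ} (e : ∀ k, b k = c * β k * (2 * r2) ^ k) :
    (∀ k, d4 lam b k = h * b k) ↔ Rec lam h β := by
  refine forall_congr' fun k => ?_
  have h2 := hr2
  have p := r2_pos
  have m0 : ex k ≠ 0 := ex_eq k ▸ mu_ne (jx k)
  have m1 : ex k - 1 ≠ 0 := by have := mu_ne (jx k - 1); rwa [mu_sub_one, ex_eq] at this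
  have m2 : ex k - 2 ≠ 0 := by
    have := mu_ne (jx k - 1 - 1)
    rw [mu_sub_one, mu_sub_one, ex_eq] at this
    intro z; apply this; linarith
  have low : (4 * ex k - 6) * (2 * r2 * b (k - 1)) =
      (4 * ex k - 6) * (c * β (k - 1) * (2 * r2) ^ k) := by
    rcases k with _ | k
    · have : 4 * ex 0 - 6 = 0 := by simp [ex]; norm_num
      rw [this, zero_mul, zero_mul]
    · rw [Nat.add_sub_cancel, e, pow_succ]; ring
  have q1 : pc lam (jx k - 1) = -(lam - (ex k - 1) * ex k) / ex k := by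
    rw [pc, mu_sub_one, ex_eq]; congr 1 <;> ring
  have q2 : pc lam (jx k - 1 - 1) = -(lam - (ex k - 2) * (ex k - 1)) / (ex k - 1) := by
    rw [pc, mu_sub_one, mu_sub_one, ex_eq]; congr 1 <;> ring
  have q3 : pc lam (jx k - 1 - 1 - 1) = -(lam - (ex k - 3) * (ex k - 2)) / (ex k - 2) := by
    rw [pc, mu_sub_one, mu_sub_one, mu_sub_one, ex_eq]; congr 1 <;> ring
  set P := (lam - (ex k - 3) * (ex k - 2)) * (lam - (ex k - 2) * (ex k - 1)) *
    (lam - (ex k - 1) * ex k) / (ex k * (ex k - 1) * (ex k - 2)) with hP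
  have q : pc lam (jx k - 1) * pc lam (jx k - 1 - 1) * pc lam (jx k - 1 - 1 - 1) = -P := by
    rw [q1, q2, q3, hP]; field_simp
  have q' : (2 * ex k - 3) * (lam - (ex k - 3) * (ex k - 2)) * (lam - (ex k - 2) * (ex k - 1)) *
      (lam - (ex k - 1) * ex k) / (2 * ex k * (ex k - 1) * (ex k - 2)) =
      (2 * ex k - 3) / 2 * P := by
    rw [hP]; field_simp
  have key : 6 * (d4 lam b k - h * b k) = c * (2 * r2) ^ k *
      (4 * (2 * ex k + 3) * (ex k + 1) * (ex k + 2) * (ex k + 3) * β (k + 1) +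
      (3 * lam ^ 2 + (6 * lam - 5) * ex k ^ 2 - 7 * ex k ^ 4 - 6 * h) * β k +
      (2 * ex k - 3) / 2 * P * β (k - 1)) := by
    rw [d4, q, e k, e (k + 1), pow_succ (2 * r2)]
    simp only [mu_add_one, ex_eq]
    linear_combination (P / 4) * low +
      ((4 * ex k + 6) * (ex k + 1) * (ex k + 2) * (ex k + 3) * c * β (k + 1) * (2 * r2) ^ k) * h2
  have n : c * (2 * r2) ^ k ≠ 0 := mul_ne_zero hc (by positivity)
  rw [q']
  constructor
  · intro z
    rw [z, sub_self, mul_zero] at key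
    exact (mul_eq_zero.1 key.symm).resolve_left n
  · intro z
    rw [z, mul_zero] at key
    linarith

/-- every solution of the system bounds the first eigenvalue from above -/
theorem Sol.lam1_le {lam : ℝ} (H : Sol lam) : lam1 ≤ lam := by
  obtain ⟨h, β, β0, hrec, ⟨R, C, hR, hC⟩, S2, S3⟩ := H
  have h2 := hr2
  have p := r2_pos
  set t := min ((R - 1) / 7) (1 / 20) with ht
  have t0 : 0 < t := lt_min (by linarith) (by norm_num)
  have t1 : t ≤ (R - 1) / 7 := min_le_left _ _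
  have t2 : t ≤ 1 / 20 := min_le_right _ _
  have r15 : r2 ≤ 3 / 2 := by nlinarith
  have hr : Rad ((1 + t) * (r2 / 2)) :=
    ⟨by positivity, by nlinarith, by rw [mul_pow, div_pow, h2]; nlinarith⟩
  let b : ℕ → ℝ := fun k => 1 * β k * (2 * r2) ^ k
  have e : ∀ k, b k = 1 * β k * (2 * r2) ^ k := fun _ => rfl
  have hb : Gr ((1 + t) * (r2 / 2)) b := gr_of_bound (C := C) fun k => by
    have e2 : 2 * r2 * ((1 + t) * (r2 / 2)) ^ 3 = (1 + t) ^ 3 := by grind
    have e3 : (1 + t) ^ 3 ≤ R := by nlinarith [mul_pos t0 t0]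
    refine le_trans ?_ (hC k)
    rw [e, one_mul, abs_mul, abs_of_pos (show 0 < (2 * r2) ^ k by positivity), pow_succ, pow_mul,
      mul_assoc,
      ← mul_assoc ((2 * r2) ^ k), ← mul_pow, e2]
    refine mul_le_mul_of_nonneg_left ((mul_le_of_le_one_right (by positivity) hr.le).trans
      (pow_le_pow_left₀ (by positivity) e3 k)) (abs_nonneg _)
  refine Compat.lam1_le hr hb (compat_of_jets hr fun n hn k => ?_) (by simp [e, β0])
  have z2 := (hasSum_c2 lam hr hb e).unique (Complex.hasSum_ofReal.2 (S2.mul_left _))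
  have z3 := (hasSum_c3 lam hr hb e).unique (Complex.hasSum_ofReal.2 (S3.mul_left _))
  simp only [mul_zero, Complex.ofReal_zero] at z2 z3
  exact (so3_LL lam _).jets (ℓ := evL lam hr.le hr.cc_mem)
    (fun v => Ev_LL_self lam hr.le v hr.cc_mem (by rw [← emb_cE, sq3_emb, cE_mem.2]; simp))
    (D4_eig hb ((rec_iff one_ne_zero e).2 hrec)) (Ev_z1 lam hr hb) z2 (Ev_z12 lam hr hb)
    (Ev_z21 lam hr hb) (by rw [evL_apply, evL_apply]; linear_combination z3) hn k

lemma compat_jet {lam r : ℝ} (hr : Rad r) {v : GP r} (h : Compat lam v) (n : E3) (k : ℕ) :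
    (Ev lam ((LL lam r (cyc (emb n)) ^ k) v) cc).re = (Ev lam ((LL lam r (emb n) ^ k) v) cc).re := by
  have a := (rotD_iter_congr (n := n) k (h.ev hr.cE_mem (cyc_cE ▸ hr.cE_mem))).eq_of_nhds
  rw [rotD_iter_cyc] at a
  simp only [cyc_cE] at a
  rwa [rotD_iter_U lam hr.le _ _ _ (hr.sub hr.cE_mem), rotD_iter_U lam hr.le _ _ _
    (hr.sub hr.cE_mem), U, U, nrm_of_norm cE_mem.2, emb_cE, emb_cyc] at a

/-- the first eigenvalue solves the system -/
theorem sol_lam1 : Sol lam1 := by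
  obtain ⟨b, hb, h, b0, ⟨C, hC⟩, cp, hrec, -⟩ := ground
  have h2 := hr2
  have p := r2_pos
  have q := qq_pos
  have hr := rad73
  let β : ℕ → ℝ := fun k => b k / (b 0 * (2 * r2) ^ k)
  have e : ∀ k, b k = b 0 * β k * (2 * r2) ^ k := fun k => by simp only [β]; field_simp
  refine ⟨h, β, by simp [β, b0], (rec_iff b0 e).1 hrec,
    ⟨2 * r2 * (73 / 100) ^ 3, C / (|b 0| * (73 / 100)), by nlinarith, fun k => ?_⟩, ?_, ?_⟩
  · have := hC k
    rw [e k, abs_mul, abs_mul, abs_of_pos (show 0 < (2 * r2) ^ k by positivity), pow_succ,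
      pow_mul] at this
    rw [le_div_iff₀ (by positivity), mul_pow]
    linarith
  · have S := Complex.hasSum_re (hasSum_c2 lam1 hr hb e)
    have e2 : c2 = emb (vE 0 (-(r2 / 2)) (r2 / 2)) := by apply v3_ext <;> simp [c2, s2_eq]
    have j1 := compat_jet hr cp (vE 0 (-(r2 / 2)) (r2 / 2)) 1
    have j2 := compat_jet hr cp (cycE (vE 0 (-(r2 / 2)) (r2 / 2))) 1
    rw [emb_cyc] at j2
    rw [← e2, pow_one, pow_one] at j1 j2
    have t := congrArg (fun w => (evL lam1 hr.le hr.cc_mem w).re)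
      (LinearMap.congr_fun (so3_LL lam1 _).tri (pr hb))
    simp only [LinearMap.add_apply, map_add, LinearMap.zero_apply, map_zero, Complex.add_re,
      Complex.zero_re, evL_apply] at t
    have z : (Ev lam1 (LL lam1 _ c2 (pr hb)) cc).re = 0 := by linarith
    simp only [Complex.ofReal_re, z] at S
    have := S.mul_left (-(b 0 * qq / 2))⁻¹
    rw [mul_zero] at this
    exact hs_congr this fun k => by field_simp
  · have S := Complex.hasSum_re (hasSum_c3 lam1 hr hb e)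
    have e2 : tv = emb (vE (-1) 1 1) := by apply v3_ext <;> simp [tv]
    have j1 := compat_jet hr cp (vE (-1) 1 1) 2
    have j2 := compat_jet hr cp (cycE (vE (-1) 1 1)) 2
    rw [emb_cyc] at j2
    rw [← e2, sq, sq, Module.End.mul_apply, Module.End.mul_apply] at j1 j2
    have t := congrArg (fun w => (evL lam1 hr.le hr.cc_mem w).re)
      (LinearMap.congr_fun (so3_LL lam1 _).tet (pr hb))
    have z0 := Ev_LL_self lam1 hr.le (LL lam1 _ cc (pr hb)) hr.cc_mem
      (by rw [← emb_cE, sq3_emb, cE_mem.2]; simp)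
    simp only [LinearMap.add_apply, map_add, LinearMap.smul_apply, map_smul, Module.End.mul_apply,
      Module.End.one_apply, Complex.add_re, evL_apply, z0, smul_eq_mul, mul_zero,
      Complex.zero_re] at t
    have z : (Ev lam1 (LL lam1 _ tv (LL lam1 _ tv (pr hb))) cc +
        4 * lam1 / 3 * Ev lam1 (pr hb) cc).re = 0 := by
      have a : (-4 * (lam1 : ℂ)) = ((-4 * lam1 : ℝ) : ℂ) := by push_cast; ring
      have a' : (4 * (lam1 : ℂ) / 3) = ((4 * lam1 / 3 : ℝ) : ℂ) := by push_cast; ring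
      rw [a, Complex.re_ofReal_mul] at t
      rw [a', Complex.add_re, Complex.re_ofReal_mul]
      linarith
    simp only [Complex.ofReal_re, z] at S
    have := S.mul_left (-(3 * b 0 * qq * r2))⁻¹
    rw [mul_zero] at this
    exact hs_congr this fun k => by field_simp

end Pool.Agent.MP_c4844d_an
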