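import Mathlib.RingTheory.SimpleRing.Principal
import Pool.Agent.MP_c4844d_an.Alg

noncomputable section

open Complex Filter Topology

namespace Pool.Agent.MP_c4844d_an

/-- first coordinate in the frame at the vertex (-1,1,1) -/
def f1 (x : V3) : ℂ := s2 * s3 / 6 * (2 * x 0 + x 1 + x 2)
/-- second coordinate in the frame at the vertex -/
def f2 (x : V3) : ℂ := s2 / 2 * (x 1 - x 2)
/-- third coordinate in the frame at the vertex -/
def f3 (x : V3) : ℂ := s3 / 3 * (-x 0 + x 1 + x 2)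
/-- bilinear square -/
def sq3 (x : V3) : ℂ := x 0 ^ 2 + x 1 ^ 2 + x 2 ^ 2

lemma frame_sq (x : V3) : f1 x ^ 2 + f2 x ^ 2 + f3 x ^ 2 = sq3 x := by
  have h2 := hs2
  have h3 := hs3
  unfold f1 f2 f3 sq3; grind

lemma f1_crs (n x : V3) : f1 (crs n x) = f2 n * f3 x - f3 n * f2 x := by
  simp only [f1, f2, f3, crs0, crs1, crs2]; ring
lemma f2_crs (n x : V3) : f2 (crs n x) = f3 n * f1 x - f1 n * f3 x := by
  have h3 := hs3
  simp only [f1, f2, f3, crs1, crs2]; grind
lemma f3_crs (n x : V3) : f3 (crs n x) = f1 n * f2 x - f2 n * f1 x := by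
  have h2 := hs2
  simp only [f1, f2, f3, crs0, crs1, crs2]; grind

/-- raising component -/
def al (n : V3) : ℂ := I / 2 * (f1 n - I * f2 n)
/-- weight component -/
def be (n : V3) : ℂ := I * f3 n
/-- lowering component -/
def ga (n : V3) : ℂ := -I / 2 * (f1 n + I * f2 n)

/-- rotation generator acting on coefficient sequences -/
def Lv (lam : ℝ) (n : V3) : Module.End ℂ (ℤ → ℂ) := Lt muC (pcC lam) muC (al n) (be n) (ga n)

lemma pc_mu (lam : ℝ) (j : ℤ) : pcC lam j * muC (j + 1) = muC j * (muC j + 1) - lam := by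
  have := mu_one_ne j
  have e : pc lam j * mu (j + 1) = mu j * (mu j + 1) - lam := by
    rw [mu_add_one, pc]; field_simp
  simp only [pcC, muC]; exact_mod_cast e

lemma so3_Lv (lam : ℝ) : SO3 (lam : ℂ) (Lv lam) where
  add a b := by
    ext v j; simp only [Lv, Lt_apply, LinearMap.add_apply, Pi.add_apply, al, be, ga, f1, f2, f3]
    ring
  smul c a := by
    ext v j
    simp only [Lv, Lt_apply, LinearMap.smul_apply, Pi.smul_apply, al, be, ga, f1, f2, f3,
      smul_eq_mul]
    ring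
  comm a b := by
    refine LinearMap.ext fun v => funext fun j => ?_
    have g0 := pc_mu lam j
    have g1 := pc_mu lam (j - 1)
    have hI := I_sq
    simp only [sub_add_cancel, muC_sub_one] at g1
    simp only [Lv, Lt_apply, LinearMap.sub_apply, Pi.sub_apply, Module.End.mul_apply, al, be, ga,
      f1_crs, f2_crs, f3_crs, sub_add_cancel, add_sub_cancel_right, muC_sub_one]
    rw [muC_add_one] at g0
    simp only [muC_add_one]
    grind
  cas := by
    refine LinearMap.ext fun v => funext fun j => ?_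
    have g0 := pc_mu lam j
    have g1 := pc_mu lam (j - 1)
    have hI := I_sq
    have h2 := hs2
    have h3 := hs3
    simp only [sub_add_cancel, muC_sub_one] at g1
    simp only [Lv, Lt_apply, LinearMap.add_apply, Pi.add_apply, Module.End.mul_apply, al, be, ga,
      f1, f2, f3, vec0, vec1, vec2, sub_add_cancel, add_sub_cancel_right, muC_sub_one,
      LinearMap.smul_apply, Module.End.one_apply, Pi.smul_apply, smul_eq_mul]
    rw [muC_add_one] at g0
    simp only [muC_add_one]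
    grind

lemma D4_Lv (lam : ℝ) (a : ℤ → ℂ) (j : ℤ) :
    D4 (Lv lam) a j =
      (lam ^ 2 / 2 + (lam - 5 / 6) * muC j ^ 2 - 7 / 6 * muC j ^ 4) * a j +
      (-s2 / 12) * (4 * muC j - 6) *
        (pcC lam (j - 1) * pcC lam (j - 1 - 1) * pcC lam (j - 1 - 1 - 1)) * a (j - 1 - 1 - 1) +
      (s2 / 12) * (4 * muC j + 6) * (muC (j + 1) * muC (j + 1 + 1) * muC (j + 1 + 1 + 1)) *
        a (j + 1 + 1 + 1) := by
  have h2 := hs2
  have h3 := hs3
  have hI := I_sq
  refine td_formula muC_add_one (pc_mu lam) ?_ ?_ ?_ ?_ ?_ ?_ ?_ ?_ ?_ ?_ ?_ ?_ ?_ ?_ ?_ _ _ <;>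
    simp only [al, be, ga, f1, f2, f3, vec0, vec1, vec2] <;> grind

lemma good_Lv (lam : ℝ) {r : ℝ} (n : V3) {a : ℤ → ℂ} (ha : a ∈ Good r) : Lv lam n a ∈ Good r :=
  (Good r).add_mem ((Good r).add_mem ((Good r).smul_mem _ (good_Ap lam ha))
    ((Good r).smul_mem _ (good_A3 ha))) ((Good r).smul_mem _ (good_Am ha))

/-- stereographic coordinate and the Legendre variable -/
def zs (x : V3) : ℂ × ℂ := ((f1 x + I * f2 x) / (1 + f3 x), (1 - f3 x) / 2)

lemma one_add_f3_ne {r : ℝ} {x : V3} (hx : zs x ∈ Dom r) : 1 + f3 x ≠ 0 := by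
  intro h
  have := one_sub_ne hx.2.2
  apply this; simp only [zs]; linear_combination h / 2

lemma differentiableAt_zs {x : V3} (hx : 1 + f3 x ≠ 0) : DifferentiableAt ℂ zs x := by
  unfold zs f1 f2 f3 at *
  fun_prop (disch := assumption)

lemma hasDerivAt_zs_line {x : V3} (w : V3) (hx : 1 + f3 x ≠ 0) :
    HasDerivAt (fun t : ℂ => zs (x + t • w))
      (((f1 w + I * f2 w) * (1 + f3 x) - (f1 x + I * f2 x) * f3 w) / (1 + f3 x) ^ 2,
        -f3 w / 2) 0 := by
  have e1 : ∀ t : ℂ, f1 (x + t • w) = f1 x + t * f1 w := fun t => by simp [f1]; ring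
  have e2 : ∀ t : ℂ, f2 (x + t • w) = f2 x + t * f2 w := fun t => by simp [f2]; ring
  have e3 : ∀ t : ℂ, f3 (x + t • w) = f3 x + t * f3 w := fun t => by simp [f3]; ring
  simp only [zs, e1, e2, e3]
  have d : ∀ a b : ℂ, HasDerivAt (fun t : ℂ => a + t * b) b 0 := fun a b => by
    simpa using ((hasDerivAt_id (0 : ℂ)).mul_const b).const_add a
  refine HasDerivAt.prodMk ?_ ?_
  · have := ((d (f1 x) (f1 w)).add ((d (f2 x) (f2 w)).const_mul I)).div
      ((d (f3 x) (f3 w)).const_add 1) (by simpa using hx)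
    exact this.congr_deriv (by simp)
  · exact ((d (f3 x) (f3 w)).const_sub 1).div_const 2

lemma fderiv_apply_of_line {F : Type*} [NormedAddCommGroup F] [NormedSpace ℂ F] {f : V3 → F}
    {x w : V3} {y : F} (hf : DifferentiableAt ℂ f x)
    (h : HasDerivAt (fun t : ℂ => f (x + t • w)) y 0) : fderiv ℂ f x w = y := by
  have h1 : HasDerivAt (fun t : ℂ => x + t • w) w 0 := by
    simpa using ((hasDerivAt_id (0 : ℂ)).smul_const w).const_add x
  have h2 : HasFDerivAt f (fderiv ℂ f x) (x + (0 : ℂ) • w) := by simpa using hf.hasFDerivAt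
  exact (h2.comp_hasDerivAt (0 : ℂ) h1).unique h

lemma fderiv_zs_crs {r : ℝ} {x : V3} (hx : zs x ∈ Dom r) (h1 : sq3 x = 1) (n : V3) :
    fderiv ℂ zs x (crs n x) =
      (al n * (zs x).1 ^ 2 + be n * (zs x).1 + ga n,
        al n * (zs x).1 * (1 - (zs x).2) + ga n * (zs x).2 / (zs x).1) := by
  have h3 := one_add_f3_ne hx
  have h0 : f1 x + I * f2 x ≠ 0 := by
    intro h; have := slitPlane_ne_zero hx.1; apply this; simp [zs, h]
  rw [fderiv_apply_of_line (differentiableAt_zs h3) (hasDerivAt_zs_line _ h3)]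
  have hq := frame_sq x
  rw [h1] at hq
  have hI := I_sq
  have h0' : f1 x + f2 x * I ≠ 0 := by rwa [mul_comm]
  simp only [zs, f1_crs, f2_crs, f3_crs, al, be, ga]
  refine Prod.ext ?_ ?_
  · simp only []; field_simp; grind
  · simp only []; field_simp; grind

/-- the function on the complex sphere attached to a sequence -/
def ev (lam : ℝ) (a : ℤ → ℂ) (x : V3) : ℂ := Phi lam a (zs x)

lemma differentiableAt_ev (lam : ℝ) {r : ℝ} (hr : r ≤ 1) {a : ℤ → ℂ} (ha : a ∈ Good r) {x : V3}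
    (hx : zs x ∈ Dom r) : DifferentiableAt ℂ (ev lam a) x :=
  (hasFDerivAt_Phi lam hr ha hx).differentiableAt.comp x (differentiableAt_zs (one_add_f3_ne hx))

lemma fderiv_ev (lam : ℝ) {r : ℝ} (hr : r ≤ 1) {a : ℤ → ℂ} (ha : a ∈ Good r) {x : V3}
    (hx : zs x ∈ Dom r) (h1 : sq3 x = 1) (n : V3) :
    fderiv ℂ (ev lam a) x (crs n x) = ev lam (Lv lam n a) x := by
  have h := ((hasFDerivAt_Phi lam hr ha hx).comp x
    (differentiableAt_zs (one_add_f3_ne hx)).hasFDerivAt).fderiv
  have e : ev lam a = Phi lam a ∘ zs := rfl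
  rw [e, h, ContinuousLinearMap.comp_apply, fderiv_zs_crs hx h1, lf_field lam hr ha hx]
  rfl

/-- pairs of sequences -/
abbrev GP (r : ℝ) : Type := Good r × Good r

/-- rotation generator on good sequences -/
def LG (lam r : ℝ) (n : V3) : Module.End ℂ (Good r) :=
  (Lv lam n).restrict fun _ ha => good_Lv lam n ha

@[simp] lemma LG_coe (lam r : ℝ) (n : V3) (a : Good r) :
    (LG lam r n a : ℤ → ℂ) = Lv lam n a := rfl

lemma so3_LG (lam r : ℝ) : SO3 (lam : ℂ) (LG lam r) where
  add a b := LinearMap.ext fun v => Subtype.ext <| LinearMap.congr_fun ((so3_Lv lam).add a b) v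
  smul c a := LinearMap.ext fun v => Subtype.ext <| LinearMap.congr_fun ((so3_Lv lam).smul c a) v
  comm a b := LinearMap.ext fun v => Subtype.ext <| LinearMap.congr_fun ((so3_Lv lam).comm a b) v
  cas := LinearMap.ext fun v => Subtype.ext <| LinearMap.congr_fun (so3_Lv lam).cas v

lemma LG_pow_coe (lam r : ℝ) (n : V3) (k : ℕ) (a : Good r) :
    ((LG lam r n ^ k) a : ℤ → ℂ) = (Lv lam n ^ k) a := by
  induction k with
  | zero => rfl
  | succ k ih => rw [pow_succ', pow_succ', Module.End.mul_apply, Module.End.mul_apply, LG_coe, ih]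

lemma D4_LG_coe (lam r : ℝ) (a : Good r) : (D4 (LG lam r) a : ℤ → ℂ) = D4 (Lv lam) a := by
  simp only [D4, LinearMap.add_apply, Submodule.coe_add, LG_pow_coe]

/-- mirror image of an axis -/
def mir (n : V3) : V3 := (-1 : ℂ) • sw n

/-- rotation generator on pairs -/
def LL (lam r : ℝ) (n : V3) : Module.End ℂ (GP r) := (LG lam r n).prodMap (LG lam r (mir n))

lemma LL_apply (lam r : ℝ) (n : V3) (v : GP r) :
    LL lam r n v = (LG lam r n v.1, LG lam r (mir n) v.2) := rfl

lemma mir_e0 : mir (vec 1 0 0) = (-1 : ℂ) • vec 1 0 0 := by apply v3_ext <;> simp [mir, sw]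
lemma mir_e1 : mir (vec 0 1 0) = (-1 : ℂ) • vec 0 0 1 := by apply v3_ext <;> simp [mir, sw]
lemma mir_e2 : mir (vec 0 0 1) = (-1 : ℂ) • vec 0 1 0 := by apply v3_ext <;> simp [mir, sw]

lemma so3_mir (lam r : ℝ) : SO3 (lam : ℂ) (fun n => LG lam r (mir n)) where
  add a b := by
    rw [← (so3_LG lam r).add]; congr 1; apply v3_ext <;> simp [mir, sw] <;> ring
  smul c a := by
    rw [← (so3_LG lam r).smul]; congr 1; apply v3_ext <;> simp [mir, sw]
  comm a b := by
    rw [(so3_LG lam r).comm]; congr 2; apply v3_ext <;> simp [mir, sw]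
  cas := by
    rw [← (so3_LG lam r).cas, mir_e0, mir_e1, mir_e2]
    simp only [(so3_LG lam r).smul, smul_mul_assoc, mul_smul_comm]
    module

lemma so3_LL (lam r : ℝ) : SO3 (lam : ℂ) (LL lam r) where
  add a b := LinearMap.ext fun v => Prod.ext
    (LinearMap.congr_fun ((so3_LG lam r).add a b) v.1)
    (LinearMap.congr_fun ((so3_mir lam r).add a b) v.2)
  smul c a := LinearMap.ext fun v => Prod.ext
    (LinearMap.congr_fun ((so3_LG lam r).smul c a) v.1)
    (LinearMap.congr_fun ((so3_mir lam r).smul c a) v.2)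
  comm a b := LinearMap.ext fun v => Prod.ext
    (LinearMap.congr_fun ((so3_LG lam r).comm a b) v.1)
    (LinearMap.congr_fun ((so3_mir lam r).comm a b) v.2)
  cas := LinearMap.ext fun v => Prod.ext
    (LinearMap.congr_fun (so3_LG lam r).cas v.1)
    (LinearMap.congr_fun (so3_mir lam r).cas v.2)

lemma LL_pow (lam r : ℝ) (n : V3) (k : ℕ) (v : GP r) :
    (LL lam r n ^ k) v = ((LG lam r n ^ k) v.1, (LG lam r (mir n) ^ k) v.2) := by
  induction k with
  | zero => rfl
  | succ k ih =>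
    rw [pow_succ', pow_succ', pow_succ', Module.End.mul_apply, ih, LL_apply]; rfl

lemma D4_LL (lam r : ℝ) (v : GP r) :
    D4 (LL lam r) v = (D4 (LG lam r) v.1, D4 (LG lam r) v.2) := by
  simp only [D4, LinearMap.add_apply, LL_pow, mir_e0, mir_e1, mir_e2, (so3_LG lam r).smul,
    smul_pow, Prod.mk_add_mk]
  refine Prod.ext rfl ?_
  have : (-1 : ℂ) ^ 4 = 1 := by norm_num
  simp only [this, one_smul]
  abel

/-- the common domain of a series and its mirror image -/
def Om (r : ℝ) : Set V3 := {x | zs x ∈ Dom r ∧ zs (sw x) ∈ Dom r}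

/-- exchange of coordinates as a continuous linear map -/
def swL : V3 →L[ℂ] V3 :=
  ContinuousLinearMap.pi fun i => ContinuousLinearMap.proj ((![0, 2, 1] : Fin 3 → Fin 3) i)

lemma swL_apply (x : V3) : swL x = sw x := by apply v3_ext <;> rfl

lemma f3_sw (x : V3) : f3 (sw x) = f3 x := by simp [f3, sw]; left; ring

lemma isOpen_zs (r : ℝ) : IsOpen {x | zs x ∈ Dom r} := by
  rw [isOpen_iff_mem_nhds]
  intro x hx
  exact (differentiableAt_zs (one_add_f3_ne hx)).continuousAt.preimage_mem_nhds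
    ((isOpen_Dom r).mem_nhds hx)

lemma isOpen_Om (r : ℝ) : IsOpen (Om r) := by
  refine (isOpen_zs r).inter ?_
  have := (isOpen_zs r).preimage swL.continuous
  have e : swL ⁻¹' {x | zs x ∈ Dom r} = {x | zs (sw x) ∈ Dom r} := by
    ext x; simp only [Set.mem_preimage, Set.mem_ofPred_eq, swL_apply]
  rwa [e] at this

/-- the function attached to a pair -/
def Ev (lam : ℝ) {r : ℝ} (v : GP r) (x : V3) : ℂ := ev lam v.1 x + ev lam v.2 (sw x)

lemma differentiableAt_Ev (lam : ℝ) {r : ℝ} (hr : r ≤ 1) (v : GP r) {x : V3} (hx : x ∈ Om r) :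
    DifferentiableAt ℂ (Ev lam v) x := by
  refine (differentiableAt_ev lam hr v.1.2 hx.1).add ?_
  have h2 : DifferentiableAt ℂ (ev lam v.2) (swL x) := by
    rw [swL_apply]; exact differentiableAt_ev lam hr v.2.2 hx.2
  simpa only [Function.comp_def, swL_apply] using h2.comp x swL.differentiableAt

lemma fderiv_Ev (lam : ℝ) {r : ℝ} (hr : r ≤ 1) (v : GP r) {x : V3} (hx : x ∈ Om r)
    (h1 : sq3 x = 1) (n : V3) :
    fderiv ℂ (Ev lam v) x (crs n x) = Ev lam (LL lam r n v) x := by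
  have d1 := differentiableAt_ev lam hr v.1.2 hx.1
  have h2 : DifferentiableAt ℂ (ev lam v.2) (swL x) := by
    rw [swL_apply]; exact differentiableAt_ev lam hr v.2.2 hx.2
  have h := (d1.hasFDerivAt.add (h2.hasFDerivAt.comp x swL.hasFDerivAt)).fderiv
  have e : Ev lam v = ev lam v.1 + ev lam v.2 ∘ swL := by
    ext y; simp [Ev, swL_apply]
  have e2 : sw (crs n x) = crs (mir n) (sw x) := by apply v3_ext <;> simp [mir, sw] <;> ring
  have e3 : sq3 (sw x) = 1 := by rw [← h1]; simp [sq3, sw]; ring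
  rw [e, h, add_apply, ContinuousLinearMap.comp_apply, swL_apply, swL_apply,
    fderiv_ev lam hr v.1.2 hx.1 h1, e2, fderiv_ev lam hr v.2.2 hx.2 e3]
  rfl

/-- evaluation at a point as a linear functional -/
def evL (lam : ℝ) {r : ℝ} (hr : r ≤ 1) {x : V3} (hx : x ∈ Om r) : GP r →ₗ[ℂ] ℂ where
  toFun v := Ev lam v x
  map_add' v w := by
    simp only [Ev, ev, Prod.fst_add, Prod.snd_add, Submodule.coe_add,
      Phi_add lam hr v.1.2 w.1.2 hx.1, Phi_add lam hr v.2.2 w.2.2 hx.2]
    ring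
  map_smul' c v := by
    simp only [Ev, ev, Prod.smul_fst, Prod.smul_snd, Submodule.coe_smul, Phi_smul, smul_eq_mul,
      RingHom.id_apply]
    ring

lemma evL_apply (lam : ℝ) {r : ℝ} (hr : r ≤ 1) {x : V3} (hx : x ∈ Om r) (v : GP r) :
    evL lam hr hx v = Ev lam v x := rfl

lemma Ev_LL_self (lam : ℝ) {r : ℝ} (hr : r ≤ 1) (v : GP r) {x : V3} (hx : x ∈ Om r)
    (h1 : sq3 x = 1) : Ev lam (LL lam r x v) x = 0 := by
  rw [← fderiv_Ev lam hr v hx h1]
  have : crs x x = 0 := by apply v3_ext <;> simp <;> ring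
  rw [this, map_zero]

end Pool.Agent.MP_c4844d_an
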