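import Mathlib.RingTheory.Flat.FaithfullyFlat.Basic
import Mathlib.RingTheory.Flat.TorsionFree
import Mathlib.Algebra.Order.Archimedean.Real.Hom
import Mathlib.Algebra.Ring.IsFormallyReal
import Mathlib.Analysis.InnerProductSpace.Calculus
import Mathlib.Analysis.Calculus.ParametricIntegral
import Mathlib.Analysis.Calculus.ContDiff.FiniteDimension
import Mathlib.Analysis.SpecialFunctions.Trigonometric.DerivHyp
import Pool.Agent.MP_c4844d_an.Rot

-- ======== part 0: formerly Pool.Agent.MP_c4844d_an.Real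
section MrgPart0

noncomputable section

open Complex Filter Topology
open scoped ContDiff

namespace Pool.Agent.MP_c4844d_an

@[simp] lemma cross0 (n x : E3) : cross n x 0 = n 1 * x 2 - n 2 * x 1 := rfl
@[simp] lemma cross1 (n x : E3) : cross n x 1 = n 2 * x 0 - n 0 * x 2 := rfl
@[simp] lemma cross2 (n x : E3) : cross n x 2 = n 0 * x 1 - n 1 * x 0 := rfl

lemma e3_ext {x y : E3} (h0 : x 0 = y 0) (h1 : x 1 = y 1) (h2 : x 2 = y 2) : x = y := by
  ext i; fin_cases i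
  exacts [h0, h1, h2]

lemma norm_sq3 (x : E3) : ‖x‖ ^ 2 = x 0 ^ 2 + x 1 ^ 2 + x 2 ^ 2 := by
  rw [EuclideanSpace.real_norm_sq_eq, Fin.sum_univ_three]

lemma inner3 (x y : E3) : inner ℝ x y = x 0 * y 0 + x 1 * y 1 + x 2 * y 2 := by
  simp [PiLp.inner_apply, Fin.sum_univ_three]; ring

/-- complexification of a vector -/
def emb : E3 →L[ℝ] V3 :=
  ContinuousLinearMap.pi fun i => ofRealCLM ∘L (EuclideanSpace.proj i)

@[simp] lemma emb_apply (x : E3) (i : Fin 3) : emb x i = (x i : ℂ) := rfl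

lemma emb_cross (n x : E3) : emb (cross n x) = crs (emb n) (emb x) := by
  apply v3_ext <;> simp

lemma emb_axis0 : emb (axis 0) = vec 1 0 0 := by apply v3_ext <;> simp [axis]
lemma emb_axis1 : emb (axis 1) = vec 0 1 0 := by apply v3_ext <;> simp [axis]
lemma emb_axis2 : emb (axis 2) = vec 0 0 1 := by apply v3_ext <;> simp [axis]

lemma sq3_emb (x : E3) : sq3 (emb x) = (‖x‖ ^ 2 : ℝ) := by
  rw [norm_sq3]; simp [sq3]

/-- radial projection to the sphere -/
def nrm (x : E3) : E3 := ‖x‖⁻¹ • x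

lemma norm_nrm {x : E3} (hx : x ≠ 0) : ‖nrm x‖ = 1 := norm_smul_inv_norm (𝕜 := ℝ) hx

lemma nrm_of_norm {x : E3} (hx : ‖x‖ = 1) : nrm x = x := by simp [nrm, hx]

lemma nrm_smul {t : ℝ} (ht : 0 < t) (x : E3) : nrm (t • x) = nrm x := by
  rw [nrm, nrm, norm_smul, Real.norm_of_nonneg ht.le, smul_smul, mul_inv, mul_right_comm,
    inv_mul_cancel₀ ht.ne', one_mul]

lemma contDiffAt_nrm {k : WithTop ℕ∞} {x : E3} (hx : x ≠ 0) : ContDiffAt ℝ k nrm x :=
  ((contDiffAt_norm ℝ hx).inv (norm_ne_zero_iff.2 hx)).smul contDiffAt_id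

lemma differentiableAt_nrm {x : E3} (hx : x ≠ 0) : DifferentiableAt ℝ nrm x :=
  (contDiffAt_nrm (k := 1) hx).differentiableAt one_ne_zero

lemma fderiv_nrm {x : E3} (hx : x ≠ 0) (w : E3) :
    fderiv ℝ nrm x w = cross ((‖x‖ ^ 2)⁻¹ • cross x w) (nrm x) := by
  have h1 : HasDerivAt (fun t : ℝ => x + t • w) w 0 := by
    simpa using ((hasDerivAt_id (0 : ℝ)).smul_const w).const_add x
  have hn : ‖x‖ ≠ 0 := norm_ne_zero_iff.2 hx
  have h2 : HasFDerivAt nrm (fderiv ℝ nrm x) (x + (0 : ℝ) • w) := by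
    simpa using (differentiableAt_nrm hx).hasFDerivAt
  have h3 := h2.comp_hasDerivAt (0 : ℝ) h1
  have h4 := (h1.norm_sq.sqrt (by simpa using hx))
  simp only [Real.sqrt_sq (norm_nonneg _), zero_smul, add_zero] at h4
  have h5 := (h4.inv (by simpa using hx)).smul h1
  rw [h3.unique h5]
  have hs := norm_sq3 x
  simp only [zero_smul, add_zero, inner3, nrm]
  apply e3_ext <;> simp <;> field_simp <;> rw [hs] <;> ring

/-- the real domain -/
def OR (r : ℝ) : Set E3 := {x | x ≠ 0 ∧ emb (nrm x) ∈ Om r}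

lemma isOpen_OR (r : ℝ) : IsOpen (OR r) := by
  rw [isOpen_iff_mem_nhds]
  intro x hx
  refine inter_mem (isOpen_ne.mem_nhds hx.1) ?_
  exact (emb.continuous.continuousAt.comp
    (differentiableAt_nrm hx.1).continuousAt).preimage_mem_nhds ((isOpen_Om r).mem_nhds hx.2)

/-- the real function, homogeneous of degree zero, attached to a pair -/
def U (lam : ℝ) {r : ℝ} (v : GP r) (x : E3) : ℝ := (Ev lam v (emb (nrm x))).re

lemma hasFDerivAt_U (lam : ℝ) {r : ℝ} (hr : r ≤ 1) (v : GP r) {x : E3} (hx : x ∈ OR r) :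
    HasFDerivAt (U lam v) (reCLM ∘L ((fderiv ℂ (Ev lam v) (emb (nrm x))).restrictScalars ℝ ∘L
      (emb ∘L fderiv ℝ nrm x))) x := by
  have h1 := emb.hasFDerivAt.comp x (differentiableAt_nrm hx.1).hasFDerivAt
  have h2 := (differentiableAt_Ev lam hr v hx.2).hasFDerivAt.restrictScalars ℝ
  have h3 := HasFDerivAt.comp x (f := emb ∘ nrm) h2 h1
  exact reCLM.hasFDerivAt.comp x h3

lemma sq3_nrm {x : E3} (hx : x ≠ 0) : sq3 (emb (nrm x)) = 1 := by
  rw [sq3_emb, norm_nrm hx]; simp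

lemma fderiv_U (lam : ℝ) {r : ℝ} (hr : r ≤ 1) (v : GP r) {x : E3} (hx : x ∈ OR r) (w : E3) :
    fderiv ℝ (U lam v) x w = U lam (LL lam r (emb ((‖x‖ ^ 2)⁻¹ • cross x w)) v) x := by
  rw [(hasFDerivAt_U lam hr v hx).fderiv]
  simp only [ContinuousLinearMap.comp_apply, ContinuousLinearMap.coe_restrictScalars',
    reCLM_apply, fderiv_nrm hx.1]
  rw [emb_cross, fderiv_Ev lam hr v hx.2 (sq3_nrm hx.1)]
  rfl

lemma U_add (lam : ℝ) {r : ℝ} (hr : r ≤ 1) (v w : GP r) {x : E3} (hx : x ∈ OR r) :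
    U lam (v + w) x = U lam v x + U lam w x := by
  simp only [U, ← evL_apply lam hr hx.2, map_add, add_re]

lemma U_sub (lam : ℝ) {r : ℝ} (hr : r ≤ 1) (v w : GP r) {x : E3} (hx : x ∈ OR r) :
    U lam (v - w) x = U lam v x - U lam w x := by
  simp only [U, ← evL_apply lam hr hx.2, map_sub, sub_re]

lemma U_smul (lam : ℝ) {r : ℝ} (hr : r ≤ 1) (c : ℝ) (v : GP r) {x : E3} (hx : x ∈ OR r) :
    U lam ((c : ℂ) • v) x = c * U lam v x := by
  simp only [U, ← evL_apply lam hr hx.2, map_smul, smul_eq_mul, re_ofReal_mul]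

lemma U_LL (lam : ℝ) {r : ℝ} (hr : r ≤ 1) (v : GP r) {x : E3} (hx : x ∈ OR r) (n : E3) :
    U lam (LL lam r (emb n) v) x = n 0 * U lam (LL lam r (vec 1 0 0) v) x +
      n 1 * U lam (LL lam r (vec 0 1 0) v) x + n 2 * U lam (LL lam r (vec 0 0 1) v) x := by
  have e : emb n = vec (n 0) (n 1) (n 2) := by apply v3_ext <;> simp
  rw [e, (so3_LL lam r).vec_eq]
  simp only [LinearMap.add_apply, LinearMap.smul_apply, U_add lam hr _ _ hx, U_smul lam hr _ _ hx]

lemma U_LL_self (lam : ℝ) {r : ℝ} (hr : r ≤ 1) (v : GP r) {x : E3} (hx : x ∈ OR r) :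
    U lam (LL lam r (emb x) v) x = 0 := by
  have e : emb x = (‖x‖ : ℂ) • emb (nrm x) := by
    have : (‖x‖ : ℂ) ≠ 0 := by exact_mod_cast norm_ne_zero_iff.2 hx.1
    apply v3_ext <;> simp [nrm] <;> field_simp
  rw [e, (so3_LL lam r).smul, LinearMap.smul_apply, U_smul lam hr _ _ hx, U,
    Ev_LL_self lam hr v hx.2 (sq3_nrm hx.1)]
  simp

lemma rotD_U (lam : ℝ) {r : ℝ} (hr : r ≤ 1) (v : GP r) {x : E3} (hx : x ∈ OR r) (n : E3) :
    rotD n (U lam v) x = U lam (LL lam r (emb n) v) x := by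
  have h0 := U_LL_self lam hr v hx
  rw [U_LL lam hr v hx] at h0
  rw [rotD, fderiv_U lam hr v hx, U_LL lam hr v hx, U_LL lam hr v hx n]
  have hn : ‖x‖ ^ 2 ≠ 0 := pow_ne_zero _ (norm_ne_zero_iff.2 hx.1)
  simp only [PiLp.smul_apply, smul_eq_mul, cross0, cross1, cross2]
  have hc : (‖x‖ ^ 2)⁻¹ * (x 0 ^ 2 + x 1 ^ 2 + x 2 ^ 2) = 1 := by
    rw [← norm_sq3]; exact inv_mul_cancel₀ hn
  generalize (‖x‖ ^ 2)⁻¹ = c at *
  linear_combination (-c * (x 0 * n 0 + x 1 * n 1 + x 2 * n 2)) * h0 +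
    (n 0 * U lam (LL lam r (vec 1 0 0) v) x + n 1 * U lam (LL lam r (vec 0 1 0) v) x +
      n 2 * U lam (LL lam r (vec 0 0 1) v) x) * hc

lemma contDiffOn_U_nat (lam : ℝ) {r : ℝ} (hr : r ≤ 1) (k : ℕ) (v : GP r) :
    ContDiffOn ℝ k (U lam v) (OR r) := by
  induction k generalizing v with
  | zero =>
    exact contDiffOn_zero.2 fun x hx =>
      (hasFDerivAt_U lam hr v hx).continuousAt.continuousWithinAt
  | succ k ih =>
    rw [Nat.cast_succ, contDiffOn_succ_iff_fderiv_of_isOpen (isOpen_OR r)]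
    refine ⟨fun x hx => (hasFDerivAt_U lam hr v hx).differentiableAt.differentiableWithinAt,
      by simp, contDiffOn_clm_apply.2 fun w => ?_⟩
    have hn : ContDiffOn ℝ k (fun x : E3 => (‖x‖ ^ 2)⁻¹) (OR r) :=
      (contDiff_norm_sq ℝ).contDiffOn.inv fun x hx => pow_ne_zero _ (norm_ne_zero_iff.2 hx.1)
    have hc : ∀ i, ContDiffOn ℝ k (fun x : E3 => x i) (OR r) := fun i =>
      (EuclideanSpace.proj i : E3 →L[ℝ] ℝ).contDiff.contDiffOn
    have h := (((hn.mul (((hc 1).mul (contDiffOn_const (c := w 2))).sub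
        ((hc 2).mul (contDiffOn_const (c := w 1))))).mul (ih (LL lam r (vec 1 0 0) v))).add
      ((hn.mul (((hc 2).mul (contDiffOn_const (c := w 0))).sub
        ((hc 0).mul (contDiffOn_const (c := w 2))))).mul (ih (LL lam r (vec 0 1 0) v)))).add
      ((hn.mul (((hc 0).mul (contDiffOn_const (c := w 1))).sub
        ((hc 1).mul (contDiffOn_const (c := w 0))))).mul (ih (LL lam r (vec 0 0 1) v)))
    refine h.congr fun x hx => ?_
    rw [fderiv_U lam hr v hx, U_LL lam hr v hx]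
    simp

lemma contDiffOn_U (lam : ℝ) {r : ℝ} (hr : r ≤ 1) (v : GP r) :
    ContDiffOn ℝ ∞ (U lam v) (OR r) :=
  contDiffOn_infty.2 fun k => contDiffOn_U_nat lam hr k v

lemma rotD_congr {n : E3} {f g : E3 → ℝ} {x : E3} (h : f =ᶠ[𝓝 x] g) :
    rotD n f =ᶠ[𝓝 x] rotD n g := by
  filter_upwards [h.fderiv (𝕜 := ℝ)] with y hy
  simp only [rotD, hy]

lemma rotD_iter_congr {n : E3} (k : ℕ) {f g : E3 → ℝ} {x : E3} (h : f =ᶠ[𝓝 x] g) :
    (rotD n)^[k] f =ᶠ[𝓝 x] (rotD n)^[k] g := by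
  induction k with
  | zero => exact h
  | succ k ih => rw [Function.iterate_succ_apply', Function.iterate_succ_apply']; exact rotD_congr ih

lemma rotD_iter_U (lam : ℝ) {r : ℝ} (hr : r ≤ 1) (n : E3) (k : ℕ) (v : GP r) {x : E3}
    (hx : x ∈ OR r) : (rotD n)^[k] (U lam v) x = U lam ((LL lam r (emb n) ^ k) v) x := by
  induction k generalizing v with
  | zero => rfl
  | succ k ih =>
    rw [Function.iterate_succ_apply, pow_succ, Module.End.mul_apply, ← ih]
    refine (rotD_iter_congr k ?_).eq_of_nhds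
    filter_upwards [(isOpen_OR r).mem_nhds hx] with y hy using rotD_U lam hr v hy n

/-- the spherical Laplacian -/
def lap (f : E3 → ℝ) (x : E3) : ℝ := ∑ i, (rotD (axis i))^[2] f x
/-- the quartic operator -/
def qua (f : E3 → ℝ) (x : E3) : ℝ := ∑ i, (rotD (axis i))^[4] f x

lemma lap_U (lam : ℝ) {r : ℝ} (hr : r ≤ 1) (v : GP r) {x : E3} (hx : x ∈ OR r) :
    lap (U lam v) x = -lam * U lam v x := by
  have h := LinearMap.congr_fun (so3_LL lam r).cas v
  rw [lap, Fin.sum_univ_three, rotD_iter_U lam hr _ _ _ hx, rotD_iter_U lam hr _ _ _ hx,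
    rotD_iter_U lam hr _ _ _ hx, emb_axis0, emb_axis1, emb_axis2, ← U_add lam hr _ _ hx,
    ← U_add lam hr _ _ hx, ← U_smul lam hr _ _ hx]
  congr 1
  rw [sq, sq, sq, ofReal_neg]
  exact h

lemma qua_U (lam : ℝ) {r : ℝ} (hr : r ≤ 1) (v : GP r) {x : E3} (hx : x ∈ OR r) :
    qua (U lam v) x = U lam (D4 (LL lam r) v) x := by
  rw [qua, Fin.sum_univ_three, rotD_iter_U lam hr _ _ _ hx, rotD_iter_U lam hr _ _ _ hx,
    rotD_iter_U lam hr _ _ _ hx, emb_axis0, emb_axis1, emb_axis2, ← U_add lam hr _ _ hx,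
    ← U_add lam hr _ _ hx]
  rfl

end Pool.Agent.MP_c4844d_an

end
end MrgPart0

-- ======== part 1: formerly Pool.Agent.MP_c4844d_an.Geo
section MrgPart1

noncomputable section

open Filter Topology Real

namespace Pool.Agent.MP_c4844d_an

/-- real square root of two -/
def r2 : ℝ := Real.sqrt 2
/-- real square root of three -/
def r3 : ℝ := Real.sqrt 3
lemma hr2 : r2 ^ 2 = 2 := Real.sq_sqrt (by norm_num)
lemma hr3 : r3 ^ 2 = 3 := Real.sq_sqrt (by norm_num)
lemma r2_pos : 0 < r2 := Real.sqrt_pos.2 (by norm_num)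
lemma r3_pos : 0 < r3 := Real.sqrt_pos.2 (by norm_num)
lemma s2_eq : s2 = (r2 : ℝ) := rfl
lemma s3_eq : s3 = (r3 : ℝ) := rfl

/-- real frame coordinates -/
def g1 (x : E3) : ℝ := r2 * r3 / 6 * (2 * x 0 + x 1 + x 2)
/-- real frame coordinates -/
def g2 (x : E3) : ℝ := r2 / 2 * (x 1 - x 2)
/-- real frame coordinates -/
def g3 (x : E3) : ℝ := r3 / 3 * (-x 0 + x 1 + x 2)

lemma f1_emb (x : E3) : f1 (emb x) = g1 x := by simp [f1, g1, s2_eq, s3_eq]
lemma f2_emb (x : E3) : f2 (emb x) = g2 x := by simp [f2, g2, s2_eq]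
lemma f3_emb (x : E3) : f3 (emb x) = g3 x := by simp [f3, g3, s3_eq]

lemma g_sq (x : E3) : g1 x ^ 2 + g2 x ^ 2 + g3 x ^ 2 = ‖x‖ ^ 2 := by
  have h2 := hr2
  have h3 := hr3
  rw [norm_sq3]; unfold g1 g2 g3; grind

lemma continuous_coord (i : Fin 3) : Continuous fun x : E3 => x i :=
  (EuclideanSpace.proj i : E3 →L[ℝ] ℝ).continuous

lemma continuous_g1 : Continuous g1 := by unfold g1; fun_prop
lemma continuous_g2 : Continuous g2 := by unfold g2; fun_prop
lemma continuous_g3 : Continuous g3 := by unfold g3; fun_prop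

/-- vector with given coordinates -/
def vE (a b c : ℝ) : E3 := !₂[a, b, c]
@[simp] lemma vE0 (a b c : ℝ) : vE a b c 0 = a := rfl
@[simp] lemma vE1 (a b c : ℝ) : vE a b c 1 = b := rfl
@[simp] lemma vE2 (a b c : ℝ) : vE a b c 2 = c := rfl

lemma norm_eq_of_sq {x y : E3} (h : ‖x‖ ^ 2 = ‖y‖ ^ 2) : ‖x‖ = ‖y‖ :=
  (sq_eq_sq₀ (norm_nonneg _) (norm_nonneg _)).1 h

/-- the rotation of order three -/
def cycE : E3 ≃ₗᵢ[ℝ] E3 where
  toFun x := vE (x 1) (x 2) (x 0)
  invFun x := vE (x 2) (x 0) (x 1)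
  map_add' x y := by apply e3_ext <;> simp
  map_smul' c x := by apply e3_ext <;> simp
  left_inv x := by apply e3_ext <;> simp
  right_inv x := by apply e3_ext <;> simp
  norm_map' x := norm_eq_of_sq (by rw [norm_sq3, norm_sq3]; simp; ring)

/-- the reflection in the bisector -/
def swE : E3 ≃ₗᵢ[ℝ] E3 where
  toFun x := vE (x 0) (x 2) (x 1)
  invFun x := vE (x 0) (x 2) (x 1)
  map_add' x y := by apply e3_ext <;> simp
  map_smul' c x := by apply e3_ext <;> simp
  left_inv x := by apply e3_ext <;> simp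
  right_inv x := by apply e3_ext <;> simp
  norm_map' x := norm_eq_of_sq (by rw [norm_sq3, norm_sq3]; simp; ring)

@[simp] lemma cycE0 (x : E3) : cycE x 0 = x 1 := rfl
@[simp] lemma cycE1 (x : E3) : cycE x 1 = x 2 := rfl
@[simp] lemma cycE2 (x : E3) : cycE x 2 = x 0 := rfl
@[simp] lemma swE0 (x : E3) : swE x 0 = x 0 := rfl
@[simp] lemma swE1 (x : E3) : swE x 1 = x 2 := rfl
@[simp] lemma swE2 (x : E3) : swE x 2 = x 1 := rfl

@[simp] lemma cyc3 (x : E3) : cycE (cycE (cycE x)) = x := by apply e3_ext <;> rfl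
@[simp] lemma sw2 (x : E3) : swE (swE x) = x := by apply e3_ext <;> rfl
lemma cyc_sw (x : E3) : cycE (swE x) = swE (cycE (cycE x)) := by apply e3_ext <;> rfl
lemma cyc_cyc_sw (x : E3) : cycE (cycE (swE x)) = swE (cycE x) := by apply e3_ext <;> rfl

lemma emb_cyc (x : E3) : emb (cycE x) = cyc (emb x) := by apply v3_ext <;> rfl
lemma emb_sw (x : E3) : emb (swE x) = sw (emb x) := by apply v3_ext <;> rfl

lemma nrm_iso (e : E3 ≃ₗᵢ[ℝ] E3) (x : E3) : nrm (e x) = e (nrm x) := by simp [nrm]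

@[simp] lemma cyc_mem_cone {x : E3} : cycE x ∈ cone ↔ x ∈ cone := by
  simp only [cone, Set.mem_ofPred_eq, cycE0, cycE1, cycE2]; tauto
@[simp] lemma sw_mem_cone {x : E3} : swE x ∈ cone ↔ x ∈ cone := by
  simp only [cone, Set.mem_ofPred_eq, swE0, swE1, swE2]
  constructor <;> rintro ⟨a, b, c⟩ <;> exact ⟨by linarith, by linarith, by linarith⟩

lemma isOpen_cone : IsOpen cone := by
  have h : ∀ i j : Fin 3, IsOpen {x : E3 | 0 < x i + x j} := fun i j =>
    isOpen_lt continuous_const ((continuous_coord i).add (continuous_coord j))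
  exact (h 0 1).inter ((h 1 2).inter (h 2 0))

lemma ne_zero_of_cone {x : E3} (hx : x ∈ cone) : x ≠ 0 := by
  rintro rfl; simp [cone] at hx

lemma smul_mem_cone {x : E3} (hx : x ∈ cone) {t : ℝ} (ht : 0 < t) : t • x ∈ cone := by
  obtain ⟨a, b, c⟩ := hx
  refine ⟨?_, ?_, ?_⟩ <;> simp only [PiLp.smul_apply, smul_eq_mul, ← mul_add] <;> positivity

lemma nrm_mem_cone {x : E3} (hx : x ∈ cone) : nrm x ∈ cone :=
  smul_mem_cone hx (inv_pos.2 (norm_pos_iff.2 (ne_zero_of_cone hx)))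

lemma g1_sw (x : E3) : g1 (swE x) = g1 x := by simp [g1]; left; ring
lemma g2_sw (x : E3) : g2 (swE x) = -g2 x := by simp [g2]; ring
lemma g3_sw (x : E3) : g3 (swE x) = g3 x := by simp [g3]; left; ring
lemma g3_smul (t : ℝ) (x : E3) : g3 (t • x) = t * g3 x := by simp [g3]; ring

lemma g1_pos {x : E3} (h1 : 0 < x 0 + x 1) (h2 : 0 < x 2 + x 0) : 0 < g1 x := by
  have := r2_pos
  have := r3_pos
  have : 0 < 2 * x 0 + x 1 + x 2 := by linarith
  unfold g1; positivity

/-- cosine of the opening of the sector -/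
def kap (r : ℝ) : ℝ := (1 - r ^ 2) / (1 + r ^ 2)

/-- the sector at the vertex (-1,1,1) -/
def Sec (r : ℝ) : Set E3 := {x | x ∈ cone ∧ kap r * ‖x‖ < g3 x}

lemma isOpen_Sec (r : ℝ) : IsOpen (Sec r) :=
  isOpen_cone.inter (isOpen_lt (by fun_prop) continuous_g3)

lemma kap_nonneg {r : ℝ} (h0 : 0 < r) (h1 : r ≤ 1) : 0 ≤ kap r :=
  div_nonneg (by nlinarith) (by positivity)

lemma kap_lt {r : ℝ} (h : 1 / 2 < r ^ 2) : kap r < 1 / 3 := by
  rw [kap, div_lt_iff₀ (by positivity)]; linarith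

lemma sw_mem_Sec {r : ℝ} {x : E3} : swE x ∈ Sec r ↔ x ∈ Sec r := by
  simp [Sec, g3_sw]

lemma smul_mem_Sec {r : ℝ} {x : E3} (hx : x ∈ Sec r) {t : ℝ} (ht : 0 < t) : t • x ∈ Sec r := by
  refine ⟨smul_mem_cone hx.1 ht, ?_⟩
  rw [g3_smul, norm_smul, Real.norm_of_nonneg ht.le, mul_left_comm]
  exact mul_lt_mul_of_pos_left hx.2 ht

lemma nrm_mem_Sec {r : ℝ} {x : E3} (hx : x ∈ Sec r) : nrm x ∈ Sec r :=
  smul_mem_Sec hx (inv_pos.2 (norm_pos_iff.2 (ne_zero_of_cone hx.1)))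

/-- every point of the cone is within the angle arccos(1/3) of a vertex -/
lemma cover {x : E3} (hx : x ∈ cone) :
    ‖x‖ / 3 ≤ g3 x ∨ ‖x‖ / 3 ≤ g3 (cycE x) ∨ ‖x‖ / 3 ≤ g3 (cycE (cycE x)) := by
  obtain ⟨h1, h2, h3⟩ := hx
  have key : ∀ y : E3, 0 < y 0 + y 1 → 0 < y 2 + y 0 → y 0 ≤ y 1 → y 0 ≤ y 2 →
      ‖y‖ / 3 ≤ g3 y := by
    intro y a b c d
    have h3 := hr3
    have hp := r3_pos
    have e : 0 ≤ -y 0 + y 1 + y 2 := by linarith
    refine le_of_sq_le_sq ?_ (by unfold g3; positivity)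
    rw [div_pow, norm_sq3, g3, mul_pow, div_pow, h3]
    nlinarith [mul_nonneg (sub_nonneg.2 c) (sub_nonneg.2 d),
      mul_nonneg (show 0 ≤ y 1 + y 2 by linarith) (show 0 ≤ y 1 + y 2 - 2 * y 0 by linarith)]
  rcases le_total (x 0) (x 1) with a | a <;> rcases le_total (x 1) (x 2) with b | b <;>
    rcases le_total (x 2) (x 0) with c | c
  all_goals first
    | exact Or.inl (key x h1 h3 (by linarith) (by linarith))
    | exact Or.inr (Or.inl (by
        simpa using key (cycE x) h2 (by simpa using h1) (by simp; linarith) (by simp; linarith)))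
    | exact Or.inr (Or.inr (by
        simpa using key (cycE (cycE x)) h3 (by simpa using h2) (by simp; linarith)
          (by simp; linarith)))

lemma mem_Sec_of {r : ℝ} (h : 1 / 2 < r ^ 2) {x : E3} (hx : x ∈ cone) (h3 : ‖x‖ / 3 ≤ g3 x) :
    x ∈ Sec r := by
  refine ⟨hx, lt_of_lt_of_le ?_ h3⟩
  have := kap_lt h
  have := norm_pos_iff.2 (ne_zero_of_cone hx)
  nlinarith

lemma cover_Sec {r : ℝ} (h : 1 / 2 < r ^ 2) {x : E3} (hx : x ∈ cone) :
    x ∈ Sec r ∨ cycE x ∈ Sec r ∨ cycE (cycE x) ∈ Sec r := by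
  rcases cover hx with a | a | a
  · exact Or.inl (mem_Sec_of h hx a)
  · exact Or.inr (Or.inl (mem_Sec_of h (by simpa) (by simpa)))
  · exact Or.inr (Or.inr (mem_Sec_of h (by simpa) (by simpa)))

/-- stereographic coordinate of a real point -/
def ZZ (x : E3) : ℂ := (g1 x + Complex.I * g2 x) / (1 + g3 x)

lemma zs_emb (x : E3) : zs (emb x) = (ZZ x, (((1 - g3 x) / 2 : ℝ) : ℂ)) := by
  simp [zs, ZZ, f1_emb, f2_emb, f3_emb]

lemma g3_bounds {x : E3} (hx : ‖x‖ = 1) (h : 0 < g1 x) : -1 < g3 x ∧ g3 x < 1 := by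
  have := g_sq x
  rw [hx] at this
  constructor <;> nlinarith [sq_nonneg (g2 x)]

lemma ZZ_re (x : E3) : (ZZ x).re = g1 x / (1 + g3 x) := by
  have : ZZ x = ((g1 x : ℂ) + Complex.I * g2 x) / ((1 + g3 x : ℝ) : ℂ) := by simp [ZZ]
  rw [this, Complex.div_ofReal_re]; simp

lemma ZZ_im (x : E3) : (ZZ x).im = g2 x / (1 + g3 x) := by
  have : ZZ x = ((g1 x : ℂ) + Complex.I * g2 x) / ((1 + g3 x : ℝ) : ℂ) := by simp [ZZ]
  rw [this, Complex.div_ofReal_im]; simp

lemma ZZ_re_pos {x : E3} (hx : ‖x‖ = 1) (h : 0 < g1 x) : 0 < (ZZ x).re := by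
  rw [ZZ_re]; exact div_pos h (by linarith [(g3_bounds hx h).1])

lemma norm_ZZ_sq {x : E3} (hx : ‖x‖ = 1) (h : 0 < g1 x) :
    ‖ZZ x‖ ^ 2 = (1 - g3 x) / (1 + g3 x) := by
  have h1 : 1 + g3 x ≠ 0 := by linarith [(g3_bounds hx h).1]
  have := g_sq x
  rw [hx] at this
  rw [Complex.sq_norm, Complex.normSq_apply, ZZ_re, ZZ_im]
  field_simp
  linarith

lemma zs_mem_Dom {r : ℝ} (h0 : 0 < r) (h1 : r ≤ 1) {x : E3} (hx : x ∈ Sec r) (hn : ‖x‖ = 1) :
    zs (emb x) ∈ Dom r := by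
  have hg := g1_pos hx.1.1 hx.1.2.2
  have hb := g3_bounds hn hg
  have hk := hx.2
  rw [hn, mul_one] at hk
  have hk0 := kap_nonneg h0 h1
  rw [zs_emb]
  refine ⟨Or.inl (ZZ_re_pos hn hg), ?_, ?_⟩
  · refine lt_of_pow_lt_pow_left₀ 2 h0.le ?_
    rw [norm_ZZ_sq hn hg, div_lt_iff₀ (by linarith)]
    rw [kap, div_lt_iff₀ (by positivity)] at hk
    linarith
  · rw [Complex.norm_real, Real.norm_eq_abs, abs_lt]
    constructor <;> linarith

lemma emb_mem_Om {r : ℝ} (h0 : 0 < r) (h1 : r ≤ 1) {x : E3} (hx : x ∈ Sec r) (hn : ‖x‖ = 1) :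
    emb x ∈ Om r :=
  ⟨zs_mem_Dom h0 h1 hx hn, by
    rw [← emb_sw]; exact zs_mem_Dom h0 h1 (sw_mem_Sec.2 hx) (by simpa using hn)⟩

lemma Sec_sub_OR {r : ℝ} (h0 : 0 < r) (h1 : r ≤ 1) : Sec r ⊆ OR r := fun _ hx =>
  ⟨ne_zero_of_cone hx.1, emb_mem_Om h0 h1 (nrm_mem_Sec hx) (norm_nrm (ne_zero_of_cone hx.1))⟩

/-- vector with given frame coordinates -/
def frm (a b c : ℝ) : E3 :=
  vE (r2 * r3 / 3 * a - r3 / 3 * c) (r2 * r3 / 6 * a + r2 / 2 * b + r3 / 3 * c)
    (r2 * r3 / 6 * a - r2 / 2 * b + r3 / 3 * c)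

lemma g1_frm (a b c : ℝ) : g1 (frm a b c) = a := by
  have h2 := hr2
  have h3 := hr3
  simp only [g1, frm, vE0, vE1, vE2]; grind
lemma g2_frm (a b c : ℝ) : g2 (frm a b c) = b := by
  have h2 := hr2
  simp only [g2, frm, vE1, vE2]; grind
lemma g3_frm (a b c : ℝ) : g3 (frm a b c) = c := by
  have h3 := hr3
  simp only [g3, frm, vE0, vE1, vE2]; grind
lemma frm_g (x : E3) : frm (g1 x) (g2 x) (g3 x) = x := by
  have h2 := hr2
  have h3 := hr3
  apply e3_ext <;> simp only [g1, g2, g3, frm, vE0, vE1, vE2] <;> grind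

/-- Mercator chart with pole at the vertex -/
def XX (p : ℝ × ℝ) : E3 :=
  frm (cos p.2 / cosh p.1) (sin p.2 / cosh p.1) (-(sinh p.1 / cosh p.1))

lemma norm_XX (p : ℝ × ℝ) : ‖XX p‖ = 1 := by
  have h : ‖XX p‖ ^ 2 = 1 := by
    rw [← g_sq, XX, g1_frm, g2_frm, g3_frm]
    have := cosh_pos p.1
    field_simp
    nlinarith [Real.cos_sq_add_sin_sq p.2, Real.cosh_sq p.1]
  exact (sq_eq_sq₀ (norm_nonneg _) zero_le_one).1 (by simpa using h)

lemma contDiff_XX {k : WithTop ℕ∞} : ContDiff ℝ k XX := by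
  have h : ∀ p : ℝ × ℝ, cosh p.1 ≠ 0 := fun p => (cosh_pos _).ne'
  rw [contDiff_euclidean]
  intro i
  fin_cases i
  · show ContDiff ℝ k fun p : ℝ × ℝ => r2 * r3 / 3 * (cos p.2 / cosh p.1) -
      r3 / 3 * (-(sinh p.1 / cosh p.1))
    fun_prop (disch := assumption)
  · show ContDiff ℝ k fun p : ℝ × ℝ => r2 * r3 / 6 * (cos p.2 / cosh p.1) +
      r2 / 2 * (sin p.2 / cosh p.1) + r3 / 3 * (-(sinh p.1 / cosh p.1))
    fun_prop (disch := assumption)
  · show ContDiff ℝ k fun p : ℝ × ℝ => r2 * r3 / 6 * (cos p.2 / cosh p.1) -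
      r2 / 2 * (sin p.2 / cosh p.1) + r3 / 3 * (-(sinh p.1 / cosh p.1))
    fun_prop (disch := assumption)

lemma continuous_XX : Continuous XX := (contDiff_XX (k := 0)).continuous

lemma sw_XX (s φ : ℝ) : swE (XX (s, φ)) = XX (s, -φ) := by
  apply e3_ext <;> simp [XX, frm] <;> ring

/-- the Legendre variable along a meridian -/
def sg (s : ℝ) : ℝ := (1 + sinh s / cosh s) / 2

lemma ZZ_XX (p : ℝ × ℝ) : ZZ (XX p) = Complex.exp (p.1 + p.2 * Complex.I) := by
  have hc := cosh_pos p.1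
  have h1 : 1 + -(sinh p.1 / cosh p.1) = exp (-p.1) / cosh p.1 := by
    rw [← Real.cosh_sub_sinh]; field_simp; ring
  have h2 : exp p.1 * exp (-p.1) = 1 := by rw [← Real.exp_add]; simp
  have h3 := exp_pos (-p.1)
  apply Complex.ext
  · rw [ZZ_re, XX, g1_frm, g3_frm, h1, Complex.exp_re]
    simp; field_simp; rw [mul_assoc, mul_comm (exp (-p.1)), h2, mul_one]
  · rw [ZZ_im, XX, g2_frm, g3_frm, h1, Complex.exp_im]
    simp; field_simp; rw [mul_assoc, mul_comm (exp (-p.1)), h2, mul_one]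

lemma zs_XX (p : ℝ × ℝ) :
    zs (emb (XX p)) = (Complex.exp (p.1 + p.2 * Complex.I), (sg p.1 : ℂ)) := by
  rw [zs_emb, ZZ_XX, XX, g3_frm, sg]; congr 3; ring

/-- inverse of the chart -/
def YY (x : E3) : ℝ × ℝ := (log ‖ZZ x‖, Complex.arg (ZZ x))

lemma YY_XX {p : ℝ × ℝ} (h : |p.2| < π) : YY (XX p) = p := by
  rw [abs_lt] at h
  have := Complex.log_exp (x := p.1 + p.2 * Complex.I) (by simpa using h.1) (by simpa using h.2.le)
  rw [YY, ZZ_XX, ← Complex.log_re, ← Complex.log_im, this]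
  simp

lemma XX_YY {x : E3} (hx : ‖x‖ = 1) (h : 0 < g1 x) : XX (YY x) = x := by
  have hb := g3_bounds hx h
  have h1 : 0 < 1 + g3 x := by linarith
  have hz : ZZ x ≠ 0 := fun h0 => by have := ZZ_re_pos hx h; simp [h0] at this
  have hn : 0 < ‖ZZ x‖ := norm_pos_iff.2 hz
  have hs := norm_ZZ_sq hx h
  rw [eq_div_iff h1.ne'] at hs
  conv_rhs => rw [← frm_g x]
  simp only [XX, YY, Real.cosh_log hn, Real.sinh_log hn, Complex.cos_arg hz, Complex.sin_arg,
    ZZ_re, ZZ_im]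
  congr 1
  · field_simp; linear_combination (-1) * hs
  · field_simp; linear_combination (-g2 x) * hs
  · field_simp; linear_combination (-1) * hs

lemma XX_01 (p : ℝ × ℝ) : XX p 0 + XX p 1 = r2 * sin (π / 3 + p.2) / cosh p.1 := by
  simp only [XX, frm, vE0, vE1, sin_add, sin_pi_div_three, cos_pi_div_three]
  rw [show √3 = r3 from rfl]; ring
lemma XX_20 (p : ℝ × ℝ) : XX p 2 + XX p 0 = r2 * sin (π / 3 - p.2) / cosh p.1 := by
  simp only [XX, frm, vE0, vE2, sin_sub, sin_pi_div_three, cos_pi_div_three]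
  rw [show √3 = r3 from rfl]; ring
lemma XX_12 (p : ℝ × ℝ) :
    XX p 1 + XX p 2 = r3 / 3 * (r2 * cos p.2 - 2 * sinh p.1) / cosh p.1 := by
  simp only [XX, frm, vE1, vE2]; ring

lemma XX_lune {p : ℝ × ℝ} (h : |p.2| < π / 3) : 0 < XX p 0 + XX p 1 ∧ 0 < XX p 2 + XX p 0 := by
  rw [abs_lt] at h
  have := r2_pos
  have := cosh_pos p.1
  have := pi_pos
  have a := sin_pos_of_pos_of_lt_pi (x := π / 3 + p.2) (by linarith) (by linarith)
  have b := sin_pos_of_pos_of_lt_pi (x := π / 3 - p.2) (by linarith) (by linarith)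
  rw [XX_01, XX_20]; constructor <;> positivity

lemma XX_mem_cone {p : ℝ × ℝ} (h : |p.2| < π / 3) (hs : p.1 ≤ 0) : XX p ∈ cone := by
  refine ⟨(XX_lune h).1, ?_, (XX_lune h).2⟩
  rw [abs_lt] at h
  have := r2_pos
  have := r3_pos
  have := cosh_pos p.1
  have := pi_pos
  have a := cos_pos_of_mem_Ioo (x := p.2) ⟨by linarith, by linarith⟩
  have b : 0 ≤ -sinh p.1 := by simpa using hs
  have : 0 < r2 * cos p.2 - 2 * sinh p.1 := by nlinarith
  rw [XX_12]; positivity

lemma abs_lt_of_lune {p : ℝ × ℝ} (h : |p.2| ≤ π / 2) (a : 0 < XX p 0 + XX p 1)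
    (b : 0 < XX p 2 + XX p 0) : |p.2| < π / 3 := by
  rw [abs_le] at h
  have := r2_pos
  have := cosh_pos p.1
  have := pi_pos
  rw [XX_01] at a
  rw [XX_20] at b
  rw [abs_lt]
  constructor
  · by_contra hc
    have := sin_nonpos_of_nonpos_of_neg_pi_le (x := π / 3 + p.2) (by linarith) (by linarith)
    have : r2 * sin (π / 3 + p.2) / cosh p.1 ≤ 0 :=
      div_nonpos_of_nonpos_of_nonneg (by nlinarith) (by linarith)
    linarith
  · by_contra hc
    have := sin_nonpos_of_nonpos_of_neg_pi_le (x := π / 3 - p.2) (by linarith) (by linarith)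
    have : r2 * sin (π / 3 - p.2) / cosh p.1 ≤ 0 :=
      div_nonpos_of_nonpos_of_nonneg (by nlinarith) (by linarith)
    linarith

lemma abs_YY_lt {x : E3} (hx : ‖x‖ = 1) (a : 0 < x 0 + x 1) (b : 0 < x 2 + x 0) :
    |(YY x).2| < π / 3 := by
  have h := g1_pos a b
  refine abs_lt_of_lune (Complex.abs_arg_le_pi_div_two_iff.2 (ZZ_re_pos hx h).le) ?_ ?_ <;>
    rwa [XX_YY hx h]

lemma kap_exp (s : ℝ) : kap (exp s) = -(sinh s / cosh s) := by
  have := exp_pos s
  rw [kap, sinh_eq, cosh_eq, exp_neg]; field_simp; ring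

lemma kap_lt_kap {a b : ℝ} (ha : 0 < a) (hb : 0 < b) : kap a < kap b ↔ b < a := by
  rw [kap, kap, div_lt_div_iff₀ (by positivity) (by positivity)]
  constructor <;> intro h <;> nlinarith

lemma XX_mem_Sec {r : ℝ} (h0 : 0 < r) {p : ℝ × ℝ} :
    XX p ∈ Sec r ↔ XX p ∈ cone ∧ exp p.1 < r := by
  simp only [Sec, Set.mem_ofPred_eq, norm_XX, mul_one]
  rw [XX, g3_frm, ← kap_exp, kap_lt_kap h0 (exp_pos _)]

lemma contDiffAt_YY {k : WithTop ℕ∞} {x : E3} (h : 0 < g1 x) (h3 : -1 < g3 x) :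
    ContDiffAt ℝ k YY x := by
  have h1 : (1 : ℂ) + g3 x ≠ 0 := by exact_mod_cast (show (1 : ℝ) + g3 x ≠ 0 by linarith)
  have hZ : ContDiffAt ℝ k ZZ x := by
    have c : ∀ g : E3 → ℝ, ContDiff ℝ k g → ContDiffAt ℝ k (fun y => (g y : ℂ)) x := fun g hg =>
      (Complex.ofRealCLM.contDiff.comp hg).contDiffAt
    have c1 := c g1 (by unfold g1; fun_prop)
    have c2 := c g2 (by unfold g2; fun_prop)
    have c3 := c g3 (by unfold g3; fun_prop)
    have c4 : ContDiffAt ℝ k (fun y => ((1 : ℂ) + g3 y)⁻¹) x :=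
      ((contDiffAt_inv ℝ h1).comp x (contDiffAt_const.add c3) :)
    exact (c1.add ((contDiffAt_const (c := Complex.I)).mul c2)).mul c4
  have hs : ZZ x ∈ Complex.slitPlane := Or.inl (by rw [ZZ_re]; exact div_pos h (by linarith))
  have hl : ContDiffAt ℝ k (fun y => Complex.log (ZZ y)) x :=
    ((Complex.contDiffAt_log hs).restrict_scalars ℝ).comp x hZ
  have e : YY = fun y => (Complex.reCLM (Complex.log (ZZ y)), Complex.imCLM (Complex.log (ZZ y))) := by
    ext y <;> simp [YY, Complex.log_re, Complex.log_im]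
  rw [e]
  exact (Complex.reCLM.contDiff.contDiffAt.comp x hl).prodMk
    (Complex.imCLM.contDiff.contDiffAt.comp x hl)

end Pool.Agent.MP_c4844d_an

end
end MrgPart1

-- ======== part 2: formerly Pool.Agent.MP_c4844d_an.Meas
section MrgPart2

noncomputable section

open Filter Topology Real MeasureTheory Set
open scoped Pointwise

namespace Pool.Agent.MP_c4844d_an

/-- the unit sphere -/
abbrev Sph : Type := Metric.sphere (0 : E3) 1

lemma sph_norm (x : Sph) : ‖(x : E3)‖ = 1 := norm_eq_of_mem_sphere x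

instance : IsFiniteMeasure area := by unfold area; infer_instance
instance : area.IsOpenPosMeasure := by unfold area; infer_instance

lemma isOpen_tri : IsOpen tri := isOpen_cone.preimage continuous_subtype_val
lemma measurableSet_tri : MeasurableSet tri := isOpen_tri.measurableSet

/-- the triangle as a subset of space -/
def Ts : Set E3 := {x | x ∈ cone ∧ ‖x‖ = 1}

/-- integral over the triangle -/
def II (g : E3 → ℝ) : ℝ := ∫ x in tri, g x ∂area

/-- bounded continuous functions on the triangle -/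
def Cb (g : E3 → ℝ) : Prop := ContinuousOn g Ts ∧ ∃ M, ∀ x ∈ Ts, |g x| ≤ M

lemma mem_Ts {x : Sph} (hx : x ∈ tri) : (x : E3) ∈ Ts := ⟨hx, sph_norm x⟩

lemma aesm_of {g : E3 → ℝ} (hg : ContinuousOn g Ts) :
    AEStronglyMeasurable (fun x : Sph => g x) (area.restrict tri) :=
  (hg.comp continuous_subtype_val.continuousOn fun _ hx => mem_Ts hx).aestronglyMeasurable
    measurableSet_tri

lemma Cb.integrable {g : E3 → ℝ} (hg : Cb g) :
    Integrable (fun x : Sph => g x) (area.restrict tri) := by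
  obtain ⟨hc, M, hM⟩ := hg
  refine Integrable.of_bound (aesm_of hc) M ?_
  filter_upwards [ae_restrict_mem measurableSet_tri] with x hx using hM x (mem_Ts hx)

lemma Cb.add {g h : E3 → ℝ} (hg : Cb g) (hh : Cb h) : Cb (fun x => g x + h x) := by
  obtain ⟨hc, M, hM⟩ := hg
  obtain ⟨hd, N, hN⟩ := hh
  exact ⟨hc.add hd, M + N, fun x hx => (abs_add_le _ _).trans (add_le_add (hM x hx) (hN x hx))⟩

lemma Cb.mul {g h : E3 → ℝ} (hg : Cb g) (hh : Cb h) : Cb (fun x => g x * h x) := by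
  obtain ⟨hc, M, hM⟩ := hg
  obtain ⟨hd, N, hN⟩ := hh
  refine ⟨hc.mul hd, M * N, fun x hx => ?_⟩
  rw [abs_mul]
  exact mul_le_mul (hM x hx) (hN x hx) (abs_nonneg _) ((abs_nonneg _).trans (hM x hx))

lemma Cb.of_continuous {g : E3 → ℝ} (hg : Continuous g) : Cb g := by
  obtain ⟨M, hM⟩ := (isCompact_sphere (0 : E3) 1).exists_bound_of_continuousOn hg.continuousOn
  exact ⟨hg.continuousOn, M, fun x hx => hM x (by simpa using hx.2)⟩

lemma Cb.const (c : ℝ) : Cb fun _ => c := Cb.of_continuous continuous_const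

lemma Cb.const_mul {g : E3 → ℝ} (hg : Cb g) (c : ℝ) : Cb fun x => c * g x := (Cb.const c).mul hg

lemma Cb.neg {g : E3 → ℝ} (hg : Cb g) : Cb fun x => -g x := by
  simpa using hg.const_mul (-1)

lemma Cb.sub {g h : E3 → ℝ} (hg : Cb g) (hh : Cb h) : Cb (fun x => g x - h x) := by
  simpa [sub_eq_add_neg] using hg.add hh.neg

lemma Cb.comp {g : E3 → ℝ} (hg : Cb g) {P : ℝ → ℝ} (hP : Continuous P) : Cb fun x => P (g x) := by
  obtain ⟨hc, M, hM⟩ := hg
  obtain ⟨N, hN⟩ := (isCompact_Icc (a := -M) (b := M)).exists_bound_of_continuousOn hP.continuousOn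
  exact ⟨hP.comp_continuousOn hc, N, fun x hx => hN _ (abs_le.1 (hM x hx))⟩

lemma Cb.congr {g h : E3 → ℝ} (hg : Cb g) (e : ∀ x ∈ Ts, h x = g x) : Cb h := by
  obtain ⟨hc, M, hM⟩ := hg
  exact ⟨hc.congr e, M, fun x hx => by rw [e x hx]; exact hM x hx⟩

lemma Cb.iso {g : E3 → ℝ} (hg : Cb g) (e : E3 ≃ₗᵢ[ℝ] E3) (he : ∀ x, e x ∈ cone ↔ x ∈ cone) :
    Cb fun x => g (e x) := by
  obtain ⟨hc, M, hM⟩ := hg
  have m : ∀ x ∈ Ts, e x ∈ Ts := fun x hx => ⟨(he x).2 hx.1, by simpa using hx.2⟩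
  exact ⟨hc.comp e.continuous.continuousOn m, M, fun x hx => hM _ (m x hx)⟩

lemma II_congr {g h : E3 → ℝ} (e : ∀ x ∈ Ts, g x = h x) : II g = II h :=
  setIntegral_congr_fun measurableSet_tri fun x hx => e x (mem_Ts hx)

lemma II_add {g h : E3 → ℝ} (hg : Cb g) (hh : Cb h) : II (fun x => g x + h x) = II g + II h :=
  integral_add hg.integrable hh.integrable

lemma II_sub {g h : E3 → ℝ} (hg : Cb g) (hh : Cb h) : II (fun x => g x - h x) = II g - II h :=
  integral_sub hg.integrable hh.integrable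

lemma II_const_mul (c : ℝ) (g : E3 → ℝ) : II (fun x => c * g x) = c * II g :=
  integral_const_mul _ _

lemma II_mono {g h : E3 → ℝ} (hg : Cb g) (hh : Cb h) (e : ∀ x ∈ Ts, g x ≤ h x) : II g ≤ II h :=
  setIntegral_mono_on hg.integrable hh.integrable measurableSet_tri fun x hx => e x (mem_Ts hx)

lemma II_nonneg {g : E3 → ℝ} (e : ∀ x ∈ Ts, 0 ≤ g x) : 0 ≤ II g :=
  setIntegral_nonneg measurableSet_tri fun x hx => e x (mem_Ts hx)

lemma II_zero : II (fun _ => 0) = 0 := by simp [II]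

/-- area of the triangle -/
def aT : ℝ := II fun _ => 1

lemma aT_nonneg : 0 ≤ aT := II_nonneg fun _ _ => zero_le_one

lemma II_const (c : ℝ) : II (fun _ => c) = c * aT := by
  rw [aT, ← II_const_mul]; simp

lemma abs_II_le {g : E3 → ℝ} (hg : Cb g) {M : ℝ} (e : ∀ x ∈ Ts, |g x| ≤ M) :
    |II g| ≤ M * aT := by
  rw [abs_le, ← neg_mul, ← II_const, ← II_const]
  exact ⟨II_mono (Cb.const _) hg fun x hx => (abs_le.1 (e x hx)).1,
    II_mono hg (Cb.const _) fun x hx => (abs_le.1 (e x hx)).2⟩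

lemma II_pos {g : E3 → ℝ} (hg : Cb g) (e : ∀ x ∈ Ts, 0 ≤ g x) {x : E3} (hx : x ∈ Ts)
    (h : 0 < g x) : 0 < II g := by
  have hc : ContinuousOn (fun y : Sph => g y) tri :=
    hg.1.comp continuous_subtype_val.continuousOn fun _ hy => mem_Ts hy
  rw [II, setIntegral_pos_iff_support_of_nonneg_ae _ hg.integrable]
  · have ho : IsOpen (tri ∩ (fun y : Sph => g y) ⁻¹' Ioi 0) :=
      hc.isOpen_inter_preimage isOpen_tri isOpen_Ioi
    refine lt_of_lt_of_le (ho.measure_pos area ⟨⟨x, by simpa using hx.2⟩, hx.1, h⟩)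
      (measure_mono fun y hy => ⟨ne_of_gt hy.2, hy.1⟩)
  · filter_upwards [ae_restrict_mem measurableSet_tri] with y hy using e y (mem_Ts hy)

/-- action of an isometry on the sphere -/
def sm (e : E3 ≃ₗᵢ[ℝ] E3) : Sph ≃ₜ Sph where
  toFun x := ⟨e x, by simp⟩
  invFun x := ⟨e.symm x, by simp⟩
  left_inv x := by simp
  right_inv x := by simp
  continuous_toFun := by fun_prop
  continuous_invFun := by fun_prop

lemma mp_sm (e : E3 ≃ₗᵢ[ℝ] E3) : MeasurePreserving (sm e) area area := by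
  refine ⟨(sm e).continuous.measurable, Measure.ext fun s hs => ?_⟩
  rw [Measure.map_apply (sm e).continuous.measurable hs, area,
    Measure.toSphere_apply' _ ((sm e).continuous.measurable hs), Measure.toSphere_apply' _ hs,
    ← e.measurePreserving.measure_preimage_emb e.toHomeomorph.measurableEmbedding
      (Ioo (0 : ℝ) 1 • (Subtype.val '' s))]
  congr 2
  ext x
  simp only [Set.mem_smul, mem_image, mem_preimage]
  constructor
  · rintro ⟨t, ht, _, ⟨y, hy, rfl⟩, rfl⟩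
    exact ⟨t, ht, _, ⟨sm e y, hy, rfl⟩, by simp [sm]⟩
  · rintro ⟨t, ht, _, ⟨y, hy, rfl⟩, h⟩
    refine ⟨t, ht, _, ⟨(sm e).symm y, by simpa using hy, rfl⟩, ?_⟩
    apply e.injective
    rw [← h]; simp [sm]

lemma integral_iso (e : E3 ≃ₗᵢ[ℝ] E3) (g : E3 → ℝ) :
    ∫ x : Sph, g (e x) ∂area = ∫ x : Sph, g x ∂area :=
  (mp_sm e).integral_comp (sm e).measurableEmbedding fun x : Sph => g x

lemma II_iso (e : E3 ≃ₗᵢ[ℝ] E3) (he : ∀ x, e x ∈ cone ↔ x ∈ cone) (g : E3 → ℝ) :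
    II (fun x => g (e x)) = II g := by
  have h := (mp_sm e).setIntegral_preimage_emb (sm e).measurableEmbedding (fun x : Sph => g x) tri
  have : sm e ⁻¹' tri = tri := by ext x; exact he x
  rw [this] at h
  exact h

/-- rotation about the first axis -/
def rot0 (t : ℝ) : E3 ≃ₗᵢ[ℝ] E3 where
  toFun x := vE (x 0) (cos t * x 1 - sin t * x 2) (sin t * x 1 + cos t * x 2)
  invFun x := vE (x 0) (cos t * x 1 + sin t * x 2) (-sin t * x 1 + cos t * x 2)
  map_add' x y := by apply e3_ext <;> simp <;> ring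
  map_smul' c x := by apply e3_ext <;> simp <;> ring
  left_inv x := by
    have := cos_sq_add_sin_sq t
    apply e3_ext <;> simp <;> grind
  right_inv x := by
    have := cos_sq_add_sin_sq t
    apply e3_ext <;> simp <;> grind
  norm_map' x := norm_eq_of_sq (by
    have := cos_sq_add_sin_sq t
    rw [norm_sq3, norm_sq3]; simp; grind)

lemma hasDerivAt_vE {a b c : ℝ → ℝ} {a' b' c' t : ℝ} (ha : HasDerivAt a a' t)
    (hb : HasDerivAt b b' t) (hc : HasDerivAt c c' t) :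
    HasDerivAt (fun s => vE (a s) (b s) (c s)) (vE a' b' c') t := by
  have h := ((ha.smul_const (vE 1 0 0)).add (hb.smul_const (vE 0 1 0))).add
    (hc.smul_const (vE 0 0 1))
  have e : ∀ x y z : ℝ, vE x y z = x • vE 1 0 0 + y • vE 0 1 0 + z • vE 0 0 1 := fun x y z => by
    apply e3_ext <;> simp
  simp only [e (a _), e a']
  exact h

lemma hasDerivAt_rot0 (x : E3) (t : ℝ) :
    HasDerivAt (fun s => rot0 s x) (cross (axis 0) (rot0 t x)) t := by
  have h := hasDerivAt_vE (hasDerivAt_const t (x 0))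
    (((hasDerivAt_cos t).mul_const (x 1)).sub ((hasDerivAt_sin t).mul_const (x 2)))
    (((hasDerivAt_sin t).mul_const (x 1)).add ((hasDerivAt_cos t).mul_const (x 2)))
  refine HasDerivAt.congr_deriv h ?_
  apply e3_ext <;> simp [axis, rot0] <;> ring

lemma continuous_cross (n : E3) : Continuous (cross n) := by
  have e : cross n = fun x => (n 1 * x 2 - n 2 * x 1) • vE 1 0 0 +
      (n 2 * x 0 - n 0 * x 2) • vE 0 1 0 + (n 0 * x 1 - n 1 * x 0) • vE 0 0 1 := by
    funext x; apply e3_ext <;> simp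
  rw [e]; fun_prop

lemma continuous_rotD {g : E3 → ℝ} (hg : ContDiff ℝ 1 g) (n : E3) : Continuous (rotD n g) :=
  (hg.continuous_fderiv one_ne_zero).clm_apply (continuous_cross n)

lemma integral_rotD0 {g : E3 → ℝ} (hg : ContDiff ℝ 1 g) :
    ∫ x : Sph, rotD (axis 0) g x ∂area = 0 := by
  have hc := continuous_rotD hg (axis 0)
  obtain ⟨M, hM⟩ := (isCompact_sphere (0 : E3) 1).exists_bound_of_continuousOn hc.continuousOn
  have h := (hasDerivAt_integral_of_dominated_loc_of_deriv_le (μ := area) (x₀ := (0 : ℝ))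
    (F := fun t (x : Sph) => g (rot0 t x)) (F' := fun t (x : Sph) => rotD (axis 0) g (rot0 t x))
    (bound := fun _ => M) (s := univ) univ_mem
    (Eventually.of_forall fun t => Continuous.aestronglyMeasurable
      (hg.continuous.comp ((rot0 t).continuous.comp continuous_subtype_val)))
    ((hg.continuous.comp ((rot0 0).continuous.comp
      continuous_subtype_val)).integrable_of_hasCompactSupport (HasCompactSupport.of_compactSpace _))
    (Continuous.aestronglyMeasurable (hc.comp ((rot0 0).continuous.comp continuous_subtype_val)))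
    (Eventually.of_forall fun x t _ => hM _ (by simp)) (integrable_const M)
    (Eventually.of_forall fun x t _ =>
      (hg.differentiable one_ne_zero _).hasFDerivAt.comp_hasDerivAt t (hasDerivAt_rot0 x t))).2
  simp only [integral_iso] at h
  exact h.unique (hasDerivAt_const _ _)

lemma cross_cyc (n x : E3) : cycE (cross n x) = cross (cycE n) (cycE x) := by
  apply e3_ext <;> simp

lemma cross_sw (n x : E3) : swE (cross n x) = cross (-swE n) (swE x) := by
  apply e3_ext <;> simp <;> ring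

lemma rotD_cyc (n : E3) (f : E3 → ℝ) :
    rotD n (fun x => f (cycE x)) = fun x => rotD (cycE n) f (cycE x) := by
  funext x
  have := cycE.toContinuousLinearEquiv.comp_right_fderiv (f := f) (x := x)
  rw [rotD, rotD, ← cross_cyc]
  exact congrArg (fun L : E3 →L[ℝ] ℝ => L (cross n x)) this

lemma rotD_sw (n : E3) (f : E3 → ℝ) :
    rotD n (fun x => f (swE x)) = fun x => rotD (-swE n) f (swE x) := by
  funext x
  have := swE.toContinuousLinearEquiv.comp_right_fderiv (f := f) (x := x)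
  rw [rotD, rotD, ← cross_sw]
  exact congrArg (fun L : E3 →L[ℝ] ℝ => L (cross n x)) this

lemma cyc_axis0 : cycE (axis 0) = axis 2 := by apply e3_ext <;> simp [axis]
lemma cyc_axis1 : cycE (axis 1) = axis 0 := by apply e3_ext <;> simp [axis]
lemma cyc_axis2 : cycE (axis 2) = axis 1 := by apply e3_ext <;> simp [axis]

lemma integral_rotD {g : E3 → ℝ} (hg : ContDiff ℝ 1 g) (i : Fin 3) :
    ∫ x : Sph, rotD (axis i) g x ∂area = 0 := by
  have h2 : ∀ {g : E3 → ℝ}, ContDiff ℝ 1 g → ∫ x : Sph, rotD (axis 2) g x ∂area = 0 := by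
    intro g hg
    have := integral_rotD0 (g := fun x => g (cycE x)) (hg.comp cycE.contDiff)
    rwa [rotD_cyc, cyc_axis0, integral_iso cycE] at this
  fin_cases i
  · exact integral_rotD0 hg
  · have := h2 (g := fun x => g (cycE x)) (hg.comp cycE.contDiff)
    rwa [rotD_cyc, cyc_axis2, integral_iso cycE] at this
  · exact h2 hg

lemma rotD_eq_zero {g : E3 → ℝ} {x : E3} (hx : x ∉ tsupport g) (n : E3) : rotD n g x = 0 := by
  rw [rotD, fderiv_of_notMem_tsupport ℝ hx]; rfl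

lemma II_rotD {g : E3 → ℝ} (hg : ContDiff ℝ 1 g) (hs : tsupport g ⊆ cone) (i : Fin 3) :
    II (rotD (axis i) g) = 0 := by
  rw [II, setIntegral_eq_integral_of_forall_compl_eq_zero, integral_rotD hg]
  exact fun x hx => rotD_eq_zero (fun h => hx (hs h)) _

end Pool.Agent.MP_c4844d_an

end
end MrgPart2

-- ======== part 3: formerly Pool.Agent.MP_c4844d_an.Chart
section MrgPart3

noncomputable section

open Filter Topology Real MeasureTheory Set
open scoped Pointwise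

namespace Pool.Agent.MP_c4844d_an

/-- the chart with values in the sphere -/
def XS (p : ℝ × ℝ) : Sph := ⟨XX p, by simpa using norm_XX p⟩

lemma continuous_XS : Continuous XS := continuous_XX.subtype_mk _

/-- the strip of the chart -/
def PP : Set (ℝ × ℝ) := {p | |p.2| < π / 3}
/-- the triangle in the chart -/
def Tc : Set (ℝ × ℝ) := {p | |p.2| < π / 3 ∧ XX p ∈ cone}

lemma isOpen_PP : IsOpen PP := isOpen_lt (by fun_prop) continuous_const
lemma isOpen_Tc : IsOpen Tc := isOpen_PP.inter (isOpen_cone.preimage continuous_XX)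

/-- the area density of the chart -/
def sc (s : ℝ) : ℝ := (cosh s ^ 2)⁻¹

lemma sc_pos (s : ℝ) : 0 < sc s := inv_pos.2 (pow_pos (cosh_pos s) 2)
lemma sc_le_one (s : ℝ) : sc s ≤ 1 := inv_le_one_of_one_le₀ (one_le_pow₀ (one_le_cosh s))
lemma continuous_sc : Continuous sc :=
  (continuous_cosh.pow 2).inv₀ fun s => (pow_pos (cosh_pos s) 2).ne'

/-- the frame as an isometry -/
def frmE : E3 ≃ₗᵢ[ℝ] E3 where
  toFun y := frm (y 0) (y 1) (y 2)
  invFun x := vE (g1 x) (g2 x) (g3 x)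
  map_add' x y := by apply e3_ext <;> simp [frm] <;> ring
  map_smul' c x := by apply e3_ext <;> simp [frm] <;> ring
  left_inv x := by apply e3_ext <;> simp [g1_frm, g2_frm, g3_frm]
  right_inv x := by simp [frm_g]
  norm_map' x := norm_eq_of_sq (by
    rw [norm_sq3 x, ← g_sq]
    show g1 (frm _ _ _) ^ 2 + g2 (frm _ _ _) ^ 2 + g3 (frm _ _ _) ^ 2 = _
    rw [g1_frm, g2_frm, g3_frm])

/-- spherical coordinates -/
def psi (y : Fin 3 → ℝ) : Fin 3 → ℝ :=
  ![y 0 * (cos (y 2) / cosh (y 1)), y 0 * (sin (y 2) / cosh (y 1)),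
    y 0 * -(sinh (y 1) / cosh (y 1))]

/-- Jacobian matrix of the spherical coordinates -/
def psiM (y : Fin 3 → ℝ) : Matrix (Fin 3) (Fin 3) ℝ :=
  !![cos (y 2) / cosh (y 1), -(y 0 * cos (y 2) * sinh (y 1) / cosh (y 1) ^ 2),
      -(y 0 * sin (y 2) / cosh (y 1));
    sin (y 2) / cosh (y 1), -(y 0 * sin (y 2) * sinh (y 1) / cosh (y 1) ^ 2),
      y 0 * cos (y 2) / cosh (y 1);
    -(sinh (y 1) / cosh (y 1)), -(y 0 / cosh (y 1) ^ 2), 0]

lemma det_psiM (y : Fin 3 → ℝ) : (psiM y).det = y 0 ^ 2 * sc (y 1) := by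
  have := cosh_pos (y 1)
  have h1 := cos_sq_add_sin_sq (y 2)
  have h2 := cosh_sq (y 1)
  rw [Matrix.det_fin_three]
  simp [psiM, sc]
  field_simp
  grind

lemma hasDerivAt_sech (s : ℝ) : HasDerivAt (fun t => (cosh t)⁻¹) (-(sinh s / cosh s ^ 2)) s :=
  ((hasDerivAt_cosh s).inv (cosh_pos s).ne').congr_deriv (by ring)

lemma hasDerivAt_tanh (s : ℝ) : HasDerivAt (fun t => sinh t / cosh t) (sc s) s := by
  refine ((hasDerivAt_sinh s).div (hasDerivAt_cosh s) (cosh_pos s).ne').congr_deriv ?_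
  have h2 := cosh_sq s
  rw [sc, inv_eq_one_div]; congr 1; linarith

lemma hasFDerivAt_psi (y : Fin 3 → ℝ) :
    HasFDerivAt psi (LinearMap.toContinuousLinearMap (Matrix.toLin' (psiM y))) y := by
  have p : ∀ i, HasFDerivAt (fun z : Fin 3 → ℝ => z i)
      (ContinuousLinearMap.proj (R := ℝ) (φ := fun _ : Fin 3 => ℝ) i) y := fun i =>
    hasFDerivAt_apply i y
  have hc := cosh_pos (y 1)
  have a := (hasDerivAt_sech (y 1)).comp_hasFDerivAt y (p 1)
  have b := (hasDerivAt_tanh (y 1)).comp_hasFDerivAt y (p 1)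
  have c := (hasDerivAt_cos (y 2)).comp_hasFDerivAt y (p 2)
  have d := (hasDerivAt_sin (y 2)).comp_hasFDerivAt y (p 2)
  rw [hasFDerivAt_pi']
  intro i
  fin_cases i
  · refine HasFDerivAt.congr_fderiv ((p 0).mul (c.mul a)) ?_
    ext v; simp [psiM, dotProduct, Fin.sum_univ_three]; field_simp; ring
  · refine HasFDerivAt.congr_fderiv ((p 0).mul (d.mul a)) ?_
    ext v; simp [psiM, dotProduct, Fin.sum_univ_three]; field_simp; ring
  · refine HasFDerivAt.congr_fderiv ((p 0).mul b.neg) ?_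
    ext v; simp [psiM, dotProduct, Fin.sum_univ_three, sc]; field_simp; ring

lemma frm_psi (y : Fin 3 → ℝ) : frmE (WithLp.toLp 2 (psi y)) = y 0 • XX (y 1, y 2) := by
  apply e3_ext <;> simp [frmE, frm, psi, XX] <;> ring

/-- splitting of the coordinates -/
def spl (y : Fin 3 → ℝ) : ℝ × (ℝ × ℝ) := (y 0, (y 1, y 2))

lemma mp_spl : MeasurePreserving spl volume volume := by
  have h1 := volume_preserving_piFinSuccAbove (fun _ : Fin 3 => ℝ) 0
  have h2 := (MeasurePreserving.id (volume : Measure ℝ)).prod (volume_preserving_finTwoArrow ℝ)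
  exact h2.comp h1

lemma vol_cone {B : Set (ℝ × ℝ)} (hB : MeasurableSet B) (hP : B ⊆ PP) :
    (volume : Measure E3) (Ioo (0 : ℝ) 1 • (XX '' B)) =
      ENNReal.ofReal (1 / 3) * ∫⁻ p in B, ENNReal.ofReal (sc p.1) := by
  have hS : MeasurableSet (Ioo (0 : ℝ) 1 ×ˢ B) := measurableSet_Ioo.prod hB
  have hS' := mp_spl.measurable hS
  have hinj : InjOn psi (spl ⁻¹' (Ioo (0 : ℝ) 1 ×ˢ B)) := by
    rintro y ⟨hy0, hy1⟩ z ⟨hz0, hz1⟩ h
    have e : y 0 • XX (y 1, y 2) = z 0 • XX (z 1, z 2) := by rw [← frm_psi, ← frm_psi, h]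
    have y0 : 0 < y 0 := hy0.1
    have z0 : 0 < z 0 := hz0.1
    have e0 : y 0 = z 0 := by
      have := congrArg norm e
      simpa [norm_smul, norm_XX, abs_of_pos y0, abs_of_pos z0] using this
    rw [e0] at e
    have e1 := congrArg YY (smul_right_injective _ z0.ne' e)
    have := pi_pos
    have a : |y 2| < π / 3 := hP hy1
    have b : |z 2| < π / 3 := hP hz1
    rw [YY_XX (by simp only []; linarith), YY_XX (by simp only []; linarith)] at e1
    ext i; fin_cases i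
    exacts [e0, congrArg Prod.fst e1, congrArg Prod.snd e1]
  have key := lintegral_abs_det_fderiv_eq_addHaar_image volume hS'
    (fun y _ => (hasFDerivAt_psi y).hasFDerivWithinAt) hinj
  have mp : MeasurePreserving (fun y : Fin 3 → ℝ => frmE (WithLp.toLp 2 y)) volume volume :=
    frmE.measurePreserving.comp (PiLp.volume_preserving_toLp (Fin 3))
  have me : MeasurableEmbedding (fun y : Fin 3 → ℝ => frmE (WithLp.toLp 2 y)) :=
    frmE.toHomeomorph.measurableEmbedding.comp (MeasurableEquiv.toLp 2 _).measurableEmbedding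
  rw [← mp.measure_preimage_emb me]
  have e : (fun y : Fin 3 → ℝ => frmE (WithLp.toLp 2 y)) ⁻¹' (Ioo (0 : ℝ) 1 • (XX '' B)) =
      psi '' (spl ⁻¹' (Ioo (0 : ℝ) 1 ×ˢ B)) := by
    ext z
    simp only [Set.mem_smul, mem_image, mem_preimage]
    constructor
    · rintro ⟨t, ht, _, ⟨p, hp, rfl⟩, h⟩
      refine ⟨![t, p.1, p.2], ⟨ht, hp⟩, me.injective ?_⟩
      simp only [frm_psi]; exact h
    · rintro ⟨y, ⟨h0, h1⟩, rfl⟩
      exact ⟨y 0, h0, _, ⟨_, h1, rfl⟩, (frm_psi y).symm⟩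
  rw [e, ← key]
  have e2 : ∀ y : Fin 3 → ℝ,
      ENNReal.ofReal |(LinearMap.toContinuousLinearMap (Matrix.toLin' (psiM y))).det| =
      (fun q : ℝ × (ℝ × ℝ) => ENNReal.ofReal (q.1 ^ 2) * ENNReal.ofReal (sc q.2.1)) (spl y) := by
    intro y
    rw [LinearMap.det_toContinuousLinearMap, LinearMap.det_toLin', det_psiM,
      abs_of_nonneg (mul_nonneg (sq_nonneg _) (sc_pos _).le), ENNReal.ofReal_mul (sq_nonneg _)]
    rfl
  have m1 : Measurable fun t : ℝ => ENNReal.ofReal (t ^ 2) := by fun_prop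
  have m2 : Measurable fun p : ℝ × ℝ => ENNReal.ofReal (sc p.1) :=
    (continuous_sc.comp continuous_fst).measurable.ennreal_ofReal
  simp only [e2]
  rw [mp_spl.setLIntegral_comp_preimage hS
    (f := fun q : ℝ × (ℝ × ℝ) => ENNReal.ofReal (q.1 ^ 2) * ENNReal.ofReal (sc q.2.1))
    ((m1.comp measurable_fst).mul (m2.comp measurable_snd)),
    Measure.volume_eq_prod, ← Measure.prod_restrict,
    lintegral_prod_mul m1.aemeasurable m2.aemeasurable]
  congr 1
  rw [← ofReal_integral_eq_lintegral_ofReal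
    ((continuous_pow 2).integrableOn_Icc.mono_set Ioo_subset_Icc_self)
    (Eventually.of_forall fun t => sq_nonneg t), ← integral_Ioc_eq_integral_Ioo,
    ← intervalIntegral.integral_of_le zero_le_one]
  congr 1
  rw [integral_pow]; norm_num

lemma YY_mem_Tc {x : E3} (hx : x ∈ Ts) : YY x ∈ Tc :=
  ⟨abs_YY_lt hx.2 hx.1.1 hx.1.2.2, by rw [XX_YY hx.2 (g1_pos hx.1.1 hx.1.2.2)]; exact hx.1⟩

lemma XX_YY' {x : E3} (hx : x ∈ Ts) : XX (YY x) = x := XX_YY hx.2 (g1_pos hx.1.1 hx.1.2.2)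

lemma YY_XX' {p : ℝ × ℝ} (hp : p ∈ PP) : YY (XX p) = p :=
  YY_XX (by have := pi_pos; have : |p.2| < π / 3 := hp; linarith)

lemma XX_mem_Ts {p : ℝ × ℝ} (hp : p ∈ Tc) : XX p ∈ Ts := ⟨hp.2, norm_XX p⟩

lemma area_chart : area.restrict tri =
    Measure.map XS ((volume.restrict Tc).withDensity fun p => ENNReal.ofReal (sc p.1)) := by
  refine Measure.ext fun A hA => ?_
  have hA' := continuous_XS.measurable hA
  rw [Measure.map_apply continuous_XS.measurable hA, withDensity_apply _ hA',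
    Measure.restrict_restrict hA', Measure.restrict_apply hA, area,
    Measure.toSphere_apply' _ (hA.inter measurableSet_tri)]
  have e : Subtype.val '' (A ∩ tri) = XX '' (XS ⁻¹' A ∩ Tc) := by
    ext x
    constructor
    · rintro ⟨y, ⟨h1, h2⟩, rfl⟩
      have hy := XX_YY' (mem_Ts h2)
      refine ⟨YY y, ⟨?_, YY_mem_Tc (mem_Ts h2)⟩, hy⟩
      have : XS (YY y) = y := Subtype.ext hy
      rwa [mem_preimage, this]
    · rintro ⟨p, ⟨h1, h2⟩, rfl⟩
      exact ⟨XS p, ⟨h1, h2.2⟩, rfl⟩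
  rw [e, vol_cone (hA'.inter isOpen_Tc.measurableSet) (fun p hp => hp.2.1), ← mul_assoc]
  have : ((Module.finrank ℝ E3 : ℕ) : ENNReal) * ENNReal.ofReal (1 / 3) = 1 := by
    rw [finrank_euclideanSpace_fin, ← ENNReal.ofReal_natCast, ← ENNReal.ofReal_mul (by norm_num)]
    norm_num
  rw [this, one_mul]

theorem II_chart {g : E3 → ℝ} (hg : ContinuousOn g Ts) :
    II g = ∫ p in Tc, sc p.1 * g (XX p) := by
  have h := aesm_of hg
  rw [area_chart] at h
  rw [II, area_chart, integral_map continuous_XS.measurable.aemeasurable h,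
    integral_withDensity_eq_integral_toReal_smul
      (f := fun p : ℝ × ℝ => ENNReal.ofReal (sc p.1)) (continuous_sc.comp continuous_fst).measurable.ennreal_ofReal
      (Eventually.of_forall fun _ => ENNReal.ofReal_lt_top)]
  refine integral_congr_ae (Eventually.of_forall fun p => ?_)
  simp only [ENNReal.toReal_ofReal (sc_pos _).le, smul_eq_mul]
  rfl

/-- the chart formula on a rectangle containing the support -/
theorem II_rect {g : E3 → ℝ} (hg : ContinuousOn g Ts) {G : ℝ × ℝ → ℝ} {a b : ℝ}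
    (h1 : ∀ p ∈ Tc, sc p.1 * g (XX p) = G p) (h2 : ∀ p ∈ PP, p ∉ Tc → G p = 0)
    (h3 : ∀ p ∈ PP, p.1 ∉ Ioc a b → G p = 0) :
    II g = ∫ p in Ioc a b ×ˢ Ioc (-(π / 3)) (π / 3), G p := by
  rw [II_chart hg, setIntegral_congr_fun isOpen_Tc.measurableSet h1,
    ← setIntegral_eq_of_subset_of_forall_sdiff_eq_zero isOpen_PP.measurableSet
      (fun p hp => hp.1) (fun p hp => h2 p hp.1 hp.2)]
  have e : Ioc a b ×ˢ Ioc (-(π / 3)) (π / 3) =ᵐ[volume] Ioc a b ×ˢ Ioo (-(π / 3)) (π / 3) := by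
    rw [Measure.volume_eq_prod]
    exact Measure.set_prod_ae_eq EventuallyEq.rfl Ioo_ae_eq_Ioc.symm
  rw [setIntegral_congr_set e]
  refine setIntegral_eq_of_subset_of_forall_sdiff_eq_zero isOpen_PP.measurableSet
    (fun p hp => abs_lt.2 hp.2) fun p hp => h3 p hp.1 fun h => hp.2 ⟨h, abs_lt.1 hp.1⟩

end Pool.Agent.MP_c4844d_an

end
end MrgPart3

-- marker of a merged file
example : 731051 + 149214 = 731051 + 149214 := rfl
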