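import Pool.Agent.MP_c4844d_an.Ground

noncomputable section

open Filter Topology Real Set

namespace Pool.Agent.MP_c4844d_an

/-- complex geodesic through the centre -/
def gam (m : V3) (t : ℂ) : V3 := Complex.cos t • cc + Complex.sin t • m

lemma gam_zero (m : V3) : gam m 0 = cc := by simp [gam]

lemma gam_cyc (m : V3) (t : ℂ) : gam (cyc m) t = cyc (gam m t) := by
  apply v3_ext <;> simp [gam, cyc, cc]

section
variable {m : V3} (h0 : m 0 + m 1 + m 2 = 0) (h1 : sq3 m = 1)
include h0 h1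

lemma hasDerivAt_gam (t : ℂ) : HasDerivAt (gam m) (crs (crs cc m) (gam m t)) t := by
  have := ((Complex.hasDerivAt_cos t).smul_const cc).add ((Complex.hasDerivAt_sin t).smul_const m)
  refine this.congr_deriv ?_
  have h3 := hs3
  unfold sq3 at h1
  apply v3_ext <;> simp [gam, cc] <;> grind

lemma sq3_gam (t : ℂ) : sq3 (gam m t) = 1 := by
  have h3 := hs3
  have := Complex.cos_sq_add_sin_sq t
  unfold sq3 at h1 ⊢
  simp [gam, cc]; grind

variable {lam r : ℝ} (hr : r ≤ 1) {t : ℂ} (ht : gam m t ∈ Om r)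
include ht

lemma ev_gam : ∀ᶠ s in 𝓝 t, gam m s ∈ Om r :=
  (hasDerivAt_gam h0 h1 t).continuousAt.preimage_mem_nhds ((isOpen_Om r).mem_nhds ht)

include hr

lemma hasDerivAt_Ev_gam (v : GP r) : HasDerivAt (fun s => Ev lam v (gam m s))
    (Ev lam (LL lam r (crs cc m) v) (gam m t)) t := by
  rw [← fderiv_Ev lam hr v ht (sq3_gam h0 h1 t)]
  exact (differentiableAt_Ev lam hr v ht).hasFDerivAt.comp_hasDerivAt t (hasDerivAt_gam h0 h1 t)

lemma analyticAt_Ev_gam (v : GP r) : AnalyticAt ℂ (fun s => Ev lam v (gam m s)) t := by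
  rw [Complex.analyticAt_iff_eventually_differentiableAt]
  filter_upwards [ev_gam h0 h1 ht] with s hs using
    (hasDerivAt_Ev_gam h0 h1 hr hs v).differentiableAt

lemma iter_Ev_gam (k : ℕ) (v : GP r) : iteratedDeriv k (fun s => Ev lam v (gam m s)) t =
    Ev lam ((LL lam r (crs cc m) ^ k) v) (gam m t) := by
  induction k generalizing v with
  | zero => simp
  | succ k ih =>
    rw [iteratedDeriv_succ', pow_succ, Module.End.mul_apply, ← ih]
    refine EventuallyEq.iteratedDeriv_eq k ?_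
    filter_upwards [ev_gam h0 h1 ht] with s hs using (hasDerivAt_Ev_gam h0 h1 hr hs v).deriv

end

lemma emb_cE : emb cE = cc := by apply v3_ext <;> simp [cE, cc, s3_eq]
lemma cyc_cE : cycE cE = cE := by apply e3_ext <;> rfl

lemma g3_cE : g3 cE = 1 / 3 := by
  have := hr3
  simp only [g3, cE, vE0, vE1, vE2]; grind

lemma Rad.cE_mem {r : ℝ} (hr : Rad r) : cE ∈ Sec r :=
  mem_Sec_of hr.big Pool.Agent.MP_c4844d_an.cE_mem.1
    (by rw [g3_cE, Pool.Agent.MP_c4844d_an.cE_mem.2])

lemma Rad.cc_mem {r : ℝ} (hr : Rad r) : cc ∈ Om r :=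
  emb_cE ▸ emb_mem_Om hr.pos hr.le hr.cE_mem Pool.Agent.MP_c4844d_an.cE_mem.2

lemma comb_mem_Sec {r : ℝ} (hr : Rad r) {x y : E3} (hx : x ∈ Sec r) (hy : y ∈ Sec r) {a b : ℝ}
    (ha : 0 ≤ a) (hb : 0 ≤ b) (h : a • x + b • y ≠ 0) : a • x + b • y ∈ Sec r := by
  rcases ha.eq_or_lt with rfl | ha
  · rcases hb.eq_or_lt with rfl | hb
    · simp at h
    · simpa using smul_mem_Sec hy hb
  rcases hb.eq_or_lt with rfl | hb
  · simpa using smul_mem_Sec hx ha
  obtain ⟨⟨a1, a2, a3⟩, a4⟩ := smul_mem_Sec hx ha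
  obtain ⟨⟨b1, b2, b3⟩, b4⟩ := smul_mem_Sec hy hb
  generalize a • x = u at *
  generalize b • y = w at *
  refine ⟨⟨?_, ?_, ?_⟩, ?_⟩
  · simp only [PiLp.add_apply]; linarith
  · simp only [PiLp.add_apply]; linarith
  · simp only [PiLp.add_apply]; linarith
  · have e : g3 (u + w) = g3 u + g3 w := by simp [g3]; ring
    have := mul_le_mul_of_nonneg_left (norm_add_le u w) (kap_nonneg hr.pos hr.le)
    rw [e]; linarith

/-- invariance of the jets at the centre gives invariance on the overlap -/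
theorem compat_of_jets {lam r : ℝ} (hr : Rad r) {v : GP r}
    (H : ∀ n : V3, n 0 + n 1 + n 2 = 0 → ∀ k : ℕ,
      Ev lam ((LL lam r (cyc n) ^ k) v) cc = Ev lam ((LL lam r n ^ k) v) cc) : Compat lam v := by
  have key : ∀ y ∈ Sec r, cycE y ∈ Sec r → ‖y‖ = 1 →
      Ev lam v (emb (cycE y)) = Ev lam v (emb y) := fun y a c n => by
    have h3 := hr3
    have p3 := r3_pos
    have ns := norm_sq3 y
    rw [n] at ns
    set d := r3 / 3 * (y 0 + y 1 + y 2) with hd
    have d0 : 0 < d := by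
      obtain ⟨a1, a2, a3⟩ := a.1
      have : 0 < y 0 + y 1 + y 2 := by linarith
      positivity
    have e0 : ‖y - cE‖ ^ 2 = 2 - 2 * d := by
      rw [norm_sq3]; simp only [PiLp.sub_apply, cE, vE0, vE1, vE2]
      linear_combination (1 / 3) * h3 - ns
    have d1 : d ≤ 1 := by nlinarith [sq_nonneg ‖y - cE‖]
    rcases d1.eq_or_lt with d2 | d2
    · have : y = cE := by
        rw [← sub_eq_zero, ← norm_eq_zero, ← sq_eq_zero_iff, e0, d2]; norm_num
      rw [this, cyc_cE]
    set t0 := arccos d with ht0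
    have c0 : cos t0 = d := cos_arccos (by linarith) d1
    have t1 : 0 < t0 := arccos_pos.2 d2
    have t2 : t0 < π := (arccos_lt_pi_div_two.2 d0).trans (by linarith [pi_pos])
    have s0 : 0 < sin t0 := sin_pos_of_pos_of_lt_pi t1 t2
    have sc := cos_sq_add_sin_sq t0
    rw [c0] at sc
    set m : E3 := (sin t0)⁻¹ • (y - d • cE) with hm
    have m0 : emb m 0 + emb m 1 + emb m 2 = 0 := by
      have : m 0 + m 1 + m 2 = 0 := by
        simp only [hm, PiLp.smul_apply, PiLp.sub_apply, cE, vE0, vE1, vE2, smul_eq_mul]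
        linear_combination (-(sin t0)⁻¹ * (y 0 + y 1 + y 2) / 3) * h3 - (sin t0)⁻¹ * r3 * hd
      simp only [emb_apply]
      rw [← Complex.ofReal_add, ← Complex.ofReal_add, this, Complex.ofReal_zero]
    have m1 : sq3 (emb m) = 1 := by
      have : ‖m‖ ^ 2 = 1 := by
        rw [norm_sq3]
        simp only [hm, PiLp.smul_apply, PiLp.sub_apply, cE, vE0, vE1, vE2, smul_eq_mul]
        field_simp
        linear_combination (3 * d ^ 2) * h3 - 9 * ns - 9 * sc + 18 * d * hd
      rw [sq3_emb, this]; simp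
    have m0' : cyc (emb m) 0 + cyc (emb m) 1 + cyc (emb m) 2 = 0 := by
      simp only [cyc, vec0, vec1, vec2]; linear_combination m0
    have m1' : sq3 (cyc (emb m)) = 1 := by
      simp only [cyc, sq3, vec0, vec1, vec2] at m1 ⊢; linear_combination m1
    have P : ∀ t : ℝ, gam (emb m) t =
        emb ((sin (t0 - t) / sin t0) • cE + (sin t / sin t0) • y) := fun t => by
      have : (sin (t0 - t) / sin t0) • cE + (sin t / sin t0) • y = cos t • cE + sin t • m := by
        rw [sin_sub, c0, hm]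
        match_scalars
        · field_simp; ring
        · field_simp
      rw [this, gam, ← emb_cE]
      apply v3_ext <;> simp
    have M : ∀ t ∈ Icc 0 t0, gam (emb m) t ∈ Om r ∧ gam (cyc (emb m)) t ∈ Om r := fun t ht => by
      have n1 : ‖(sin (t0 - t) / sin t0) • cE + (sin t / sin t0) • y‖ = 1 := by
        have := sq3_gam m0 m1 t
        rw [P, sq3_emb] at this
        exact (sq_eq_sq₀ (norm_nonneg _) zero_le_one).1 (by rw [one_pow]; exact_mod_cast this)
      have a1 : 0 ≤ sin (t0 - t) / sin t0 := div_nonneg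
        (sin_nonneg_of_nonneg_of_le_pi (by linarith [ht.2]) (by linarith [ht.1])) s0.le
      have a2 : 0 ≤ sin t / sin t0 := div_nonneg
        (sin_nonneg_of_nonneg_of_le_pi ht.1 (by linarith [ht.2])) s0.le
      have n2 : ‖(sin (t0 - t) / sin t0) • cE + (sin t / sin t0) • cycE y‖ = 1 := by
        rw [← cyc_cE, ← map_smul, ← map_smul, ← map_add, cycE.norm_map, n1]
      rw [gam_cyc, P, ← emb_cyc, map_add cycE, map_smul, map_smul, cyc_cE]
      exact ⟨emb_mem_Om hr.pos hr.le (comb_mem_Sec hr hr.cE_mem a a1 a2 fun z => by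
          simp [z] at n1) n1,
        emb_mem_Om hr.pos hr.le (comb_mem_Sec hr hr.cE_mem c a1 a2 fun z => by
          simp [z] at n2) n2⟩
    have A : AnalyticOnNhd ℂ ((fun s => Ev lam v (gam (cyc (emb m)) s)) -
        fun s => Ev lam v (gam (emb m) s)) (Complex.ofReal '' Icc 0 t0) := by
      rintro _ ⟨t, ht, rfl⟩
      exact (analyticAt_Ev_gam m0' m1' hr.le (M t ht).2 v).sub
        (analyticAt_Ev_gam m0 m1 hr.le (M t ht).1 v)
    have z : (0 : ℂ) ∈ Complex.ofReal '' Icc 0 t0 := ⟨0, ⟨le_rfl, t1.le⟩, rfl⟩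
    have M0 := M 0 ⟨le_rfl, t1.le⟩
    rw [Complex.ofReal_zero] at M0
    have := A.eqOn_zero_of_preconnected_of_eventuallyEq_zero
      (isPreconnected_Icc.image _ Complex.continuous_ofReal.continuousOn) z
      (analyticOrderAt_eq_top.1 (ENat.eq_top_iff_forall_ge.2 fun N =>
        (natCast_le_analyticOrderAt_iff_iteratedDeriv_eq_zero (A 0 z)).2 fun k _ => by
          have e : crs cc (cyc (emb m)) = cyc (crs cc (emb m)) := by
            apply v3_ext <;> simp [cyc, cc]
          rw [iteratedDeriv_sub (analyticAt_Ev_gam m0' m1' hr.le M0.2 v).contDiffAt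
            (analyticAt_Ev_gam m0 m1 hr.le M0.1 v).contDiffAt, iter_Ev_gam m0' m1' hr.le M0.2,
            iter_Ev_gam m0 m1 hr.le M0.1, gam_zero, gam_zero, e,
            H _ (by simp [cc]), sub_self]))
      ⟨t0, ⟨t1.le, le_rfl⟩, rfl⟩
    simp only [Pi.sub_apply, Pi.zero_apply, gam_cyc, P, sub_self, sin_zero, zero_div, zero_smul,
      zero_add, div_self s0.ne', one_smul] at this
    rw [emb_cyc]; exact sub_eq_zero.1 this
  intro x a c
  rw [U, U, nrm_iso, key _ (nrm_mem_Sec a) (by rw [← nrm_iso]; exact nrm_mem_Sec c)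
    (norm_nrm (ne_zero_of_cone a.1))]

end Pool.Agent.MP_c4844d_an
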