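import Mathlib.Analysis.Normed.Lp.MeasurableSpace
import Mathlib.Analysis.Calculus.Gradient.Basic
import Mathlib.MeasureTheory.Constructions.HaarToSphere

/-!
Definitions for the tetrahedral spherical triangle: the first Dirichlet eigenvalue,
the rotation fields and the Legendre series.
-/

noncomputable section

open MeasureTheory

namespace Pool.Agent.MP_c4844d_an

/-- Euclidean three-space. -/
abbrev E3 : Type := EuclideanSpace ℝ (Fin 3)

/-- The open cone over the face with vertices (-1,1,1), (1,-1,1), (1,1,-1) of the regular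
tetrahedron whose fourth vertex is (-1,-1,-1). -/
def cone : Set E3 := {x | 0 < x 0 + x 1 ∧ 0 < x 1 + x 2 ∧ 0 < x 2 + x 0}

/-- The open spherical triangle T with three angles 2π/3. -/
def tri : Set (Metric.sphere (0 : E3) 1) := {x | (x : E3) ∈ cone}

/-- Surface area on the unit sphere. -/
def area : Measure (Metric.sphere (0 : E3) 1) := (volume : Measure E3).toSphere

/-- Squared length of the part of the gradient of `f` tangent to the sphere at the unit
vector `x`. -/
def tgradSq (f : E3 → ℝ) (x : E3) : ℝ :=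
  ‖gradient f x‖ ^ 2 - (inner ℝ (gradient f x) x) ^ 2

/-- The first Dirichlet eigenvalue of T: the infimum of the Rayleigh quotient over the
nonzero C^1 functions with compact support in T (restrictions of C^1 functions on space whose
closed support lies in the open cone). -/
def lam1 : ℝ :=
  sInf {r : ℝ | ∃ f : E3 → ℝ, ContDiff ℝ 1 f ∧ tsupport f ⊆ cone ∧
    0 < ∫ x in tri, f x ^ 2 ∂area ∧
    r = (∫ x in tri, tgradSq f x ∂area) / ∫ x in tri, f x ^ 2 ∂area}

/-- Cross product. -/
def cross (n x : E3) : E3 :=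
  !₂[n 1 * x 2 - n 2 * x 1, n 2 * x 0 - n 0 * x 2, n 0 * x 1 - n 1 * x 0]

/-- Derivative of `f` along the rotation field about the axis `n`. -/
def rotD (n : E3) (f : E3 → ℝ) (x : E3) : ℝ := fderiv ℝ f x (cross n x)

/-- The `i`-th coordinate axis. -/
def axis (i : Fin 3) : E3 := EuclideanSpace.single i 1

/-- Coefficients of the Gauss series F(-ν, ν+1; 1+m; x), where `lam` = ν(ν+1). -/
def hc (lam m : ℝ) (n : ℕ) : ℝ :=
  ∏ j ∈ Finset.range n, ((j : ℝ) * (j + 1) - lam) / ((j + 1) * (j + 1 + m))

/-- The Gauss series F(-ν, ν+1; 1+m; x), where `lam` = ν(ν+1). -/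
def hyp (lam m x : ℝ) : ℝ := ∑' n : ℕ, hc lam m n * x ^ n

end Pool.Agent.MP_c4844d_an
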