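import Mathlib.Tactic.Monotonicity.Lemmas
import Mathlib.Combinatorics.Matroid.Basic
import Mathlib.Geometry.Manifold.PartitionOfUnity
import Mathlib.Geometry.Manifold.Sheaf.Basic
import Mathlib.Order.CompletePartialOrder
import Pool.Agent.MP_c4844d_an.Chart

-- ======== part 0: formerly Pool.Agent.MP_c4844d_an.Var
section MrgPart0

noncomputable section

open Filter Topology Real MeasureTheory Set
open scoped Manifold

namespace Pool.Agent.MP_c4844d_an

/-- admissible test functions -/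
def Adm (f : E3 → ℝ) : Prop := ContDiff ℝ 1 f ∧ tsupport f ⊆ cone

/-- product of tangential gradients -/
def gg (f g : E3 → ℝ) (x : E3) : ℝ :=
  rotD (axis 0) f x * rotD (axis 0) g x + rotD (axis 1) f x * rotD (axis 1) g x +
    rotD (axis 2) f x * rotD (axis 2) g x

lemma rotD_grad (n : E3) (f : E3 → ℝ) (x : E3) :
    rotD n f x = gradient f x 0 * (n 1 * x 2 - n 2 * x 1) +
      gradient f x 1 * (n 2 * x 0 - n 0 * x 2) + gradient f x 2 * (n 0 * x 1 - n 1 * x 0) := by
  rw [rotD, ← inner_gradient_left, inner3]; simp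

lemma tgradSq_eq (f : E3 → ℝ) {x : E3} (hx : ‖x‖ = 1) : tgradSq f x = gg f f x := by
  have h := norm_sq3 x
  rw [hx] at h
  simp only [tgradSq, gg, rotD_grad, norm_sq3, inner3, axis]
  simp
  linear_combination (gradient f x 0 ^ 2 + gradient f x 1 ^ 2 + gradient f x 2 ^ 2) * h

lemma gg_self_nonneg (f : E3 → ℝ) (x : E3) : 0 ≤ gg f f x := by
  unfold gg; nlinarith [mul_self_nonneg (rotD (axis 0) f x), mul_self_nonneg (rotD (axis 1) f x),
    mul_self_nonneg (rotD (axis 2) f x)]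

lemma continuous_gg {f g : E3 → ℝ} (hf : ContDiff ℝ 1 f) (hg : ContDiff ℝ 1 g) :
    Continuous (gg f g) :=
  (((continuous_rotD hf _).mul (continuous_rotD hg _)).add
    ((continuous_rotD hf _).mul (continuous_rotD hg _))).add
    ((continuous_rotD hf _).mul (continuous_rotD hg _))

/-- Dirichlet form -/
def QQ (f g : E3 → ℝ) : ℝ := II (gg f g)
/-- scalar product -/
def NN (f g : E3 → ℝ) : ℝ := II fun x => f x * g x
/-- shifted form -/
def BB (f g : E3 → ℝ) : ℝ := QQ f g - lam1 * NN f g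

lemma QQ_nonneg (f : E3 → ℝ) : 0 ≤ QQ f f := II_nonneg fun x _ => gg_self_nonneg f x
lemma NN_nonneg (f : E3 → ℝ) : 0 ≤ NN f f := II_nonneg fun _ _ => mul_self_nonneg _

/-- the set of Rayleigh quotients -/
def RS : Set ℝ := {r | ∃ f, Adm f ∧ 0 < NN f f ∧ r = QQ f f / NN f f}

lemma lam1_eq : lam1 = sInf RS := by
  have e1 : ∀ f : E3 → ℝ, ∫ x in tri, f x ^ 2 ∂area = NN f f := fun f => by
    simp only [NN, II, sq]
  have e2 : ∀ f : E3 → ℝ, ∫ x in tri, tgradSq f x ∂area = QQ f f := fun f =>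
    II_congr fun x hx => tgradSq_eq f hx.2
  simp only [lam1, e1, e2, RS, Adm, and_assoc]

lemma RS_nonneg : ∀ r ∈ RS, 0 ≤ r := by
  rintro r ⟨f, -, h, rfl⟩; exact div_nonneg (QQ_nonneg f) h.le

lemma lam1_nonneg : 0 ≤ lam1 := by rw [lam1_eq]; exact Real.sInf_nonneg RS_nonneg

lemma BB_nonneg {f : E3 → ℝ} (hf : Adm f) : 0 ≤ BB f f := by
  rcases (NN_nonneg f).eq_or_lt with h | h
  · rw [BB, ← h]; simpa using QQ_nonneg f
  · have : lam1 ≤ QQ f f / NN f f := by
      rw [lam1_eq]; exact csInf_le ⟨0, RS_nonneg⟩ ⟨f, hf, h, rfl⟩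
    rw [le_div_iff₀ h] at this
    rw [BB]; linarith

lemma Adm.cb {f : E3 → ℝ} (hf : Adm f) : Cb f := Cb.of_continuous hf.1.continuous

lemma Adm.comb {f g : E3 → ℝ} (hf : Adm f) (hg : Adm g) (t : ℝ) :
    Adm fun x => t * f x + g x := by
  refine ⟨(contDiff_const.mul hf.1).add hg.1, ?_⟩
  refine (tsupport_add _ _).trans (union_subset ?_ hg.2)
  exact (tsupport_mul_subset_right).trans hf.2

lemma rotD_comb {f g : E3 → ℝ} {x : E3} (hf : DifferentiableAt ℝ f x)
    (hg : DifferentiableAt ℝ g x) (t : ℝ) (n : E3) :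
    rotD n (fun x => t * f x + g x) x = t * rotD n f x + rotD n g x := by
  have := ((hf.hasFDerivAt.const_mul t).add hg.hasFDerivAt).fderiv
  rw [rotD, show (fun x => t * f x + g x) = (fun x => t * f x) + g from rfl, this]
  simp [rotD]

lemma BB_comb {f g : E3 → ℝ} (hf : Adm f) (hg : Adm g) (t : ℝ) :
    BB (fun x => t * f x + g x) (fun x => t * f x + g x) =
      BB f f * (t * t) + 2 * BB f g * t + BB g g := by
  have c1 := Cb.of_continuous (continuous_gg hf.1 hf.1)
  have c2 := Cb.of_continuous (continuous_gg hf.1 hg.1)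
  have c3 := Cb.of_continuous (continuous_gg hg.1 hg.1)
  have d1 := hf.cb.mul hf.cb
  have d2 := hf.cb.mul hg.cb
  have d3 := hg.cb.mul hg.cb
  have e1 : QQ (fun x => t * f x + g x) (fun x => t * f x + g x) =
      t * t * QQ f f + 2 * t * QQ f g + QQ g g := by
    simp only [QQ]
    rw [← II_const_mul, ← II_const_mul, ← II_add (c1.const_mul _) (c2.const_mul _),
      ← II_add ((c1.const_mul _).add (c2.const_mul _)) c3]
    refine II_congr fun x _ => ?_
    simp only [gg, rotD_comb (hf.1.differentiable one_ne_zero x) (hg.1.differentiable one_ne_zero x)]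
    ring
  have e2 : NN (fun x => t * f x + g x) (fun x => t * f x + g x) =
      t * t * NN f f + 2 * t * NN f g + NN g g := by
    simp only [NN]
    rw [← II_const_mul, ← II_const_mul, ← II_add (d1.const_mul _) (d2.const_mul _),
      ← II_add ((d1.const_mul _).add (d2.const_mul _)) d3]
    exact II_congr fun x _ => by ring
  simp only [BB, e1, e2]; ring

lemma BB_cs {f g : E3 → ℝ} (hf : Adm f) (hg : Adm g) : BB f g ^ 2 ≤ BB f f * BB g g := by
  have := discrim_le_zero (a := BB f f) (b := 2 * BB f g) (c := BB g g) fun t => by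
    rw [← BB_comb hf hg]; exact BB_nonneg (hf.comb hg t)
  rw [discrim] at this; linarith

lemma Adm.add {f g : E3 → ℝ} (hf : Adm f) (hg : Adm g) : Adm fun x => f x + g x := by
  simpa using hf.comb hg 1

lemma BB_add_le {f g : E3 → ℝ} (hf : Adm f) (hg : Adm g) :
    BB (fun x => f x + g x) (fun x => f x + g x) ≤ 2 * BB f f + 2 * BB g g := by
  have h1 := BB_comb hf hg 1
  have h2 := BB_nonneg (hf.comb hg (-1))
  rw [BB_comb hf hg] at h2
  simp only [one_mul] at h1
  rw [h1]; linarith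

lemma BB_le_QQ (f : E3 → ℝ) : BB f f ≤ QQ f f := by
  have := mul_nonneg lam1_nonneg (NN_nonneg f)
  rw [BB]; linarith

lemma Adm.iso {f : E3 → ℝ} (hf : Adm f) (e : E3 ≃ₗᵢ[ℝ] E3) (he : ∀ x, e x ∈ cone ↔ x ∈ cone) :
    Adm fun x => f (e x) := by
  refine ⟨hf.1.comp e.contDiff, fun x hx => (he x).1 (hf.2 ?_)⟩
  have := tsupport_comp_eq_preimage f e.toHomeomorph
  have h2 : x ∈ tsupport (f ∘ e.toHomeomorph) := hx
  rwa [this] at h2

lemma rotD_neg (n : E3) (f : E3 → ℝ) (x : E3) : rotD (-n) f x = -rotD n f x := by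
  simp only [rotD_grad, PiLp.neg_apply]; ring

lemma sw_axis0 : swE (axis 0) = axis 0 := by apply e3_ext <;> simp [axis]
lemma sw_axis1 : swE (axis 1) = axis 2 := by apply e3_ext <;> simp [axis]
lemma sw_axis2 : swE (axis 2) = axis 1 := by apply e3_ext <;> simp [axis]

lemma BB_cyc (f : E3 → ℝ) : BB (fun x => f (cycE x)) (fun x => f (cycE x)) = BB f f := by
  have h1 := II_iso cycE (fun _ => cyc_mem_cone) (gg f f)
  have h2 := II_iso cycE (fun _ => cyc_mem_cone) fun x => f x * f x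
  simp only [BB, QQ, NN, ← h1, h2]
  congr 2; funext x
  simp only [gg, rotD_cyc, cyc_axis0, cyc_axis1, cyc_axis2]; ring

lemma BB_sw (f : E3 → ℝ) : BB (fun x => f (swE x)) (fun x => f (swE x)) = BB f f := by
  have h1 := II_iso swE (fun _ => sw_mem_cone) (gg f f)
  have h2 := II_iso swE (fun _ => sw_mem_cone) fun x => f x * f x
  simp only [BB, QQ, NN, ← h1, h2]
  congr 2; funext x
  simp only [gg, rotD_sw, sw_axis0, sw_axis1, sw_axis2, rotD_neg]; ring

/-- tangential derivatives depend only on the restriction to the sphere -/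
lemma rotD_congr_Ts {f g : E3 → ℝ} {x : E3} (hx : x ∈ Ts) (hf : DifferentiableAt ℝ f x)
    (hg : DifferentiableAt ℝ g x) (h : ∀ y ∈ Ts, f y = g y) (n : E3) :
    rotD n f x = rotD n g x := by
  have h0 := ne_zero_of_cone hx.1
  have e : (fun y => f (nrm y)) =ᶠ[𝓝 x] fun y => g (nrm y) := by
    filter_upwards [isOpen_cone.mem_nhds hx.1] with y hy
    exact h _ ⟨nrm_mem_cone hy, norm_nrm (ne_zero_of_cone hy)⟩
  have hn := nrm_of_norm hx.2
  have d : fderiv ℝ nrm x (cross n x) = cross n x := by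
    have hs := norm_sq3 x
    rw [hx.2] at hs
    rw [fderiv_nrm h0, hn, hx.2]
    apply e3_ext <;> simp
    · linear_combination (-(n 1 * x 2 - n 2 * x 1)) * hs
    · linear_combination (-(n 2 * x 0 - n 0 * x 2)) * hs
    · linear_combination (-(n 0 * x 1 - n 1 * x 0)) * hs
  have a : HasFDerivAt f (fderiv ℝ f x) (nrm x) := by rw [hn]; exact hf.hasFDerivAt
  have b : HasFDerivAt g (fderiv ℝ g x) (nrm x) := by rw [hn]; exact hg.hasFDerivAt
  have a' := (a.comp x (differentiableAt_nrm h0).hasFDerivAt).fderiv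
  have b' := (b.comp x (differentiableAt_nrm h0).hasFDerivAt).fderiv
  have c := e.fderiv_eq (𝕜 := ℝ)
  rw [show (fun y => f (nrm y)) = f ∘ nrm from rfl, show (fun y => g (nrm y)) = g ∘ nrm from rfl,
    a', b'] at c
  have := congrArg (fun L : E3 →L[ℝ] ℝ => L (cross n x)) c
  simpa only [ContinuousLinearMap.comp_apply, d, rotD] using this

/-- extension of a function with compact support in the triangle -/
lemma exists_ext {g : E3 → ℝ} (hg : ContDiffOn ℝ 1 g cone) {K : Set E3} (hK : IsCompact K)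
    (hKc : K ⊆ cone) (h0 : ∀ x ∈ Ts, x ∉ K → g x = 0) :
    ∃ f, Adm f ∧ (∀ x ∈ Ts, f x = g x) ∧ ∀ x ∈ Ts, ∀ n, rotD n f x = rotD n g x := by
  obtain ⟨t, ht, h1, h2⟩ := exists_compact_between hK isOpen_cone hKc
  obtain ⟨κ, k1, k2, -⟩ := exists_contMDiffMap_one_nhds_of_subset_interior (n := 1) 𝓘(ℝ, E3)
    hK.isClosed h1
  have hκ : ContDiff ℝ 1 κ := κ.contMDiff.contDiff
  have hs : tsupport κ ⊆ t :=
    closure_minimal (fun x hx => by_contra fun h => hx (k2 x h)) ht.isClosed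
  have hs2 : tsupport (fun x => κ x * g x) ⊆ cone :=
    tsupport_mul_subset_left.trans (hs.trans h2)
  have hd : ContDiff ℝ 1 fun x => κ x * g x := by
    rw [contDiff_iff_contDiffAt]
    intro x
    by_cases hx : x ∈ cone
    · exact hκ.contDiffAt.mul (hg.contDiffAt (isOpen_cone.mem_nhds hx))
    · exact contDiffAt_const.congr_of_eventuallyEq
        (notMem_tsupport_iff_eventuallyEq.1 fun h => hx (hs2 h))
  have he : ∀ x ∈ Ts, κ x * g x = g x := fun x hx => by
    by_cases h : x ∈ K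
    · rw [k1.self_of_nhdsSet x h, one_mul]
    · rw [h0 x hx h, mul_zero]
  exact ⟨_, ⟨hd, hs2⟩, he, fun x hx n => rotD_congr_Ts hx (hd.differentiable one_ne_zero x)
    ((hg.contDiffAt (isOpen_cone.mem_nhds hx.1)).differentiableAt one_ne_zero) he n⟩

/-- primitive -/
def PI (k : ℝ → ℝ) (t : ℝ) : ℝ := ∫ r in (0 : ℝ)..t, k r

lemma hasDerivAt_PI {k : ℝ → ℝ} (hk : Continuous k) (t : ℝ) : HasDerivAt (PI k) (k t) t :=
  (hk.integral_hasStrictDerivAt 0 t).hasDerivAt

lemma contDiff_PI {k : ℝ → ℝ} (hk : Continuous k) : ContDiff ℝ 1 (PI k) := by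
  refine contDiff_one_iff_deriv.2 ⟨fun t => (hasDerivAt_PI hk t).differentiableAt, ?_⟩
  rwa [show deriv (PI k) = k from funext fun t => (hasDerivAt_PI hk t).deriv]

/-- a continuous step -/
structure Step (ε : ℝ) (k : ℝ → ℝ) : Prop where
  cont : Continuous k
  nonneg : ∀ t, 0 ≤ k t
  le_one : ∀ t, k t ≤ 1
  zero : ∀ t, t ≤ ε → k t = 0
  one : ∀ t, 2 * ε ≤ t → k t = 1

lemma exists_step {ε : ℝ} (hε : 0 < ε) : ∃ k, Step ε k := by
  refine ⟨fun t => max 0 (min 1 (t / ε - 1)), by fun_prop, fun t => le_max_left _ _,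
    fun t => max_le zero_le_one (min_le_left _ _), fun t ht => max_eq_left ?_, fun t ht => ?_⟩
  · have : t / ε ≤ 1 := (div_le_one hε).2 ht
    exact (min_le_right _ _).trans (by linarith)
  · have : 2 ≤ t / ε := (le_div_iff₀ hε).2 ht
    rw [min_eq_left (by linarith), max_eq_right zero_le_one]

lemma Step.sq {ε : ℝ} {k : ℝ → ℝ} (h : Step ε k) : Step ε fun t => k t * k t :=
  ⟨h.cont.mul h.cont, fun t => mul_self_nonneg _,
    fun t => mul_le_one₀ (h.le_one t) (h.nonneg t) (h.le_one t),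
    fun t ht => by rw [h.zero t ht, mul_zero], fun t ht => by rw [h.one t ht, mul_one]⟩

lemma Step.PI_zero {ε : ℝ} (hε : 0 < ε) {k : ℝ → ℝ} (h : Step ε k) {t : ℝ} (ht : t ≤ ε) :
    PI k t = 0 := by
  rw [PI, intervalIntegral.integral_congr (g := fun _ => 0)]
  · simp
  · intro r hr
    exact h.zero r (hr.2.trans (max_le hε.le ht))

lemma Step.PI_bounds {ε : ℝ} (hε : 0 < ε) {k : ℝ → ℝ} (h : Step ε k) (t : ℝ) :
    0 ≤ PI k t ∧ PI k t ≤ max t 0 ∧ max t 0 - 2 * ε ≤ PI k t := by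
  rcases le_total t 0 with ht | ht
  · rw [h.PI_zero hε (by linarith), max_eq_right ht]
    exact ⟨le_rfl, le_rfl, by linarith⟩
  have a : ∀ s, 0 ≤ s → 0 ≤ PI k s := fun s hs =>
    intervalIntegral.integral_nonneg hs fun r _ => h.nonneg r
  rw [max_eq_left ht]
  refine ⟨a t ht, ?_, ?_⟩
  · have := intervalIntegral.integral_mono_on ht (h.cont.intervalIntegrable (μ := volume) 0 t)
      (continuous_const.intervalIntegrable 0 t) fun r _ => h.le_one r
    simpa [PI] using this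
  · rcases le_total t (2 * ε) with h2 | h2
    · linarith [a t ht]
    · have e := intervalIntegral.integral_add_adjacent_intervals
        (h.cont.intervalIntegrable (μ := volume) 0 (2 * ε)) (h.cont.intervalIntegrable (2 * ε) t)
      have e2 : ∫ r in (2 * ε)..t, k r = t - 2 * ε := by
        rw [intervalIntegral.integral_congr (g := fun _ => 1)]
        · simp
        · intro r hr
          rw [uIcc_of_le h2] at hr
          exact h.one r hr.1
      have := a (2 * ε) (by linarith)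
      unfold PI at *
      linarith

lemma rotD_comp {P : ℝ → ℝ} {w : E3 → ℝ} {x : E3} {p : ℝ} (hP : HasDerivAt P p (w x))
    (hw : DifferentiableAt ℝ w x) (n : E3) : rotD n (fun y => P (w y)) x = p * rotD n w x := by
  have := (hP.comp_hasFDerivAt x hw.hasFDerivAt).fderiv
  rw [rotD, show (fun y => P (w y)) = P ∘ w from rfl, this]; simp [rotD]

lemma rotD_mul {f g : E3 → ℝ} {x : E3} (hf : DifferentiableAt ℝ f x)
    (hg : DifferentiableAt ℝ g x) (n : E3) :
    rotD n (fun y => f y * g y) x = rotD n f x * g x + f x * rotD n g x := by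
  have := (hf.hasFDerivAt.mul hg.hasFDerivAt).fderiv
  rw [rotD, show (fun y => f y * g y) = f * g from rfl, this]; simp [rotD]; ring

lemma contDiff_cross {k : WithTop ℕ∞} (n : E3) : ContDiff ℝ k (cross n) := by
  have e : cross n = fun x => (n 1 * x 2 - n 2 * x 1) • vE 1 0 0 +
      (n 2 * x 0 - n 0 * x 2) • vE 0 1 0 + (n 0 * x 1 - n 1 * x 0) • vE 0 0 1 := by
    funext x; apply e3_ext <;> simp
  rw [e]; fun_prop

lemma contDiffOn_rotD {w : E3 → ℝ} (hw : ContDiffOn ℝ 2 w cone) (n : E3) :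
    ContDiffOn ℝ 1 (rotD n w) cone :=
  (hw.fderiv_of_isOpen isOpen_cone (by norm_num)).clm_apply (contDiff_cross n).contDiffOn

/-- classical solutions whose positive part vanishes on the boundary -/
structure CE (lam : ℝ) (w : E3 → ℝ) : Prop where
  smooth : ContDiffOn ℝ 2 w cone
  eig : ∀ x ∈ Ts, lap w x = -lam * w x
  bdry : ∀ ε > 0, ∃ K, IsCompact K ∧ K ⊆ cone ∧ ∀ x ∈ Ts, x ∉ K → w x < ε
  cb : Cb w

lemma CE.trunc {lam : ℝ} {w : E3 → ℝ} (hw : CE lam w) {ε : ℝ} (hε : 0 < ε) {k : ℝ → ℝ}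
    (hk : Step ε k) : ∃ F, Adm F ∧ (∀ x ∈ Ts, F x = PI k (w x)) ∧
      QQ F F = lam * II fun x => PI (fun t => k t * k t) (w x) * w x := by
  obtain ⟨K, hK, hKc, hK0⟩ := hw.bdry ε hε
  have w1 : ContDiffOn ℝ 1 w cone := hw.smooth.of_le (by norm_num)
  have dw : ∀ x ∈ Ts, DifferentiableAt ℝ w x := fun x hx =>
    (w1.contDiffAt (isOpen_cone.mem_nhds hx.1)).differentiableAt one_ne_zero
  obtain ⟨F, hF, F1, F2⟩ := exists_ext ((contDiff_PI hk.cont).comp_contDiffOn w1) hK hKc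
    fun x hx h => hk.PI_zero hε (hK0 x hx h).le
  set H := PI fun t => k t * k t with hH
  have key : ∀ i, ∃ f, Cb f ∧ II f = 0 ∧ ∀ x ∈ Ts, f x =
      rotD (axis i) F x * rotD (axis i) F x + H (w x) * (rotD (axis i))^[2] w x := by
    intro i
    have r1 := contDiffOn_rotD hw.smooth (axis i)
    obtain ⟨f, hf, -, f2⟩ := exists_ext (g := fun x => H (w x) * rotD (axis i) w x)
      (((contDiff_PI hk.sq.cont).comp_contDiffOn w1).mul r1) hK hKc
      fun x hx h => by rw [hH, hk.sq.PI_zero hε (hK0 x hx h).le, zero_mul]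
    refine ⟨rotD (axis i) f, Cb.of_continuous (continuous_rotD hf.1 _), II_rotD hf.1 hf.2 i,
      fun x hx => ?_⟩
    have d1 := hasDerivAt_PI hk.sq.cont (w x)
    rw [f2 x hx, rotD_mul (f := fun y => H (w y)) (d1.differentiableAt.comp x (dw x hx))
      ((r1.contDiffAt (isOpen_cone.mem_nhds hx.1)).differentiableAt one_ne_zero),
      rotD_comp d1 (dw x hx), F2 x hx,
      show (PI k ∘ w) = fun y => PI k (w y) from rfl, rotD_comp (hasDerivAt_PI hk.cont _) (dw x hx)]
    simp only [Function.iterate_succ, Function.iterate_zero, Function.comp, id]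
    ring
  obtain ⟨a, a1, a2, a3⟩ := key 0
  obtain ⟨b, b1, b2, b3⟩ := key 1
  obtain ⟨c, c1, c2, c3⟩ := key 2
  refine ⟨F, hF, F1, ?_⟩
  have hc : Cb fun x => H (w x) * w x := (hw.cb.comp (contDiff_PI hk.sq.cont).continuous).mul hw.cb
  have e : II (fun x => a x + b x + c x) = 0 := by
    rw [II_add (a1.add b1) c1, II_add a1 b1, a2, b2, c2]; simp
  rw [II_congr (h := fun x => gg F F x - lam * (H (w x) * w x)),
    II_sub (Cb.of_continuous (continuous_gg hF.1 hF.1)) (hc.const_mul _), II_const_mul] at e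
  · rw [QQ]; linarith
  · intro x hx
    have := hw.eig x hx
    rw [lap, Fin.sum_univ_three] at this
    rw [a3 x hx, b3 x hx, c3 x hx, gg]
    linear_combination H (w x) * this

lemma CE.approx {lam : ℝ} {w : E3 → ℝ} (hw : CE lam w) : ∃ C, ∀ ε > 0, ∃ F, Adm F ∧
    (∀ x ∈ Ts, 0 ≤ F x ∧ |F x - max (w x) 0| ≤ 2 * ε) ∧
    |NN F F - II fun x => max (w x) 0 * max (w x) 0| ≤ C * ε ∧
    |QQ F F - lam * II fun x => max (w x) 0 * max (w x) 0| ≤ C * ε := by
  obtain ⟨M, hM⟩ := hw.cb.2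
  refine ⟨max (4 * M * aT) (|lam| * (2 * M * aT)), fun ε hε => ?_⟩
  obtain ⟨k, hk⟩ := exists_step hε
  obtain ⟨F, hF, F1, F2⟩ := hw.trunc hε hk
  have cp : Cb fun x => max (w x) 0 := hw.cb.comp (P := fun t => max t 0) (by fun_prop)
  have hc : Cb fun x => PI (fun t => k t * k t) (w x) * w x :=
    (hw.cb.comp (contDiff_PI hk.sq.cont).continuous).mul hw.cb
  refine ⟨F, hF, fun x hx => ?_, ?_, ?_⟩
  · obtain ⟨a, b, c⟩ := hk.PI_bounds hε (w x)
    rw [F1 x hx, abs_le]
    exact ⟨a, by linarith, by linarith⟩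
  · rw [NN, ← II_sub (hF.cb.mul hF.cb) (cp.mul cp)]
    refine (abs_II_le ((hF.cb.mul hF.cb).sub (cp.mul cp)) (M := 4 * M * ε) fun x hx => ?_).trans ?_
    · obtain ⟨a, b, c⟩ := hk.PI_bounds hε (w x)
      have d : max (w x) 0 ≤ M := max_le (le_of_abs_le (hM x hx)) ((abs_nonneg _).trans (hM x hx))
      rw [F1 x hx, abs_le]
      constructor <;> nlinarith
    · calc 4 * M * ε * aT = 4 * M * aT * ε := by ring
        _ ≤ _ := mul_le_mul_of_nonneg_right (le_max_left _ _) hε.le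
  · rw [F2, ← mul_sub, ← II_sub hc (cp.mul cp), abs_mul]
    have := abs_II_le (hc.sub (cp.mul cp)) (M := 2 * ε * M) fun x hx => by
      obtain ⟨a, b, c⟩ := hk.sq.PI_bounds hε (w x)
      have d : max (w x) 0 * max (w x) 0 = max (w x) 0 * w x := by
        rcases le_total (w x) 0 with h | h <;> simp [h]
      rw [d, ← sub_mul, abs_mul]
      refine mul_le_mul ?_ (hM x hx) (abs_nonneg _) (by linarith)
      rw [abs_le]; constructor <;> linarith
    calc _ ≤ |lam| * (2 * ε * M * aT) := mul_le_mul_of_nonneg_left this (abs_nonneg _)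
      _ = |lam| * (2 * M * aT) * ε := by ring
      _ ≤ _ := mul_le_mul_of_nonneg_right (le_max_right _ _) hε.le

lemma CE.pos_sq {lam : ℝ} {w : E3 → ℝ} (hw : CE lam w) {x : E3} (hx : x ∈ Ts) (h : 0 < w x) :
    0 < II fun x => max (w x) 0 * max (w x) 0 := by
  have cp : Cb fun x => max (w x) 0 := hw.cb.comp (P := fun t => max t 0) (by fun_prop)
  exact II_pos (cp.mul cp) (fun y _ => mul_self_nonneg _) hx (by simp [h.le, h])

/-- an eigenvalue with a classical eigenfunction is at least `lam1` -/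
lemma CE.lam1_le {lam : ℝ} {w : E3 → ℝ} (hw : CE lam w) {x : E3} (hx : x ∈ Ts) (h : 0 < w x) :
    lam1 ≤ lam := by
  obtain ⟨C, hC⟩ := hw.approx
  have hA := hw.pos_sq hx h
  set A := II fun x => max (w x) 0 * max (w x) 0
  refine le_of_mul_le_mul_right (le_of_forall_pos_le_add fun δ hδ => ?_) hA
  have hl := lam1_nonneg
  obtain ⟨F, hF, -, a, b⟩ := hC (δ / ((lam1 + 1) * |C| + 1)) (by positivity)
  have c := BB_nonneg hF
  have e : ((lam1 + 1) * |C| + 1) * (δ / ((lam1 + 1) * |C| + 1)) = δ := by field_simp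
  set ε := δ / ((lam1 + 1) * |C| + 1)
  have hε : 0 < ε := by positivity
  have f : C * ε ≤ |C| * ε := mul_le_mul_of_nonneg_right (le_abs_self C) hε.le
  rw [abs_le] at a b
  rw [BB] at c
  nlinarith [mul_le_mul_of_nonneg_left a.1 hl, mul_le_mul_of_nonneg_left f hl]

lemma CE.nonempty {lam : ℝ} {w : E3 → ℝ} (hw : CE lam w) {x : E3} (hx : x ∈ Ts) (h : 0 < w x) :
    RS.Nonempty := by
  obtain ⟨C, hC⟩ := hw.approx
  have hA := hw.pos_sq hx h
  set A := II fun x => max (w x) 0 * max (w x) 0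
  obtain ⟨F, hF, -, a, -⟩ := hC (A / (|C| + 1)) (by positivity)
  refine ⟨_, F, hF, ?_, rfl⟩
  have e : (|C| + 1) * (A / (|C| + 1)) = A := by field_simp
  set ε := A / (|C| + 1)
  have hε : 0 < ε := by positivity
  have f : C * ε ≤ |C| * ε := mul_le_mul_of_nonneg_right (le_abs_self C) hε.le
  rw [abs_le] at a
  nlinarith

end Pool.Agent.MP_c4844d_an

end
end MrgPart0

-- ======== part 1: formerly Pool.Agent.MP_c4844d_an.Six
section MrgPart1

noncomputable section

open Filter Topology Real MeasureTheory Set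

namespace Pool.Agent.MP_c4844d_an

/-- quadratic forms -/
def quad (a b c d e f : ℝ) (x : E3) : ℝ :=
  a * (x 0 * x 0) + b * (x 1 * x 1) + c * (x 2 * x 2) + d * (x 0 * x 1) + e * (x 1 * x 2) +
    f * (x 2 * x 0)

lemma fderiv_quad (a b c d e f : ℝ) (x v : E3) : fderiv ℝ (quad a b c d e f) x v =
    2 * a * x 0 * v 0 + 2 * b * x 1 * v 1 + 2 * c * x 2 * v 2 + d * (x 0 * v 1 + x 1 * v 0) +
      e * (x 1 * v 2 + x 2 * v 1) + f * (x 2 * v 0 + x 0 * v 2) := by
  have p : ∀ i, HasFDerivAt (fun z : E3 => z i) (EuclideanSpace.proj i : E3 →L[ℝ] ℝ) x := fun i =>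
    (EuclideanSpace.proj i : E3 →L[ℝ] ℝ).hasFDerivAt
  have h := ((((((((p 0).mul (p 0)).const_mul a).add (((p 1).mul (p 1)).const_mul b)).add
    (((p 2).mul (p 2)).const_mul c)).add (((p 0).mul (p 1)).const_mul d)).add
    (((p 1).mul (p 2)).const_mul e)).add (((p 2).mul (p 0)).const_mul f)).fderiv
  have h2 := congrArg (fun L : E3 →L[ℝ] ℝ => L v) h
  refine Eq.trans h2 ?_
  simp; ring

lemma rotD0_quad (a b c d e f : ℝ) : rotD (axis 0) (quad a b c d e f) =
    quad 0 e (-e) f (2 * c - 2 * b) (-d) := by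
  funext x; rw [rotD, fderiv_quad]; simp [quad, axis]; ring
lemma rotD1_quad (a b c d e f : ℝ) : rotD (axis 1) (quad a b c d e f) =
    quad (-f) 0 f (-e) d (2 * a - 2 * c) := by
  funext x; rw [rotD, fderiv_quad]; simp [quad, axis]; ring
lemma rotD2_quad (a b c d e f : ℝ) : rotD (axis 2) (quad a b c d e f) =
    quad d (-d) 0 (2 * b - 2 * a) (-f) e := by
  funext x; rw [rotD, fderiv_quad]; simp [quad, axis]; ring

/-- centre of the triangle -/
def cE : E3 := vE (r3 / 3) (r3 / 3) (r3 / 3)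

lemma cE_mem : cE ∈ Ts := by
  have := r3_pos
  refine ⟨⟨?_, ?_, ?_⟩, ?_⟩
  · simp [cE]; positivity
  · simp [cE]; positivity
  · simp [cE]; positivity
  · have h : ‖cE‖ ^ 2 = 1 ^ 2 := by rw [norm_sq3]; simp [cE]; nlinarith [hr3]
    exact (sq_eq_sq₀ (norm_nonneg _) zero_le_one).1 h

lemma ce_six : CE 6 (quad 0 0 0 1 1 1) := by
  have hc : ContDiff ℝ 2 (quad 0 0 0 1 1 1) := by unfold quad; fun_prop
  refine ⟨hc.contDiffOn, fun x _ => ?_, fun ε hε => ?_, Cb.of_continuous hc.continuous⟩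
  · simp only [lap, Fin.sum_univ_three, Function.iterate_succ, Function.iterate_zero,
      Function.comp, id, rotD0_quad, rotD1_quad, rotD2_quad]
    simp only [quad]; ring
  · have cl : ∀ i j : Fin 3, IsClosed {x : E3 | 0 ≤ x i + x j} := fun i j =>
      isClosed_le continuous_const ((continuous_coord i).add (continuous_coord j))
    refine ⟨Metric.sphere 0 1 ∩ ({x : E3 | 0 ≤ x 0 + x 1} ∩ ({x : E3 | 0 ≤ x 1 + x 2} ∩
      ({x : E3 | 0 ≤ x 2 + x 0} ∩ {x | ε ≤ quad 0 0 0 1 1 1 x}))),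
      (isCompact_sphere _ _).inter_right ((cl 0 1).inter ((cl 1 2).inter ((cl 2 0).inter
        (isClosed_le continuous_const hc.continuous)))), ?_, ?_⟩
    · rintro x ⟨-, a, b, c, d⟩
      simp only [mem_ofPred_eq, quad] at a b c d
      refine ⟨a.lt_of_ne fun h => ?_, b.lt_of_ne fun h => ?_, c.lt_of_ne fun h => ?_⟩
      · have : x 1 = -x 0 := by linarith
        rw [this] at d; nlinarith [mul_self_nonneg (x 0)]
      · have : x 2 = -x 1 := by linarith
        rw [this] at d; nlinarith [mul_self_nonneg (x 1)]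
      · have : x 0 = -x 2 := by linarith
        rw [this] at d; nlinarith [mul_self_nonneg (x 2)]
    · intro x hx h
      by_contra hc
      exact h ⟨by simpa using hx.2, hx.1.1.le, hx.1.2.1.le, hx.1.2.2.le, not_lt.1 hc⟩

lemma quad_cE : 0 < quad 0 0 0 1 1 1 cE := by
  have := r3_pos
  simp [quad, cE]; positivity

lemma lam1_le_six : lam1 ≤ 6 := ce_six.lam1_le cE_mem quad_cE

lemma RS_nonempty : RS.Nonempty := ce_six.nonempty cE_mem quad_cE

lemma Adm.comp {f : E3 → ℝ} (hf : Adm f) {P : ℝ → ℝ} (hP : ContDiff ℝ 1 P) (h0 : P 0 = 0) :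
    Adm fun x => P (f x) :=
  ⟨hP.comp hf.1, (tsupport_comp_subset h0 f).trans hf.2⟩

lemma gg_comp {f : E3 → ℝ} (hf : Adm f) {P P' : ℝ → ℝ} (hP : ∀ t, HasDerivAt P (P' t) t)
    (x : E3) : gg (fun y => P (f y)) (fun y => P (f y)) x = P' (f x) ^ 2 * gg f f x := by
  simp only [gg, rotD_comp (hP _) (hf.1.differentiable one_ne_zero x)]; ring

lemma exists_norm_min {δ : ℝ} (hδ : 0 < δ) : ∃ f, Adm f ∧ NN f f = 1 ∧ BB f f ≤ δ := by
  obtain ⟨r, ⟨f, hf, hN, rfl⟩, hr⟩ := exists_lt_of_csInf_lt RS_nonempty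
    (show sInf RS < lam1 + δ by rw [← lam1_eq]; linarith)
  set c := (Real.sqrt (NN f f))⁻¹ with hc
  have hc2 : c ^ 2 = (NN f f)⁻¹ := by rw [hc, inv_pow, Real.sq_sqrt hN.le]
  have d : ∀ t : ℝ, HasDerivAt (fun t => c * t) c t := fun t => by
    simpa using (hasDerivAt_id t).const_mul c
  have e1 : NN (fun x => c * f x) (fun x => c * f x) = 1 := by
    rw [NN, II_congr (h := fun x => c ^ 2 * (f x * f x)) fun x _ => by ring, II_const_mul, hc2]
    exact inv_mul_cancel₀ hN.ne'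
  have e2 : QQ (fun x => c * f x) (fun x => c * f x) = QQ f f / NN f f := by
    rw [QQ, II_congr (h := fun x => c ^ 2 * gg f f x) fun x _ => gg_comp hf d x, II_const_mul, hc2,
      div_eq_inv_mul, QQ]
  refine ⟨fun x => c * f x, hf.comp (P := fun t => c * t) (by fun_prop) (by simp), e1, ?_⟩
  rw [BB, e1, e2]; linarith

lemma exists_nonneg_min {δ : ℝ} (hδ : 0 < δ) (hδ2 : δ ≤ 1 / 2) :
    ∃ f, Adm f ∧ (∀ x, 0 ≤ f x) ∧ 1 / 2 ≤ NN f f ∧ NN f f ≤ 1 ∧ BB f f ≤ 7 * δ := by
  obtain ⟨f, hf, hN, hB⟩ := exists_norm_min hδ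
  obtain ⟨M, hM⟩ := hf.cb.2
  have hM0 : 0 ≤ M := (abs_nonneg _).trans (hM _ cE_mem)
  have ha := aT_nonneg
  set ε := δ / (8 * M * aT + 1) with hε
  have hε0 : 0 < ε := by positivity
  have hε1 : 8 * M * aT * ε ≤ δ := by
    have : (8 * M * aT + 1) * ε = δ := by rw [hε]; field_simp
    linarith
  obtain ⟨k, hk⟩ := exists_step hε0
  let P : ℝ → ℝ := fun t => PI k t + PI k (-t)
  have dP : ∀ t, HasDerivAt P (k t - k (-t)) t := fun t => by
    have := (hasDerivAt_PI hk.cont t).add ((hasDerivAt_PI hk.cont (-t)).comp t (hasDerivAt_neg t))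
    exact this.congr_deriv (by ring)
  have cP : ContDiff ℝ 1 P := (contDiff_PI hk.cont).add ((contDiff_PI hk.cont).comp contDiff_neg)
  have bP : ∀ t, 0 ≤ P t ∧ P t ≤ |t| ∧ |t| - 4 * ε ≤ P t := fun t => by
    obtain ⟨a, b, c⟩ := hk.PI_bounds hε0 t
    obtain ⟨a', b', c'⟩ := hk.PI_bounds hε0 (-t)
    have : max t 0 + max (-t) 0 = |t| := max_zero_add_max_neg_zero_eq_abs_self t
    exact ⟨by simp only [P]; linarith, by simp only [P]; linarith, by simp only [P]; linarith⟩
  have hP0 : P 0 = 0 := by simp [P, PI]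
  have hF := hf.comp cP hP0
  have n1 : NN (fun x => P (f x)) (fun x => P (f x)) ≤ 1 := by
    rw [← hN]
    refine II_mono (hF.cb.mul hF.cb) (hf.cb.mul hf.cb) fun x _ => ?_
    obtain ⟨a, b, -⟩ := bP (f x)
    rw [← abs_mul_abs_self (f x)]
    exact mul_le_mul b b a (abs_nonneg _)
  have n2 : 1 - δ ≤ NN (fun x => P (f x)) (fun x => P (f x)) := by
    have := II_mono ((hf.cb.mul hf.cb).sub (Cb.const (8 * M * ε))) (hF.cb.mul hF.cb) fun x hx => by
      obtain ⟨a, b, c⟩ := bP (f x)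
      have := hM x hx
      rw [← abs_mul_abs_self (f x)]
      nlinarith [abs_nonneg (f x)]
    rw [II_sub (hf.cb.mul hf.cb) (Cb.const _), II_const] at this
    have e : II (fun x => f x * f x) = 1 := hN
    rw [NN]; nlinarith
  have q1 : QQ (fun x => P (f x)) (fun x => P (f x)) ≤ QQ f f := by
    refine II_mono (Cb.of_continuous (continuous_gg hF.1 hF.1))
      (Cb.of_continuous (continuous_gg hf.1 hf.1)) fun x _ => ?_
    rw [gg_comp hf dP]
    refine mul_le_of_le_one_left (gg_self_nonneg f x) ?_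
    have := hk.nonneg (f x)
    have := hk.nonneg (-f x)
    have := hk.le_one (f x)
    have := hk.le_one (-f x)
    nlinarith
  refine ⟨_, hF, fun x => (bP _).1, by linarith, n1, ?_⟩
  have := lam1_le_six
  have := lam1_nonneg
  rw [BB, hN] at hB
  rw [BB]; nlinarith

end Pool.Agent.MP_c4844d_an

end
end MrgPart1

-- ======== part 2: formerly Pool.Agent.MP_c4844d_an.Weak
section MrgPart2

noncomputable section

open Filter Topology Real MeasureTheory Set

namespace Pool.Agent.MP_c4844d_an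

/-- derivative along the meridian in the chart -/
def ds (f : E3 → ℝ) (p : ℝ × ℝ) : ℝ :=
  fderiv ℝ f (XX p) (frm (-(cos p.2 * sinh p.1 / cosh p.1 ^ 2))
    (-(sin p.2 * sinh p.1 / cosh p.1 ^ 2)) (-sc p.1))
/-- angular derivative in the chart -/
def dp (f : E3 → ℝ) (p : ℝ × ℝ) : ℝ :=
  fderiv ℝ f (XX p) (frm (-(sin p.2 / cosh p.1)) (cos p.2 / cosh p.1) 0)

lemma hasDerivAt_frm {a b c : ℝ → ℝ} {a' b' c' t : ℝ} (ha : HasDerivAt a a' t)
    (hb : HasDerivAt b b' t) (hc : HasDerivAt c c' t) :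
    HasDerivAt (fun s => frm (a s) (b s) (c s)) (frm a' b' c') t :=
  hasDerivAt_vE ((ha.const_mul _).sub (hc.const_mul _))
    (((ha.const_mul _).add (hb.const_mul _)).add (hc.const_mul _))
    (((ha.const_mul _).sub (hb.const_mul _)).add (hc.const_mul _))

lemma hasDerivAt_ds {f : E3 → ℝ} {s φ : ℝ} (hf : DifferentiableAt ℝ f (XX (s, φ))) :
    HasDerivAt (fun t => f (XX (t, φ))) (ds f (s, φ)) s := by
  refine hf.hasFDerivAt.comp_hasDerivAt s (hasDerivAt_frm ?_ ?_ (hasDerivAt_tanh s).neg)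
  · exact ((hasDerivAt_sech s).const_mul (cos φ)).congr_deriv (by ring)
  · exact ((hasDerivAt_sech s).const_mul (sin φ)).congr_deriv (by ring)

lemma hasDerivAt_dp {f : E3 → ℝ} {s φ : ℝ} (hf : DifferentiableAt ℝ f (XX (s, φ))) :
    HasDerivAt (fun t => f (XX (s, t))) (dp f (s, φ)) φ := by
  refine hf.hasFDerivAt.comp_hasDerivAt φ 
    (hasDerivAt_frm ?_ ?_ (hasDerivAt_const φ (-(sinh s / cosh s))))
  · exact ((hasDerivAt_cos φ).div_const (cosh s)).congr_deriv (by ring)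
  · exact (hasDerivAt_sin φ).div_const (cosh s)

lemma continuous_frm {X : Type*} [TopologicalSpace X] {a b c : X → ℝ} (ha : Continuous a)
    (hb : Continuous b) (hc : Continuous c) : Continuous fun x => frm (a x) (b x) (c x) := by
  have e : ∀ x y z : ℝ, frm x y z = x • frm 1 0 0 + y • frm 0 1 0 + z • frm 0 0 1 := fun x y z => by
    apply e3_ext <;> simp [frm] <;> ring
  simp only [e (a _)]; fun_prop

lemma continuous_ds {f : E3 → ℝ} (hf : ContDiff ℝ 1 f) : Continuous (ds f) := by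
  have h : ∀ p : ℝ × ℝ, cosh p.1 ^ 2 ≠ 0 := fun p => (pow_pos (cosh_pos _) 2).ne'
  have := continuous_sc
  refine ((hf.continuous_fderiv one_ne_zero).comp continuous_XX).clm_apply
    (continuous_frm ?_ ?_ ?_) <;> fun_prop (disch := assumption)

lemma continuous_dp {f : E3 → ℝ} (hf : ContDiff ℝ 1 f) : Continuous (dp f) := by
  have h : ∀ p : ℝ × ℝ, cosh p.1 ≠ 0 := fun p => (cosh_pos _).ne'
  refine ((hf.continuous_fderiv one_ne_zero).comp continuous_XX).clm_apply
    (continuous_frm ?_ ?_ ?_) <;> fun_prop (disch := assumption)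

lemma inner_frm (a : E3) (u v w : ℝ) : inner ℝ a (frm u v w) = g1 a * u + g2 a * v + g3 a * w := by
  rw [inner3]; simp [frm, g1, g2, g3]; ring

lemma inner_g (a b : E3) : inner ℝ a b = g1 a * g1 b + g2 a * g2 b + g3 a * g3 b := by
  conv_lhs => rw [← frm_g b]
  rw [inner_frm]

lemma conformal (f g : E3 → ℝ) (p : ℝ × ℝ) :
    sc p.1 * gg f g (XX p) = ds f p * ds g p + dp f p * dp g p := by
  have h := norm_sq3 (XX p)
  rw [norm_XX] at h
  have e : gg f g (XX p) = inner ℝ (gradient f (XX p)) (gradient g (XX p)) -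
      inner ℝ (gradient f (XX p)) (XX p) * inner ℝ (gradient g (XX p)) (XX p) := by
    simp only [gg, rotD_grad, inner3, axis]
    simp
    linear_combination (-(gradient f (XX p) 0 * gradient g (XX p) 0 +
      gradient f (XX p) 1 * gradient g (XX p) 1 + gradient f (XX p) 2 * gradient g (XX p) 2)) * h
  rw [e, ds, ds, dp, dp]
  simp only [← inner_gradient_left]
  generalize gradient f (XX p) = a
  generalize gradient g (XX p) = b
  rw [inner_g a b, XX]
  simp only [inner_frm, sc]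
  have := cosh_pos p.1
  have h1 := cos_sq_add_sin_sq p.2
  have h2 := cosh_sq p.1
  field_simp
  grind

lemma ds_zero {f : E3 → ℝ} {p : ℝ × ℝ} (h : XX p ∉ tsupport f) : ds f p = 0 := by
  rw [ds, fderiv_of_notMem_tsupport ℝ h]; rfl
lemma dp_zero {f : E3 → ℝ} {p : ℝ × ℝ} (h : XX p ∉ tsupport f) : dp f p = 0 := by
  rw [dp, fderiv_of_notMem_tsupport ℝ h]; rfl

lemma continuousOn_YY : ContinuousOn YY Ts := fun x hx => by
  have h := g1_pos hx.1.1 hx.1.2.2
  exact (contDiffAt_YY (k := 0) h (g3_bounds hx.2 h).1).continuousAt.continuousWithinAt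

lemma compact_box {K : Set E3} (hK : IsCompact K) (hT : K ⊆ Ts) :
    ∃ N ε : ℝ, 0 < N ∧ 0 < ε ∧ ∀ x ∈ K, |(YY x).1| < N ∧ |(YY x).2| ≤ π / 3 - ε := by
  have hc := continuousOn_YY.mono hT
  obtain ⟨N, hN⟩ := hK.exists_bound_of_continuousOn hc.fst
  obtain ⟨ε, hε, h2⟩ := hK.exists_forall_le' (f := fun x => π / 3 - |(YY x).2|)
    (continuousOn_const.sub hc.snd.abs) (a := 0) fun x hx => sub_pos.2 (YY_mem_Tc (hT hx)).1
  refine ⟨|N| + 1, ε, by positivity, hε, fun x hx => ⟨?_, by linarith [h2 x hx]⟩⟩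
  have := hN x hx
  rw [Real.norm_eq_abs] at this
  linarith [le_abs_self N]

lemma not_cone_edge {p : ℝ × ℝ} (h : |p.2| = π / 3) : XX p ∉ cone := fun hc => by
  have := pi_pos
  have := abs_lt_of_lune (p := p) (by linarith) hc.1 hc.2.2
  linarith

lemma supp_box {f : E3 → ℝ} (hf : Adm f) : ∃ N ε : ℝ, 0 < N ∧ 0 < ε ∧ ∀ p : ℝ × ℝ,
    |p.2| ≤ π / 3 → XX p ∈ tsupport f → |p.1| < N ∧ |p.2| ≤ π / 3 - ε := by
  obtain ⟨N, ε, hN, hε, h⟩ := compact_box (K := Metric.sphere 0 1 ∩ tsupport f)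
    ((isCompact_sphere _ _).inter_right (isClosed_tsupport f))
    fun x hx => ⟨hf.2 hx.2, by simpa using hx.1⟩
  refine ⟨N, ε, hN, hε, fun p hp hs => ?_⟩
  have hp' : p ∈ PP := hp.lt_of_ne fun e => not_cone_edge e (hf.2 hs)
  have := h (XX p) ⟨by simpa using norm_XX p, hs⟩
  rwa [YY_XX' hp'] at this

/-- rectangle in the chart -/
def RR (a b : ℝ) : Set (ℝ × ℝ) := Ioc a b ×ˢ Ioc (-(π / 3)) (π / 3)

lemma measurableSet_RR (a b : ℝ) : MeasurableSet (RR a b) :=
  measurableSet_Ioc.prod measurableSet_Ioc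

lemma integrableOn_RR {G : ℝ × ℝ → ℝ} (hG : Continuous G) (a b : ℝ) : IntegrableOn G (RR a b) :=
  (hG.continuousOn.integrableOn_compact (isCompact_Icc.prod isCompact_Icc)).mono_set
    (prod_mono Ioc_subset_Icc_self Ioc_subset_Icc_self)

lemma RR_abs {a b : ℝ} {p : ℝ × ℝ} (h : p ∈ RR a b) : |p.2| ≤ π / 3 :=
  abs_le.2 ⟨h.2.1.le, h.2.2⟩

lemma rect_dp {H H' : ℝ × ℝ → ℝ} (hd : ∀ s φ, HasDerivAt (fun t => H (s, t)) (H' (s, φ)) φ)
    (hc : Continuous H') (a b : ℝ) (h1 : ∀ s, H (s, π / 3) = 0) (h2 : ∀ s, H (s, -(π / 3)) = 0) :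
    ∫ p in RR a b, H' p = 0 := by
  have hi := integrableOn_RR hc a b
  rw [RR, Measure.volume_eq_prod] at hi ⊢
  rw [setIntegral_prod _ hi]
  refine integral_eq_zero_of_ae (Eventually.of_forall fun s => ?_)
  have := pi_pos
  simp only [Pi.zero_apply]
  rw [← intervalIntegral.integral_of_le (by linarith),
    intervalIntegral.integral_eq_sub_of_hasDerivAt (fun t _ => hd s t)
      ((hc.comp (by fun_prop : Continuous fun t : ℝ => (s, t))).intervalIntegrable _ _), h1, h2,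
    sub_zero]

lemma rect_ds {H H' : ℝ × ℝ → ℝ} (hd : ∀ s φ, HasDerivAt (fun t => H (t, φ)) (H' (s, φ)) s)
    (hc : Continuous H') {a b : ℝ} (hab : a ≤ b) (h1 : ∀ φ, |φ| ≤ π / 3 → H (a, φ) = 0)
    (h2 : ∀ φ, |φ| ≤ π / 3 → H (b, φ) = 0) : ∫ p in RR a b, H' p = 0 := by
  have hi := integrableOn_RR hc a b
  rw [RR, Measure.volume_eq_prod] at hi ⊢
  rw [IntegrableOn, ← Measure.prod_restrict] at hi
  rw [← Measure.prod_restrict, integral_prod_symm _ hi]
  refine setIntegral_eq_zero_of_forall_eq_zero fun φ hφ => ?_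
  have h := abs_le.2 ⟨hφ.1.le, hφ.2⟩
  rw [← intervalIntegral.integral_of_le hab,
    intervalIntegral.integral_eq_sub_of_hasDerivAt (fun t _ => hd t φ)
      ((hc.comp (by fun_prop : Continuous fun t : ℝ => (t, φ))).intervalIntegrable _ _), h1 φ h,
    h2 φ h, sub_zero]

lemma int5 {G1 G2 G3 G4 G5 : ℝ × ℝ → ℝ} (h1 : Continuous G1) (h2 : Continuous G2)
    (h3 : Continuous G3) (h4 : Continuous G4) (h5 : Continuous G5) {a b l : ℝ}
    (i4 : ∫ p in RR a b, G4 p = 0) (i5 : ∫ p in RR a b, G5 p = 0)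
    (h : ∀ p ∈ RR a b, G1 p - l * G2 p = -G3 p + G4 p + G5 p) :
    (∫ p in RR a b, G1 p) - l * ∫ p in RR a b, G2 p = -∫ p in RR a b, G3 p := by
  have e := setIntegral_congr_fun (μ := volume) (measurableSet_RR a b) h
  rw [integral_sub (integrableOn_RR h1 _ _) (integrableOn_RR (by fun_prop) _ _),
    integral_add (integrableOn_RR (by fun_prop) _ _) (integrableOn_RR h5 _ _),
    integral_add (integrableOn_RR (by fun_prop) _ _) (integrableOn_RR h4 _ _), integral_neg,
    integral_const_mul, i4, i5] at e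
  linarith

lemma pos_of_not_Tc {p : ℝ × ℝ} (h1 : p ∈ PP) (h2 : p ∉ Tc) : 0 < p.1 :=
  lt_of_not_ge fun h => h2 ⟨h1, XX_mem_cone h1 h⟩

/-- chart formula for functions supported in the region of nonpositive `s` -/
lemma II_RR {g : E3 → ℝ} (hg : ContinuousOn g Ts) {G : ℝ × ℝ → ℝ} {a : ℝ}
    (h1 : ∀ p ∈ Tc, sc p.1 * g (XX p) = G p) (h3 : ∀ p ∈ PP, p.1 ∉ Ioc a 0 → G p = 0) :
    II g = ∫ p in RR a 0, G p :=
  II_rect hg h1 (fun p hp h => h3 p hp fun h' => absurd (pos_of_not_Tc hp h) (not_lt.2 h'.2)) h3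

/-- product functions of the chart define test functions -/
lemma exists_prod {A A' B B' : ℝ → ℝ} (hA : ∀ s, HasDerivAt A (A' s) s) (cA : Continuous A')
    (hB : ∀ s, HasDerivAt B (B' s) s) (cB : Continuous B') {a ε : ℝ} (hε : 0 < ε)
    (A0 : ∀ s, s ∉ Icc a 0 → A s = 0) (B0 : ∀ φ, π / 3 - ε < |φ| → B φ = 0) :
    ∃ g, Adm g ∧ ∀ p ∈ Tc, g (XX p) = A p.1 * B p.2 ∧ ds g p = A' p.1 * B p.2 ∧
      dp g p = A p.1 * B' p.2 := by
  have c1 : ∀ {A A' : ℝ → ℝ}, (∀ s, HasDerivAt A (A' s) s) → Continuous A' → ContDiff ℝ 1 A :=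
    fun {A A'} hA cA => contDiff_one_iff_deriv.2 ⟨fun t => (hA t).differentiableAt, by
      rwa [show deriv A = A' from funext fun t => (hA t).deriv]⟩
  have hV : ContDiff ℝ 1 fun p : ℝ × ℝ => A p.1 * B p.2 :=
    ((c1 hA cA).comp contDiff_fst).mul ((c1 hB cB).comp contDiff_snd)
  have hg : ContDiffOn ℝ 1 (fun x => A (YY (nrm x)).1 * B (YY (nrm x)).2) cone := fun x hx => by
    have h0 := ne_zero_of_cone hx
    have hn := nrm_mem_cone hx
    have h := g1_pos hn.1 hn.2.2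
    exact (hV.contDiffAt.comp x ((contDiffAt_YY h (g3_bounds (norm_nrm h0) h).1).comp x
      (contDiffAt_nrm h0))).contDiffWithinAt
  obtain ⟨g, ga, g1, -⟩ := exists_ext hg
    (K := XX '' (Icc a 0 ×ˢ Icc (-(π / 3 - ε)) (π / 3 - ε)))
    ((isCompact_Icc.prod isCompact_Icc).image continuous_XX)
    (by
      rintro _ ⟨p, hp, rfl⟩
      exact XX_mem_cone ((abs_le.2 hp.2).trans_lt (by linarith)) hp.1.2)
    (fun x hx h => by
      rw [nrm_of_norm hx.2]
      by_contra hc
      refine h ⟨YY x, ⟨by_contra fun h' => hc ?_, abs_le.1 (le_of_not_gt fun h' => hc ?_)⟩, XX_YY' hx⟩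
      · rw [A0 _ h', zero_mul]
      · rw [B0 _ h', mul_zero])
  have e : ∀ p ∈ Tc, g (XX p) = A p.1 * B p.2 := fun p hp => by
    rw [g1 _ (XX_mem_Ts hp), nrm_of_norm (norm_XX p), YY_XX' hp.1]
  refine ⟨g, ga, fun p hp => ⟨e p hp, ?_, ?_⟩⟩
  · refine (hasDerivAt_ds (s := p.1) (φ := p.2) (ga.1.differentiable one_ne_zero _)).unique
      (((hA p.1).mul_const (B p.2)).congr_of_eventuallyEq ?_)
    have : ∀ᶠ t in 𝓝 p.1, (t, p.2) ∈ Tc :=
      (by fun_prop : Continuous fun t : ℝ => (t, p.2)).continuousAt.eventually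
        (isOpen_Tc.mem_nhds hp)
    filter_upwards [this] with t ht using e _ ht
  · refine (hasDerivAt_dp (s := p.1) (φ := p.2) (ga.1.differentiable one_ne_zero _)).unique
      (((hB p.2).const_mul (A p.1)).congr_of_eventuallyEq ?_)
    have : ∀ᶠ t in 𝓝 p.2, (p.1, t) ∈ Tc :=
      (by fun_prop : Continuous fun t : ℝ => (p.1, t)).continuousAt.eventually
        (isOpen_Tc.mem_nhds hp)
    filter_upwards [this] with t ht using e _ ht

lemma exists_cut : ∃ (κ κ' : ℝ → ℝ) (M : ℝ), 0 ≤ M ∧ (∀ t, HasDerivAt κ (κ' t) t) ∧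
    Continuous κ' ∧ (∀ t, |κ t| ≤ 1) ∧ (∀ t, t ≤ 0 → κ t = 0) ∧ (∀ t, 1 ≤ t → κ t = 1) ∧
    (∀ t, |κ' t| ≤ M) ∧ (∀ t, t < 0 → κ' t = 0) ∧ (∀ t, 1 < t → κ' t = 0) := by
  have hc : ContDiff ℝ 1 smoothTransition := smoothTransition.contDiff
  have hd := hc.continuous_deriv le_rfl
  obtain ⟨M, hM⟩ := (isCompact_Icc (a := (0 : ℝ)) (b := 1)).exists_bound_of_continuousOn
    hd.continuousOn
  have z1 : ∀ t, t < 0 → deriv smoothTransition t = 0 := fun t ht => by
    have : smoothTransition =ᶠ[𝓝 t] fun _ => 0 := by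
      filter_upwards [Iio_mem_nhds ht] with y hy using smoothTransition.zero_of_nonpos (le_of_lt hy)
    rw [this.deriv_eq, deriv_const]
  have z2 : ∀ t, 1 < t → deriv smoothTransition t = 0 := fun t ht => by
    have : smoothTransition =ᶠ[𝓝 t] fun _ => 1 := by
      filter_upwards [Ioi_mem_nhds ht] with y hy using smoothTransition.one_of_one_le (le_of_lt hy)
    rw [this.deriv_eq, deriv_const]
  have hM0 : 0 ≤ M := (norm_nonneg _).trans (hM 0 ⟨le_rfl, zero_le_one⟩)
  refine ⟨smoothTransition, deriv smoothTransition, M, hM0,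
    fun t => (hc.differentiable one_ne_zero t).hasDerivAt, hd,
    fun t => abs_le.2 ⟨by linarith [smoothTransition.nonneg t], smoothTransition.le_one t⟩,
    fun t => smoothTransition.zero_of_nonpos, fun t => smoothTransition.one_of_one_le,
    fun t => ?_, z1, z2⟩
  rcases lt_or_ge t 0 with h | h
  · rw [z1 t h, abs_zero]; exact hM0
  rcases lt_or_ge 1 t with h' | h'
  · rw [z2 t h', abs_zero]; exact hM0
  exact hM t ⟨h, h'⟩

/-- angular cut-off of a Dirichlet mode with bounded derivative -/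
lemma exists_theta : ∃ M : ℝ, ∀ m : ℝ, cos (m * (π / 3)) = 0 → ∀ ε > 0,
    ∃ B B' : ℝ → ℝ, (∀ s, HasDerivAt B (B' s) s) ∧ Continuous B' ∧
      (∀ φ, π / 3 - ε / 3 < |φ| → B φ = 0) ∧ (∀ φ, |B φ| ≤ 1) ∧ (∀ φ, |B' φ| ≤ |m| * M) ∧
      ∀ φ, |φ| ≤ π / 3 - ε → B φ = cos (m * φ) ∧ B' φ = -(m * sin (m * φ)) := by
  obtain ⟨κ, κ', M, hM, d, c, b, z, o, b', z', o'⟩ := exists_cut
  have cκ : Continuous κ := continuous_iff_continuousAt.2 fun t => (d t).continuousAt
  refine ⟨1 + 4 * M, fun m hm ε hε => ?_⟩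
  set η := ε / 3 with hη
  have hη0 : 0 < η := by positivity
  refine ⟨fun φ => cos (m * φ) * κ ((π / 3 - φ) / η - 1) * κ ((π / 3 + φ) / η - 1),
    fun φ => (-(m * sin (m * φ)) * κ ((π / 3 - φ) / η - 1) +
      cos (m * φ) * (κ' ((π / 3 - φ) / η - 1) * (-1 / η))) * κ ((π / 3 + φ) / η - 1) +
      cos (m * φ) * κ ((π / 3 - φ) / η - 1) * (κ' ((π / 3 + φ) / η - 1) * (1 / η)),
    fun φ => ?_, by fun_prop, fun φ h => ?_, fun φ => ?_, fun φ => ?_, fun φ h => ?_⟩
  · have a1 : HasDerivAt (fun φ => cos (m * φ)) (-(m * sin (m * φ))) φ :=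
      (((hasDerivAt_id φ).const_mul m).cos).congr_deriv (by simp; ring)
    have a2 : HasDerivAt (fun φ => (π / 3 - φ) / η - 1) (-1 / η) φ :=
      (((hasDerivAt_id φ).const_sub (π / 3)).div_const η).sub_const 1
    have a3 : HasDerivAt (fun φ => (π / 3 + φ) / η - 1) (1 / η) φ :=
      (((hasDerivAt_id φ).const_add (π / 3)).div_const η).sub_const 1
    exact (a1.mul ((d _).comp φ a2)).mul ((d _).comp φ a3)
  · rcases lt_abs.1 h with h | h
    · have : (π / 3 - φ) / η - 1 ≤ 0 := by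
        rw [sub_nonpos, div_le_one hη0]; linarith
      simp [z _ this]
    · have : (π / 3 + φ) / η - 1 ≤ 0 := by
        rw [sub_nonpos, div_le_one hη0]; linarith
      simp [z _ this]
  · simp only [abs_mul]
    exact mul_le_one₀ (mul_le_one₀ (abs_cos_le_one _) (abs_nonneg _) (b _)) (abs_nonneg _) (b _)
  · have key : ∀ ψ : ℝ, |cos (m * ψ) * (κ' ((π / 3 - ψ) / η - 1) * (1 / η))| ≤ |m| * (2 * M) := by
      intro ψ
      rcases lt_or_ge ((π / 3 - ψ) / η - 1) 0 with h | h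
      · rw [z' _ h]; simp; positivity
      rcases lt_or_ge 1 ((π / 3 - ψ) / η - 1) with h' | h'
      · rw [o' _ h']; simp; positivity
      have e1 : η ≤ π / 3 - ψ := by rwa [sub_nonneg, one_le_div hη0] at h
      have e2 : π / 3 - ψ ≤ 2 * η := by
        rw [sub_le_iff_le_add, div_le_iff₀ hη0] at h'; linarith
      have e3 : |cos (m * ψ)| ≤ |m| * (2 * η) := by
        have := abs_cos_sub_cos_le (m * ψ) (m * (π / 3))
        rw [hm, sub_zero, ← mul_sub, abs_mul] at this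
        refine this.trans (mul_le_mul_of_nonneg_left ?_ (abs_nonneg _))
        rw [abs_le]; constructor <;> linarith
      rw [abs_mul, abs_mul, abs_of_pos (one_div_pos.2 hη0)]
      calc _ ≤ |m| * (2 * η) * (M * (1 / η)) := by gcongr; exact b' _
        _ = _ := by field_simp
    have k1 := key φ
    have k2 := key (-φ)
    rw [mul_neg, cos_neg, sub_neg_eq_add] at k2
    have k3 : |m * sin (m * φ)| ≤ |m| := by
      rw [abs_mul]; exact mul_le_of_le_one_right (abs_nonneg _) (abs_sin_le_one _)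
    have b1 := b ((π / 3 - φ) / η - 1)
    have b2 := b ((π / 3 + φ) / η - 1)
    set u := κ ((π / 3 - φ) / η - 1)
    set v := κ ((π / 3 + φ) / η - 1)
    set X := cos (m * φ) * (κ' ((π / 3 - φ) / η - 1) * (1 / η)) with hX
    set Y := cos (m * φ) * (κ' ((π / 3 + φ) / η - 1) * (1 / η)) with hY
    have e : (-(m * sin (m * φ)) * u + cos (m * φ) * (κ' ((π / 3 - φ) / η - 1) * (-1 / η))) * v +
        cos (m * φ) * u * (κ' ((π / 3 + φ) / η - 1) * (1 / η)) =
        -(m * sin (m * φ) * (u * v)) - X * v + Y * u := by rw [hX, hY]; ring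
    have t : ∀ a c : ℝ, |c| ≤ 1 → |a * c| ≤ |a| := fun a c hc => by
      rw [abs_mul]; exact mul_le_of_le_one_right (abs_nonneg _) hc
    have t1 := abs_le.1 ((t (m * sin (m * φ)) (u * v) ((t u v b2).trans b1)).trans k3)
    have t2 := abs_le.1 ((t X v b2).trans k1)
    have t3 := abs_le.1 ((t Y u b1).trans k2)
    simp only []
    rw [e, abs_le]
    constructor <;> nlinarith
  · rw [abs_le] at h
    have e1 : 1 < (π / 3 - φ) / η - 1 := by
      rw [lt_sub_iff_add_lt, lt_div_iff₀ hη0]; linarith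
    have e2 : 1 < (π / 3 + φ) / η - 1 := by
      rw [lt_sub_iff_add_lt, lt_div_iff₀ hη0]; linarith
    simp [o _ e1.le, o _ e2.le, o' _ e1, o' _ e2]

/-- a Dirichlet mode of the lune with radial profile `χ` -/
def mode (χ : ℝ → ℝ) (m : ℝ) (x : E3) : ℝ := χ (YY x).1 * cos (m * (YY x).2)

/-- continuous with compact support below `L` -/
def CS (L : ℝ) (χ : ℝ → ℝ) : Prop :=
  Continuous χ ∧ ∃ a b, b < L ∧ ∀ s, s ∉ Icc a b → χ s = 0

lemma CS.bound {L : ℝ} {χ : ℝ → ℝ} (h : CS L χ) : ∃ M, 0 ≤ M ∧ ∀ s, |χ s| ≤ M := by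
  obtain ⟨hc, a, b, -, h0⟩ := h
  obtain ⟨M, hM⟩ := (isCompact_Icc (a := a) (b := b)).exists_bound_of_continuousOn hc.continuousOn
  refine ⟨|M|, abs_nonneg _, fun s => ?_⟩
  by_cases hs : s ∈ Icc a b
  · exact (hM s hs).trans (le_abs_self M)
  · rw [h0 s hs, abs_zero]; exact abs_nonneg _

lemma CS.cb {L : ℝ} {χ : ℝ → ℝ} (h : CS L χ) (m : ℝ) : Cb (mode χ m) := by
  obtain ⟨M, -, hM⟩ := h.bound
  refine ⟨(h.1.comp_continuousOn continuousOn_YY.fst).mul
    (continuous_cos.comp_continuousOn (continuousOn_const.mul continuousOn_YY.snd)), M,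
    fun x _ => ?_⟩
  rw [mode, abs_mul]
  exact (mul_le_of_le_one_right (abs_nonneg _) (abs_cos_le_one _)).trans (hM _)

lemma mode_XX (χ : ℝ → ℝ) (m : ℝ) {p : ℝ × ℝ} (hp : p ∈ PP) :
    mode χ m (XX p) = χ p.1 * cos (m * p.2) := by rw [mode, YY_XX' hp]

/-- radial test data -/
structure Tst (lam m : ℝ) (ψ ψ' χ : ℝ → ℝ) : Prop where
  d1 : ∀ s, HasDerivAt ψ (ψ' s) s
  d2 : ∀ s, HasDerivAt ψ' (sc s * χ s + m ^ 2 * ψ s - lam * sc s * ψ s) s
  cs : CS 0 χ
  zero : ∀ s, 0 ≤ s → ψ s = 0 ∧ ψ' s = 0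
  bd : ∃ C, ∀ s, |ψ s| ≤ C * exp s ∧ |ψ' s| ≤ C * exp s

theorem weak_bound {m : ℝ} (hm : cos (m * (π / 3)) = 0) {ψ ψ' χ : ℝ → ℝ}
    (h : Tst lam1 m ψ ψ' χ) :
    ∃ D, ∀ f, Adm f → II (fun x => f x * mode χ m x) ^ 2 ≤ D * BB f f := by
  obtain ⟨κ, κ', M, hM, d, c, b, z, o, b', z', o'⟩ := exists_cut
  obtain ⟨M', hM'⟩ := exists_theta
  obtain ⟨C, hC⟩ := h.bd
  have hC0 : 0 ≤ C := by
    have := (abs_nonneg _).trans (hC 0).1; simpa using this
  have cκ : Continuous κ := continuous_iff_continuousAt.2 fun t => (d t).continuousAt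
  have cψ : Continuous ψ := continuous_iff_continuousAt.2 fun t => (h.d1 t).continuousAt
  have cψ' : Continuous ψ' := continuous_iff_continuousAt.2 fun t => (h.d2 t).continuousAt
  have cχ := h.cs.1
  have csc := continuous_sc
  obtain ⟨-, a0, b0, hb0, χ0⟩ := h.cs
  refine ⟨((C * (1 + M)) ^ 2 + (C * (|m| * M')) ^ 2) * (2 * π / 3), fun f hf => ?_⟩
  obtain ⟨N, ε, hN, hε, hbox⟩ := supp_box hf
  obtain ⟨B, B', dB, cB', B0, bB, bB', eB⟩ := hM' m hm ε hε
  have cB : Continuous B := continuous_iff_continuousAt.2 fun t => (dB t).continuousAt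
  let A : ℝ → ℝ := fun s => ψ s * κ (s + N + 1)
  let A' : ℝ → ℝ := fun s => ψ' s * κ (s + N + 1) + ψ s * κ' (s + N + 1)
  have dA : ∀ s, HasDerivAt A (A' s) s := fun s => by
    have := (h.d1 s).mul ((d (s + N + 1)).comp s (((hasDerivAt_id s).add_const N).add_const 1))
    exact this.congr_deriv (by simp [A'])
  have A0 : ∀ s, s ∉ Ioc (-N - 2) 0 → A s = 0 ∧ A' s = 0 := fun s hs => by
    rcases le_or_gt s (-N - 2) with h1 | h1
    · simp [A, A', z (s + N + 1) (by linarith), z' (s + N + 1) (by linarith)]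
    · have h2 : 0 ≤ s := le_of_not_gt fun h2 => hs ⟨h1, h2.le⟩
      simp [A, A', (h.zero s h2).1, (h.zero s h2).2]
  have cA : Continuous A := by fun_prop
  have cA' : Continuous A' := by fun_prop
  obtain ⟨g, hg, eg⟩ := exists_prod dA cA' dB cB' (a := -N - 2) (by positivity : 0 < ε / 3)
    (fun s hs => (A0 s fun h' => hs (Ioc_subset_Icc_self h')).1) B0
  have cF : Continuous f := hf.1.continuous
  have cX := continuous_XX
  have cs := continuous_ds hf.1
  have cp := continuous_dp hf.1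
  have F0 : ∀ p : ℝ × ℝ, XX p ∉ tsupport f → f (XX p) = 0 := fun p hp =>
    image_eq_zero_of_notMem_tsupport hp
  have e1 : QQ f g = ∫ p in RR (-N - 2) 0, (ds f p * (A' p.1 * B p.2) + dp f p * (A p.1 * B' p.2)) :=
    II_RR (continuous_gg hf.1 hg.1).continuousOn
      (fun p hp => by rw [conformal, (eg p hp).2.1, (eg p hp).2.2])
      fun p _ hp => by simp [(A0 _ hp).1, (A0 _ hp).2]
  have e2 : NN f g = ∫ p in RR (-N - 2) 0, sc p.1 * (f (XX p) * (A p.1 * B p.2)) :=
    II_RR (hf.cb.mul hg.cb).1 (fun p hp => by rw [(eg p hp).1])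
      fun p _ hp => by simp [(A0 _ hp).1]
  have e3 : II (fun x => f x * mode χ m x) =
      ∫ p in RR (-N - 2) 0, sc p.1 * (f (XX p) * (χ p.1 * cos (m * p.2))) :=
    II_RR (hf.cb.mul (h.cs.cb m)).1 (fun p hp => by rw [mode_XX χ m hp.1])
      fun p hp hs => by
        rcases le_or_gt p.1 (-N - 2) with h1 | h1
        · rw [F0 p fun ht => by
            have := abs_lt.1 (hbox p (le_of_lt hp) ht).1; linarith]
          simp
        · have h2 : 0 < p.1 := lt_of_not_ge fun h2 => hs ⟨h1, h2⟩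
          rw [χ0 p.1 fun h3 => by linarith [h3.2]]; simp
  have i1 := rect_ds (H := fun p => f (XX p) * (ψ' p.1 * cos (m * p.2)))
    (H' := fun p => ds f p * (ψ' p.1 * cos (m * p.2)) + f (XX p) *
      ((sc p.1 * χ p.1 + m ^ 2 * ψ p.1 - lam1 * sc p.1 * ψ p.1) * cos (m * p.2)))
    (fun s φ => (hasDerivAt_ds (hf.1.differentiable one_ne_zero _)).mul
      ((h.d2 s).mul_const (cos (m * φ)))) (by fun_prop) (a := -N - 2) (b := 0) (by linarith)
    (fun φ hφ => by
      rw [F0 _ fun ht => by have := abs_lt.1 (hbox (-N - 2, φ) hφ ht).1; linarith, zero_mul])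
    (fun φ _ => by simp [(h.zero 0 le_rfl).2])
  have i2 := rect_dp (H := fun p => f (XX p) * (ψ p.1 * -(m * sin (m * p.2))))
    (H' := fun p => dp f p * (ψ p.1 * -(m * sin (m * p.2))) + f (XX p) *
      (ψ p.1 * -(m * (cos (m * p.2) * m))))
    (fun s φ => (hasDerivAt_dp (hf.1.differentiable one_ne_zero _)).mul
      (((((hasDerivAt_id φ).const_mul m).sin.const_mul m).neg.const_mul (ψ s)).congr_deriv
        (by simp))) (by fun_prop) (-N - 2) 0
    (fun s => by
      rw [F0 _ fun ht => not_cone_edge (abs_of_pos (by positivity)) (hf.2 ht), zero_mul])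
    (fun s => by
      rw [F0 _ fun ht => not_cone_edge (by rw [abs_neg]; exact abs_of_pos (by positivity))
        (hf.2 ht), zero_mul])
  have key : BB f g = -II (fun x => f x * mode χ m x) := by
    rw [BB, e1, e2, e3]
    refine int5 (by fun_prop) (by fun_prop) (by fun_prop) (by fun_prop) (by fun_prop) i1 i2
      fun p hp => ?_
    by_cases ht : XX p ∈ tsupport f
    · obtain ⟨h1, h2⟩ := hbox p (RR_abs hp) ht
      have h3 := (abs_lt.1 h1).1
      simp only [A, A', o (p.1 + N + 1) (by linarith), o' (p.1 + N + 1) (by linarith),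
        (eB _ h2).1, (eB _ h2).2]
      ring
    · simp [F0 p ht, ds_zero ht, dp_zero ht]
  have qg : QQ g g ≤ ((C * (1 + M)) ^ 2 + (C * (|m| * M')) ^ 2) * (2 * π / 3) := by
    have e4 : QQ g g = ∫ p in RR (-N - 2) 0, ((A' p.1 * B p.2) ^ 2 + (A p.1 * B' p.2) ^ 2) :=
      II_RR (continuous_gg hg.1 hg.1).continuousOn
        (fun p hp => by rw [conformal, (eg p hp).2.1, (eg p hp).2.2]; ring)
        fun p _ hp => by simp [(A0 _ hp).1, (A0 _ hp).2]
    set D := (C * (1 + M)) ^ 2 + (C * (|m| * M')) ^ 2 with hD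
    have hD0 : 0 ≤ D := by positivity
    have le1 : QQ g g ≤ ∫ p in RR (-N - 2) 0, exp p.1 * D := by
      rw [e4]
      refine setIntegral_mono_on (integrableOn_RR (by fun_prop) _ _)
        (integrableOn_RR (by fun_prop) _ _) (measurableSet_RR _ _) fun p hp => ?_
      have x0 := exp_pos p.1
      have x1 : exp p.1 ≤ 1 := exp_le_one_iff.2 hp.1.2
      have a1 : |A p.1| ≤ C * exp p.1 := by
        simp only [A, abs_mul]
        exact (mul_le_of_le_one_right (abs_nonneg _) (b _)).trans (hC _).1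
      have a2 : |A' p.1| ≤ C * (1 + M) * exp p.1 := by
        refine (abs_add_le _ _).trans ?_
        simp only [abs_mul]
        have := (mul_le_of_le_one_right (abs_nonneg (ψ' p.1)) (b (p.1 + N + 1))).trans (hC _).2
        have := mul_le_mul (hC p.1).1 (b' (p.1 + N + 1)) (abs_nonneg _) (by positivity)
        nlinarith
      have a3 : |A' p.1 * B p.2| ≤ C * (1 + M) * exp p.1 := by
        rw [abs_mul]; exact (mul_le_of_le_one_right (abs_nonneg _) (bB _)).trans a2
      have a4 : |A p.1 * B' p.2| ≤ C * (|m| * M') * exp p.1 := by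
        rw [abs_mul]
        exact (mul_le_mul a1 (bB' _) (abs_nonneg _) (by positivity)).trans (le_of_eq (by ring))
      have a5 := sq_le_sq' (abs_le.1 a3).1 (abs_le.1 a3).2
      have a6 := sq_le_sq' (abs_le.1 a4).1 (abs_le.1 a4).2
      have a7 : exp p.1 ^ 2 * D ≤ exp p.1 * D := mul_le_mul_of_nonneg_right (by nlinarith) hD0
      rw [hD] at a7 ⊢
      nlinarith
    refine le1.trans ?_
    rw [RR, Measure.volume_eq_prod, setIntegral_prod_mul exp (fun _ => D),
      ← intervalIntegral.integral_of_le (by linarith),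
      ← intervalIntegral.integral_of_le (by linarith [pi_pos])]
    simp only [integral_exp, exp_zero, intervalIntegral.integral_const, smul_eq_mul]
    have := exp_pos (-N - 2)
    have : 0 ≤ (π / 3 - -(π / 3)) * D := mul_nonneg (by linarith [pi_pos]) hD0
    nlinarith
  have cs := BB_cs hf hg
  rw [key, neg_sq] at cs
  have := BB_nonneg hf
  have := BB_le_QQ g
  nlinarith

end Pool.Agent.MP_c4844d_an

end
end MrgPart2

-- marker of a merged file
example : 731051 + 294950 = 731051 + 294950 := rfl
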