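import Mathlib.Analysis.Real.Pi.Bounds
import Pool.Agent.MP_c4844d_an.Weak

-- ======== part 0: formerly Pool.Agent.MP_c4844d_an.Radial
section MrgPart0

noncomputable section

open Filter Topology Real MeasureTheory Set

namespace Pool.Agent.MP_c4844d_an

lemma sg_eq (s : ℝ) : sg s = exp s ^ 2 / (1 + exp s ^ 2) := by
  have := exp_pos s
  rw [sg, sinh_eq, cosh_eq, exp_neg]; field_simp; ring

lemma sg_pos (s : ℝ) : 0 < sg s := by rw [sg_eq]; positivity

lemma sg_le_half {s : ℝ} (h : s ≤ 0) : sg s ≤ 1 / 2 := by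
  have h1 : exp s ≤ 1 := exp_le_one_iff.2 h
  have := exp_pos s
  rw [sg_eq, div_le_iff₀ (by positivity)]; nlinarith

lemma sg_le {s : ℝ} (h : exp s ≤ 3 / 4) : sg s ≤ 9 / 25 := by
  have := exp_pos s
  rw [sg_eq, div_le_iff₀ (by positivity)]; nlinarith

lemma norm_sg {s : ℝ} (h : s ≤ 0) : ‖(sg s : ℂ)‖ < 3 / 4 := by
  rw [Complex.norm_real, Real.norm_of_nonneg (sg_pos s).le]; linarith [sg_le_half h]

lemma hasDerivAt_sg (s : ℝ) : HasDerivAt sg (sc s / 2) s :=
  ((hasDerivAt_tanh s).const_add 1).div_const 2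

/-- derivative of the real series -/
def hd (lam m x : ℝ) : ℝ := (deriv (hypC lam m) x).re

lemma hasDerivAt_hyp (lam m : ℝ) {x : ℝ} (hx : ‖(x : ℂ)‖ < 3 / 4) :
    HasDerivAt (hyp lam m) (hd lam m x) x := by
  have := (hasDerivAt_hypC lam m hx).real_of_complex
  simp only [hypC_ofReal, Complex.ofReal_re] at this
  exact this

lemma hyp_lower (lam : ℝ) (j : ℤ) {x : ℝ} (hx : ‖(x : ℂ)‖ < 3 / 4) :
    mu j * hyp lam (mu j) x + x * hd lam (mu j) x = mu j * hyp lam (mu (j - 1)) x := by
  have := congrArg Complex.re (hypC_lower lam j hx)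
  simpa [hypC_ofReal, hd] using this

lemma hyp_raise (lam : ℝ) (j : ℤ) {x : ℝ} (hx : ‖(x : ℂ)‖ < 3 / 4) :
    mu j * hyp lam (mu j) x + (1 - x) * hd lam (mu j) x = pc lam j * hyp lam (mu (j + 1)) x := by
  have := congrArg Complex.re (hypC_raise lam j hx)
  simpa [hypC_ofReal, hd] using this

/-- radial part of a mode -/
def gm (lam : ℝ) (j : ℤ) (s : ℝ) : ℝ := exp (mu j * s) * hyp lam (mu j) (sg s)

/-- its derivative -/
def gm' (lam : ℝ) (j : ℤ) (s : ℝ) : ℝ :=
  -(mu j * (sinh s / cosh s) * gm lam j s) + pc lam j * ((cosh s)⁻¹ * gm lam (j + 1) s)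

lemma hasDerivAt_gm0 (lam : ℝ) (j : ℤ) {s : ℝ} (h : s ≤ 0) : HasDerivAt (gm lam j)
    (exp (mu j * s) * (mu j * hyp lam (mu j) (sg s) + hd lam (mu j) (sg s) * (sc s / 2))) s := by
  have := (((hasDerivAt_id s).const_mul (mu j)).exp).mul
    ((hasDerivAt_hyp lam (mu j) (norm_sg h)).comp s (hasDerivAt_sg s))
  exact this.congr_deriv (by simp; ring)

lemma hasDerivAt_gm (lam : ℝ) (j : ℤ) {s : ℝ} (h : s ≤ 0) :
    HasDerivAt (gm lam j) (gm' lam j s) s := by
  refine (hasDerivAt_gm0 lam j h).congr_deriv ?_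
  have r := hyp_raise lam j (norm_sg h)
  have hc := cosh_pos s
  have e1 := cosh_add_sinh s
  have e2 := cosh_sq s
  simp only [gm', gm, mu_add_one, add_mul, one_mul, exp_add, sc]
  rw [mu_add_one] at r
  generalize hyp lam (mu j + 1) (sg s) = F1 at *
  generalize hyp lam (mu j) (sg s) = F at *
  generalize hd lam (mu j) (sg s) = D at *
  rw [sg] at r
  rw [← e1]
  field_simp at r ⊢
  grind

lemma hasDerivAt_gm_down (lam : ℝ) (j : ℤ) {s : ℝ} (h : s ≤ 0) : HasDerivAt (gm lam (j + 1))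
    ((mu j + 1) * (sinh s / cosh s) * gm lam (j + 1) s +
      (mu j + 1) * ((cosh s)⁻¹ * gm lam j s)) s := by
  refine (hasDerivAt_gm0 lam (j + 1) h).congr_deriv ?_
  have r := hyp_lower lam (j + 1) (norm_sg h)
  have hc := cosh_pos s
  have e1 := cosh_add_sinh s
  have e2 := cosh_sq s
  rw [add_sub_cancel_right] at r
  simp only [gm, mu_add_one, add_mul, one_mul, exp_add, sc]
  rw [mu_add_one] at r
  generalize hyp lam (mu j + 1) (sg s) = F1 at *
  generalize hyp lam (mu j) (sg s) = F at *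
  generalize hd lam (mu j + 1) (sg s) = D at *
  rw [sg] at r
  rw [← e1]
  field_simp at r ⊢
  grind

lemma hasDerivAt_gm' (lam : ℝ) (j : ℤ) {s : ℝ} (h : s ≤ 0) :
    HasDerivAt (gm' lam j) ((mu j ^ 2 - lam * sc s) * gm lam j s) s := by
  have := (((hasDerivAt_tanh s).const_mul (mu j)).mul (hasDerivAt_gm lam j h)).neg.add
    (((hasDerivAt_sech s).mul (hasDerivAt_gm_down lam j h)).const_mul (pc lam j))
  refine this.congr_deriv ?_
  have hc := cosh_pos s
  have e2 := cosh_sq s
  have e3 : pc lam j * (mu j + 1) = mu j * (mu j + 1) - lam := by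
    have := mu_one_ne j
    rw [pc]; field_simp
  simp only [gm', sc]
  field_simp
  grind

lemma summable_hyp (lam m : ℝ) {x : ℝ} (hx : |x| ≤ 3 / 4) :
    Summable fun n : ℕ => hc lam m n * x ^ n := by
  refine Summable.of_norm_bounded (summable_hc lam m) fun n => ?_
  rw [norm_mul, norm_pow, Real.norm_eq_abs, Real.norm_eq_abs]
  gcongr

lemma hyp_ge {lam m x : ℝ} (h0 : 0 ≤ lam) (h6 : lam ≤ 6) (hm : 3 / 2 ≤ m) (x0 : 0 ≤ x)
    (x1 : x ≤ 9 / 25) : 1 / 8 ≤ hyp lam m x := by
  have hs := summable_hyp lam m (x := x) (by rw [abs_of_nonneg x0]; linarith)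
  have h1 : hc lam m 1 = -lam / (1 + m) := by simp [hc]
  rcases le_total lam 2 with h2 | h2
  · have b : ∀ n : ℕ, -(4 / 5) ≤ hc lam m (n + 1) ∧ hc lam m (n + 1) ≤ 0 := by
      intro n
      induction n with
      | zero =>
        rw [zero_add, h1]
        exact ⟨by rw [le_div_iff₀ (by linarith)]; linarith,
          div_nonpos_of_nonpos_of_nonneg (by linarith) (by linarith)⟩
      | succ n ih =>
        rw [hc_succ]
        have hn : (0 : ℝ) ≤ n := Nat.cast_nonneg n
        have p : (0 : ℝ) < (((n + 1 : ℕ) : ℝ) + 1) * ((n + 1 : ℕ) + 1 + m) := by positivity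
        have q0 : 0 ≤ (((n + 1 : ℕ) : ℝ) * ((n + 1 : ℕ) + 1) - lam) /
            ((((n + 1 : ℕ) : ℝ) + 1) * ((n + 1 : ℕ) + 1 + m)) :=
          div_nonneg (by push_cast; nlinarith) p.le
        have q1 : (((n + 1 : ℕ) : ℝ) * ((n + 1 : ℕ) + 1) - lam) /
            ((((n + 1 : ℕ) : ℝ) + 1) * ((n + 1 : ℕ) + 1 + m)) ≤ 1 := by
          rw [div_le_one p]; push_cast; nlinarith
        constructor <;> nlinarith [ih.1, ih.2]
    have g : HasSum (fun n : ℕ => -(4 / 5) * x * x ^ n) (-(4 / 5) * x * (1 - x)⁻¹) :=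
      (hasSum_geometric_of_lt_one x0 (by linarith)).mul_left _
    have := hasSum_le (fun n => show -(4 / 5) * x * x ^ n ≤ hc lam m (n + 1) * x ^ (n + 1) by
      rw [pow_succ]; nlinarith [(b n).1, mul_nonneg (pow_nonneg x0 n) x0]) g
      ((summable_nat_add_iff 1).2 hs).hasSum
    rw [hyp, hs.tsum_eq_zero_add]
    have e : x * (1 - x)⁻¹ ≤ 1 := by
      rw [← div_eq_mul_inv, div_le_one (by linarith)]; linarith
    simp only [hc_zero, pow_zero, mul_one]
    linarith
  · have b : ∀ n : ℕ, 0 ≤ hc lam m (n + 2) := by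
      intro n
      induction n with
      | zero =>
        rw [zero_add, hc_succ, h1]
        refine mul_nonneg_of_nonpos_of_nonpos
          (div_nonpos_of_nonpos_of_nonneg (by linarith) (by linarith))
          (div_nonpos_of_nonpos_of_nonneg (by push_cast; linarith) (by positivity))
      | succ n ih =>
        rw [show n + 1 + 2 = (n + 2) + 1 from rfl, hc_succ]
        have hn : (0 : ℝ) ≤ n := Nat.cast_nonneg n
        exact mul_nonneg ih (div_nonneg (by push_cast; nlinarith) (by positivity))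
    rw [hyp, ← hs.sum_add_tsum_nat_add 2]
    have t : 0 ≤ ∑' n : ℕ, hc lam m (n + 2) * x ^ (n + 2) :=
      tsum_nonneg fun n => mul_nonneg (b n) (pow_nonneg x0 _)
    have u : -(12 / 5) ≤ -lam / (1 + m) := by rw [le_div_iff₀ (by linarith)]; linarith
    simp only [Finset.sum_range_succ, Finset.range_zero, Finset.sum_empty, hc_zero, h1]
    nlinarith

lemma mu_ge {j : ℤ} (hj : 1 ≤ j) : 3 / 2 ≤ mu j := by
  have : (1 : ℝ) ≤ j := by exact_mod_cast hj
  unfold mu; linarith

lemma abs_gm_le' (lam : ℝ) {j : ℤ} (hj : 1 ≤ j) {s : ℝ} (h : s ≤ 0) :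
    |gm lam j s| ≤ 4 * exp (2 * |lam|) * exp (mu j * s) := by
  have := mu_ge hj
  rw [gm, abs_mul, abs_of_pos (exp_pos _), mul_comm]
  refine mul_le_mul_of_nonneg_right ((abs_hyp_le _ _ ?_).trans (hB_le lam (by linarith)))
    (exp_pos _).le
  rw [abs_of_pos (sg_pos s)]; linarith [sg_le_half h]

lemma abs_gm_le (lam : ℝ) {j : ℤ} (hj : 1 ≤ j) {s : ℝ} (h : s ≤ 0) :
    |gm lam j s| ≤ 4 * exp (2 * |lam|) * exp s := by
  have := mu_ge hj
  exact (abs_gm_le' lam hj h).trans
    (mul_le_mul_of_nonneg_left (exp_le_exp.2 (by nlinarith)) (by positivity))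

lemma abs_gm'_le (lam : ℝ) {j : ℤ} (hj : 1 ≤ j) {s : ℝ} (h : s ≤ 0) :
    |gm' lam j s| ≤ (|mu j| + |pc lam j|) * (4 * exp (2 * |lam|)) * exp s := by
  have a := abs_gm_le lam hj h
  have b := abs_gm_le lam (j := j + 1) (by omega) h
  have hc := cosh_pos s
  have t : |sinh s / cosh s| ≤ 1 := by
    rw [abs_div, abs_of_pos hc, div_le_one hc, abs_le]
    have := cosh_add_sinh s
    have := cosh_sub_sinh s
    have := exp_pos s
    have := exp_pos (-s)
    constructor <;> linarith
  have u : |(cosh s)⁻¹| ≤ 1 := by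
    rw [abs_of_pos (inv_pos.2 hc)]; exact inv_le_one_of_one_le₀ (one_le_cosh s)
  rw [gm']
  refine (abs_add_le _ _).trans ?_
  simp only [abs_neg, abs_mul]
  have a' : |mu j| * |sinh s / cosh s| * |gm lam j s| ≤
      |mu j| * 1 * (4 * exp (2 * |lam|) * exp s) := by gcongr
  have b' : |pc lam j| * (|(cosh s)⁻¹| * |gm lam (j + 1) s|) ≤
      |pc lam j| * (1 * (4 * exp (2 * |lam|) * exp s)) := by gcongr
  linarith

lemma gm_ge {j : ℤ} (hj : 1 ≤ j) {s : ℝ} (h : exp s ≤ 3 / 4) :
    exp (mu j * s) / 8 ≤ gm lam1 j s := by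
  have := hyp_ge lam1_nonneg lam1_le_six (mu_ge hj) (sg_pos s).le (sg_le h)
  have := exp_pos (mu j * s)
  rw [gm]; nlinarith

/-- the largest radius used -/
def L0 : ℝ := log (3 / 4)

lemma L0_neg : L0 < 0 := log_neg (by norm_num) (by norm_num)
lemma exp_le_of_lt_L0 {s : ℝ} (h : s ≤ L0) : exp s ≤ 3 / 4 := by
  have := exp_le_exp.2 h
  rwa [L0, exp_log (by norm_num)] at this

lemma cont_cut {h : ℝ → ℝ} {b L : ℝ} (hb : b < L) (h1 : ∀ s < L, ContinuousAt h s)
    (h2 : ∀ s, b < s → h s = 0) : Continuous h := by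
  rw [continuous_iff_continuousAt]
  intro s
  rcases lt_or_ge s L with hs | hs
  · exact h1 s hs
  · refine continuousAt_const.congr (f := fun _ => (0 : ℝ)) ?_
    filter_upwards [Ioi_mem_nhds (hb.trans_le hs)] with t ht using (h2 t ht).symm

lemma CS.cont_gm {L : ℝ} (hL : L ≤ 0) {χ : ℝ → ℝ} (h : CS L χ) (lam : ℝ) (j : ℤ) :
    Continuous fun s => sc s * χ s * gm lam j s := by
  obtain ⟨hc, a, b, hb, h0⟩ := h
  refine cont_cut hb (fun s hs => ?_) fun s hs => ?_
  · exact (continuous_sc.mul hc).continuousAt.mul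
      (hasDerivAt_gm lam j (by linarith)).continuousAt
  · rw [h0 s fun h' => by linarith [h'.2]]; simp

lemma CS.mono {L L' : ℝ} (hL : L ≤ L') {χ : ℝ → ℝ} (h : CS L χ) : CS L' χ := by
  obtain ⟨hc, a, b, hb, h0⟩ := h
  exact ⟨hc, a, b, hb.trans_le hL, h0⟩

lemma exists_tst {j : ℤ} (hj : 1 ≤ j) {χ : ℝ → ℝ} (h : CS L0 χ)
    (h0 : ∫ s, sc s * χ s * gm lam1 j s = 0) : ∃ ψ ψ', Tst lam1 (mu j) ψ ψ' χ := by
  have hL := L0_neg
  have ch := h.cont_gm hL.le lam1 j
  obtain ⟨cχ, a, b, hb, χ0⟩ := id h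
  set g := gm lam1 j with hg
  set g' := gm' lam1 j with hg'
  have gpos : ∀ s < L0, 0 < g s := fun s hs =>
    lt_of_lt_of_le (by positivity) (gm_ge hj (exp_le_of_lt_L0 hs.le))
  have dg : ∀ s < L0, HasDerivAt g (g' s) s := fun s hs => hasDerivAt_gm lam1 j (by linarith)
  let J : ℝ → ℝ := fun s => ∫ t in (a - 1)..s, sc t * χ t * g t
  have dJ : ∀ s, HasDerivAt J (sc s * χ s * g s) s := fun s =>
    (ch.integral_hasStrictDerivAt (a - 1) s).hasDerivAt
  have J1 : ∀ s < a, J s = 0 := fun s hs => by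
    simp only [J]
    rw [intervalIntegral.integral_congr (g := fun _ => 0)]
    · simp
    · intro t ht
      have : t < a := ht.2.trans_lt (max_lt (by linarith) hs)
      simp only []
      rw [χ0 t fun h' => by linarith [h'.1]]; simp
  have J2 : ∀ s, b < s → J s = 0 := fun s hs => by
    rcases lt_or_ge s a with h1 | h1
    · exact J1 s h1
    simp only [J]
    rw [intervalIntegral.integral_eq_integral_of_support_subset, h0]
    intro t ht
    by_contra hc
    refine ht ?_
    simp only []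
    rw [χ0 t fun h' => hc ⟨by linarith [h'.1], by linarith [h'.2]⟩]; simp
  have cy : Continuous fun s => J s / g s ^ 2 :=
    cont_cut hb (fun s hs => (dJ s).continuousAt.div ((dg s hs).continuousAt.pow 2)
      (pow_pos (gpos s hs) 2).ne') fun s hs => by rw [J2 s hs, zero_div]
  have cq : Continuous fun s => J s / g s :=
    cont_cut hb (fun s hs => (dJ s).continuousAt.div (dg s hs).continuousAt
      (gpos s hs).ne') fun s hs => by rw [J2 s hs, zero_div]
  let y : ℝ → ℝ := fun s => ∫ t in (0 : ℝ)..s, J t / g t ^ 2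
  have dy : ∀ s, HasDerivAt y (J s / g s ^ 2) s := fun s =>
    (cy.integral_hasStrictDerivAt 0 s).hasDerivAt
  have cy' : Continuous y := continuous_iff_continuousAt.2 fun s => (dy s).continuousAt
  have y2 : ∀ s, b < s → y s = 0 := fun s hs => by
    simp only [y]
    rw [intervalIntegral.integral_congr (g := fun _ => 0)]
    · simp
    · intro t ht
      have : b < t := (lt_min (by linarith) hs).trans_le ht.1
      simp only []
      rw [J2 t this, zero_div]
  have y1 : ∀ s < a, y s = y (a - 1) := fun s hs => by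
    simp only [y]
    rw [← intervalIntegral.integral_add_adjacent_intervals (cy.intervalIntegrable 0 (a - 1))
      (cy.intervalIntegrable (a - 1) s),
      intervalIntegral.integral_congr (a := a - 1) (g := fun _ => 0)]
    · simp
    · intro t ht
      have : t < a := ht.2.trans_lt (max_lt (by linarith) hs)
      simp only []
      rw [J1 t this, zero_div]
  have ev : ∀ s, L0 ≤ s → ∀ᶠ t in 𝓝 s, y t = 0 ∧ J t = 0 := fun s hs => by
    filter_upwards [Ioi_mem_nhds (hb.trans_le hs)] with t ht using ⟨y2 t ht, J2 t ht⟩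
  refine ⟨fun s => g s * y s, fun s => g' s * y s + J s / g s, fun s => ?_, fun s => ?_,
    h.mono hL.le, fun s hs => by simp [y2 s (by linarith), J2 s (by linarith)], ?_⟩
  · rcases lt_or_ge s L0 with hs | hs
    · refine ((dg s hs).mul (dy s)).congr_deriv ?_
      have := (gpos s hs).ne'
      field_simp
    · have e := (ev s hs).self_of_nhds
      simp only [e.1, e.2, mul_zero, zero_div, add_zero]
      refine (hasDerivAt_const s (0 : ℝ)).congr_of_eventuallyEq ?_
      filter_upwards [ev s hs] with t ht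
      rw [ht.1, mul_zero]
  · rcases lt_or_ge s L0 with hs | hs
    · have := (gpos s hs).ne'
      refine (((hasDerivAt_gm' lam1 j (s := s) (by linarith)).mul (dy s)).add
        ((dJ s).div (dg s hs) this)).congr_deriv ?_
      rw [← hg, ← hg']
      field_simp
      ring
    · have e := (ev s hs).self_of_nhds
      rw [χ0 s fun h' => by linarith [h'.2]]
      simp only [e.1, mul_zero, add_zero, sub_zero]
      refine (hasDerivAt_const s (0 : ℝ)).congr_of_eventuallyEq ?_
      filter_upwards [ev s hs] with t ht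
      rw [ht.1, ht.2]; simp
  · obtain ⟨Y, hY⟩ := (isCompact_Icc (a := a - 1) (b := max a 0)).exists_bound_of_continuousOn
      cy'.continuousOn
    obtain ⟨K, hK⟩ := (isCompact_Icc (a := a - 1) (b := max a 0)).exists_bound_of_continuousOn
      cq.continuousOn
    have m0 : a - 1 ∈ Icc (a - 1) (max a 0) := ⟨le_rfl, by linarith [le_max_left a 0]⟩
    have Y0 : 0 ≤ Y := (norm_nonneg _).trans (hY _ m0)
    have K0 : 0 ≤ K := (norm_nonneg _).trans (hK _ m0)
    have by1 : ∀ s ≤ 0, |y s| ≤ Y := fun s hs => by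
      rcases lt_or_ge s a with h1 | h1
      · rw [y1 s h1]; exact hY _ m0
      · exact hY s ⟨by linarith, hs.trans (le_max_right _ _)⟩
    have bq : ∀ s ≤ 0, |J s / g s| ≤ K * exp (-a) * exp s := fun s hs => by
      rcases lt_or_ge s a with h1 | h1
      · rw [J1 s h1, zero_div, abs_zero]; positivity
      · refine (hK s ⟨by linarith, hs.trans (le_max_right _ _)⟩).trans ?_
        rw [mul_assoc, ← exp_add]
        exact le_mul_of_one_le_right K0 (one_le_exp (by linarith))
    set B := 4 * exp (2 * |lam1|) with hB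
    set A := |mu j| + |pc lam1 j| with hA
    have B0 : 0 ≤ B := by positivity
    have A0 : 0 ≤ A := by positivity
    refine ⟨B * Y + A * B * Y + K * exp (-a), fun s => ?_⟩
    have x0 := exp_pos s
    have p1 : 0 ≤ B * Y * exp s := by positivity
    have p2 : 0 ≤ A * B * Y * exp s := by positivity
    have p3 : 0 ≤ K * exp (-a) * exp s := by positivity
    rcases le_or_gt s 0 with hs | hs
    · have u1 := mul_le_mul (abs_gm_le lam1 hj hs) (by1 s hs) (abs_nonneg _) (by positivity)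
      have u2 := mul_le_mul (abs_gm'_le lam1 hj hs) (by1 s hs) (abs_nonneg _) (by positivity)
      have u3 := bq s hs
      constructor
      · rw [abs_mul]; nlinarith
      · refine (abs_add_le _ _).trans ?_
        rw [abs_mul]; nlinarith
    · simp only [y2 s (by linarith), J2 s (by linarith), mul_zero, zero_div, add_zero, abs_zero]
      constructor <;> nlinarith

end Pool.Agent.MP_c4844d_an

end
end MrgPart0

-- ======== part 1: formerly Pool.Agent.MP_c4844d_an.Nash
section MrgPart1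

noncomputable section

open Filter Topology Real MeasureTheory Set

namespace Pool.Agent.MP_c4844d_an

lemma sq_le_int {h h' : ℝ → ℝ} (hd : ∀ t, HasDerivAt h (h' t) t) (hc : Continuous h') {a b t δ : ℝ}
    (ha : h a = 0) (h1 : a ≤ t) (h2 : t ≤ b) (hδ : 0 < δ) :
    h t ^ 2 ≤ ∫ r in Ioc a b, (δ * h r ^ 2 + h' r ^ 2 / δ) := by
  have c : Continuous h := continuous_iff_continuousAt.2 fun t => (hd t).continuousAt
  have e := intervalIntegral.integral_eq_sub_of_hasDerivAt (a := a) (b := t)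
    (f := fun r => h r ^ 2) (f' := fun r => 2 * h r * h' r)
    (fun r _ => ((hd r).pow 2).congr_deriv (by simp))
    ((by fun_prop : Continuous fun r => 2 * h r * h' r).intervalIntegrable _ _)
  have cG : Continuous fun r => δ * h r ^ 2 + h' r ^ 2 / δ := by fun_prop
  rw [ha] at e
  calc h t ^ 2 = ∫ r in a..t, 2 * h r * h' r := by rw [e]; simp
    _ ≤ ∫ r in a..t, (δ * h r ^ 2 + h' r ^ 2 / δ) := by
        refine intervalIntegral.integral_mono_on h1
          ((by fun_prop : Continuous fun r => 2 * h r * h' r).intervalIntegrable _ _)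
          (cG.intervalIntegrable _ _) fun r _ => ?_
        have : 0 ≤ (δ * h r - h' r) ^ 2 / δ := by positivity
        have e2 : (δ * h r - h' r) ^ 2 / δ = δ * h r ^ 2 + h' r ^ 2 / δ - 2 * h r * h' r := by
          field_simp; ring
        linarith
    _ ≤ ∫ r in a..b, (δ * h r ^ 2 + h' r ^ 2 / δ) :=
        intervalIntegral.integral_mono_interval le_rfl h1 h2
          (Eventually.of_forall fun r => by positivity) (cG.intervalIntegrable _ _)
    _ = _ := intervalIntegral.integral_of_le (h1.trans h2)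

lemma restrict_RR (a b : ℝ) : (volume : Measure (ℝ × ℝ)).restrict (RR a b) =
    (volume.restrict (Ioc a b)).prod (volume.restrict (Ioc (-(π / 3)) (π / 3))) := by
  rw [RR, Measure.volume_eq_prod, Measure.prod_restrict]

lemma l4_bound {f : E3 → ℝ} (hf : Adm f) : II (fun x => f x ^ 4) ≤ (21 * QQ f f) ^ 2 := by
  obtain ⟨N, ε, hN, hε, hbox⟩ := supp_box hf
  have cF : Continuous f := hf.1.continuous
  have cX := continuous_XX
  have cs := continuous_ds hf.1
  have cp := continuous_dp hf.1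
  have csc := continuous_sc
  have hpi := pi_pos
  have df := hf.1.differentiable one_ne_zero
  have F0 : ∀ p : ℝ × ℝ, XX p ∉ tsupport f → f (XX p) = 0 := fun p hp =>
    image_eq_zero_of_notMem_tsupport hp
  have n1 : ∀ p ∈ PP, p ∉ Tc → XX p ∉ tsupport f := fun p hp h ht => h ⟨hp, hf.2 ht⟩
  have n2 : ∀ p ∈ PP, p.1 ∉ Ioc (-N) N → XX p ∉ tsupport f := fun p hp h ht => by
    have := abs_lt.1 (hbox p (le_of_lt hp) ht).1
    exact h ⟨this.1, this.2.le⟩
  have e1 : QQ f f = ∫ p in RR (-N) N, (ds f p ^ 2 + dp f p ^ 2) :=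
    II_rect (continuous_gg hf.1 hf.1).continuousOn (fun p _ => by rw [conformal]; ring)
      (fun p hp h => by simp [ds_zero (n1 p hp h), dp_zero (n1 p hp h)])
      fun p hp h => by simp [ds_zero (n2 p hp h), dp_zero (n2 p hp h)]
  have e2 : II (fun x => f x ^ 4) = ∫ p in RR (-N) N, sc p.1 * f (XX p) ^ 4 :=
    II_rect (cF.pow 4).continuousOn (fun p _ => rfl) (fun p hp h => by simp [F0 p (n1 p hp h)])
      fun p hp h => by simp [F0 p (n2 p hp h)]
  have hA : ∀ δ > 0, ∀ p ∈ RR (-N) N, f (XX p) ^ 2 ≤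
      ∫ t in Ioc (-(π / 3)) (π / 3), (δ * f (XX (p.1, t)) ^ 2 + dp f (p.1, t) ^ 2 / δ) :=
    fun δ hδ p hp => sq_le_int (h := fun t => f (XX (p.1, t))) (fun t => hasDerivAt_dp (df _))
      (by fun_prop) (F0 _ fun ht => not_cone_edge
        (by rw [abs_neg]; exact abs_of_pos (by positivity)) (hf.2 ht)) hp.2.1.le hp.2.2 hδ
  have hB : ∀ p ∈ RR (-N) N, f (XX p) ^ 2 ≤
      ∫ t in Ioc (-N) N, (1 * f (XX (t, p.2)) ^ 2 + ds f (t, p.2) ^ 2 / 1) :=
    fun p hp => sq_le_int (h := fun t => f (XX (t, p.2))) (fun t => hasDerivAt_ds (df _))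
      (by fun_prop) (F0 _ fun ht => by
        have := abs_lt.1 (hbox (-N, p.2) (RR_abs (p := p) hp) ht).1; linarith) hp.1.1.le hp.1.2 one_pos
  set P := ∫ p in RR (-N) N, f (XX p) ^ 2 with hP
  set S := ∫ p in RR (-N) N, ds f p ^ 2 with hS
  set T := ∫ p in RR (-N) N, dp f p ^ 2 with hT
  have P0 : 0 ≤ P := integral_nonneg fun p => sq_nonneg _
  have S0 : 0 ≤ S := integral_nonneg fun p => sq_nonneg _
  have T0 : 0 ≤ T := integral_nonneg fun p => sq_nonneg _
  have e3 : QQ f f = S + T := by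
    rw [e1, integral_add (integrableOn_RR (by fun_prop) _ _) (integrableOn_RR (by fun_prop) _ _)]
  have iA : ∀ δ : ℝ, Integrable (fun p : ℝ × ℝ => δ * f (XX p) ^ 2 + dp f p ^ 2 / δ)
      ((volume.restrict (Ioc (-N) N)).prod (volume.restrict (Ioc (-(π / 3)) (π / 3)))) := fun δ => by
    rw [← restrict_RR]; exact integrableOn_RR (by fun_prop) _ _
  have iB : Integrable (fun p : ℝ × ℝ => 1 * f (XX p) ^ 2 + ds f p ^ 2 / 1)
      ((volume.restrict (Ioc (-N) N)).prod (volume.restrict (Ioc (-(π / 3)) (π / 3)))) := by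
    rw [← restrict_RR]; exact integrableOn_RR (by fun_prop) _ _
  have vA : ∀ δ : ℝ, ∫ s in Ioc (-N) N, ∫ t in Ioc (-(π / 3)) (π / 3),
      (δ * f (XX (s, t)) ^ 2 + dp f (s, t) ^ 2 / δ) = δ * P + T / δ := fun δ => by
    rw [← integral_prod _ (iA δ), ← restrict_RR,
      integral_add (integrableOn_RR (by fun_prop) _ _) (integrableOn_RR (by fun_prop) _ _),
      integral_const_mul, integral_div]
  have vB : ∫ t in Ioc (-(π / 3)) (π / 3), ∫ s in Ioc (-N) N,
      (1 * f (XX (s, t)) ^ 2 + ds f (s, t) ^ 2 / 1) = 1 * P + S / 1 := by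
    rw [← integral_prod_symm _ iB, ← restrict_RR,
      integral_add (integrableOn_RR (by fun_prop) _ _) (integrableOn_RR (by fun_prop) _ _),
      integral_const_mul, integral_div]
  have poin : P ≤ 20 * T := by
    have i1 := (iA (1 / 5)).integral_prod_left.mul_prod
      (integrable_const (μ := volume.restrict (Ioc (-(π / 3)) (π / 3))) (1 : ℝ))
    have h := setIntegral_mono_on (integrableOn_RR (G := fun p => f (XX p) ^ 2) (by fun_prop) _ _)
      (show IntegrableOn _ (RR (-N) N) volume by rw [IntegrableOn, restrict_RR]; exact i1)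
      (measurableSet_RR _ _) fun p hp => by simpa using hA (1 / 5) (by norm_num) p hp
    rw [← hP, restrict_RR, integral_prod_mul
      (fun s => ∫ t in Ioc (-(π / 3)) (π / 3), (1 / 5 * f (XX (s, t)) ^ 2 + dp f (s, t) ^ 2 / (1 / 5)))
      (fun _ => (1 : ℝ)), vA, ← intervalIntegral.integral_of_le (by linarith)] at h
    simp only [intervalIntegral.integral_const, smul_eq_mul] at h
    have := pi_lt_d2
    nlinarith
  have i2 := (iA 1).integral_prod_left.mul_prod iB.integral_prod_right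
  have h := setIntegral_mono_on
    (integrableOn_RR (G := fun p => sc p.1 * f (XX p) ^ 4) (by fun_prop) _ _)
    (show IntegrableOn _ (RR (-N) N) volume by rw [IntegrableOn, restrict_RR]; exact i2)
    (measurableSet_RR _ _) fun p hp => by
      have a := hA 1 one_pos p hp
      have b := hB p hp
      calc sc p.1 * f (XX p) ^ 4 ≤ f (XX p) ^ 2 * f (XX p) ^ 2 := by
            have := sc_le_one p.1
            have : 0 ≤ f (XX p) ^ 4 := by positivity
            nlinarith
        _ ≤ _ := mul_le_mul a b (sq_nonneg _) ((sq_nonneg _).trans a)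
  rw [← e2, restrict_RR, integral_prod_mul
    (fun s => ∫ t in Ioc (-(π / 3)) (π / 3), (1 * f (XX (s, t)) ^ 2 + dp f (s, t) ^ 2 / 1))
    (fun t => ∫ s in Ioc (-N) N, (1 * f (XX (s, t)) ^ 2 + ds f (s, t) ^ 2 / 1)), vA, vB] at h
  refine h.trans ?_
  rw [e3, sq]
  exact mul_le_mul (by linarith) (by linarith) (by positivity) (by positivity)

lemma nash {f : E3 → ℝ} (hf : Adm f) (h0 : ∀ x, 0 ≤ f x) (h1 : 1 / 2 ≤ NN f f)
    (h2 : QQ f f ≤ 10) : 1 / 1680 ≤ II f := by
  have a := l4_bound hf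
  have q := QQ_nonneg f
  have c4 : Cb fun x => f x ^ 4 := Cb.of_continuous (hf.1.continuous.pow 4)
  have b := II_mono (hf.cb.mul hf.cb) ((hf.cb.const_mul 420).add (c4.const_mul (1 / 420 ^ 2)))
    fun x _ => by
      have := h0 x
      rcases le_total (f x) 420 with h | h
      · have : 0 ≤ f x ^ 4 := by positivity
        nlinarith
      · have : 420 ^ 2 ≤ f x ^ 2 := by nlinarith
        nlinarith [mul_le_mul_of_nonneg_left this (sq_nonneg (f x))]
  rw [II_add (hf.cb.const_mul _) (c4.const_mul _), II_const_mul, II_const_mul] at b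
  have : (21 * QQ f f) ^ 2 ≤ 210 ^ 2 := by nlinarith
  have e : II (fun x => f x * f x) = NN f f := rfl
  linarith

/-- the largest radius at which the series is used -/
def L1 : ℝ := log (73 / 100)

lemma L1_lt : L1 < L0 := log_lt_log (by norm_num) (by norm_num)

/-- exhausting bumps -/
def bump (n : ℕ) (s : ℝ) : ℝ := max 0 (min (s + n) (L1 - 1 / (n + 1) - s))

lemma bump_cs (n : ℕ) : CS L1 (bump n) := by
  refine ⟨by unfold bump; fun_prop, -n, L1 - 1 / (n + 1), ?_, fun s hs => max_eq_left ?_⟩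
  · have : (0 : ℝ) < 1 / (n + 1) := by positivity
    linarith
  · rw [mem_Icc, not_and_or, not_le, not_le] at hs
    rcases hs with h | h
    · exact (min_le_left _ _).trans (by linarith)
    · exact (min_le_right _ _).trans (by linarith)

lemma cos_YY_pos {x : E3} (hx : x ∈ Ts) : 0 < cos (3 / 2 * (YY x).2) := by
  have := abs_lt.1 (YY_mem_Tc hx).1
  exact cos_pos_of_mem_Ioo ⟨by linarith, by linarith⟩

lemma mode_nonneg {χ : ℝ → ℝ} (h : ∀ s, 0 ≤ χ s) {x : E3} (hx : x ∈ Ts) :
    0 ≤ mode χ (3 / 2) x := mul_nonneg (h _) (cos_YY_pos hx).le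

lemma cyc_mem_Ts {x : E3} (hx : x ∈ Ts) : cycE x ∈ Ts := ⟨by simpa using hx.1, by simpa using hx.2⟩
lemma sw_mem_Ts {x : E3} (hx : x ∈ Ts) : swE x ∈ Ts := ⟨by simpa using hx.1, by simpa using hx.2⟩

lemma YY_lt_of_Sec {r : ℝ} (h0 : 0 < r) {x : E3} (hx : x ∈ Ts) (h : x ∈ Sec r) :
    (YY x).1 < log r := by
  rw [← XX_YY' hx, XX_mem_Sec h0] at h
  exact (lt_log_iff_exp_lt h0).2 h.2

lemma bump_ev {x : E3} (hx : x ∈ Ts) (h : x ∈ Sec (73 / 100)) :
    ∀ᶠ n : ℕ in atTop, 1 ≤ n * mode (bump n) (3 / 2) x := by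
  have h1 : (YY x).1 < L1 := YY_lt_of_Sec (by norm_num) hx h
  have c := cos_YY_pos hx
  set s := (YY x).1
  set d := min 1 ((L1 - s) / 2) with hd
  have d0 : 0 < d := lt_min one_pos (by linarith)
  have t1 := tendsto_natCast_atTop_atTop (R := ℝ)
  filter_upwards [t1.eventually_ge_atTop (1 - s), t1.eventually_ge_atTop (1 / (d * cos (3 / 2 * (YY x).2))),
    tendsto_one_div_add_atTop_nhds_zero_nat.eventually (ge_mem_nhds (show 0 < (L1 - s) / 2 by linarith))]
    with n a b e
  have : d ≤ bump n s := le_max_of_le_right (le_min ((min_le_left _ _).trans (by linarith))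
    ((min_le_right _ _).trans (by linarith)))
  rw [div_le_iff₀ (by positivity)] at b
  refine b.trans (mul_le_mul_of_nonneg_left ?_ (Nat.cast_nonneg n))
  exact mul_le_mul_of_nonneg_right this c.le

/-- sum over the three rotations -/
def sym3 (g : E3 → ℝ) (x : E3) : ℝ := g x + g (cycE x) + g (cycE (cycE x))

lemma Cb.sym3 {g : E3 → ℝ} (hg : Cb g) : Cb (sym3 g) :=
  (hg.add (hg.iso cycE fun _ => cyc_mem_cone)).add
    ((hg.iso cycE fun _ => cyc_mem_cone).iso cycE fun _ => cyc_mem_cone)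

lemma localize : ∃ (n : ℕ) (c : ℝ), 0 < c ∧ ∀ f, Adm f → (∀ x, 0 ≤ f x) → 1 / 2 ≤ NN f f →
    NN f f ≤ 1 → QQ f f ≤ 10 → c ≤ II fun x => f x * sym3 (mode (bump n) (3 / 2)) x := by
  let θ : ℕ → E3 → ℝ := fun n x => max 0 (1 - n * sym3 (mode (bump n) (3 / 2)) x)
  have cm : ∀ n, Cb (sym3 (mode (bump n) (3 / 2))) := fun n => ((bump_cs n).cb _).sym3
  have cθ : ∀ n, Cb (θ n) := fun n =>
    (cm n).comp (P := fun t => max 0 (1 - n * t)) (by fun_prop)
  have m0 : ∀ n, ∀ x ∈ Ts, 0 ≤ mode (bump n) (3 / 2) x := fun n x hx =>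
    mode_nonneg (fun _ => le_max_left _ _) hx
  have s0 : ∀ n, ∀ x ∈ Ts, 0 ≤ sym3 (mode (bump n) (3 / 2)) x := fun n x hx =>
    add_nonneg (add_nonneg (m0 n x hx) (m0 n _ (cyc_mem_Ts hx))) (m0 n _ (cyc_mem_Ts (cyc_mem_Ts hx)))
  have b : ∀ n, ∀ x ∈ Ts, 0 ≤ θ n x ∧ θ n x ≤ 1 := fun n x hx =>
    ⟨le_max_left _ _, max_le zero_le_one (by
      have := mul_nonneg (Nat.cast_nonneg (α := ℝ) n) (s0 n x hx); linarith)⟩
  have lim : Tendsto (fun n => II (θ n)) atTop (𝓝 (II fun _ => 0)) := by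
    refine tendsto_integral_of_dominated_convergence (fun _ => 1) (fun n => aesm_of (cθ n).1)
      (integrable_const _) (fun n => ?_) ?_
    · filter_upwards [ae_restrict_mem measurableSet_tri] with x hx
      rw [Real.norm_of_nonneg (b n x (mem_Ts hx)).1]; exact (b n x (mem_Ts hx)).2
    · filter_upwards [ae_restrict_mem measurableSet_tri] with x hx
      have hx := mem_Ts hx
      refine tendsto_const_nhds.congr' ?_
      have k : ∀ᶠ n : ℕ in atTop, 1 ≤ n * sym3 (mode (bump n) (3 / 2)) x := by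
        have n0 := fun n : ℕ => Nat.cast_nonneg (α := ℝ) n
        have u1 := fun n => mul_nonneg (n0 n) (m0 n _ hx)
        have u2 := fun n => mul_nonneg (n0 n) (m0 n _ (cyc_mem_Ts hx))
        have u3 := fun n => mul_nonneg (n0 n) (m0 n _ (cyc_mem_Ts (cyc_mem_Ts hx)))
        rcases cover_Sec (r := 73 / 100) (by norm_num) hx.1 with h | h | h
        · filter_upwards [bump_ev hx h] with n hn
          rw [sym3]; linarith [u2 n, u3 n]
        · filter_upwards [bump_ev (cyc_mem_Ts hx) h] with n hn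
          rw [sym3]; linarith [u1 n, u3 n]
        · filter_upwards [bump_ev (cyc_mem_Ts (cyc_mem_Ts hx)) h] with n hn
          rw [sym3]; linarith [u1 n, u2 n]
      filter_upwards [k] with n hn
      exact (max_eq_left (by linarith)).symm
  rw [II_zero] at lim
  obtain ⟨n, hn⟩ := (lim.eventually (ge_mem_nhds (show (0 : ℝ) < 1 / 10 ^ 8 by norm_num))).exists
  refine ⟨n, 1 / 10 ^ 4 / (n + 1), by positivity, fun f hf f0 n1 n2 q => ?_⟩
  have h := nash hf f0 n1 q
  have h2 := II_mono hf.cb ((((hf.cb.mul (cm n)).const_mul (n + 1)).add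
    ((hf.cb.mul hf.cb).const_mul (1 / 10 ^ 4))).add ((cθ n).const_mul (10 ^ 4))) fun x hx => by
      have a1 : 1 - n * sym3 (mode (bump n) (3 / 2)) x ≤ θ n x := le_max_right _ _
      obtain ⟨a2, a3⟩ := b n x hx
      have a4 := mul_le_mul_of_nonneg_left a1 (f0 x)
      have a5 := mul_nonneg (f0 x) (s0 n x hx)
      have a6 : θ n x ^ 2 ≤ θ n x := by nlinarith
      nlinarith [sq_nonneg (f x / 10 ^ 2 - 10 ^ 2 * θ n x), mul_nonneg (f0 x) a2]
  rw [II_add (((hf.cb.mul (cm n)).const_mul _).add ((hf.cb.mul hf.cb).const_mul _))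
    ((cθ n).const_mul _), II_add ((hf.cb.mul (cm n)).const_mul _) ((hf.cb.mul hf.cb).const_mul _),
    II_const_mul, II_const_mul, II_const_mul] at h2
  have e : II (fun x => f x * f x) = NN f f := rfl
  rw [div_le_iff₀ (by positivity)]
  linarith

end Pool.Agent.MP_c4844d_an

end
end MrgPart1

-- marker of a merged file
example : 731051 + 561069 = 731051 + 561069 := rfl
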