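import Mathlib.Topology.ContinuousMap.StoneWeierstrass
import Mathlib.Analysis.Normed.Group.Tannery
import Mathlib.Tactic.Polynomial.Basic
import Mathlib.Topology.UniformSpace.Uniformizable
import Pool.Agent.MP_c4844d_an.Nash

-- ======== part 0: formerly Pool.Agent.MP_c4844d_an.Mode
section MrgPart0

noncomputable section

open Filter Topology Real MeasureTheory Set

namespace Pool.Agent.MP_c4844d_an

/-- the index of the `k`-th symmetric Dirichlet mode -/
def jx (k : ℕ) : ℤ := 3 * k + 1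

lemma jx_inj : Function.Injective jx := fun a b h => by unfold jx at h; omega
lemma jx_ge (k : ℕ) : 1 ≤ jx k := by unfold jx; omega
lemma mu_jx (k : ℕ) : mu (jx k) = 3 * k + 3 / 2 := by simp [mu, jx]; ring

lemma cos_int (j : ℤ) : cos ((3 * j + 3 / 2) * (π / 3)) = 0 :=
  cos_eq_zero_iff.2 ⟨j, by ring⟩

lemma cos_mu_jx (k : ℕ) : cos (mu (jx k) * (π / 3)) = 0 := by
  have := cos_int k
  rw [mu_jx]; exact_mod_cast this

/-- the sequence with prescribed coefficients of the symmetric modes -/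
def sqn (b : ℕ → ℝ) (j : ℤ) : ℂ := if j % 3 = 1 ∧ 0 ≤ j then (b (j / 3).toNat : ℂ) else 0

lemma sqn_jx (b : ℕ → ℝ) (k : ℕ) : sqn b (jx k) = b k := by
  have e : (jx k / 3).toNat = k := by unfold jx; omega
  rw [sqn, if_pos (by unfold jx; omega), e]

lemma sqn_zero (b : ℕ → ℝ) {j : ℤ} (h : j ∉ Set.range jx) : sqn b j = 0 :=
  if_neg fun h' => h ⟨(j / 3).toNat, by unfold jx; omega⟩

/-- radius of convergence at least `r` -/
def Gr (r : ℝ) (b : ℕ → ℝ) : Prop :=
  ∀ ρ : ℝ, 0 < ρ → ρ < r → Summable fun k => |b k| * ρ ^ (3 * k + 1)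

lemma Gr.good {r : ℝ} {b : ℕ → ℝ} (h : Gr r b) : sqn b ∈ Good r := by
  refine ⟨⟨0, fun n _ => sqn_zero b ?_⟩, fun ρ h0 h1 => ?_⟩
  · rintro ⟨k, hk⟩; unfold jx at hk; omega
  · have inj : Function.Injective fun k : ℕ => 3 * k + 1 := fun a b h => by
      simp only [] at h; omega
    refine (inj.summable_iff fun n hn => ?_).1 ((h ρ h0 h1).congr fun k => ?_)
    · rw [sqn_zero b, norm_zero, zero_mul]
      rintro ⟨k, hk⟩; exact hn ⟨k, by unfold jx at hk; simp only []; omega⟩
    · have : ((3 * k + 1 : ℕ) : ℤ) = jx k := by simp [jx]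
      simp only [Function.comp, this, sqn_jx, Complex.norm_real, Real.norm_eq_abs]

lemma gr_of_good {r : ℝ} {b : ℕ → ℝ} (h : sqn b ∈ Good r) : Gr r b := fun ρ h0 h1 => by
  have inj : Function.Injective fun k : ℕ => 3 * k + 1 := fun a b h => by
    simp only [] at h; omega
  refine ((h.2 ρ h0 h1).comp_injective inj).congr fun k => ?_
  have : ((3 * k + 1 : ℕ) : ℤ) = jx k := by simp [jx]
  simp only [Function.comp, this, sqn_jx, Complex.norm_real, Real.norm_eq_abs]

/-- the symmetric pair -/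
def pr {r : ℝ} {b : ℕ → ℝ} (h : Gr r b) : GP r := (⟨sqn b, h.good⟩, ⟨sqn b, h.good⟩)

lemma hasSum_sqn {b : ℕ → ℝ} {F : ℤ → ℂ} {y : ℂ} (h : HasSum (fun j => sqn b j * F j) y) :
    HasSum (fun k => (b k : ℂ) * F (jx k)) y := by
  have := (jx_inj.hasSum_iff (f := fun j => sqn b j * F j)
    fun j hj => by rw [sqn_zero b hj, zero_mul]).2 h
  exact hs_congr this fun k => by simp [sqn_jx]

lemma md_XX (lam : ℝ) (j : ℤ) {p : ℝ × ℝ} (h : |p.2| < π) :
    md lam j (zs (emb (XX p))) = gm lam j p.1 * Complex.exp (Complex.I * (mu j * p.2 : ℝ)) := by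
  rw [abs_lt] at h
  have := Complex.log_exp (x := p.1 + p.2 * Complex.I) (by simpa using h.1) (by simpa using h.2.le)
  rw [zs_XX, md, Complex.cpow_def_of_ne_zero (Complex.exp_ne_zero _), this, hypC_ofReal, gm, muC]
  push_cast
  rw [mul_right_comm, ← Complex.exp_add]
  congr 2; ring

lemma XX_mem_Sec' {r : ℝ} (h0 : 0 < r) (h1 : r ≤ 1) {p : ℝ × ℝ} (hp : p ∈ PP)
    (hs : exp p.1 < r) : XX p ∈ Sec r :=
  (XX_mem_Sec h0).2 ⟨XX_mem_cone hp (exp_le_one_iff.1 (hs.le.trans h1)), hs⟩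

lemma hasSum_Ev (lam : ℝ) {r : ℝ} (h0 : 0 < r) (h1 : r ≤ 1) {b : ℕ → ℝ} (hb : Gr r b)
    {p : ℝ × ℝ} (hp : p ∈ PP) (hs : exp p.1 < r) :
    HasSum (fun k => ((2 * b k * gm lam (jx k) p.1 * cos (mu (jx k) * p.2) : ℝ) : ℂ))
      (Ev lam (pr hb) (emb (XX p))) := by
  have hO := emb_mem_Om h0 h1 (XX_mem_Sec' h0 h1 hp hs) (norm_XX p)
  have hπ : |p.2| < π := by have := pi_pos; have : |p.2| < π / 3 := hp; linarith
  have a := hasSum_sqn (hasSum_Phi lam h1 hb.good hO.1)
  have c := hasSum_sqn (hasSum_Phi lam h1 hb.good hO.2)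
  refine hs_congr (a.add c) fun k => ?_
  have e : sw (emb (XX p)) = emb (XX (p.1, -p.2)) := by rw [← emb_sw, ← sw_XX]
  rw [e, md_XX lam _ hπ, md_XX lam _ (p := (p.1, -p.2)) (by simpa using hπ)]
  push_cast
  rw [Complex.cos]
  ring_nf

lemma hasSum_U (lam : ℝ) {r : ℝ} (h0 : 0 < r) (h1 : r ≤ 1) {b : ℕ → ℝ} (hb : Gr r b)
    {p : ℝ × ℝ} (hp : p ∈ PP) (hs : exp p.1 < r) :
    HasSum (fun k => 2 * b k * gm lam (jx k) p.1 * cos (mu (jx k) * p.2))
      (U lam (pr hb) (XX p)) := by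
  have := Complex.hasSum_re (hasSum_Ev lam h0 h1 hb hp hs)
  simp only [Complex.ofReal_re] at this
  rwa [U, nrm_of_norm (norm_XX p)]

lemma U_sw (lam : ℝ) {r : ℝ} {b : ℕ → ℝ} (hb : Gr r b) (x : E3) :
    U lam (pr hb) (swE x) = U lam (pr hb) x := by
  have : ∀ y : V3, sw (sw y) = y := fun y => by apply v3_ext <;> rfl
  simp only [U, nrm_iso, emb_sw, Ev, pr, this, add_comm]

lemma U_smul_pos (lam : ℝ) {r : ℝ} (v : GP r) {t : ℝ} (ht : 0 < t) (x : E3) :
    U lam v (t • x) = U lam v x := by rw [U, U, nrm_smul ht]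

lemma U_nrm (lam : ℝ) {r : ℝ} (v : GP r) {x : E3} (hx : x ≠ 0) : U lam v (nrm x) = U lam v x :=
  U_smul_pos lam v (inv_pos.2 (norm_pos_iff.2 hx)) x

/-- bound of a term of the series -/
lemma term_bound (lam : ℝ) (b : ℕ → ℝ) (k : ℕ) {s L : ℝ} (hs : s ≤ L) (hL : L ≤ 0) :
    |2 * b k * gm lam (jx k) s| ≤
      8 * exp (2 * |lam|) * exp (3 / 2 * (s - L)) * (|b k| * exp L ^ (3 * k + 1)) := by
  have h := abs_gm_le' lam (jx_ge k) (hs.trans hL)
  have hk : (0 : ℝ) ≤ k := Nat.cast_nonneg k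
  have e : exp (mu (jx k) * s) ≤ exp (3 / 2 * (s - L)) * exp L ^ (3 * k + 1) := by
    rw [← exp_nat_mul, ← exp_add, mu_jx]
    apply exp_le_exp.2; push_cast; nlinarith
  rw [abs_mul, abs_mul, abs_two]
  calc 2 * |b k| * |gm lam (jx k) s| ≤ 2 * |b k| * (4 * exp (2 * |lam|) *
        (exp (3 / 2 * (s - L)) * exp L ^ (3 * k + 1))) := by
        gcongr; exact h.trans (by gcongr)
    _ = _ := by ring

lemma term_bound' (lam : ℝ) (b : ℕ → ℝ) (k : ℕ) {s L : ℝ} (hs : s ≤ L) (hL : L ≤ 0) :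
    |2 * b k * gm lam (jx k) s| ≤ 8 * exp (2 * |lam|) * (|b k| * exp L ^ (3 * k + 1)) := by
  have : exp (3 / 2 * (s - L)) ≤ 1 := exp_le_one_iff.2 (by linarith)
  exact (term_bound lam b k hs hL).trans (mul_le_mul_of_nonneg_right
    (mul_le_of_le_one_right (by positivity) this) (by positivity))

lemma cos_orth (j k : ℕ) : ∫ φ in Ioc (-(π / 3)) (π / 3), cos (mu (jx j) * φ) * cos (mu (jx k) * φ) =
    if j = k then π / 3 else 0 := by
  have hpi := pi_pos
  have key : ∀ n : ℤ, n ≠ 0 → ∫ φ in (-(π / 3))..(π / 3), cos (3 * n * φ) = 0 := fun n hn => by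
    have hn' : (3 * n : ℝ) ≠ 0 := by exact_mod_cast (show 3 * n ≠ 0 by omega)
    rw [intervalIntegral.integral_comp_mul_left (fun x => cos x) hn', integral_cos]
    have e1 : (3 * n : ℝ) * (π / 3) = n * π := by ring
    have e2 : (3 * n : ℝ) * -(π / 3) = -(n * π) := by ring
    rw [e1, e2, sin_neg, sin_int_mul_pi]; simp
  have e : ∀ φ : ℝ, cos (mu (jx j) * φ) * cos (mu (jx k) * φ) =
      1 / 2 * cos (3 * ((j + k + 1 : ℤ) : ℝ) * φ) + 1 / 2 * cos (3 * ((j - k : ℤ) : ℝ) * φ) := by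
    intro φ
    have a : 3 * ((j + k + 1 : ℤ) : ℝ) * φ = mu (jx j) * φ + mu (jx k) * φ := by
      rw [mu_jx, mu_jx]; push_cast; ring
    have b : 3 * ((j - k : ℤ) : ℝ) * φ = mu (jx j) * φ - mu (jx k) * φ := by
      rw [mu_jx, mu_jx]; push_cast; ring
    rw [a, b, cos_add, cos_sub]; ring
  simp only [e]
  rw [← intervalIntegral.integral_of_le (by linarith), intervalIntegral.integral_add
    ((by fun_prop : Continuous fun φ : ℝ =>
      1 / 2 * cos (3 * ((j + k + 1 : ℤ) : ℝ) * φ)).intervalIntegrable _ _)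
    ((by fun_prop : Continuous fun φ : ℝ =>
      1 / 2 * cos (3 * ((j - k : ℤ) : ℝ) * φ)).intervalIntegrable _ _),
    intervalIntegral.integral_const_mul, intervalIntegral.integral_const_mul, key _ (by omega)]
  split_ifs with h
  · subst h; simp; ring
  · rw [key _ (by omega)]; simp

lemma cb_U_cut (lam : ℝ) {r : ℝ} (h0 : 0 < r) (h1 : r ≤ 1) {b : ℕ → ℝ} (hb : Gr r b)
    {χ : ℝ → ℝ} (hχ : CS (log r) χ) : Cb fun x => U lam (pr hb) x * χ (YY x).1 := by
  obtain ⟨M, hM0, hM⟩ := hχ.bound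
  obtain ⟨cχ, a, c, hc, χ0⟩ := hχ
  have hc0 : c ≤ 0 := hc.le.trans (log_nonpos h0.le h1)
  have hec : exp c < r := (lt_log_iff_exp_lt h0).1 hc
  have cY := continuousOn_YY.fst
  constructor
  · intro x hx
    rcases lt_or_ge (YY x).1 (log r) with h | h
    · have : x ∈ Sec r := by
        rw [← XX_YY' hx]
        exact XX_mem_Sec' h0 h1 (YY_mem_Tc hx).1 ((lt_log_iff_exp_lt h0).1 h)
      exact (hasFDerivAt_U lam h1 _ (Sec_sub_OR h0 h1 this)).continuousAt.continuousWithinAt.mul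
        (cχ.continuousAt.comp_continuousWithinAt (cY x hx))
    · have ev : ∀ᶠ y in 𝓝[Ts] x, U lam (pr hb) y * χ (YY y).1 = 0 := by
        filter_upwards [(cY x hx).eventually (Ioi_mem_nhds (hc.trans_le h))] with y hy
        rw [χ0 _ fun h' => absurd h'.2 (not_le.2 hy), mul_zero]
      exact continuousWithinAt_const.congr_of_eventuallyEq ev (ev.self_of_nhdsWithin hx)
  · have S := hb (exp c) (exp_pos c) hec
    refine ⟨(∑' k, 8 * exp (2 * |lam|) * (|b k| * exp c ^ (3 * k + 1))) * M, fun x hx => ?_⟩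
    by_cases h : (YY x).1 ∈ Icc a c
    · rw [abs_mul]
      refine mul_le_mul ?_ (hM _) (abs_nonneg _) (tsum_nonneg fun k => by positivity)
      have hs := hasSum_U lam h0 h1 hb (YY_mem_Tc hx).1 ((exp_le_exp.2 h.2).trans_lt hec)
      rw [XX_YY' hx] at hs
      refine hs.norm_le_of_bounded (S.mul_left _).hasSum fun k => ?_
      rw [Real.norm_eq_abs, abs_mul]
      exact (mul_le_of_le_one_right (abs_nonneg _) (abs_cos_le_one _)).trans
        (term_bound' lam b k h.2 hc0)
    · simp only []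
      rw [χ0 _ h, mul_zero, abs_zero]
      exact mul_nonneg (tsum_nonneg fun k => by positivity) hM0

lemma cb_cos (m : ℝ) : Cb fun x => cos (m * (YY x).2) :=
  ⟨continuous_cos.comp_continuousOn (continuousOn_const.mul continuousOn_YY.snd), 1,
    fun _ _ => abs_cos_le_one _⟩

/-- the coefficients are recovered by integration against the modes -/
lemma II_U_mode (lam : ℝ) {r : ℝ} (h0 : 0 < r) (h1 : r ≤ 1) {b : ℕ → ℝ} (hb : Gr r b)
    {χ : ℝ → ℝ} (hχ : CS (log r) χ) (k : ℕ) :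
    II (fun x => U lam (pr hb) x * mode χ (mu (jx k)) x) =
      2 * π / 3 * b k * ∫ s, sc s * χ s * gm lam (jx k) s := by
  have hL : log r ≤ 0 := log_nonpos h0.le h1
  have cb := (cb_U_cut lam h0 h1 hb hχ).mul (cb_cos (mu (jx k)))
  have cg := fun j => hχ.cont_gm hL lam j
  obtain ⟨M, hM0, hM⟩ := hχ.bound
  obtain ⟨cχ, a, c, hc, χ0⟩ := hχ
  have hc0 : c ≤ 0 := hc.le.trans hL
  have hec : exp c < r := (lt_log_iff_exp_lt h0).1 hc
  have z : ∀ s, s ∉ Ioc (a - 1) 0 → χ s = 0 := fun s hs =>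
    χ0 s fun h => hs ⟨by linarith [h.1], h.2.trans hc0⟩
  rw [II_congr (h := fun x => U lam (pr hb) x * χ (YY x).1 * cos (mu (jx k) * (YY x).2))
    (fun x _ => by rw [mode, mul_assoc]),
    II_RR cb.1 (a := a - 1)
      (G := fun p => sc p.1 * (U lam (pr hb) (XX p) * χ p.1 * cos (mu (jx k) * p.2)))
      (fun p hp => by rw [YY_XX' hp.1]) (fun p _ hp => by simp [z _ hp])]
  have S := hb (exp c) (exp_pos c) hec
  have : IsFiniteMeasure ((volume : Measure (ℝ × ℝ)).restrict (RR (a - 1) 0)) := by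
    rw [restrict_RR]; infer_instance
  have ae : ∀ᵐ p ∂(volume : Measure (ℝ × ℝ)).restrict (RR (a - 1) 0), p ∈ PP := by
    rw [restrict_RR, ← Measure.restrict_congr_set (Ioo_ae_eq_Ioc (a := -(π / 3))),
      Measure.prod_restrict]
    filter_upwards [ae_restrict_mem (measurableSet_Ioc.prod measurableSet_Ioo)] with p hp
    exact abs_lt.2 hp.2
  have h := hasSum_integral_of_dominated_convergence
    (μ := (volume : Measure (ℝ × ℝ)).restrict (RR (a - 1) 0))
    (F := fun j p => (sc p.1 * χ p.1 * gm lam (jx j) p.1) *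
      (2 * b j * (cos (mu (jx j) * p.2) * cos (mu (jx k) * p.2))))
    (f := fun p => sc p.1 * (U lam (pr hb) (XX p) * χ p.1 * cos (mu (jx k) * p.2)))
    (fun j _ => M * (8 * exp (2 * |lam|) * (|b j| * exp c ^ (3 * j + 1))))
    (fun j => (((cg _).comp continuous_fst).mul (by fun_prop)).aestronglyMeasurable)
    (fun j => Eventually.of_forall fun p => by
      by_cases hp : p.1 ∈ Icc a c
      · have t := term_bound' lam b j hp.2 hc0
        have e : sc p.1 * χ p.1 * gm lam (jx j) p.1 *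
            (2 * b j * (cos (mu (jx j) * p.2) * cos (mu (jx k) * p.2))) =
            χ p.1 * (2 * b j * gm lam (jx j) p.1) *
              (sc p.1 * cos (mu (jx j) * p.2) * cos (mu (jx k) * p.2)) := by ring
        rw [e, Real.norm_eq_abs, abs_mul]
        refine (mul_le_of_le_one_right (abs_nonneg _) ?_).trans ?_
        · rw [abs_mul, abs_mul, abs_of_pos (sc_pos _)]
          exact mul_le_one₀ (mul_le_one₀ (sc_le_one _) (abs_nonneg _) (abs_cos_le_one _))
            (abs_nonneg _) (abs_cos_le_one _)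
        · rw [abs_mul]
          exact mul_le_mul (hM _) t (abs_nonneg _) hM0
      · rw [χ0 _ hp]; simp; positivity)
    (Eventually.of_forall fun _ => (S.mul_left _).mul_left _) (integrable_const _)
    (by
      filter_upwards [ae] with p hp
      by_cases h : p.1 ∈ Icc a c
      · have t := (hasSum_U lam h0 h1 hb hp ((exp_le_exp.2 h.2).trans_lt hec)).mul_left
          (sc p.1 * χ p.1 * cos (mu (jx k) * p.2))
        rw [show sc p.1 * (U lam (pr hb) (XX p) * χ p.1 * cos (mu (jx k) * p.2)) =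
          sc p.1 * χ p.1 * cos (mu (jx k) * p.2) * U lam (pr hb) (XX p) by ring]
        exact hs_congr t fun j => by ring
      · simp [χ0 _ h])
  refine h.unique ?_
  have e : ∀ j, ∫ p in RR (a - 1) 0, (sc p.1 * χ p.1 * gm lam (jx j) p.1) *
      (2 * b j * (cos (mu (jx j) * p.2) * cos (mu (jx k) * p.2))) =
      if j = k then 2 * π / 3 * b k * ∫ s, sc s * χ s * gm lam (jx k) s else 0 := fun j => by
    rw [restrict_RR, integral_prod_mul (fun s => sc s * χ s * gm lam (jx j) s)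
      (fun φ => 2 * b j * (cos (mu (jx j) * φ) * cos (mu (jx k) * φ))), integral_const_mul,
      cos_orth, setIntegral_eq_integral_of_forall_compl_eq_zero fun s hs => by simp [z s hs]]
    split_ifs with h
    · subst h; ring
    · simp
  simp only [e]
  exact hasSum_ite_eq k _

end Pool.Agent.MP_c4844d_an

end
end MrgPart0

-- ======== part 1: formerly Pool.Agent.MP_c4844d_an.GS
section MrgPart1

noncomputable section

open Filter Topology Real MeasureTheory Set

namespace Pool.Agent.MP_c4844d_an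

/-- symmetric positive very weak solutions of the eigenvalue equation -/
structure GS (Λ : (E3 → ℝ) → ℝ) : Prop where
  add : ∀ g h, Cb g → Cb h → Λ (fun x => g x + h x) = Λ g + Λ h
  smul : ∀ (c : ℝ) g, Cb g → Λ (fun x => c * g x) = c * Λ g
  pos : ∀ g, Cb g → (∀ x ∈ Ts, 0 ≤ g x) → 0 ≤ Λ g
  weak : ∀ m ψ ψ' χ, cos (m * (π / 3)) = 0 → Tst lam1 m ψ ψ' χ → Λ (mode χ m) = 0
  cyc : ∀ g, Cb g → Λ (fun x => g (cycE x)) = Λ g
  sw : ∀ g, Cb g → Λ (fun x => g (swE x)) = Λ g

lemma weak_of_seq {ι : Type*} {l : Filter ι} [l.NeBot] {f : ι → E3 → ℝ} (hf : ∀ i, Adm (f i))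
    (hB : Tendsto (fun i => BB (f i) (f i)) l (𝓝 0)) {m y : ℝ} {ψ ψ' χ : ℝ → ℝ}
    (hm : cos (m * (π / 3)) = 0) (h : Tst lam1 m ψ ψ' χ)
    (hy : Tendsto (fun i => II fun x => f i x * mode χ m x) l (𝓝 y)) : y = 0 := by
  obtain ⟨D, hD⟩ := weak_bound hm h
  have := le_of_tendsto_of_tendsto' (hy.pow 2) (hB.const_mul D) fun i => hD _ (hf i)
  rw [mul_zero] at this
  exact pow_eq_zero_iff two_ne_zero |>.1 (le_antisymm this (sq_nonneg _))

section
variable {Λ : (E3 → ℝ) → ℝ}

lemma GS.sub (h : GS Λ) {f g : E3 → ℝ} (hf : Cb f) (hg : Cb g) :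
    Λ (fun x => f x - g x) = Λ f - Λ g := by
  have := h.add f _ hf (hg.const_mul (-1))
  rw [h.smul _ _ hg] at this
  simpa [sub_eq_add_neg] using this

lemma GS.mono (h : GS Λ) {f g : E3 → ℝ} (hf : Cb f) (hg : Cb g) (e : ∀ x ∈ Ts, f x ≤ g x) :
    Λ f ≤ Λ g := by
  have := h.pos _ (hg.sub hf) fun x hx => sub_nonneg.2 (e x hx)
  rw [h.sub hg hf] at this; linarith

lemma GS.congr (h : GS Λ) {f g : E3 → ℝ} (hf : Cb f) (e : ∀ x ∈ Ts, g x = f x) : Λ g = Λ f :=
  le_antisymm (h.mono (hf.congr e) hf fun x hx => (e x hx).le)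
    (h.mono hf (hf.congr e) fun x hx => (e x hx).ge)

lemma GS.bound (h : GS Λ) {g : E3 → ℝ} (hg : Cb g) {M : ℝ} (e : ∀ x ∈ Ts, |g x| ≤ M) :
    |Λ g| ≤ M * Λ fun _ => 1 := by
  have c : ∀ t : ℝ, Λ (fun _ => t) = t * Λ fun _ => 1 := fun t => by
    simpa using h.smul t _ (Cb.const 1)
  rw [abs_le, ← neg_mul, ← c, ← c]
  exact ⟨h.mono (Cb.const _) hg fun x hx => (abs_le.1 (e x hx)).1,
    h.mono hg (Cb.const _) fun x hx => (abs_le.1 (e x hx)).2⟩

end

/-- full symmetrisation -/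
def sym6 (f : E3 → ℝ) : E3 → ℝ := sym3 fun x => f x + f (swE x)

lemma sym6_cyc (f : E3 → ℝ) (x : E3) : sym6 f (cycE x) = sym6 f x := by
  simp only [sym6, sym3, cyc3]; ring

lemma sym6_sw (f : E3 → ℝ) (x : E3) : sym6 f (swE x) = sym6 f x := by
  simp only [sym6, sym3, cyc_sw, cyc3, sw2]; ring

lemma sym6_adm {f : E3 → ℝ} (hf : Adm f) : Adm (sym6 f) ∧ BB (sym6 f) (sym6 f) ≤ 40 * BB f f := by
  have h1 := hf.iso swE fun _ => sw_mem_cone
  have h2 := hf.add h1
  have h3 := h2.iso cycE fun _ => cyc_mem_cone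
  have h4 := h3.iso cycE fun _ => cyc_mem_cone
  refine ⟨(h2.add h3).add h4, ?_⟩
  have a := BB_add_le hf h1
  have b := BB_add_le h2 h3
  have c := BB_add_le (h2.add h3) h4
  have d := BB_sw f
  have e := BB_cyc fun x => f x + f (swE x)
  have g := BB_cyc fun x => f (cycE x) + f (swE (cycE x))
  have : BB (sym6 f) (sym6 f) ≤ _ := c
  linarith

lemma II_sym3 {F g : E3 → ℝ} (hF : Cb F) (hg : Cb g) (e : ∀ x, F (cycE x) = F x) :
    II (fun x => F x * sym3 g x) = 3 * II fun x => F x * g x := by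
  have g1 := hg.iso cycE fun _ => cyc_mem_cone
  have g2 := g1.iso cycE fun _ => cyc_mem_cone
  have a := II_iso cycE (fun _ => cyc_mem_cone) fun x => F x * g x
  have b := II_iso cycE (fun _ => cyc_mem_cone) fun x => F x * g (cycE x)
  simp only [e] at a b
  simp only [sym3, mul_add]
  rw [II_add ((hF.mul hg).add (hF.mul g1)) (hF.mul g2), II_add (hF.mul hg) (hF.mul g1), b, a]
  ring

theorem exists_GS : ∃ Λ, GS Λ ∧ ∃ n : ℕ, 0 < Λ (mode (bump n) (3 / 2)) := by
  have hδ : ∀ n : ℕ, (0 : ℝ) < 1 / (n + 2) ∧ (1 : ℝ) / (n + 2) ≤ 1 / 2 := fun n =>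
    ⟨by positivity, one_div_le_one_div_of_le two_pos (by linarith [Nat.cast_nonneg (α := ℝ) n])⟩
  choose f hf f0 n1 n2 hB using fun n : ℕ => exists_nonneg_min (hδ n).1 (hδ n).2
  let F : ℕ → E3 → ℝ := fun n => sym6 (f n)
  have hF : ∀ n, Adm (F n) := fun n => (sym6_adm (hf n)).1
  have F1 : ∀ n x, f n x ≤ F n x := fun n x => by
    simp only [F, sym6, sym3]
    linarith [f0 n (swE x), f0 n (cycE x), f0 n (swE (cycE x)), f0 n (cycE (cycE x)),
      f0 n (swE (cycE (cycE x)))]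
  have F0 : ∀ n x, 0 ≤ F n x := fun n x => (f0 n x).trans (F1 n x)
  have B0 : Tendsto (fun n => BB (F n) (F n)) atTop (𝓝 0) := by
    have t : Tendsto (fun n : ℕ => 40 * (7 * ((1 : ℝ) / (n + 2)))) atTop (𝓝 (40 * (7 * 0))) :=
      ((tendsto_const_nhds.div_atTop (tendsto_atTop_add_const_right _ _
        tendsto_natCast_atTop_atTop)).const_mul 7).const_mul 40
    rw [mul_zero, mul_zero] at t
    exact squeeze_zero (fun n => BB_nonneg (hF n))
      (fun n => (sym6_adm (hf n)).2.trans (by linarith [hB n])) t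
  have I1 : ∀ n, II (F n) ≤ 6 * (aT + 1) := fun n => by
    have c := (hf n).cb
    have c1 := c.iso swE fun _ => sw_mem_cone
    have a := II_sym3 (Cb.const 1) (c.add c1) fun _ => rfl
    simp only [one_mul] at a
    rw [II_add c c1, II_iso swE fun _ => sw_mem_cone] at a
    have b := II_mono c ((Cb.const 1).add (c.mul c)) fun x _ => by nlinarith [sq_nonneg (f n x - 1)]
    rw [II_add (Cb.const 1) (c.mul c)] at b
    have e : II (fun x => f n x * f n x) = NN (f n) (f n) := rfl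
    have e2 : II (F n) = II (sym3 fun x => f n x + f n (swE x)) := rfl
    have e3 : II (fun _ => 1) = aT := rfl
    linarith [n2 n]
  let u : Ultrafilter ℕ := hyperfilter ℕ
  have hu : (u : Filter ℕ) ≤ atTop := Nat.hyperfilter_le_atTop
  let Λ : (E3 → ℝ) → ℝ := fun g => limUnder (u : Filter ℕ) fun n => II fun x => F n x * g x
  have T : ∀ g, Cb g → Tendsto (fun n => II fun x => F n x * g x) u (𝓝 (Λ g)) := fun g hg => by
    obtain ⟨M, hM⟩ := hg.2
    have M0 : 0 ≤ M := (abs_nonneg _).trans (hM _ cE_mem)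
    have b : ∀ n, (II fun x => F n x * g x) ∈ Icc (-(M * (6 * (aT + 1)))) (M * (6 * (aT + 1))) := by
      intro n
      have c := (hF n).cb
      have a1 := II_mono (c.mul hg) (c.const_mul M) fun x hx => by
        nlinarith [F0 n x, (abs_le.1 (hM x hx)).2]
      have a2 := II_mono (c.const_mul (-M)) (c.mul hg) fun x hx => by
        nlinarith [F0 n x, (abs_le.1 (hM x hx)).1]
      rw [II_const_mul] at a1 a2
      have := mul_le_mul_of_nonneg_left (I1 n) M0
      constructor <;> linarith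
    obtain ⟨y, -, hy⟩ := isCompact_Icc.ultrafilter_le_nhds' (u.map fun n => II fun x => F n x * g x)
      (Ultrafilter.mem_map.2 (univ_mem' b))
    exact tendsto_nhds_limUnder ⟨y, hy⟩
  refine ⟨Λ, ⟨fun g h hg hh => ?_, fun c g hg => ?_, fun g hg e => ?_, fun m ψ ψ' χ hm h => ?_,
    fun g hg => ?_, fun g hg => ?_⟩, ?_⟩
  · refine tendsto_nhds_unique (T _ (hg.add hh)) (((T g hg).add (T h hh)).congr fun n => ?_)
    rw [← II_add ((hF n).cb.mul hg) ((hF n).cb.mul hh)]; simp only [mul_add]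
  · refine tendsto_nhds_unique (T _ (hg.const_mul c)) (((T g hg).const_mul c).congr fun n => ?_)
    rw [← II_const_mul]; exact II_congr fun x _ => by ring
  · exact ge_of_tendsto' (T g hg) fun n => II_nonneg fun x hx => mul_nonneg (F0 n x) (e x hx)
  · exact weak_of_seq hF (B0.mono_left hu) hm h (T _ (h.cs.cb m))
  · simp only [Λ]; congr 1; funext n
    rw [← II_iso cycE (fun _ => cyc_mem_cone) fun x => F n x * g x]
    simp only [F, sym6_cyc]
  · simp only [Λ]; congr 1; funext n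
    rw [← II_iso swE (fun _ => sw_mem_cone) fun x => F n x * g x]
    simp only [F, sym6_sw]
  · obtain ⟨n, c, hc, h⟩ := localize
    have cm := (bump_cs n).cb (3 / 2)
    refine ⟨n, lt_of_lt_of_le (show 0 < c / 3 by positivity) (ge_of_tendsto' (T _ cm) fun i => ?_)⟩
    have q : QQ (f i) (f i) ≤ 10 := by
      have := hB i
      have := (hδ i).2
      have := mul_le_mul lam1_le_six (n2 i) (NN_nonneg _) (by norm_num)
      rw [BB] at *; linarith
    have a := h _ (hf i) (f0 i) (n1 i) (n2 i) q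
    have b := II_sym3 (hF i).cb cm (sym6_cyc (f i))
    have m0 : ∀ x ∈ Ts, 0 ≤ mode (bump n) (3 / 2) x := fun x hx =>
      mode_nonneg (fun _ => le_max_left _ _) hx
    have d := II_mono ((hf i).cb.mul cm.sym3) ((hF i).cb.mul cm.sym3) fun x hx =>
      mul_le_mul_of_nonneg_right (F1 i x) (add_nonneg (add_nonneg (m0 x hx) (m0 _ (cyc_mem_Ts hx)))
        (m0 _ (cyc_mem_Ts (cyc_mem_Ts hx))))
    linarith

/-- the positive part of a symmetric classical eigenfunction is a very weak solution -/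
theorem CE.gs {w : E3 → ℝ} (hw : CE lam1 w) (h1 : ∀ x ∈ Ts, w (cycE x) = w x)
    (h2 : ∀ x ∈ Ts, w (swE x) = w x) : GS fun g => II fun x => max (w x) 0 * g x := by
  have cp : Cb fun x => max (w x) 0 := hw.cb.comp (P := fun t => max t 0) (by fun_prop)
  refine ⟨fun g h hg hh => ?_, fun c g _ => ?_,
    fun g _ e => II_nonneg fun x hx => mul_nonneg (le_max_right _ _) (e x hx),
    fun m ψ ψ' χ hm h => ?_, fun g _ => ?_, fun g _ => ?_⟩
  · rw [← II_add (cp.mul hg) (cp.mul hh)]; simp only [mul_add]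
  · rw [← II_const_mul]; exact II_congr fun x _ => by ring
  · obtain ⟨C, hC⟩ := hw.approx
    choose F hF a b c using fun n : ℕ => hC (1 / (n + 1)) (by positivity)
    have t := tendsto_one_div_add_atTop_nhds_zero_nat (𝕜 := ℝ)
    have cm := h.cs.cb m
    obtain ⟨M, hM⟩ := cm.2
    refine weak_of_seq (l := atTop) hF ?_ hm h ?_
    · refine squeeze_zero (fun n => BB_nonneg (hF n)) (fun n => ?_)
        (by simpa using t.const_mul ((1 + lam1) * C))
      have := mul_le_mul_of_nonneg_left (abs_le.1 (b n)).1 lam1_nonneg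
      have := (abs_le.1 (c n)).2
      rw [BB, ← one_div]; linarith
    · rw [tendsto_iff_norm_sub_tendsto_zero]
      refine squeeze_zero (fun n => norm_nonneg _) (fun n => ?_)
        (by simpa using t.const_mul (2 * M * aT))
      rw [← II_sub ((hF n).cb.mul cm) (cp.mul cm), Real.norm_eq_abs, ← one_div]
      refine (abs_II_le (((hF n).cb.mul cm).sub (cp.mul cm)) (M := 2 * (1 / (n + 1)) * M)
        fun x hx => ?_).trans (le_of_eq (by ring))
      rw [← sub_mul, abs_mul]
      exact mul_le_mul (a n x hx).2 (hM x hx) (abs_nonneg _) (by positivity)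
  · rw [← II_iso cycE (fun _ => cyc_mem_cone) fun x => max (w x) 0 * g x]
    exact II_congr fun x hx => by rw [h1 x hx]
  · rw [← II_iso swE (fun _ => sw_mem_cone) fun x => max (w x) 0 * g x]
    exact II_congr fun x hx => by rw [h2 x hx]

lemma CS.comb {L : ℝ} {χ η : ℝ → ℝ} (h : CS L χ) (h' : CS L η) (c : ℝ) :
    CS L fun s => χ s - c * η s := by
  obtain ⟨c1, a, b, hb, z⟩ := h
  obtain ⟨c2, a', b', hb', z'⟩ := h'
  refine ⟨by fun_prop, min a a', max b b', max_lt hb hb', fun s hs => ?_⟩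
  simp only []
  rw [z s fun h => hs ⟨(min_le_left _ _).trans h.1, h.2.trans (le_max_left _ _)⟩,
    z' s fun h => hs ⟨(min_le_right _ _).trans h.1, h.2.trans (le_max_right _ _)⟩]
  simp

lemma CS.integrable {L : ℝ} {χ h : ℝ → ℝ} (hχ : CS L χ) (c : Continuous h)
    (z : ∀ s, χ s = 0 → h s = 0) : Integrable h := by
  obtain ⟨-, a, b, -, z'⟩ := hχ
  exact c.integrable_of_hasCompactSupport
    (HasCompactSupport.intro isCompact_Icc fun s hs => z s (z' s hs))

lemma CS.integrable_gm {L : ℝ} (hL : L ≤ 0) {χ : ℝ → ℝ} (h : CS L χ) (lam : ℝ) (j : ℤ) :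
    Integrable fun s => sc s * χ s * gm lam j s :=
  h.integrable (h.cont_gm hL lam j) fun s hs => by simp [hs]

/-- an intermediate radius -/
def Lm : ℝ := log (74 / 100)

lemma L1_lt_Lm : L1 < Lm := log_lt_log (by norm_num) (by norm_num)
lemma Lm_lt : Lm < L0 := log_lt_log (by norm_num) (by norm_num)

/-- a fixed bump between the radii 0.73 and 0.74 -/
def bp (s : ℝ) : ℝ := max 0 (min (s - L1) (Lm - s))

lemma bp_zero {s : ℝ} (hs : s ∉ Icc L1 Lm) : bp s = 0 := by
  rw [mem_Icc, not_and_or, not_le, not_le] at hs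
  refine max_eq_left ?_
  rcases hs with h | h
  · exact (min_le_left _ _).trans (by linarith)
  · exact (min_le_right _ _).trans (by linarith)

lemma bp_cs : CS L0 bp := ⟨by unfold bp; fun_prop, L1, Lm, Lm_lt, fun _ => bp_zero⟩

lemma bp_lower : ∃ c > 0, ∀ k : ℕ,
    c * (73 / 100) ^ (3 * k + 1) ≤ ∫ s, sc s * bp s * gm lam1 (jx k) s := by
  have cb := bp_cs.1
  have csc := continuous_sc
  have i0 : Integrable fun s => sc s * bp s := bp_cs.integrable (by fun_prop) fun s hs => by simp [hs]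
  have n0 : ∀ s, 0 ≤ sc s * bp s := fun s => mul_nonneg (sc_pos s).le (le_max_left _ _)
  have p : 0 < ∫ s, sc s * bp s := by
    refine integral_pos_of_integrable_nonneg_nonzero (x := (L1 + Lm) / 2) (by fun_prop) i0 n0 ?_
    have := L1_lt_Lm
    exact (mul_pos (sc_pos _) (lt_max_of_lt_right (lt_min (by linarith) (by linarith)))).ne'
  refine ⟨(∫ s, sc s * bp s) * (73 / 100 / 8), by positivity, fun k => ?_⟩
  rw [mul_assoc, ← integral_mul_const]
  refine integral_mono (i0.mul_const _) (bp_cs.integrable_gm L0_neg.le _ _) fun s => ?_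
  by_cases hs : s ∈ Icc L1 Lm
  · refine mul_le_mul_of_nonneg_left (le_trans ?_ (gm_ge (jx_ge k)
      (exp_le_of_lt_L0 (hs.2.trans Lm_lt.le)))) (n0 s)
    have e : (73 / 100 : ℝ) = exp L1 := by rw [L1, exp_log (by norm_num)]
    have hk : (0 : ℝ) ≤ k := Nat.cast_nonneg k
    have l : L1 < 0 := L1_lt.trans L0_neg
    have : exp L1 * exp L1 ^ (3 * k + 1) ≤ exp (mu (jx k) * s) := by
      rw [← exp_nat_mul, ← exp_add, mu_jx]
      apply exp_le_exp.2; push_cast; nlinarith [hs.1]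
    rw [e]; linarith
  · simp [bp_zero hs]

theorem GS.coef {Λ : (E3 → ℝ) → ℝ} (h : GS Λ) : ∃ b : ℕ → ℝ,
    (∃ C, ∀ k, |b k| * (73 / 100) ^ (3 * k + 1) ≤ C) ∧ ∀ k χ, CS L0 χ →
      Λ (mode χ (mu (jx k))) = 2 * π / 3 * b k * ∫ s, sc s * χ s * gm lam1 (jx k) s := by
  obtain ⟨c, hc, hl⟩ := bp_lower
  obtain ⟨M, M0, hM⟩ := bp_cs.bound
  have hpi := pi_pos
  have p : ∀ k, 0 < ∫ s, sc s * bp s * gm lam1 (jx k) s := fun k =>
    lt_of_lt_of_le (by positivity) (hl k)
  refine ⟨fun k => Λ (mode bp (mu (jx k))) / (2 * π / 3 * ∫ s, sc s * bp s * gm lam1 (jx k) s),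
    ⟨M * Λ (fun _ => 1) / (2 * π / 3 * c), fun k => ?_⟩, fun k χ hχ => ?_⟩
  · have b := h.bound (bp_cs.cb (mu (jx k))) (M := M) fun x _ => by
      rw [mode, abs_mul]
      exact (mul_le_of_le_one_right (abs_nonneg _) (abs_cos_le_one _)).trans (hM _)
    have := p k
    rw [abs_div, abs_of_pos (by positivity : 0 < 2 * π / 3 * ∫ s, sc s * bp s * gm lam1 (jx k) s),
      div_mul_eq_mul_div, div_le_div_iff₀ (by positivity) (by positivity)]
    have t := mul_le_mul b (mul_le_mul_of_nonneg_left (hl k) (show 0 ≤ 2 * π / 3 by positivity))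
      (by positivity) ((abs_nonneg _).trans b)
    linarith
  · have := (p k).ne'
    set A := ∫ s, sc s * χ s * gm lam1 (jx k) s with hA
    set B := ∫ s, sc s * bp s * gm lam1 (jx k) s with hB
    obtain ⟨ψ, ψ', t⟩ := exists_tst (jx_ge k) (hχ.comb bp_cs (A / B)) (by
      have e : ∀ s, sc s * (χ s - A / B * bp s) * gm lam1 (jx k) s =
          sc s * χ s * gm lam1 (jx k) s - A / B * (sc s * bp s * gm lam1 (jx k) s) :=
        fun s => by ring
      simp only [e]
      rw [integral_sub (hχ.integrable_gm L0_neg.le _ _)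
        ((bp_cs.integrable_gm L0_neg.le _ _).const_mul _), integral_const_mul, ← hA, ← hB]
      field_simp; ring)
    have w := h.weak _ _ _ _ (cos_mu_jx k) t
    have e : mode (fun s => χ s - A / B * bp s) (mu (jx k)) =
        fun x => mode χ (mu (jx k)) x - A / B * mode bp (mu (jx k)) x := by
      funext x; simp only [mode]; ring
    rw [e, h.sub (hχ.cb _) ((bp_cs.cb _).const_mul _), h.smul _ _ (bp_cs.cb _)] at w
    simp only []
    rw [← hB]
    field_simp
    field_simp at w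
    linarith

lemma gr_of_bound {b : ℕ → ℝ} {r C : ℝ} (h : ∀ k, |b k| * r ^ (3 * k + 1) ≤ C) : Gr r b := by
  intro ρ h0 h1
  have hr : 0 < r := h0.trans h1
  have q0 : 0 ≤ ρ / r := by positivity
  have q1 : ρ / r < 1 := (div_lt_one hr).2 h1
  have C0 : 0 ≤ C := le_trans (by positivity) (h 0)
  refine Summable.of_nonneg_of_le (fun k => by positivity) (fun k => ?_)
    ((summable_geometric_of_lt_one q0 q1).mul_left C)
  have e : ρ ^ (3 * k + 1) = r ^ (3 * k + 1) * (ρ / r) ^ (3 * k + 1) := by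
    rw [← mul_pow]; congr 1; field_simp
  rw [e, ← mul_assoc]
  exact mul_le_mul (h k) (pow_le_pow_of_le_one q0 q1.le (by omega)) (by positivity) C0

end Pool.Agent.MP_c4844d_an

end
end MrgPart1

-- ======== part 2: formerly Pool.Agent.MP_c4844d_an.SW
section MrgPart2

noncomputable section

open Filter Topology Real MeasureTheory Set

namespace Pool.Agent.MP_c4844d_an

/-- trigonometric polynomials with bounded continuous radial coefficients -/
inductive Tr : (ℝ × ℝ → ℝ) → Prop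
  | gen (χ : ℝ → ℝ) (hc : Continuous χ) (M : ℝ) (hb : ∀ s, |χ s| ≤ M) (j : ℤ) :
      Tr fun p => χ p.1 * cos (3 * j * p.2)
  | add {f g : ℝ × ℝ → ℝ} : Tr f → Tr g → Tr fun p => f p + g p

lemma Tr.mul {f g : ℝ × ℝ → ℝ} (hf : Tr f) (hg : Tr g) : Tr fun p => f p * g p := by
  induction hf with
  | add _ _ a b => simpa only [add_mul] using a.add b
  | gen χ hc M hb j =>
    induction hg with
    | add _ _ a b => simpa only [mul_add] using a.add b
    | gen η hc' M' hb' i =>
      have b : ∀ s, |χ s * η s / 2| ≤ M * M' / 2 := fun s => by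
        rw [abs_div, abs_mul, abs_two]
        have := mul_le_mul (hb s) (hb' s) (abs_nonneg _) ((abs_nonneg _).trans (hb s))
        linarith
      have := (Tr.gen (fun s => χ s * η s / 2) (by fun_prop) _ b (j + i)).add
        (Tr.gen (fun s => χ s * η s / 2) (by fun_prop) _ b (j - i))
      convert this using 2 with p
      have e1 : 3 * ((j + i : ℤ) : ℝ) * p.2 = 3 * j * p.2 + 3 * i * p.2 := by push_cast; ring
      have e2 : 3 * ((j - i : ℤ) : ℝ) * p.2 = 3 * j * p.2 - 3 * i * p.2 := by push_cast; ring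
      rw [e1, e2, cos_add, cos_sub]; ring

lemma Tr.even {f : ℝ × ℝ → ℝ} (hf : Tr f) (s φ : ℝ) : f (s, |φ|) = f (s, φ) := by
  induction hf with
  | add _ _ a b => simp only [a, b]
  | gen χ hc M hb j =>
    rcases abs_choice φ with h | h <;> simp [h]

lemma cb_mode {χ : ℝ → ℝ} (hc : Continuous χ) {M : ℝ} (hM : ∀ s, |χ s| ≤ M) (m : ℝ) :
    Cb (mode χ m) :=
  Cb.mul ⟨hc.comp_continuousOn continuousOn_YY.fst, M, fun _ _ => hM _⟩ (cb_cos m)

lemma sw_zero {Φ : (E3 → ℝ) → ℝ} {a b C : ℝ} (hb : b ≤ 0)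
    (add : ∀ g h, Cb g → Cb h → Φ (fun x => g x + h x) = Φ g + Φ h)
    (smul : ∀ (c : ℝ) g, Cb g → Φ (fun x => c * g x) = c * Φ g)
    (sw : ∀ g, Cb g → Φ (fun x => g (swE x)) = Φ g)
    (bd : ∀ g, Cb g → ∀ M, 0 ≤ M → (∀ x ∈ Ts, (YY x).1 ∈ Icc a b → |g x| ≤ M) → |Φ g| ≤ C * M)
    (md : ∀ χ : ℝ → ℝ, Continuous χ → ∀ M, (∀ s, |χ s| ≤ M) → ∀ k, Φ (mode χ (mu (jx k))) = 0)
    {g : E3 → ℝ} (hg : Cb g) {δ : ℝ} (hδ : 0 < δ) (hδ' : δ ≤ π / 3)
    (h0 : ∀ x ∈ Ts, π / 3 - δ ≤ |(YY x).2| → g x = 0) : Φ g = 0 := by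
  have hpi := pi_pos
  have md' : ∀ χ : ℝ → ℝ, Continuous χ → ∀ M, (∀ s, |χ s| ≤ M) → ∀ j : ℤ,
      Φ (mode χ (3 * j + 3 / 2)) = 0 := fun χ hc M hM j => by
    obtain ⟨n, rfl | rfl⟩ := Int.eq_nat_or_neg j
    · have := md χ hc M hM n
      rw [mu_jx] at this; exact_mod_cast this
    · rcases n with _ | n
      · have := md χ hc M hM 0
        rw [mu_jx] at this; simpa using this
      · rw [← md χ hc M hM n, mu_jx]; congr 1; funext x
        rw [mode, mode, ← cos_neg]; congr 2; push_cast; ring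
  have tr : ∀ P, Tr P → Cb (fun x => cos (3 / 2 * (YY x).2) * P (YY x)) ∧
      Φ (fun x => cos (3 / 2 * (YY x).2) * P (YY x)) = 0 := fun P hP => by
    induction hP with
    | add _ _ u v =>
      simp only [mul_add]
      exact ⟨u.1.add v.1, by rw [add _ _ u.1 v.1, u.2, v.2, add_zero]⟩
    | gen χ hc M hM j =>
      have e : (fun x => cos (3 / 2 * (YY x).2) * (χ (YY x).1 * cos (3 * j * (YY x).2))) =
          fun x => 1 / 2 * mode χ (3 * j + 3 / 2) x +
            1 / 2 * mode χ (3 * ((j - 1 : ℤ) : ℝ) + 3 / 2) x := by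
        funext x
        have e1 : (3 * j + 3 / 2) * (YY x).2 = 3 * j * (YY x).2 + 3 / 2 * (YY x).2 := by ring
        have e2 : (3 * ((j - 1 : ℤ) : ℝ) + 3 / 2) * (YY x).2 =
            3 * j * (YY x).2 - 3 / 2 * (YY x).2 := by push_cast; ring
        rw [mode, mode, e1, e2, cos_add, cos_sub]; ring
      have c := fun m => cb_mode hc hM m
      rw [e]
      exact ⟨((c _).const_mul _).add ((c _).const_mul _), by
        rw [add _ _ ((c _).const_mul _) ((c _).const_mul _), smul _ _ (c _), smul _ _ (c _),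
          md' χ hc M hM, md' χ hc M hM]; simp⟩
  have hg' := hg.iso swE fun _ => sw_mem_cone
  let ge : E3 → ℝ := fun x => 1 / 2 * (g x + g (swE x))
  have cge : Cb ge := (hg.add hg').const_mul _
  have e1 : Φ ge = Φ g := by
    simp only [ge]
    rw [smul _ _ (hg.add hg'), add _ _ hg hg', sw _ hg]; ring
  have T1 : ∀ s φ, s ≤ 0 → |φ| < π / 3 → XX (s, φ) ∈ Ts := fun s φ hs hφ =>
    ⟨XX_mem_cone hφ hs, norm_XX _⟩
  have ge_abs : ∀ s φ, ge (XX (s, |φ|)) = ge (XX (s, φ)) := fun s φ => by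
    rcases abs_choice φ with h | h
    · rw [h]
    · rw [h, ← sw_XX]; simp only [ge, sw2]; ring
  have ge0 : ∀ s φ, s ≤ 0 → |φ| < π / 3 → π / 3 - δ ≤ |φ| → ge (XX (s, φ)) = 0 :=
    fun s φ hs h1 h2 => by
      simp only [ge]
      rw [sw_XX, h0 _ (T1 s φ hs h1) (by rwa [YY_XX' h1]),
        h0 _ (T1 s (-φ) hs (by rwa [abs_neg])) (by
          rw [YY_XX' (show |(-φ)| < π / 3 by rwa [abs_neg])]; rwa [abs_neg])]
      simp
  let K : Set (ℝ × ℝ) := Icc a b ×ˢ Icc 0 (π / 3)
  have : CompactSpace K := isCompact_iff_compactSpace.1 (isCompact_Icc.prod isCompact_Icc)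
  have mb : ∀ q : K, 0 ≤ min q.1.2 (π / 3 - δ) ∧ min q.1.2 (π / 3 - δ) < π / 3 := fun q =>
    ⟨le_min q.2.2.1 (by linarith), (min_le_right _ _).trans_lt (by linarith)⟩
  have cpos : ∀ φ, |φ| < π / 3 → 0 < cos (3 / 2 * φ) := fun φ h =>
    cos_pos_of_mem_Ioo ⟨by linarith [(abs_lt.1 h).1], by linarith [(abs_lt.1 h).2]⟩
  let G : C(K, ℝ) := ⟨fun q => ge (XX (q.1.1, min q.1.2 (π / 3 - δ))) /
      cos (3 / 2 * min q.1.2 (π / 3 - δ)),
    Continuous.div (cge.1.comp_continuous (continuous_XX.comp (by fun_prop)) fun q =>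
      T1 _ _ (q.2.1.2.trans hb) (by rw [abs_of_nonneg (mb q).1]; exact (mb q).2)) (by fun_prop)
      fun q => (cpos _ (by rw [abs_of_nonneg (mb q).1]; exact (mb q).2)).ne'⟩
  let u1 : C(K, ℝ) := ⟨fun q => arctan q.1.1, by fun_prop⟩
  let u2 : C(K, ℝ) := ⟨fun q => cos (3 * q.1.2), by fun_prop⟩
  have sep : (Algebra.adjoin ℝ {u1, u2}).SeparatesPoints := by
    intro x y hxy
    by_cases h : x.1.1 = y.1.1
    · refine ⟨u2, ⟨u2, Algebra.subset_adjoin (by simp), rfl⟩, fun h2 => hxy ?_⟩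
      have := injOn_cos (x₁ := 3 * x.1.2) (x₂ := 3 * y.1.2)
        ⟨by linarith [x.2.2.1], by linarith [x.2.2.2]⟩
        ⟨by linarith [y.2.2.1], by linarith [y.2.2.2]⟩ h2
      exact Subtype.ext (Prod.ext h (by linarith))
    · exact ⟨u1, ⟨u1, Algebra.subset_adjoin (by simp), rfl⟩, fun h2 => h (arctan_injective h2)⟩
  have res : ∀ P ∈ Algebra.adjoin ℝ {u1, u2}, ∃ Q, Tr Q ∧ ∀ q : K, P q = Q q.1 := by
    intro P hP
    induction hP using Algebra.adjoin_induction with
    | mem P hP =>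
      rcases hP with rfl | rfl
      · exact ⟨_, Tr.gen arctan continuous_arctan (π / 2)
          (fun s => abs_le.2 ⟨(neg_pi_div_two_lt_arctan s).le, (arctan_lt_pi_div_two s).le⟩) 0,
          fun q => by simp [u1]⟩
      · exact ⟨_, Tr.gen (fun _ => 1) continuous_const 1 (fun s => by simp) 1,
          fun q => by simp [u2]⟩
    | algebraMap r =>
      exact ⟨_, Tr.gen (fun _ => r) continuous_const |r| (fun s => le_rfl) 0, fun q => by simp⟩
    | add P P' _ _ u v =>
      obtain ⟨Q, q1, q2⟩ := u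
      obtain ⟨Q', q3, q4⟩ := v
      exact ⟨_, q1.add q3, fun q => by simp [q2, q4]⟩
    | mul P P' _ _ u v =>
      obtain ⟨Q, q1, q2⟩ := u
      obtain ⟨Q', q3, q4⟩ := v
      exact ⟨_, q1.mul q3, fun q => by simp [q2, q4]⟩
  have fin : ∀ η > 0, |Φ g| ≤ C * η := fun η hη => by
    obtain ⟨P, hP⟩ := ContinuousMap.exists_mem_subalgebra_near_continuousMap_of_separatesPoints
      _ sep G η hη
    obtain ⟨Q, q1, q2⟩ := res P.1 P.2
    obtain ⟨c1, c2⟩ := tr Q q1
    have h := bd _ (cge.add (c1.const_mul (-1))) η hη.le fun x hx hs => by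
      have hφ := (YY_mem_Tc hx).1
      let q : K := ⟨((YY x).1, |(YY x).2|), hs, abs_nonneg _, hφ.le⟩
      have n := ((P.1 - G).norm_coe_le_norm q).trans hP.le
      have e2 : ge x = cos (3 / 2 * (YY x).2) * G q := by
        have hx' : ge x = ge (XX ((YY x).1, |(YY x).2|)) := by
          rw [ge_abs]; exact congrArg ge (XX_YY' hx).symm
        have s0 := hs.2.trans hb
        show _ = _ * (ge (XX ((YY x).1, min |(YY x).2| (π / 3 - δ))) /
          cos (3 / 2 * min |(YY x).2| (π / 3 - δ)))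
        rcases le_total |(YY x).2| (π / 3 - δ) with h | h
        · have c : cos (3 / 2 * |(YY x).2|) = cos (3 / 2 * (YY x).2) := by
            rcases abs_choice (YY x).2 with h | h <;> simp [h]
          have := (cpos _ hφ).ne'
          rw [min_eq_left h, c, hx', mul_div_cancel₀ _ this]
        · rw [min_eq_right h, hx', ge0 _ _ s0 (by rwa [abs_abs]) (by rwa [abs_abs]),
            ge0 _ _ s0 (by rw [abs_of_nonneg (by linarith)]; linarith) (le_abs_self _)]
          simp
      have e3 : Q (YY x) = P.1 q := by rw [q2]; exact (q1.even _ _).symm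
      rw [e2, e3, neg_one_mul, ← sub_eq_add_neg, ← mul_sub, abs_mul, abs_sub_comm]
      exact (mul_le_of_le_one_left (abs_nonneg _) (abs_cos_le_one _)).trans n
    rwa [add _ _ cge (c1.const_mul _), smul _ _ c1, c2, mul_zero, add_zero, e1] at h
  have : |Φ g| ≤ 0 := le_of_forall_pos_le_add fun ε hε => by
    have := fin (ε / (|C| + 1)) (by positivity)
    have e : (|C| + 1) * (ε / (|C| + 1)) = ε := by field_simp
    have p : 0 < ε / (|C| + 1) := by positivity
    nlinarith [le_abs_self C]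
  exact abs_nonpos_iff.1 this

lemma YY_sw {x : E3} (hx : x ∈ Ts) : (YY (swE x)).1 = (YY x).1 := by
  have h := (YY_mem_Tc hx).1
  conv_lhs => rw [← XX_YY' hx]
  rw [show YY x = ((YY x).1, (YY x).2) from rfl, sw_XX,
    YY_XX' (show |(-(YY x).2)| < π / 3 by rwa [abs_neg])]

/-- a very weak solution is represented by its series on the sector -/
theorem GS.rep {Λ : (E3 → ℝ) → ℝ} (h : GS Λ) {b : ℕ → ℝ} (hb : Gr (73 / 100) b)
    (hc : ∀ k χ, CS L0 χ →
      Λ (mode χ (mu (jx k))) = 2 * π / 3 * b k * ∫ s, sc s * χ s * gm lam1 (jx k) s)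
    {g : E3 → ℝ} (hg : Cb g) {K : Set E3} (hK : IsCompact K) (hT : K ⊆ Ts)
    (hS : K ⊆ Sec (73 / 100)) (h0 : ∀ x ∈ Ts, x ∉ K → g x = 0) :
    Cb (fun x => U lam1 (pr hb) x * g x) ∧ Λ g = II fun x => U lam1 (pr hb) x * g x := by
  have hpi := pi_pos
  obtain ⟨N, ε, hN, hε, hbox⟩ := compact_box hK hT
  obtain ⟨d, hd, hd'⟩ := hK.exists_forall_le' (f := fun x => L1 - (YY x).1)
    (continuousOn_const.sub (continuousOn_YY.mono hT).fst) (a := 0)
    fun x hx => sub_pos.2 (YY_lt_of_Sec (by norm_num) (hT hx) (hS hx))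
  let χ0 : ℝ → ℝ := fun s => max 0 (min 1 (min (s + N + 1) ((L1 - d / 2 - s) / (d / 2))))
  have c0 : Continuous χ0 := by fun_prop
  have b0 : ∀ s, |χ0 s| ≤ 1 := fun s => by
    rw [abs_of_nonneg (le_max_left _ _)]; exact max_le zero_le_one (min_le_left _ _)
  have z0 : ∀ s, s ∉ Icc (-N - 1) (L1 - d / 2) → χ0 s = 0 := fun s hs => by
    rw [mem_Icc, not_and_or, not_le, not_le] at hs
    refine max_eq_left ((min_le_right _ _).trans ?_)
    rcases hs with h | h
    · exact (min_le_left _ _).trans (by linarith)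
    · exact (min_le_right _ _).trans (div_nonpos_of_nonpos_of_nonneg (by linarith) (by linarith))
  have o0 : ∀ x ∈ K, χ0 (YY x).1 = 1 := fun x hx => by
    have a := (abs_lt.1 (hbox x hx).1).1
    have c : d ≤ L1 - (YY x).1 := hd' x hx
    simp only [χ0]
    rw [min_eq_left (le_min (by linarith) ((one_le_div (by linarith)).2 (by linarith))),
      max_eq_right zero_le_one]
  have cs0 : CS L1 χ0 := ⟨c0, _, _, by linarith, z0⟩
  have cχ : Cb fun x => χ0 (YY x).1 := ⟨c0.comp_continuousOn continuousOn_YY.fst, 1, fun _ _ => b0 _⟩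
  have cU := cb_U_cut lam1 (by norm_num) (by norm_num) hb cs0
  obtain ⟨MU, hMU⟩ := cU.2
  have key := sw_zero (Φ := fun g => Λ (fun x => χ0 (YY x).1 * g x) -
      II fun x => U lam1 (pr hb) x * χ0 (YY x).1 * g x) (a := -N - 1) (b := L1 - d / 2)
    (C := Λ (fun _ => 1) + MU * aT) (by linarith [L1_lt, L0_neg])
    (fun f f' hf hf' => by
      simp only [mul_add]
      rw [h.add _ _ (cχ.mul hf) (cχ.mul hf'), II_add (cU.mul hf) (cU.mul hf')]; ring)
    (fun c f hf => by
      simp only [mul_left_comm _ c]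
      rw [h.smul _ _ (cχ.mul hf), II_const_mul]; ring)
    (fun f hf => by
      rw [← h.sw _ (cχ.mul hf), ← II_iso swE (fun _ => sw_mem_cone)
        fun x => U lam1 (pr hb) x * χ0 (YY x).1 * f x]
      congr 1
      · exact h.congr ((cχ.mul hf).iso swE fun _ => sw_mem_cone) fun x hx => by rw [YY_sw hx]
      · exact II_congr fun x hx => by rw [YY_sw hx, U_sw])
    (fun f hf M M0 hM => by
      have MU0 : 0 ≤ MU := (abs_nonneg _).trans (hMU _ cE_mem)
      have a := h.bound (cχ.mul hf) (M := M) fun x hx => by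
        by_cases hs : (YY x).1 ∈ Icc (-N - 1) (L1 - d / 2)
        · rw [abs_mul]
          exact (mul_le_of_le_one_left (abs_nonneg _) (b0 _)).trans (hM x hx hs)
        · rw [z0 _ hs]; simpa using M0
      have c := abs_II_le (cU.mul hf) (M := MU * M) fun x hx => by
        by_cases hs : (YY x).1 ∈ Icc (-N - 1) (L1 - d / 2)
        · rw [abs_mul]
          exact mul_le_mul (hMU x hx) (hM x hx hs) (abs_nonneg _) MU0
        · rw [z0 _ hs]; simp; positivity
      refine (abs_sub _ _).trans ?_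
      linarith)
    (fun χ cχ' M hM k => by
      have cs : CS L1 fun s => χ0 s * χ s :=
        ⟨by fun_prop, -N - 1, L1 - d / 2, by linarith, fun s hs => by simp [z0 s hs]⟩
      have a := hc k _ (cs.mono L1_lt.le)
      have c := II_U_mode lam1 (by norm_num) (by norm_num) hb cs k
      rw [← a] at c
      rw [sub_eq_zero]
      refine Eq.trans ?_ (c.symm.trans ?_)
      · congr 1; funext x; simp only [mode]; ring
      · exact II_congr fun x _ => by simp only [mode]; ring)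
    hg (δ := min (ε / 2) (π / 3)) (by positivity) (min_le_right _ _)
    fun x hx hφ => h0 x hx fun hxK => by
      have := (hbox x hxK).2
      have := min_le_left (ε / 2) (π / 3)
      linarith
  have e : ∀ x ∈ Ts, g x = χ0 (YY x).1 * g x := fun x hx => by
    by_cases hx' : x ∈ K
    · rw [o0 x hx', one_mul]
    · rw [h0 x hx hx', mul_zero]
  have e' : ∀ x ∈ Ts, U lam1 (pr hb) x * g x = U lam1 (pr hb) x * χ0 (YY x).1 * g x :=
    fun x hx => by rw [mul_assoc, ← e x hx]
  refine ⟨(cU.mul hg).congr e', ?_⟩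
  rw [II_congr e', h.congr (cχ.mul hg) e]
  exact sub_eq_zero.1 key

lemma exists_bump {O : Set E3} (hO : IsOpen O) (hOc : O ⊆ cone) {x : E3} (hx : x ∈ O)
    (_hT : x ∈ Ts) : ∃ (β : E3 → ℝ) (K : Set E3), IsCompact K ∧ K ⊆ Ts ∧ K ⊆ O ∧ (∀ y, 0 ≤ β y) ∧
      0 < β x ∧ (∀ y ∈ Ts, y ∉ K → β y = 0) ∧
      ∀ F : E3 → ℝ, ContinuousOn F (O ∩ Ts) → Cb fun y => F y * β y := by
  obtain ⟨ρ, hρ, hball⟩ := Metric.nhds_basis_closedBall.mem_iff.1 (hO.mem_nhds hx)
  let K := Metric.closedBall x ρ ∩ Metric.sphere (0 : E3) 1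
  have hK : IsCompact K := (isCompact_closedBall x ρ).inter_right Metric.isClosed_sphere
  have KO : K ⊆ O := fun y hy => hball hy.1
  have KT : K ⊆ Ts := fun y hy => ⟨hOc (KO hy), by simpa using hy.2⟩
  let β : E3 → ℝ := fun y => max 0 (ρ / 2 - dist y x)
  have cβ : Continuous β := by fun_prop
  have β0 : ∀ y, ρ / 2 ≤ dist y x → β y = 0 := fun y hy => max_eq_left (by linarith)
  have z : ∀ y ∈ Ts, y ∉ K → β y = 0 := fun y hy h' => β0 y (by
    by_contra hc
    exact h' ⟨Metric.mem_closedBall.2 (by linarith), by simpa using hy.2⟩)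
  refine ⟨β, K, hK, KT, KO, fun y => le_max_left _ _, lt_max_of_lt_right (by simpa using hρ), z,
    fun F hF => ?_⟩
  have c : ContinuousOn (fun y => F y * β y) Ts := fun y hy => by
    by_cases hy' : y ∈ O
    · refine ContinuousWithinAt.mul ?_ cβ.continuousWithinAt
      exact (hF y ⟨hy', hy⟩).mono_of_mem_nhdsWithin
        (inter_mem (mem_nhdsWithin_of_mem_nhds (hO.mem_nhds hy')) self_mem_nhdsWithin)
    · have : ρ / 2 < dist y x := by
        by_contra hc
        exact hy' (hball (Metric.mem_closedBall.2 (by linarith)))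
      have ev : ∀ᶠ w in 𝓝[Ts] y, F w * β w = 0 := by
        refine mem_nhdsWithin_of_mem_nhds ?_
        filter_upwards [(isOpen_lt continuous_const
          (by fun_prop : Continuous fun w => dist w x)).mem_nhds this] with w hw
        rw [β0 w (le_of_lt hw), mul_zero]
      exact continuousWithinAt_const.congr_of_eventuallyEq ev (ev.self_of_nhdsWithin hy)
  obtain ⟨M, hM⟩ := hK.exists_bound_of_continuousOn (c.mono KT)
  refine ⟨c, |M|, fun y hy => ?_⟩
  by_cases hy' : y ∈ K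
  · exact (hM y hy').trans (le_abs_self M)
  · simp only []
    rw [z y hy hy', mul_zero, abs_zero]; exact abs_nonneg M

/-- a function orthogonal to all test functions vanishes -/
lemma eq_zero_of_test {D : E3 → ℝ} {O : Set E3} (hO : IsOpen O) (hOc : O ⊆ cone)
    (hD : ContinuousOn D (O ∩ Ts))
    (h : ∀ g K, Cb g → IsCompact K → K ⊆ Ts → K ⊆ O → (∀ x ∈ Ts, x ∉ K → g x = 0) →
      II (fun x => D x * g x) = 0) {x : E3} (hx : x ∈ O) (hT : x ∈ Ts) : D x = 0 := by
  obtain ⟨β, K, hK, KT, KO, β0, βx, z, cut⟩ := exists_bump hO hOc hx hT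
  have h1 := h _ K (cut D hD) hK KT KO fun y hy h' => by rw [z y hy h', mul_zero]
  by_contra hne
  have p := II_pos (cut (fun y => D y * D y) (hD.mul hD))
    (fun y _ => mul_nonneg (mul_self_nonneg _) (β0 y)) hT (mul_pos (mul_self_pos.2 hne) βx)
  simp only [mul_assoc] at p
  linarith

end Pool.Agent.MP_c4844d_an

end
end MrgPart2

-- ======== part 3: formerly Pool.Agent.MP_c4844d_an.Glue
section MrgPart3

noncomputable section

open Filter Topology Real MeasureTheory Set
open scoped ContDiff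

namespace Pool.Agent.MP_c4844d_an

lemma rotD_iter_cyc (n : E3) (k : ℕ) (f : E3 → ℝ) :
    (rotD n)^[k] (fun x => f (cycE x)) = fun x => (rotD (cycE n))^[k] f (cycE x) := by
  induction k with
  | zero => rfl
  | succ k ih => rw [Function.iterate_succ_apply', ih, rotD_cyc, Function.iterate_succ_apply']

lemma lap_cyc (f : E3 → ℝ) (x : E3) : lap (fun y => f (cycE y)) x = lap f (cycE x) := by
  simp only [lap, Fin.sum_univ_three, rotD_iter_cyc, cyc_axis0, cyc_axis1, cyc_axis2]; ring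

lemma qua_cyc (f : E3 → ℝ) (x : E3) : qua (fun y => f (cycE y)) x = qua f (cycE x) := by
  simp only [qua, Fin.sum_univ_three, rotD_iter_cyc, cyc_axis0, cyc_axis1, cyc_axis2]; ring

lemma lap_congr {f g : E3 → ℝ} {x : E3} (h : f =ᶠ[𝓝 x] g) : lap f x = lap g x :=
  Finset.sum_congr rfl fun _ _ => (rotD_iter_congr 2 h).eq_of_nhds

lemma qua_congr {f g : E3 → ℝ} {x : E3} (h : f =ᶠ[𝓝 x] g) : qua f x = qua g x :=
  Finset.sum_congr rfl fun _ _ => (rotD_iter_congr 4 h).eq_of_nhds

lemma rotD_fneg (n : E3) (f : E3 → ℝ) : rotD n (fun x => -f x) = fun x => -rotD n f x := by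
  funext x; simp only [rotD, fderiv_fun_neg]; rfl

lemma lap_neg (f : E3 → ℝ) (x : E3) : lap (fun y => -f y) x = -lap f x := by
  simp only [lap, Fin.sum_univ_three, Function.iterate_succ, Function.iterate_zero, Function.comp,
    id, rotD_fneg]
  ring

/-- symmetric smooth Dirichlet eigenfunctions -/
structure SE (lam : ℝ) (w : E3 → ℝ) : Prop where
  smooth : ContDiffOn ℝ ∞ w cone
  hom : ∀ x ∈ cone, ∀ t : ℝ, 0 < t → w (t • x) = w x
  eig : ∀ x ∈ cone, lap w x = -lam * w x
  bdry : ∀ ε > 0, ∃ K, IsCompact K ∧ K ⊆ cone ∧ ∀ x ∈ Ts, x ∉ K → |w x| < ε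
  cyc : ∀ x ∈ cone, w (cycE x) = w x
  sw : ∀ x ∈ cone, w (swE x) = w x

lemma SE.neg {lam : ℝ} {w : E3 → ℝ} (h : SE lam w) : SE lam fun x => -w x :=
  ⟨h.smooth.neg, fun x hx t ht => by rw [h.hom x hx t ht],
    fun x hx => by rw [lap_neg, h.eig x hx]; ring, fun ε hε => by simpa using h.bdry ε hε,
    fun x hx => by rw [h.cyc x hx], fun x hx => by rw [h.sw x hx]⟩

lemma SE.ce {lam : ℝ} {w : E3 → ℝ} (h : SE lam w) : CE lam w := by
  have c := h.smooth.continuousOn
  refine ⟨contDiffOn_infty.1 h.smooth 2, fun x hx => h.eig x hx.1, fun ε hε => ?_,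
    c.mono fun x hx => hx.1, ?_⟩
  · obtain ⟨K, a, b, e⟩ := h.bdry ε hε
    exact ⟨K, a, b, fun x hx h' => (le_abs_self _).trans_lt (e x hx h')⟩
  · obtain ⟨K, a, b, e⟩ := h.bdry 1 one_pos
    obtain ⟨M, hM⟩ := a.exists_bound_of_continuousOn (c.mono b)
    refine ⟨max M 1, fun x hx => ?_⟩
    by_cases h' : x ∈ K
    · exact (hM x h').trans (le_max_left _ _)
    · exact (e x hx h').le.trans (le_max_right _ _)

lemma SE.gs {w : E3 → ℝ} (h : SE lam1 w) : GS fun g => II fun x => max (w x) 0 * g x :=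
  h.ce.gs (fun x hx => h.cyc x hx.1) fun x hx => h.sw x hx.1

/-- admissible radii -/
structure Rad (r : ℝ) : Prop where
  pos : 0 < r
  le : r ≤ 1
  big : 1 / 2 < r ^ 2

lemma rad73 : Rad (73 / 100) := ⟨by norm_num, by norm_num, by norm_num⟩

lemma Rad.sub {r : ℝ} (hr : Rad r) : Sec r ⊆ OR r := Sec_sub_OR hr.pos hr.le

lemma Rad.ind {r : ℝ} (hr : Rad r) {P : E3 → Prop} (h0 : ∀ x ∈ Sec r, P x)
    (h1 : ∀ x ∈ cone, P (cycE x) → P x) {x : E3} (hx : x ∈ cone) : P x := by
  rcases cover_Sec hr.big hx with a | a | a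
  · exact h0 x a
  · exact h1 x hx (h0 _ a)
  · exact h1 x hx (h1 _ (by simpa) (h0 _ a))

/-- compatibility with the rotation of order three -/
def Compat (lam : ℝ) {r : ℝ} (v : GP r) : Prop :=
  ∀ x ∈ Sec r, cycE x ∈ Sec r → U lam v (cycE x) = U lam v x

open Classical in
/-- the function on the whole cone -/
def glue (lam : ℝ) {r : ℝ} (v : GP r) (x : E3) : ℝ :=
  if x ∈ Sec r then U lam v x else if cycE x ∈ Sec r then U lam v (cycE x)
    else U lam v (cycE (cycE x))

section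
variable {lam r : ℝ} {v : GP r}

lemma glue0 {x : E3} (hx : x ∈ Sec r) : glue lam v x = U lam v x := if_pos hx

lemma Compat.glue1 (h : Compat lam v) {x : E3} (hx : cycE x ∈ Sec r) :
    glue lam v x = U lam v (cycE x) := by
  unfold glue
  split_ifs with a
  · exact (h x a hx).symm
  · rfl

lemma Compat.glue2 (h : Compat lam v) {x : E3} (hx : cycE (cycE x) ∈ Sec r) :
    glue lam v x = U lam v (cycE (cycE x)) := by
  unfold glue
  split_ifs with a b
  · simpa using h _ hx (by simpa)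
  · exact (h _ b hx).symm
  · rfl

lemma Compat.cyc (hr : Rad r) (h : Compat lam v) {x : E3} (hx : x ∈ cone) :
    glue lam v (cycE x) = glue lam v x := by
  rcases cover_Sec hr.big hx with a | a | a
  · rw [glue0 a, h.glue2 (by simpa), cyc3]
  · rw [glue0 a, h.glue1 a]
  · rw [h.glue1 a, h.glue2 a]

lemma glue_ev0 {x : E3} (hx : x ∈ Sec r) : glue lam v =ᶠ[𝓝 x] U lam v := by
  filter_upwards [(isOpen_Sec r).mem_nhds hx] with y hy using glue0 hy

lemma Compat.ev1 (hr : Rad r) (h : Compat lam v) {x : E3} (hx : x ∈ cone) :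
    glue lam v =ᶠ[𝓝 x] fun y => glue lam v (cycE y) := by
  filter_upwards [isOpen_cone.mem_nhds hx] with y hy using (h.cyc hr hy).symm

lemma Compat.ev (h : Compat lam v) {x : E3} (hx : x ∈ Sec r) (hx' : cycE x ∈ Sec r) :
    (fun y => U lam v (cycE y)) =ᶠ[𝓝 x] U lam v := by
  filter_upwards [(isOpen_Sec r).mem_nhds hx,
    ((isOpen_Sec r).preimage cycE.continuous).mem_nhds hx'] with y a b using h y a b

lemma Compat.d4 (hr : Rad r) (h : Compat lam v) : Compat lam (D4 (LL lam r) v) := fun x a b => by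
  rw [← qua_U lam hr.le v (hr.sub a), ← qua_U lam hr.le v (hr.sub b), ← qua_cyc,
    qua_congr (h.ev a b)]

lemma Compat.comb (hr : Rad r) {w : GP r} (h : Compat lam v) (h' : Compat lam w) (c : ℝ) :
    Compat lam (v - (c : ℂ) • w) := fun x a b => by
  rw [U_sub lam hr.le _ _ (hr.sub a), U_sub lam hr.le _ _ (hr.sub b),
    U_smul lam hr.le _ _ (hr.sub a), U_smul lam hr.le _ _ (hr.sub b), h x a b, h' x a b]

lemma Compat.qua (hr : Rad r) (h : Compat lam v) {c : ℝ} (e : D4 (LL lam r) v = (c : ℂ) • v)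
    {x : E3} (hx : x ∈ cone) : qua (glue lam v) x = c * glue lam v x := by
  refine hr.ind (P := fun x => Pool.Agent.MP_c4844d_an.qua (glue lam v) x = c * glue lam v x)
    (fun x a => ?_) (fun x a b => ?_) hx
  · rw [qua_congr (glue_ev0 a), qua_U lam hr.le v (hr.sub a), e, U_smul lam hr.le _ _ (hr.sub a),
      glue0 a]
  · rw [qua_congr (h.ev1 hr a), qua_cyc, b, h.cyc hr a]

end

/-- the series in the chart -/
def Ut (lam : ℝ) (b : ℕ → ℝ) (p : ℝ × ℝ) : ℝ :=
  ∑' k, 2 * b k * gm lam (jx k) p.1 * cos (mu (jx k) * p.2)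

lemma Compat.se {lam r : ℝ} (hr : Rad r) {b : ℕ → ℝ} (hb : Gr r b) (h : Compat lam (pr hb)) :
    SE lam (glue lam (pr hb)) := by
  refine ⟨fun x hx => ContDiffAt.contDiffWithinAt ?_, fun x hx t ht => ?_, fun x hx => ?_,
    fun ε hε => ?_, fun x hx => h.cyc hr hx, fun x hx => ?_⟩
  · refine hr.ind (P := fun x => ContDiffAt ℝ ∞ (glue lam (pr hb)) x)
      (fun x a => ?_) (fun x a b => ?_) hx
    · exact ((contDiffOn_U lam hr.le _).contDiffAt
        ((isOpen_OR r).mem_nhds (hr.sub a))).congr_of_eventuallyEq (glue_ev0 a)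
    · exact (b.comp x cycE.contDiff.contDiffAt).congr_of_eventuallyEq (h.ev1 hr a)
  · refine hr.ind (P := fun x => glue lam (pr hb) (t • x) = glue lam (pr hb) x)
      (fun x a => ?_) (fun x a b => ?_) hx
    · rw [glue0 a, glue0 (smul_mem_Sec a ht), U_smul_pos _ _ ht]
    · rw [← h.cyc hr (smul_mem_cone a ht), map_smul, b, h.cyc hr a]
  · refine hr.ind (P := fun x => lap (glue lam (pr hb)) x = -lam * glue lam (pr hb) x)
      (fun x a => ?_) (fun x a b => ?_) hx
    · rw [lap_congr (glue_ev0 a), lap_U lam hr.le _ (hr.sub a), glue0 a]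
    · rw [lap_congr (h.ev1 hr a), lap_cyc, b, h.cyc hr a]
  · obtain ⟨ρ, ρ0, ρ1, ρ2⟩ : ∃ ρ, 0 < ρ ∧ ρ < r ∧ 1 / 2 < ρ ^ 2 := by
      have ev : ∀ᶠ ρ in 𝓝[<] r, 0 < ρ ∧ 1 / 2 < ρ ^ 2 := mem_nhdsWithin_of_mem_nhds
        (((continuous_id.tendsto r).eventually (lt_mem_nhds hr.pos)).and
          (((continuous_pow 2).tendsto r).eventually (lt_mem_nhds hr.big)))
      obtain ⟨ρ, a, b⟩ := (ev.and self_mem_nhdsWithin).exists
      exact ⟨ρ, a.1, b, a.2⟩
    have hρ : Rad ρ := ⟨ρ0, ρ1.le.trans hr.le, ρ2⟩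
    set L := log ρ with hL
    have L0 : L ≤ 0 := log_nonpos ρ0.le hρ.le
    have eL : exp L = ρ := exp_log ρ0
    have S := hb ρ ρ0 ρ1
    rw [← eL] at S
    have cU : ContinuousOn (Ut lam b) {p | p.1 ≤ L} := by
      refine continuousOn_tsum (fun k p hp => ?_) (S.mul_left (8 * exp (2 * |lam|)))
        fun k p hp => ?_
      · refine ContinuousAt.continuousWithinAt (ContinuousAt.mul (ContinuousAt.mul
          continuousAt_const ?_) (by fun_prop))
        exact (hasDerivAt_gm lam _ (le_trans hp L0)).continuousAt.comp continuousAt_fst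
      · rw [Real.norm_eq_abs, abs_mul]
        exact (mul_le_of_le_one_right (abs_nonneg _) (abs_cos_le_one _)).trans
          (term_bound' lam b k hp L0)
    set A := ∑' k, |b k| * exp L ^ (3 * k + 1) with hA
    have bU : ∀ p : ℝ × ℝ, p.1 ≤ L →
        |Ut lam b p| ≤ 8 * exp (2 * |lam|) * exp (3 / 2 * (p.1 - L)) * A := fun p hp => by
      refine tsum_of_norm_bounded (E := ℝ) (S.hasSum.mul_left _) fun k => ?_
      rw [Real.norm_eq_abs, abs_mul]
      exact (mul_le_of_le_one_right (abs_nonneg _) (abs_cos_le_one _)).trans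
        (term_bound lam b k hp L0)
    have A0 : 0 ≤ A := tsum_nonneg fun k => by positivity
    obtain ⟨N, hN⟩ : ∃ N : ℝ, ∀ s ≤ N, 8 * exp (2 * |lam|) * exp (3 / 2 * (s - L)) * A < ε := by
      have t : Tendsto (fun s : ℝ => 8 * exp (2 * |lam|) * exp (3 / 2 * (s - L)) * A) atBot
          (𝓝 (8 * exp (2 * |lam|) * 0 * A)) :=
        ((tendsto_exp_atBot.comp ((tendsto_atBot_add_const_right _ (-L) tendsto_id).const_mul_atBot
          (by norm_num))).const_mul _).mul_const _
      rw [mul_zero, zero_mul] at t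
      exact eventually_atBot.1 (t.eventually (gt_mem_nhds hε))
    let R : Set (ℝ × ℝ) := Icc N L ×ˢ Icc (-(π / 3)) (π / 3)
    have cR : IsCompact R := isCompact_Icc.prod isCompact_Icc
    let K0 := R ∩ (fun p => |Ut lam b p|) ⁻¹' Ici ε
    have cK0 : IsCompact K0 := cR.of_isClosed_subset
      ((cU.mono fun p hp => hp.1.2).abs.preimage_isClosed_of_isClosed cR.isClosed isClosed_Ici)
      inter_subset_left
    have cK1 : IsCompact (XX '' K0) := cK0.image continuous_XX
    have sK1 : XX '' K0 ⊆ cone := by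
      rintro _ ⟨p, hp, rfl⟩
      refine XX_mem_cone (lt_of_le_of_ne (abs_le.2 hp.1.2) fun e => ?_) (hp.1.1.2.trans L0)
      have z : Ut lam b p = 0 := by
        have : ∀ k, cos (mu (jx k) * p.2) = 0 := fun k => by
          rw [← cos_mu_jx k, ← e]
          rcases abs_choice p.2 with h | h <;> simp [h]
        simp [Ut, this]
      have := hp.2
      simp only [mem_preimage, mem_Ici, z, abs_zero] at this
      linarith
    have c1 := cycE.toHomeomorph.isCompact_preimage.2 cK1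
    have c2 := cycE.toHomeomorph.isCompact_preimage.2 c1
    refine ⟨_, (cK1.union c1).union c2, ?_, fun x hx hK => ?_⟩
    · rintro x ((a | a) | a)
      · exact sK1 a
      · exact cyc_mem_cone.1 (sK1 a)
      · exact cyc_mem_cone.1 (cyc_mem_cone.1 (sK1 a))
    · have key : ∀ y ∈ Ts, y ∈ Sec ρ → y ∉ XX '' K0 → |glue lam (pr hb) y| < ε := by
        intro y hy a c
        have l := YY_lt_of_Sec ρ0 hy a
        have hp := (YY_mem_Tc hy).1
        have e1 : exp (YY y).1 < r := by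
          have := exp_lt_exp.2 l
          linarith
        have hs := hasSum_U lam hr.pos hr.le hb hp e1
        have m := XX_mem_Sec' hr.pos hr.le hp e1
        rw [XX_YY' hy] at hs m
        rw [glue0 m, ← hs.tsum_eq]
        by_contra hc
        rcases le_total (YY y).1 N with d | d
        · exact hc ((bU _ l.le).trans_lt (hN _ d))
        · exact c ⟨YY y, ⟨⟨⟨d, l.le⟩, abs_le.1 hp.le⟩, not_lt.1 hc⟩, XX_YY' hy⟩
      simp only [mem_union, not_or] at hK
      rcases cover_Sec ρ2 hx.1 with a | a | a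
      · exact key x hx a hK.1.1
      · rw [← h.cyc hr hx.1]; exact key _ (cyc_mem_Ts hx) a hK.1.2
      · rw [← h.cyc hr hx.1, ← h.cyc hr (cyc_mem_Ts hx).1]
        exact key _ (cyc_mem_Ts (cyc_mem_Ts hx)) a hK.2
  · refine hr.ind (P := fun x => glue lam (pr hb) (swE x) = glue lam (pr hb) x)
      (fun x a => ?_) (fun x a b => ?_) hx
    · rw [glue0 a, glue0 (sw_mem_Sec.2 a), U_sw]
    · rw [← h.cyc hr a, ← b, ← cyc_cyc_sw, h.cyc hr (by simpa), h.cyc hr (by simpa)]

lemma hyp_zero (lam m : ℝ) : hyp lam m 0 = 1 := by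
  rw [hyp, tsum_eq_single 0 fun n hn => by simp [hn]]; simp [hc]

/-- near the vertex the first mode dominates -/
lemma U_ne_zero (lam : ℝ) {r : ℝ} (hr : Rad r) {b : ℕ → ℝ} (hb : Gr r b) (h0 : b 0 ≠ 0) :
    ∀ᶠ s in atBot, XX (s, 0) ∈ Sec r ∧ U lam (pr hb) (XX (s, 0)) ≠ 0 := by
  have r0 := hr.pos
  set L := log (r / 2) with hL
  have eL : exp L = r / 2 := exp_log (by positivity)
  have L0 : L ≤ 0 := log_nonpos (by positivity) (by linarith [hr.le])
  have S := hb (r / 2) (by positivity) (by linarith)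
  rw [← eL] at S
  have tsg : Tendsto sg atBot (𝓝 0) := by
    have := (tendsto_exp_atBot.pow 2).div ((tendsto_exp_atBot.pow 2).const_add 1) (by norm_num)
    simp only [ne_eq, OfNat.ofNat_ne_zero, not_false_eq_true, zero_pow, zero_div] at this
    exact this.congr fun s => (sg_eq s).symm
  have t := tendsto_tsum_of_dominated_convergence (𝓕 := atBot)
    (f := fun s k => exp (-(3 / 2 * s)) * (2 * b k * gm lam (jx k) s * cos (mu (jx k) * 0)))
    (g := fun k => 2 * b k * (0 ^ (3 * k) * hyp lam (mu (jx k)) 0))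
    (S.mul_left (8 * exp (2 * |lam|) * exp (-(3 / 2 * L))))
    (fun k => by
      refine (((tendsto_exp_atBot.pow (3 * k)).mul ((hasDerivAt_hyp lam (mu (jx k)) (x := 0)
        (by simp)).continuousAt.tendsto.comp tsg)).const_mul (2 * b k)).congr fun s => ?_
      have e : exp s ^ (3 * k) = exp (-(3 / 2 * s)) * exp (mu (jx k) * s) := by
        rw [← exp_nat_mul, ← exp_add, mu_jx]; congr 1; push_cast; ring
      simp only [e, gm, Function.comp, mul_zero, cos_zero]; ring)
    (by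
      filter_upwards [eventually_le_atBot L] with s hs k
      have e : exp (-(3 / 2 * L)) = exp (-(3 / 2 * s)) * exp (3 / 2 * (s - L)) := by
        rw [← exp_add]; congr 1; ring
      rw [mul_zero, cos_zero, mul_one, Real.norm_eq_abs, abs_mul, abs_of_pos (exp_pos _), e]
      refine (mul_le_mul_of_nonneg_left (term_bound lam b k hs L0) (exp_pos _).le).trans
        (le_of_eq (by ring)))
  rw [tsum_eq_single 0 fun n hn => by simp [hn]] at t
  filter_upwards [t.eventually_ne (show _ ≠ (0 : ℝ) by simpa [hyp_zero] using h0),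
    eventually_le_atBot L] with s hs hs'
  have hp : ((s, 0) : ℝ × ℝ) ∈ PP := by
    have := pi_pos
    simp only [PP, mem_ofPred_eq, abs_zero]; positivity
  have e1 : exp s < r := by
    have := exp_le_exp.2 hs'
    linarith
  refine ⟨XX_mem_Sec' r0 hr.le hp e1, fun z => hs ?_⟩
  have := (hasSum_U lam r0 hr.le hb hp e1).mul_left (exp (-(3 / 2 * s)))
  rw [z, mul_zero] at this
  exact this.tsum_eq

/-- a compatible series with nonzero first coefficient bounds the first eigenvalue -/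
theorem Compat.lam1_le {lam r : ℝ} (hr : Rad r) {b : ℕ → ℝ} (hb : Gr r b)
    (h : Compat lam (pr hb)) (h0 : b 0 ≠ 0) : lam1 ≤ lam := by
  obtain ⟨s, a, c⟩ := (U_ne_zero lam hr hb h0).exists
  have T : XX (s, 0) ∈ Ts := ⟨a.1, norm_XX _⟩
  rw [← glue0 a] at c
  rcases lt_or_gt_of_ne c with d | d
  · exact (h.se hr hb).neg.ce.lam1_le T (by simpa using d)
  · exact (h.se hr hb).ce.lam1_le T d

end Pool.Agent.MP_c4844d_an

end
end MrgPart3

-- marker of a merged file
example : 731051 + 751214 = 731051 + 751214 := rfl
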