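import Pool.Agent.MP_c4844d_an.Glue

noncomputable section

open Filter Topology Real MeasureTheory Set
open scoped ContDiff

namespace Pool.Agent.MP_c4844d_an

lemma contOn_U (lam : ℝ) {r : ℝ} (hr : Rad r) (v : GP r) : ContinuousOn (U lam v) (Sec r) :=
  (contDiffOn_U lam hr.le v).continuousOn.mono hr.sub

/-- the series of a very weak solution -/
structure Rep (Λ : (E3 → ℝ) → ℝ) {b : ℕ → ℝ} (hb : Gr (73 / 100) b) : Prop where
  coef : ∀ k χ, CS L0 χ →
    Λ (mode χ (mu (jx k))) = 2 * π / 3 * b k * ∫ s, sc s * χ s * gm lam1 (jx k) s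
  rep : ∀ g K, Cb g → IsCompact K → K ⊆ Ts → K ⊆ Sec (73 / 100) → (∀ x ∈ Ts, x ∉ K → g x = 0) →
    Cb (fun x => U lam1 (pr hb) x * g x) ∧ Λ g = II fun x => U lam1 (pr hb) x * g x

lemma GS.exists_rep {Λ : (E3 → ℝ) → ℝ} (h : GS Λ) : ∃ (b : ℕ → ℝ) (hb : Gr (73 / 100) b),
    (∃ C, ∀ k, |b k| * (73 / 100) ^ (3 * k + 1) ≤ C) ∧ Rep Λ hb := by
  obtain ⟨b, ⟨C, hC⟩, hc⟩ := h.coef
  exact ⟨b, gr_of_bound hC, ⟨C, hC⟩, hc, fun g K a c d e f => h.rep _ hc a c d e f⟩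

lemma Rep.compat {Λ : (E3 → ℝ) → ℝ} (h : GS Λ) {b : ℕ → ℝ} {hb : Gr (73 / 100) b}
    (H : Rep Λ hb) : Compat lam1 (pr hb) := by
  have cU := contOn_U lam1 rad73 (pr hb)
  have key : ∀ x ∈ Ts, x ∈ Sec (73 / 100) → cycE x ∈ Sec (73 / 100) →
      U lam1 (pr hb) (cycE x) - U lam1 (pr hb) x = 0 := fun x hx a c => by
    refine eq_zero_of_test (D := fun x => U lam1 (pr hb) (cycE x) - U lam1 (pr hb) x)
      (O := Sec (73 / 100) ∩ cycE ⁻¹' Sec (73 / 100))
      ((isOpen_Sec _).inter ((isOpen_Sec _).preimage cycE.continuous)) (fun y hy => hy.1.1)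
      ((cU.comp cycE.continuous.continuousOn fun y hy => hy.1.2).sub
        (cU.mono fun y hy => hy.1.1)) (fun g K hg hK KT KO z => ?_) ⟨a, c⟩ hx
    obtain ⟨c1, e1⟩ := H.rep g K hg hK KT (fun y hy => (KO hy).1) z
    have g1 := hg.iso cycE fun _ => cyc_mem_cone
    obtain ⟨c2, e2⟩ := H.rep (fun y => g (cycE (cycE y))) (cycE '' K)
      (g1.iso cycE fun _ => cyc_mem_cone) (hK.image cycE.continuous)
      (by rintro _ ⟨y, hy, rfl⟩; exact cyc_mem_Ts (KT hy))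
      (by rintro _ ⟨y, hy, rfl⟩; exact (KO hy).2)
      fun y hy h' => z _ (cyc_mem_Ts (cyc_mem_Ts hy)) fun h'' => h' ⟨_, h'', cyc3 y⟩
    have c3 := c2.iso cycE fun _ => cyc_mem_cone
    rw [← II_iso cycE fun _ => cyc_mem_cone, h.cyc _ g1, h.cyc _ hg] at e2
    simp only [cyc3] at c3 e2
    simp only [sub_mul]
    rw [II_sub c3 c1, ← e1, ← e2, sub_self]
  intro x a c
  have h0 := ne_zero_of_cone a.1
  have := key (nrm x) ⟨nrm_mem_cone a.1, norm_nrm h0⟩ (nrm_mem_Sec a)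
    (by rw [← nrm_iso]; exact nrm_mem_Sec c)
  rwa [← nrm_iso, U_nrm _ _ h0, U_nrm _ _ (ne_zero_of_cone c.1), sub_eq_zero] at this

lemma Rep.nonneg {Λ : (E3 → ℝ) → ℝ} (h : GS Λ) {b : ℕ → ℝ} {hb : Gr (73 / 100) b}
    (H : Rep Λ hb) {x : E3} (hx : x ∈ Sec (73 / 100)) : 0 ≤ U lam1 (pr hb) x := by
  have cU := contOn_U lam1 rad73 (pr hb)
  rw [← U_nrm _ _ (ne_zero_of_cone hx.1)]
  obtain ⟨β, K, hK, KT, KO, β0, βx, z, cut⟩ := exists_bump (isOpen_Sec (73 / 100))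
    (fun y hy => hy.1) (nrm_mem_Sec hx) ⟨nrm_mem_cone hx.1, norm_nrm (ne_zero_of_cone hx.1)⟩
  have cm : ContinuousOn (fun y => max (-U lam1 (pr hb) y) 0) (Sec (73 / 100) ∩ Ts) :=
    (cU.mono inter_subset_left).neg.sup continuousOn_const
  have e := (H.rep _ K (cut _ cm) hK KT KO fun y hy h' => by rw [z y hy h', mul_zero]).2
  have p := h.pos _ (cut _ cm) fun y _ => mul_nonneg (le_max_right _ _) (β0 y)
  by_contra hc
  have q := II_pos (cut _ (cm.mul cm))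
    (fun y _ => mul_nonneg (mul_self_nonneg _) (β0 y))
    ⟨nrm_mem_cone hx.1, norm_nrm (ne_zero_of_cone hx.1)⟩
    (mul_pos (mul_self_pos.2 (lt_max_of_lt_left (by linarith)).ne') βx)
  have e2 := II_const_mul (-1) fun y => U lam1 (pr hb) y * (max (-U lam1 (pr hb) y) 0 * β y)
  rw [II_congr (h := fun y => -1 * (U lam1 (pr hb) y * (max (-U lam1 (pr hb) y) 0 * β y)))
    fun y _ => by
      rcases le_total (-U lam1 (pr hb) y) 0 with d | d
      · simp [max_eq_right d]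
      · simp only [Pi.mul_apply, max_eq_left d]; ring] at q
  linarith

lemma int_bump_pos (k : ℕ) : 0 < ∫ s, sc s * bump 2 s * gm lam1 (jx k) s := by
  have cs := (bump_cs 2).mono L1_lt.le
  have l : -1 < L1 := by
    have := one_sub_inv_le_log_of_pos (show (0 : ℝ) < 73 / 100 by norm_num)
    rw [L1]; norm_num at this ⊢; linarith
  have g0 : ∀ s ≤ L0, 0 < gm lam1 (jx k) s := fun s hs =>
    lt_of_lt_of_le (by positivity) (gm_ge (jx_ge k) (exp_le_of_lt_L0 hs))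
  refine integral_pos_of_integrable_nonneg_nonzero (x := L1 - 1 / 2) (cs.cont_gm L0_neg.le _ _)
    (cs.integrable_gm L0_neg.le _ _) (fun s => ?_) ?_
  · rcases le_total s L0 with d | d
    · exact mul_nonneg (mul_nonneg (sc_pos s).le (le_max_left _ _)) (g0 s d).le
    · have : bump 2 s = 0 := max_eq_left ((min_le_right _ _).trans (by
        have := L1_lt
        norm_num; linarith))
      simp [this]
  · refine (mul_pos (mul_pos (sc_pos _) (lt_max_of_lt_right (lt_min ?_ ?_)))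
      (g0 _ (by linarith [L1_lt]))).ne' <;> norm_num <;> linarith

lemma II_glue_mode {b : ℕ → ℝ} (hb : Gr (73 / 100) b) {χ : ℝ → ℝ} (hχ : CS L1 χ) (k : ℕ) :
    II (fun x => glue lam1 (pr hb) x * mode χ (mu (jx k)) x) =
      2 * π / 3 * b k * ∫ s, sc s * χ s * gm lam1 (jx k) s := by
  rw [← II_U_mode lam1 rad73.pos rad73.le hb hχ k]
  refine II_congr fun x hx => ?_
  by_cases h : x ∈ Sec (73 / 100)
  · rw [glue0 h]
  · obtain ⟨-, a, c, hc, z⟩ := hχ
    rw [mode, z _ fun h' => h ?_]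
    · simp
    · rw [← XX_YY' hx]
      exact XX_mem_Sec' rad73.pos rad73.le (YY_mem_Tc hx).1
        ((lt_log_iff_exp_lt (by norm_num)).1 (h'.2.trans_lt hc))

/-- a symmetric eigenfunction for the first eigenvalue is determined by its first coefficient -/
theorem simple {c : ℕ → ℝ} (hc : Gr (73 / 100) c) (h : Compat lam1 (pr hc)) (h0 : c 0 = 0)
    (k : ℕ) : c k = 0 := by
  have hpi := pi_pos
  have w := h.se rad73 hc
  obtain ⟨p, hp, -, P⟩ := w.gs.exists_rep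
  obtain ⟨q, hq, -, Q⟩ := w.neg.gs.exists_rep
  have cs := bump_cs 2
  have cp : ∀ {u : E3 → ℝ}, SE lam1 u → Cb fun x => max (u x) 0 := fun hu =>
    hu.ce.cb.comp (P := fun t => max t 0) (by fun_prop)
  have e0 : p 0 = q 0 := by
    have a := II_glue_mode hc cs 0
    have a1 := P.coef 0 _ (cs.mono L1_lt.le)
    have a2 := Q.coef 0 _ (cs.mono L1_lt.le)
    rw [II_congr (h := fun x => max (glue lam1 (pr hc) x) 0 * mode (bump 2) (mu (jx 0)) x -
      max (-glue lam1 (pr hc) x) 0 * mode (bump 2) (mu (jx 0)) x) fun x _ => by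
        rw [← sub_mul, max_zero_sub_max_neg_zero_eq_self],
      II_sub ((cp w).mul (cs.cb _)) ((cp w.neg).mul (cs.cb _)), a1, a2, h0] at a
    have := int_bump_pos 0
    have : (2 * π / 3 * ∫ s, sc s * bump 2 s * gm lam1 (jx 0) s) * (p 0 - q 0) = 0 := by
      linarith
    exact sub_eq_zero.1 ((mul_eq_zero.1 this).resolve_left (by positivity))
  have id1 : ∀ {u : E3 → ℝ} (hu : SE lam1 u) {a : ℕ → ℝ} {ha : Gr (73 / 100) a},
      Rep (fun g => II fun x => max (u x) 0 * g x) ha → ∀ x ∈ Ts, x ∈ Sec (73 / 100) →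
        U lam1 (pr ha) x = max (u x) 0 := fun {u} hu a ha A x hx hS => by
    rw [← sub_eq_zero]
    refine eq_zero_of_test (D := fun x => U lam1 (pr ha) x - max (u x) 0) (isOpen_Sec _)
      (fun y hy => hy.1) (((contOn_U lam1 rad73 _).mono inter_subset_left).sub
        ((cp hu).1.mono inter_subset_right)) (fun g K hg hK KT KO z => ?_) hS hx
    obtain ⟨c1, e1⟩ := A.rep g K hg hK KT KO z
    simp only [sub_mul]
    rw [II_sub c1 ((cp hu).mul hg), ← e1, sub_self]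
  have z1 : ∀ {u : E3 → ℝ} (hu : SE lam1 u) {a : ℕ → ℝ} {ha : Gr (73 / 100) a},
      Rep (fun g => II fun x => max (u x) 0 * g x) ha → a 0 = 0 → ∀ x ∈ Ts, x ∈ Sec (73 / 100) →
        u x ≤ 0 := fun {u} hu a ha A a0 x hx hS => by
    obtain ⟨n, hn⟩ := (bump_ev hx hS).exists
    have e := A.coef 0 _ ((bump_cs n).mono L1_lt.le)
    have m : mu (jx 0) = 3 / 2 := by simp [mu_jx]
    rw [a0, m] at e
    by_contra hc'
    have := II_pos ((cp hu).mul ((bump_cs n).cb (3 / 2)))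
      (fun y hy => mul_nonneg (le_max_right _ _) (mode_nonneg (fun _ => le_max_left _ _) hy)) hx
      (mul_pos (lt_max_of_lt_left (not_le.1 hc')) (pos_of_mul_pos_left (α := ℝ) (b := n)
        (by linarith) (Nat.cast_nonneg n)))
    simp only [mul_zero, zero_mul] at e
    linarith
  by_cases hp0 : p 0 = 0
  · have a := II_glue_mode hc cs k
    rw [II_congr (h := fun _ => 0) fun x hx => ?_, II_zero] at a
    · have := int_bump_pos k
      have : (2 * π / 3 * ∫ s, sc s * bump 2 s * gm lam1 (jx k) s) * c k = 0 := by linarith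
      exact (mul_eq_zero.1 this).resolve_left (by positivity)
    · have : glue lam1 (pr hc) x = 0 := by
        refine rad73.ind (P := fun x => ‖x‖ = 1 → glue lam1 (pr hc) x = 0) (fun y hy n => ?_)
          (fun y hy a n => ?_) hx.1 hx.2
        · exact le_antisymm (z1 w P hp0 y ⟨hy.1, n⟩ hy)
            (neg_nonpos.1 (z1 w.neg Q (e0 ▸ hp0) y ⟨hy.1, n⟩ hy))
        · rw [← w.cyc y hy, a (by simpa using n)]
      rw [this, zero_mul]
  · obtain ⟨s, ⟨a1, a2⟩, -, a3⟩ := ((U_ne_zero lam1 rad73 hp hp0).and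
      (U_ne_zero lam1 rad73 hq (e0 ▸ hp0))).exists
    have T : XX (s, 0) ∈ Ts := ⟨a1.1, norm_XX _⟩
    rw [id1 w P _ T a1] at a2
    rw [id1 w.neg Q _ T a1] at a3
    rcases le_total (glue lam1 (pr hc) (XX (s, 0))) 0 with d | d
    · exact absurd (max_eq_right d) a2
    · exact absurd (max_eq_right (neg_nonpos.2 d)) a3

/-- the quartic operator on the coefficients of the symmetric modes -/
def d4 (lam : ℝ) (b : ℕ → ℝ) (k : ℕ) : ℝ :=
  (lam ^ 2 / 2 + (lam - 5 / 6) * mu (jx k) ^ 2 - 7 / 6 * mu (jx k) ^ 4) * b k +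
    -r2 / 12 * (4 * mu (jx k) - 6) *
      (pc lam (jx k - 1) * pc lam (jx k - 1 - 1) * pc lam (jx k - 1 - 1 - 1)) * b (k - 1) +
    r2 / 12 * (4 * mu (jx k) + 6) *
      (mu (jx k + 1) * mu (jx k + 1 + 1) * mu (jx k + 1 + 1 + 1)) * b (k + 1)

lemma D4_sqn (lam : ℝ) (b : ℕ → ℝ) : D4 (Lv lam) (sqn b) = sqn (d4 lam b) := by
  funext j
  rw [D4_Lv]
  by_cases hj : j ∈ range jx
  · obtain ⟨k, rfl⟩ := hj
    have e1 : jx k + 1 + 1 + 1 = jx (k + 1) := by simp only [jx]; push_cast; ring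
    have e2 : (4 * muC (jx k) - 6) * sqn b (jx k - 1 - 1 - 1) =
        (4 * muC (jx k) - 6) * b (k - 1) := by
      rcases k with _ | k
      · have : 4 * muC (jx 0) - 6 = 0 := by simp [muC, mu_jx]; norm_num
        rw [this, zero_mul, zero_mul]
      · rw [show jx (k + 1) - 1 - 1 - 1 = jx k by simp only [jx]; push_cast; ring, sqn_jx]; rfl
    rw [sqn_jx, sqn_jx, d4]
    conv_lhs => rw [e1, sqn_jx, ← e1]
    simp only [muC, pcC, s2_eq] at e2 ⊢
    push_cast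
    linear_combination (-(r2 : ℂ) / 12 *
      (pc lam (jx k - 1) * pc lam (jx k - 1 - 1) * pc lam (jx k - 1 - 1 - 1))) * e2
  · rw [sqn_zero _ hj, sqn_zero _ hj, sqn_zero b (j := j - 1 - 1 - 1)
      fun ⟨k, hk⟩ => hj ⟨k + 1, by simp only [jx] at hk ⊢; push_cast; omega⟩]
    by_cases h2 : j = -2
    · have : 4 * muC j + 6 = 0 := by subst h2; simp [muC, mu]; norm_num
      rw [this]; simp
    · rw [sqn_zero b (j := j + 1 + 1 + 1)
        fun ⟨k, hk⟩ => hj ⟨k - 1, by simp only [jx] at hk ⊢; omega⟩]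
      simp

lemma Gr.d4 (lam : ℝ) {r : ℝ} {b : ℕ → ℝ} (hb : Gr r b) : Gr r (d4 lam b) := by
  refine gr_of_good ?_
  rw [← D4_sqn, ← D4_LG_coe lam r ⟨sqn b, hb.good⟩]
  exact Subtype.property _

lemma D4_pr (lam : ℝ) {r : ℝ} {b : ℕ → ℝ} (hb : Gr r b) :
    D4 (LL lam r) (pr hb) = pr (hb.d4 lam) := by
  rw [D4_LL]
  exact Prod.ext (Subtype.ext ((D4_LG_coe _ _ _).trans (D4_sqn lam b)))
    (Subtype.ext ((D4_LG_coe _ _ _).trans (D4_sqn lam b)))

lemma sqn_comb (a b : ℕ → ℝ) (c : ℝ) :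
    sqn (fun k => a k - c * b k) = sqn a - (c : ℂ) • sqn b := by
  funext j
  simp only [sqn, Pi.sub_apply, Pi.smul_apply]
  split_ifs <;> simp

lemma D4_eig {lam r h : ℝ} {b : ℕ → ℝ} (hb : Gr r b) (e : ∀ k, d4 lam b k = h * b k) :
    D4 (LL lam r) (pr hb) = (h : ℂ) • pr hb := by
  have : sqn (d4 lam b) = (h : ℂ) • sqn b := by
    funext j
    simp only [sqn, Pi.smul_apply, e]
    split_ifs <;> simp
  rw [D4_pr]
  exact Prod.ext (Subtype.ext this) (Subtype.ext this)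

/-- the ground state -/
theorem ground : ∃ (b : ℕ → ℝ) (hb : Gr (73 / 100) b) (h : ℝ), b 0 ≠ 0 ∧
    (∃ C, ∀ k, |b k| * (73 / 100) ^ (3 * k + 1) ≤ C) ∧ Compat lam1 (pr hb) ∧
    (∀ k, d4 lam1 b k = h * b k) ∧ ∀ x ∈ Sec (73 / 100), 0 ≤ U lam1 (pr hb) x := by
  obtain ⟨Λ, hΛ, n, hn⟩ := exists_GS
  obtain ⟨b, hb, hC, H⟩ := hΛ.exists_rep
  have b0 : b 0 ≠ 0 := fun z => by
    have e := H.coef 0 _ ((bump_cs n).mono L1_lt.le)
    have m : mu (jx 0) = 3 / 2 := by simp [mu_jx]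
    rw [z, m] at e
    simp only [mul_zero, zero_mul] at e
    linarith
  have cp := H.compat hΛ
  refine ⟨b, hb, d4 lam1 b 0 / b 0, b0, hC, cp, fun k => ?_, fun x hx => H.nonneg hΛ hx⟩
  have hc : Gr (73 / 100) fun k => d4 lam1 b k - d4 lam1 b 0 / b 0 * b k := by
    refine gr_of_good ?_
    rw [sqn_comb]
    exact (Good _).sub_mem (hb.d4 lam1).good ((Good _).smul_mem _ hb.good)
  have e : pr hc = D4 (LL lam1 _) (pr hb) - ((d4 lam1 b 0 / b 0 : ℝ) : ℂ) • pr hb := by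
    rw [D4_pr]
    exact Prod.ext (Subtype.ext (sqn_comb _ _ _)) (Subtype.ext (sqn_comb _ _ _))
  exact sub_eq_zero.1 (simple hc (e ▸ (cp.d4 rad73).comb rad73 cp _) (by field_simp; ring) k)

end Pool.Agent.MP_c4844d_an
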