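import Mathlib.Topology.Sheaves.Presheaf
import Mathlib.Data.Int.Star
import Mathlib.Algebra.Order.Ring.Star
import Mathlib.Algebra.Order.Star.Real
import Mathlib.Analysis.CStarAlgebra.Classes
import Mathlib.Analysis.Calculus.SmoothSeries
import Mathlib.Analysis.Complex.LocallyUniformLimit
import Mathlib.Order.Interval.Finset.Box
import Mathlib.RingTheory.PiTensorProduct
import Pool.Agent.MP_c4844d_an.Defs

-- ======== part 0: formerly Pool.Agent.MP_c4844d_an.Hyp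
section MrgPart0

noncomputable section

open Filter Topology

namespace Pool.Agent.MP_c4844d_an

lemma hs_congr {ι M : Type*} [AddCommMonoid M] [TopologicalSpace M] {f g : ι → M} {a : M}
    (h : HasSum f a) (e : ∀ n, g n = f n) : HasSum g a := by
  rwa [show g = f from funext e]

/-- half-integers -/
def mu (j : ℤ) : ℝ := (j : ℝ) + 1 / 2

lemma mu_add_one (j : ℤ) : mu (j + 1) = mu j + 1 := by simp [mu]; ring
lemma mu_sub_one (j : ℤ) : mu (j - 1) = mu j - 1 := by simp [mu]; ring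

lemma mu_add_int_ne (j k : ℤ) : (k : ℝ) + mu j ≠ 0 := by
  intro h
  have h2 : ((2 * (k + j) + 1 : ℤ) : ℝ) = 0 := by
    push_cast; unfold mu at h; linarith
  have h3 : (2 * (k + j) + 1 : ℤ) = 0 := by exact_mod_cast h2
  omega

lemma mu_ne (j : ℤ) : mu j ≠ 0 := by simpa using mu_add_int_ne j 0
lemma mu_one_ne (j : ℤ) : mu j + 1 ≠ 0 := by
  have := mu_add_int_ne j 1
  intro h; apply this; push_cast; linarith
lemma nat_mu_ne (j : ℤ) (n : ℕ) : (n : ℝ) + mu j ≠ 0 := by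
  simpa using mu_add_int_ne j n
lemma nat_one_mu_ne (j : ℤ) (n : ℕ) : (n : ℝ) + 1 + mu j ≠ 0 := by
  have := mu_add_int_ne j (n + 1)
  push_cast at this; exact this

@[simp] lemma hc_zero (lam m : ℝ) : hc lam m 0 = 1 := by simp [hc]

lemma hc_succ (lam m : ℝ) (n : ℕ) :
    hc lam m (n + 1) = hc lam m n * (((n : ℝ) * (n + 1) - lam) / ((n + 1) * (n + 1 + m))) := by
  rw [hc, hc, Finset.prod_range_succ]

lemma summable_hc (lam m : ℝ) : Summable fun n : ℕ => |hc lam m n| * (3 / 4 : ℝ) ^ n := by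
  refine summable_of_ratio_norm_eventually_le (r := 7 / 8) (by norm_num) ?_
  obtain ⟨N, hN⟩ := exists_nat_ge (7 * |m| + 6 * |lam|)
  filter_upwards [eventually_ge_atTop N] with n hn
  have hn' : (N : ℝ) ≤ n := by exact_mod_cast hn
  have hm := abs_nonneg m
  have hl := abs_nonneg lam
  have hm2 := neg_abs_le m
  have hn0 : (0 : ℝ) ≤ n := Nat.cast_nonneg n
  have hpos : (0 : ℝ) < (n + 1) * (n + 1 + m) := by
    apply mul_pos <;> linarith
  have hr : |((n : ℝ) * (n + 1) - lam) / ((n + 1) * (n + 1 + m))| ≤ 7 / 6 := by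
    rw [abs_div, abs_of_pos hpos, div_le_iff₀ hpos]
    have h1 : |(n : ℝ) * (n + 1) - lam| ≤ n * (n + 1) + |lam| := by
      refine (abs_sub _ _).trans ?_
      rw [abs_of_nonneg (by positivity)]
    have h2 : 6 * |lam| ≤ ((n : ℝ) + 1) * (n + 7 + 7 * m) := by
      have : 6 * |lam| ≤ (n : ℝ) + 7 + 7 * m := by linarith
      nlinarith
    nlinarith
  rw [Real.norm_of_nonneg (by positivity), Real.norm_of_nonneg (by positivity),
    hc_succ, abs_mul, pow_succ]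
  have h3 : 0 ≤ |hc lam m n| * (3 / 4 : ℝ) ^ n := by positivity
  nlinarith

/-- a bound for the series on the disc of radius 3/4 -/
def hB (lam m : ℝ) : ℝ := ∑' n : ℕ, |hc lam m n| * (3 / 4 : ℝ) ^ n

lemma hB_nonneg (lam m : ℝ) : 0 ≤ hB lam m := tsum_nonneg fun n => by positivity

lemma abs_hc_le (lam : ℝ) {m : ℝ} (hm : 0 ≤ m) (n : ℕ) :
    |hc lam m n| ≤ Real.exp (|lam| * (2 - 2 / (n + 1))) := by
  induction n with
  | zero => simp
  | succ n ih =>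
    have hn0 : (0 : ℝ) ≤ n := Nat.cast_nonneg n
    have hl := abs_nonneg lam
    have hpos : (0 : ℝ) < (n + 1) * (n + 1 + m) := by positivity
    have hr : |((n : ℝ) * (n + 1) - lam) / ((n + 1) * (n + 1 + m))| ≤
        Real.exp (|lam| * (2 / (n + 1) - 2 / (n + 1 + 1))) := by
      refine le_trans ?_ (Real.add_one_le_exp _)
      rw [abs_div, abs_of_pos hpos, div_le_iff₀ hpos]
      have h1 : |(n : ℝ) * (n + 1) - lam| ≤ n * (n + 1) + |lam| := by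
        refine (abs_sub _ _).trans ?_
        rw [abs_of_nonneg (by positivity)]
      have h2 : (2 / ((n : ℝ) + 1) - 2 / (n + 1 + 1)) = 2 / ((n + 1) * (n + 2)) := by
        field_simp; ring
      rw [h2]
      have h3 : (1 : ℝ) ≤ 2 / ((n + 1) * (n + 2)) * ((n + 1) * (n + 1 + m)) := by
        rw [div_mul_eq_mul_div, le_div_iff₀ (by positivity)]
        nlinarith
      have h4 : |lam| ≤ |lam| * (2 / (((n : ℝ) + 1) * (n + 2)) * ((n + 1) * (n + 1 + m))) :=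
        le_mul_of_one_le_right hl h3
      nlinarith
    rw [hc_succ, abs_mul]
    refine (mul_le_mul ih hr (abs_nonneg _) (Real.exp_pos _).le).trans ?_
    rw [← Real.exp_add]
    apply le_of_eq; congr 1; push_cast; ring

lemma hB_le (lam : ℝ) {m : ℝ} (hm : 0 ≤ m) : hB lam m ≤ 4 * Real.exp (2 * |lam|) := by
  have h1 : ∀ n : ℕ, |hc lam m n| * (3 / 4 : ℝ) ^ n ≤ Real.exp (2 * |lam|) * (3 / 4 : ℝ) ^ n := by
    intro n
    refine mul_le_mul_of_nonneg_right ((abs_hc_le lam hm n).trans ?_) (by positivity)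
    apply Real.exp_le_exp.2
    have : (0 : ℝ) ≤ 2 / (n + 1) := by positivity
    have := abs_nonneg lam
    nlinarith
  have h2 : HasSum (fun n : ℕ => Real.exp (2 * |lam|) * (3 / 4 : ℝ) ^ n)
      (Real.exp (2 * |lam|) * (1 - 3 / 4)⁻¹) :=
    (hasSum_geometric_of_lt_one (by norm_num) (by norm_num)).mul_left _
  refine (hasSum_le h1 (summable_hc lam m).hasSum h2).trans (le_of_eq ?_)
  norm_num; ring

/-- the complex series -/
def hypC (lam m : ℝ) (z : ℂ) : ℂ := ∑' n : ℕ, (hc lam m n : ℂ) * z ^ n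

lemma term_le (lam m : ℝ) {z : ℂ} (hz : ‖z‖ ≤ 3 / 4) (n : ℕ) :
    ‖(hc lam m n : ℂ) * z ^ n‖ ≤ |hc lam m n| * (3 / 4 : ℝ) ^ n := by
  rw [norm_mul, norm_pow, Complex.norm_real, Real.norm_eq_abs]
  gcongr

lemma hasSum_hypC (lam m : ℝ) {z : ℂ} (hz : ‖z‖ ≤ 3 / 4) :
    HasSum (fun n : ℕ => (hc lam m n : ℂ) * z ^ n) (hypC lam m z) :=
  (Summable.of_norm_bounded (summable_hc lam m) (term_le lam m hz)).hasSum

lemma norm_hypC_le (lam m : ℝ) {z : ℂ} (hz : ‖z‖ ≤ 3 / 4) : ‖hypC lam m z‖ ≤ hB lam m :=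
  tsum_of_norm_bounded (summable_hc lam m).hasSum (term_le lam m hz)

lemma hypC_ofReal (lam m x : ℝ) : hypC lam m (x : ℂ) = (hyp lam m x : ℂ) := by
  simp [hypC, hyp, Complex.ofReal_tsum]

lemma abs_hyp_le (lam m : ℝ) {x : ℝ} (hx : |x| ≤ 3 / 4) : |hyp lam m x| ≤ hB lam m := by
  have := norm_hypC_le lam m (z := (x : ℂ)) (by simpa using hx)
  rwa [hypC_ofReal, Complex.norm_real] at this

lemma differentiableOn_hypC (lam m : ℝ) :
    DifferentiableOn ℂ (hypC lam m) (Metric.ball 0 (3 / 4)) :=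
  Complex.differentiableOn_tsum_of_summable_norm (summable_hc lam m)
    (fun n => by fun_prop) Metric.isOpen_ball
    (fun n w hw => term_le lam m (le_of_lt (by simpa using hw)) n)

lemma hasDerivAt_hypC (lam m : ℝ) {z : ℂ} (hz : ‖z‖ < 3 / 4) :
    HasDerivAt (hypC lam m) (deriv (hypC lam m) z) z :=
  ((differentiableOn_hypC lam m).differentiableAt
    (Metric.isOpen_ball.mem_nhds (by simpa using hz))).hasDerivAt

lemma hasSum_deriv_hypC (lam m : ℝ) {z : ℂ} (hz : ‖z‖ < 3 / 4) :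
    HasSum (fun n : ℕ => (hc lam m n : ℂ) * (n * z ^ (n - 1))) (deriv (hypC lam m) z) := by
  have h := Complex.hasSum_deriv_of_summable_norm (summable_hc lam m)
    (F := fun n w => (hc lam m n : ℂ) * w ^ n) (U := Metric.ball 0 (3 / 4))
    (fun n => by fun_prop) Metric.isOpen_ball
    (fun n w hw => term_le lam m (le_of_lt (by simpa using hw)) n) (z := z) (by simpa using hz)
  exact hs_congr h fun n => ((hasDerivAt_pow n z).const_mul _).deriv.symm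

lemma hasSum_mul_deriv (lam m : ℝ) {z : ℂ} (hz : ‖z‖ < 3 / 4) :
    HasSum (fun n : ℕ => (hc lam m n : ℂ) * n * z ^ n) (z * deriv (hypC lam m) z) := by
  refine hs_congr ((hasSum_deriv_hypC lam m hz).mul_left z) fun n => ?_
  rcases n with _ | n
  · simp
  · simp [pow_succ]; ring

lemma hasSum_deriv_shift (lam m : ℝ) {z : ℂ} (hz : ‖z‖ < 3 / 4) :
    HasSum (fun n : ℕ => (hc lam m (n + 1) : ℂ) * (n + 1) * z ^ n) (deriv (hypC lam m) z) := by
  have h := (hasSum_nat_add_iff' 1).2 (hasSum_deriv_hypC lam m hz)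
  simp only [Finset.range_one, Finset.sum_singleton, Nat.cast_zero, zero_mul, mul_zero,
    sub_zero, Nat.add_sub_cancel] at h
  refine hs_congr h fun n => ?_
  push_cast; ring

lemma hc_lower (lam : ℝ) (j : ℤ) (n : ℕ) :
    (mu j + n) * hc lam (mu j) n = mu j * hc lam (mu j - 1) n := by
  induction n with
  | zero => simp
  | succ n ih =>
    have h1 := nat_one_mu_ne j n
    have h2 := nat_mu_ne j n
    have h3 : (n : ℝ) + 1 ≠ 0 := by positivity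
    have h4 : (n : ℝ) + 1 + (mu j - 1) = n + mu j := by ring
    rw [hc_succ, hc_succ, ← mul_assoc (mu j), ← ih, h4]
    push_cast
    field_simp
    ring

/-- raising coefficient -/
def pc (lam : ℝ) (j : ℤ) : ℝ := (mu j * (mu j + 1) - lam) / (mu j + 1)

lemma hc_raise (lam : ℝ) (j : ℤ) (n : ℕ) :
    (mu j - n) * hc lam (mu j) n + hc lam (mu j) (n + 1) * (n + 1) =
      pc lam j * hc lam (mu j + 1) n := by
  have h := hc_lower lam (j + 1) n
  rw [mu_add_one, add_sub_cancel_right] at h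
  have h1 := nat_one_mu_ne j n
  have h2 := mu_one_ne j
  have h3 : (n : ℝ) + 1 ≠ 0 := by positivity
  have h5 : hc lam (mu j + 1) n = (mu j + 1) * hc lam (mu j) n / (n + 1 + mu j) := by
    rw [eq_div_iff h1, ← h]; ring
  rw [h5, hc_succ, pc]
  field_simp
  ring

lemma hypC_lower (lam : ℝ) (j : ℤ) {z : ℂ} (hz : ‖z‖ < 3 / 4) :
    (mu j : ℂ) * hypC lam (mu j) z + z * deriv (hypC lam (mu j)) z =
      (mu j : ℂ) * hypC lam (mu (j - 1)) z := by
  have h1 := ((hasSum_hypC lam (mu j) hz.le).mul_left (mu j : ℂ)).add (hasSum_mul_deriv lam (mu j) hz)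
  have h2 := (hasSum_hypC lam (mu (j - 1)) hz.le).mul_left (mu j : ℂ)
  refine h1.unique (hs_congr h2 fun n => ?_)
  have := congrArg (fun x : ℝ => (x : ℂ)) (hc_lower lam j n)
  rw [mu_sub_one]
  push_cast at this ⊢
  linear_combination z ^ n * this

lemma hypC_raise (lam : ℝ) (j : ℤ) {z : ℂ} (hz : ‖z‖ < 3 / 4) :
    (mu j : ℂ) * hypC lam (mu j) z + (1 - z) * deriv (hypC lam (mu j)) z =
      (pc lam j : ℂ) * hypC lam (mu (j + 1)) z := by
  have h1 := (((hasSum_hypC lam (mu j) hz.le).mul_left (mu j : ℂ)).sub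
    (hasSum_mul_deriv lam (mu j) hz)).add (hasSum_deriv_shift lam (mu j) hz)
  have h2 := (hasSum_hypC lam (mu (j + 1)) hz.le).mul_left (pc lam j : ℂ)
  have h3 := h1.unique (hs_congr h2 fun n => by
    have := congrArg (fun x : ℝ => (x : ℂ)) (hc_raise lam j n)
    rw [mu_add_one]
    push_cast at this ⊢
    linear_combination z ^ n * this)
  linear_combination h3

end Pool.Agent.MP_c4844d_an

end
end MrgPart0

-- ======== part 1: formerly Pool.Agent.MP_c4844d_an.Seq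
section MrgPart1

noncomputable section

open Filter Topology

namespace Pool.Agent.MP_c4844d_an

/-- diagonal operator on sequences -/
def opD (w : ℤ → ℂ) : (ℤ → ℂ) →ₗ[ℂ] (ℤ → ℂ) where
  toFun a j := w j * a j
  map_add' a b := by ext j; simp; ring
  map_smul' c a := by ext j; simp; ring

/-- raising operator on sequences -/
def opU (u : ℤ → ℂ) : (ℤ → ℂ) →ₗ[ℂ] (ℤ → ℂ) where
  toFun a j := u (j - 1) * a (j - 1)
  map_add' a b := by ext j; simp; ring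
  map_smul' c a := by ext j; simp; ring

/-- lowering operator on sequences -/
def opV (v : ℤ → ℂ) : (ℤ → ℂ) →ₗ[ℂ] (ℤ → ℂ) where
  toFun a j := v (j + 1) * a (j + 1)
  map_add' a b := by ext j; simp; ring
  map_smul' c a := by ext j; simp; ring

@[simp] lemma opD_apply (w a : ℤ → ℂ) (j : ℤ) : opD w a j = w j * a j := rfl
@[simp] lemma opU_apply (u a : ℤ → ℂ) (j : ℤ) : opU u a j = u (j - 1) * a (j - 1) := rfl
@[simp] lemma opV_apply (v a : ℤ → ℂ) (j : ℤ) : opV v a j = v (j + 1) * a (j + 1) := rfl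

/-- sequences with finitely many negative terms and radius of convergence at least `r` -/
def Good (r : ℝ) : Submodule ℂ (ℤ → ℂ) where
  carrier := {a | (∃ N : ℕ, ∀ n : ℕ, N ≤ n → a (-n) = 0) ∧
    ∀ ρ : ℝ, 0 < ρ → ρ < r → Summable fun n : ℕ => ‖a n‖ * ρ ^ n}
  zero_mem' := ⟨⟨0, fun _ _ => rfl⟩, fun ρ _ _ => by simp⟩
  add_mem' := by
    rintro a b ⟨⟨N, hN⟩, ha⟩ ⟨⟨M, hM⟩, hb⟩
    refine ⟨⟨max N M, fun n hn => ?_⟩, fun ρ h0 h1 => ?_⟩
    · simp [hN n (le_of_max_le_left hn), hM n (le_of_max_le_right hn)]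
    · refine Summable.of_nonneg_of_le (fun n => by positivity) (fun n => ?_)
        ((ha ρ h0 h1).add (hb ρ h0 h1))
      rw [← add_mul]
      exact mul_le_mul_of_nonneg_right (norm_add_le _ _) (by positivity)
  smul_mem' := by
    rintro c a ⟨⟨N, hN⟩, ha⟩
    refine ⟨⟨N, fun n hn => by simp [hN n hn]⟩, fun ρ h0 h1 => ?_⟩
    simpa [mul_assoc] using (ha ρ h0 h1).mul_left ‖c‖

lemma good_mul {r : ℝ} {a : ℤ → ℂ} (ha : a ∈ Good r) {c : ℤ → ℂ} {K : ℝ}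
    (hc : ∀ n : ℕ, ‖c n‖ ≤ K * (n + 1)) : (fun j => c j * a j) ∈ Good r := by
  obtain ⟨⟨N, hN⟩, ha⟩ := ha
  refine ⟨⟨N, fun n hn => by simp [hN n hn]⟩, fun ρ h0 h1 => ?_⟩
  obtain ⟨ρ', h2, h3⟩ := exists_between h1
  have hρ' : 0 < ρ' := h0.trans h2
  have hq : ρ / ρ' < 1 := (div_lt_one hρ').2 h2
  have hq0 : 0 ≤ ρ / ρ' := by positivity
  have ht : Tendsto (fun n : ℕ => ((n : ℝ) + 1) * (ρ / ρ') ^ n) atTop (𝓝 0) := by
    have := (tendsto_self_mul_const_pow_of_lt_one hq0 hq).add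
      (tendsto_pow_atTop_nhds_zero_of_lt_one hq0 hq)
    simpa [add_mul] using this
  obtain ⟨B, hB⟩ := ht.bddAbove_range
  have hB' : ∀ n : ℕ, ((n : ℝ) + 1) * (ρ / ρ') ^ n ≤ B := fun n => hB ⟨n, rfl⟩
  have hK : 0 ≤ K := by
    have := (norm_nonneg _).trans (hc 0); simpa using this
  refine Summable.of_nonneg_of_le (fun n => by positivity) (fun n => ?_)
    ((ha ρ' hρ' h3).mul_left (K * B))
  have e : ρ ^ n = (ρ / ρ') ^ n * ρ' ^ n := by rw [← mul_pow]; congr 1; field_simp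
  rw [norm_mul, e]
  calc ‖c n‖ * ‖a n‖ * ((ρ / ρ') ^ n * ρ' ^ n)
      ≤ K * (n + 1) * ‖a n‖ * ((ρ / ρ') ^ n * ρ' ^ n) := by gcongr; exact hc n
    _ = K * ((n + 1) * (ρ / ρ') ^ n) * (‖a n‖ * ρ' ^ n) := by ring
    _ ≤ K * B * (‖a n‖ * ρ' ^ n) := by gcongr; exact hB' n

lemma good_shift_add {r : ℝ} {a : ℤ → ℂ} (ha : a ∈ Good r) : (fun j => a (j + 1)) ∈ Good r := by
  obtain ⟨⟨N, hN⟩, ha⟩ := ha
  refine ⟨⟨N + 1, fun n hn => ?_⟩, fun ρ h0 h1 => ?_⟩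
  · have := hN (n - 1) (by omega)
    have e : -(n : ℤ) + 1 = -((n - 1 : ℕ) : ℤ) := by omega
    show a (-(n : ℤ) + 1) = 0
    rw [e, this]
  · have := ((summable_nat_add_iff 1).2 (ha ρ h0 h1)).mul_left ρ⁻¹
    refine this.congr fun n => ?_
    push_cast; rw [pow_succ]; field_simp

lemma good_shift_sub {r : ℝ} {a : ℤ → ℂ} (ha : a ∈ Good r) : (fun j => a (j - 1)) ∈ Good r := by
  obtain ⟨⟨N, hN⟩, ha⟩ := ha
  refine ⟨⟨N, fun n hn => ?_⟩, fun ρ h0 h1 => ?_⟩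
  · have := hN (n + 1) (by omega)
    have e : -(n : ℤ) - 1 = -((n + 1 : ℕ) : ℤ) := by omega
    show a (-(n : ℤ) - 1) = 0
    rw [e, this]
  · rw [← summable_nat_add_iff 1]
    refine ((ha ρ h0 h1).mul_left ρ).congr fun n => ?_
    push_cast; rw [pow_succ, add_sub_cancel_right]; ring

/-- the weights as complex numbers -/
def muC (j : ℤ) : ℂ := (mu j : ℝ)
/-- the raising coefficients as complex numbers -/
def pcC (lam : ℝ) (j : ℤ) : ℂ := (pc lam j : ℝ)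

lemma norm_muC_le (n : ℕ) : ‖muC n‖ ≤ 1 * (n + 1) := by
  rw [muC, Complex.norm_real, mu, Real.norm_of_nonneg (by positivity)]
  push_cast; linarith

lemma norm_pcC_le (lam : ℝ) (n : ℕ) : ‖pcC lam n‖ ≤ (1 + |lam|) * (n + 1) := by
  have hn : (0 : ℝ) ≤ n := Nat.cast_nonneg n
  have hl := abs_nonneg lam
  have hm : mu n = n + 1 / 2 := by simp [mu]
  rw [pcC, Complex.norm_real, pc, Real.norm_eq_abs, abs_div, hm,
    abs_of_pos (by positivity : (0 : ℝ) < n + 1 / 2 + 1), div_le_iff₀ (by positivity)]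
  refine (abs_sub _ _).trans ?_
  rw [abs_of_nonneg (by positivity)]
  nlinarith [mul_nonneg hl hn, mul_nonneg (mul_nonneg hl hn) hn]

/-- weight operator -/
def A3 : (ℤ → ℂ) →ₗ[ℂ] (ℤ → ℂ) := opD muC
/-- raising operator -/
def Ap (lam : ℝ) : (ℤ → ℂ) →ₗ[ℂ] (ℤ → ℂ) := opU (pcC lam)
/-- lowering operator -/
def Am : (ℤ → ℂ) →ₗ[ℂ] (ℤ → ℂ) := opV muC

lemma good_A3 {r : ℝ} {a : ℤ → ℂ} (ha : a ∈ Good r) : A3 a ∈ Good r := good_mul ha norm_muC_le
lemma good_Ap (lam : ℝ) {r : ℝ} {a : ℤ → ℂ} (ha : a ∈ Good r) : Ap lam a ∈ Good r :=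
  good_shift_sub (good_mul ha (norm_pcC_le lam))
lemma good_Am {r : ℝ} {a : ℤ → ℂ} (ha : a ∈ Good r) : Am a ∈ Good r :=
  good_shift_add (good_mul ha norm_muC_le)

lemma Good.summable {r : ℝ} {a : ℤ → ℂ} (ha : a ∈ Good r) {ρ C : ℝ} (h0 : 0 < ρ) (h1 : ρ < r)
    {w : ℤ → ℝ} (hw : ∀ n : ℕ, |w n| ≤ C * ρ ^ n) : Summable fun j => ‖a j‖ * w j := by
  obtain ⟨⟨N, hN⟩, ha⟩ := ha
  refine Summable.of_nat_of_neg ?_ ?_
  · refine Summable.of_norm_bounded ((ha ρ h0 h1).mul_left C) fun n => ?_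
    rw [norm_mul, norm_norm, Real.norm_eq_abs]
    calc ‖a n‖ * |w n| ≤ ‖a n‖ * (C * ρ ^ n) := by gcongr; exact hw n
      _ = _ := by ring
  · refine summable_of_ne_finset_zero (s := Finset.range N) fun n hn => ?_
    simp [hN n (by simpa using hn)]

/-- the modes -/
def md (lam : ℝ) (j : ℤ) (p : ℂ × ℂ) : ℂ := p.1 ^ muC j * hypC lam (mu j) p.2

/-- a bound for the modes -/
def wt (lam δ ρ : ℝ) (j : ℤ) : ℝ :=
  if 0 ≤ j then 4 * Real.exp (2 * |lam|) * ρ ^ j.toNat else δ ^ mu j * hB lam (mu j)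

lemma wt_nat (lam δ : ℝ) {ρ : ℝ} (h : 0 ≤ ρ) (n : ℕ) :
    |wt lam δ ρ n| ≤ 4 * Real.exp (2 * |lam|) * ρ ^ n := by
  simp only [wt, Nat.cast_nonneg, if_true, Int.toNat_natCast]
  rw [abs_of_nonneg (by positivity)]

lemma norm_md_le (lam : ℝ) {δ ρ : ℝ} (hδ : 0 < δ) (hρ : ρ ≤ 1) {p : ℂ × ℂ} (h1 : δ ≤ ‖p.1‖)
    (h2 : ‖p.1‖ ≤ ρ) (h3 : ‖p.2‖ ≤ 3 / 4) (j : ℤ) : ‖md lam j p‖ ≤ wt lam δ ρ j := by
  have hp : 0 < ‖p.1‖ := hδ.trans_le h1
  rw [md, norm_mul, muC, Complex.norm_cpow_real, wt]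
  split_ifs with hj
  · obtain ⟨n, rfl⟩ := Int.eq_ofNat_of_zero_le hj
    have hm : mu n = n + 1 / 2 := by simp [mu]
    rw [mul_comm]
    refine mul_le_mul ((norm_hypC_le _ _ h3).trans (hB_le lam (by rw [hm]; positivity))) ?_
      (by positivity) (by positivity)
    rw [Int.toNat_natCast, ← Real.rpow_natCast]
    calc ‖p.1‖ ^ mu n ≤ ‖p.1‖ ^ (n : ℝ) :=
          Real.rpow_le_rpow_of_exponent_ge hp (h2.trans hρ) (by rw [hm]; linarith)
      _ ≤ ρ ^ (n : ℝ) := Real.rpow_le_rpow hp.le h2 (Nat.cast_nonneg n)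
  · have hm : mu j ≤ 0 := by
      have : (j : ℝ) ≤ -1 := by exact_mod_cast (show j ≤ -1 by omega)
      unfold mu; linarith
    exact mul_le_mul (Real.rpow_le_rpow_of_nonpos hδ h1 hm) (norm_hypC_le _ _ h3)
      (norm_nonneg _) (by positivity)

/-- the domain of convergence -/
def Dom (r : ℝ) : Set (ℂ × ℂ) := {p | p.1 ∈ Complex.slitPlane ∧ ‖p.1‖ < r ∧ ‖p.2‖ < 1 / 2}

lemma isOpen_Dom (r : ℝ) : IsOpen (Dom r) :=
  (Complex.isOpen_slitPlane.preimage continuous_fst).inter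
    ((isOpen_lt continuous_fst.norm continuous_const).inter
      (isOpen_lt continuous_snd.norm continuous_const))

/-- the sum of a series of modes -/
def Phi (lam : ℝ) (a : ℤ → ℂ) (p : ℂ × ℂ) : ℂ := ∑' j, a j * md lam j p

lemma summable_md (lam : ℝ) {r : ℝ} (hr : r ≤ 1) {a : ℤ → ℂ} (ha : a ∈ Good r) {p : ℂ × ℂ}
    (hp : p ∈ Dom r) : Summable fun j => a j * md lam j p := by
  obtain ⟨h1, h2, h3⟩ := hp
  have h0 : 0 < ‖p.1‖ := norm_pos_iff.2 (Complex.slitPlane_ne_zero h1)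
  refine Summable.of_norm_bounded (Good.summable ha h0 h2 (wt_nat lam ‖p.1‖ h0.le)) fun j => ?_
  rw [norm_mul]
  exact mul_le_mul_of_nonneg_left
    (norm_md_le lam h0 (h2.le.trans hr) le_rfl le_rfl (by linarith) j) (norm_nonneg _)

lemma hasSum_Phi (lam : ℝ) {r : ℝ} (hr : r ≤ 1) {a : ℤ → ℂ} (ha : a ∈ Good r) {p : ℂ × ℂ}
    (hp : p ∈ Dom r) : HasSum (fun j => a j * md lam j p) (Phi lam a p) :=
  (summable_md lam hr ha hp).hasSum

lemma Phi_add (lam : ℝ) {r : ℝ} (hr : r ≤ 1) {a b : ℤ → ℂ} (ha : a ∈ Good r) (hb : b ∈ Good r)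
    {p : ℂ × ℂ} (hp : p ∈ Dom r) : Phi lam (a + b) p = Phi lam a p + Phi lam b p := by
  refine HasSum.tsum_eq (hs_congr ((hasSum_Phi lam hr ha hp).add (hasSum_Phi lam hr hb hp)) ?_)
  intro j; simp; ring

lemma Phi_smul (lam : ℝ) (c : ℂ) (a : ℤ → ℂ) (p : ℂ × ℂ) :
    Phi lam (c • a) p = c * Phi lam a p := by
  simp only [Phi, Pi.smul_apply, smul_eq_mul, mul_assoc, tsum_mul_left]

lemma hasSum_Ap (lam : ℝ) {r : ℝ} (hr : r ≤ 1) {a : ℤ → ℂ} (ha : a ∈ Good r) {p : ℂ × ℂ}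
    (hp : p ∈ Dom r) :
    HasSum (fun j => a j * (pcC lam j * md lam (j + 1) p)) (Phi lam (Ap lam a) p) := by
  have h := ((Equiv.addRight (1 : ℤ)).hasSum_iff).2 (hasSum_Phi lam hr (good_Ap lam ha) hp)
  refine hs_congr h fun j => ?_
  simp [Ap]; ring

lemma hasSum_Am (lam : ℝ) {r : ℝ} (hr : r ≤ 1) {a : ℤ → ℂ} (ha : a ∈ Good r) {p : ℂ × ℂ}
    (hp : p ∈ Dom r) :
    HasSum (fun j => a j * (muC j * md lam (j - 1) p)) (Phi lam (Am a) p) := by
  have h := ((Equiv.subRight (1 : ℤ)).hasSum_iff).2 (hasSum_Phi lam hr (good_Am ha) hp)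
  refine hs_congr h fun j => ?_
  simp [Am]; ring

lemma hasSum_A3 (lam : ℝ) {r : ℝ} (hr : r ≤ 1) {a : ℤ → ℂ} (ha : a ∈ Good r) {p : ℂ × ℂ}
    (hp : p ∈ Dom r) :
    HasSum (fun j => a j * (muC j * md lam j p)) (Phi lam (A3 a) p) := by
  refine hs_congr (hasSum_Phi lam hr (good_A3 ha) hp) fun j => ?_
  simp [A3]; ring

lemma muC_add_one (j : ℤ) : muC (j + 1) = muC j + 1 := by simp [muC, mu_add_one]
lemma muC_sub_one (j : ℤ) : muC (j - 1) = muC j - 1 := by simp [muC, mu_sub_one]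

lemma one_sub_ne {σ : ℂ} (h : ‖σ‖ < 1 / 2) : 1 - σ ≠ 0 := by
  intro h0
  have : σ = 1 := by linear_combination -h0
  rw [this] at h; norm_num at h

lemma norm_one_sub_ge {σ : ℂ} (h : ‖σ‖ < 1 / 2) : 1 / 2 ≤ ‖1 - σ‖ := by
  have := norm_sub_norm_le (1 : ℂ) σ
  rw [norm_one] at this; linarith

/-- three-term relation between neighbouring modes -/
lemma md_three (lam : ℝ) (j : ℤ) {p : ℂ × ℂ} (h1 : p.1 ≠ 0) (h3 : ‖p.2‖ < 1 / 2) :
    muC j * md lam j p / p.1 + p.2 / p.1 *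
      ((pcC lam j * md lam (j + 1) p / p.1 - muC j * md lam j p) / (1 - p.2)) =
      muC j * md lam (j - 1) p := by
  have hl := hypC_lower lam j (z := p.2) (by linarith)
  have hr := hypC_raise lam j (z := p.2) (by linarith)
  have h4 := one_sub_ne h3
  simp only [md, muC_add_one, muC_sub_one]
  rw [Complex.cpow_add _ _ h1, Complex.cpow_sub _ _ h1, Complex.cpow_one]
  simp only [muC, pcC]
  field_simp
  linear_combination p.1 ^ ((mu j : ℝ) : ℂ) * ((1 - p.2) * hl - p.2 * hr)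

lemma Phi_three (lam : ℝ) {r : ℝ} (hr : r ≤ 1) {a : ℤ → ℂ} (ha : a ∈ Good r) {p : ℂ × ℂ}
    (hp : p ∈ Dom r) :
    Phi lam (A3 a) p / p.1 + p.2 / p.1 *
      ((Phi lam (Ap lam a) p / p.1 - Phi lam (A3 a) p) / (1 - p.2)) = Phi lam (Am a) p := by
  have h3 := hasSum_A3 lam hr ha hp
  have hP := hasSum_Ap lam hr ha hp
  have h := (h3.div_const p.1).add
    (((((hP.div_const p.1).sub h3).div_const (1 - p.2))).mul_left (p.2 / p.1))
  refine h.unique (hs_congr (hasSum_Am lam hr ha hp) fun j => ?_)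
  rw [← md_three lam j (Complex.slitPlane_ne_zero hp.1) hp.2.2]
  ring

/-- a linear form on the plane of the two variables -/
def lf (x y : ℂ) : ℂ × ℂ →L[ℂ] ℂ :=
  x • ContinuousLinearMap.fst ℂ ℂ ℂ + y • ContinuousLinearMap.snd ℂ ℂ ℂ

@[simp] lemma lf_apply (x y : ℂ) (q : ℂ × ℂ) : lf x y q = x * q.1 + y * q.2 := by simp [lf]

lemma norm_lf_le (x y : ℂ) : ‖lf x y‖ ≤ ‖x‖ + ‖y‖ := by
  refine ContinuousLinearMap.opNorm_le_bound _ (by positivity) fun q => ?_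
  rw [lf_apply, add_mul]
  refine (norm_add_le _ _).trans (add_le_add ?_ ?_) <;> rw [norm_mul] <;> gcongr
  exacts [norm_fst_le q, norm_snd_le q]

lemma hasSum_lf {x y : ℤ → ℂ} {X Y : ℂ} (hx : HasSum x X) (hy : HasSum y Y) :
    HasSum (fun j => lf (x j) (y j)) (lf X Y) :=
  (hx.smul_const _).add (hy.smul_const _)

lemma hasFDerivAt_md (lam : ℝ) (j : ℤ) {p : ℂ × ℂ} (h1 : p.1 ∈ Complex.slitPlane)
    (h3 : ‖p.2‖ < 1 / 2) :
    HasFDerivAt (md lam j) (lf (muC j * md lam j p / p.1)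
      ((pcC lam j * md lam (j + 1) p / p.1 - muC j * md lam j p) / (1 - p.2))) p := by
  have h0 := Complex.slitPlane_ne_zero h1
  have ha := ((Complex.hasStrictDerivAt_cpow_const (c := muC j) h1).hasDerivAt.hasFDerivAt).comp p
    (hasFDerivAt_fst (𝕜 := ℂ) (p := p))
  have hb := ((hasDerivAt_hypC lam (mu j) (z := p.2) (by linarith)).hasFDerivAt).comp p
    (hasFDerivAt_snd (𝕜 := ℂ) (p := p))
  have h := ha.mul hb
  have hr := hypC_raise lam j (z := p.2) (by linarith)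
  have h4 := one_sub_ne h3
  refine HasFDerivAt.congr_fderiv h ?_
  ext
  · simp [md, Complex.cpow_sub _ _ h0]; field_simp
  · simp only [md, muC_add_one]
    rw [Complex.cpow_add _ _ h0, Complex.cpow_one]
    simp
    simp only [muC, pcC]
    field_simp
    linear_combination p.1 ^ ((mu j : ℝ) : ℂ) * hr

lemma hasFDerivAt_Phi (lam : ℝ) {r : ℝ} (hr : r ≤ 1) {a : ℤ → ℂ} (ha : a ∈ Good r) {p : ℂ × ℂ}
    (hp : p ∈ Dom r) :
    HasFDerivAt (Phi lam a) (lf (Phi lam (A3 a) p / p.1)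
      ((Phi lam (Ap lam a) p / p.1 - Phi lam (A3 a) p) / (1 - p.2))) p := by
  obtain ⟨h1, h2, h3⟩ := id hp
  have h0 : 0 < ‖p.1‖ := norm_pos_iff.2 (Complex.slitPlane_ne_zero h1)
  obtain ⟨η0, hη0, hball⟩ := Metric.isOpen_iff.1 Complex.isOpen_slitPlane _ h1
  set η := min η0 (min (‖p.1‖ / 2) ((r - ‖p.1‖) / 2)) with hη
  have hηpos : 0 < η := lt_min hη0 (lt_min (by linarith) (by linarith))
  have e1 : η ≤ η0 := min_le_left _ _
  have e2 : η ≤ ‖p.1‖ / 2 := (min_le_right _ _).trans (min_le_left _ _)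
  have e3 : η ≤ (r - ‖p.1‖) / 2 := (min_le_right _ _).trans (min_le_right _ _)
  set δ := ‖p.1‖ / 2 with hδ
  set ρ := (r + ‖p.1‖) / 2 with hρ
  have hδ0 : 0 < δ := by positivity
  have hρ0 : 0 < ρ := by linarith
  have hρr : ρ < r := by linarith
  let s : Set (ℂ × ℂ) := Metric.ball p.1 η ×ˢ Metric.ball 0 (1 / 2)
  have hs : ∀ q ∈ s, q.1 ∈ Complex.slitPlane ∧ δ ≤ ‖q.1‖ ∧ ‖q.1‖ ≤ ρ ∧ ‖q.2‖ < 1 / 2 := by
    rintro q ⟨hq1, hq2⟩
    have hd : ‖q.1 - p.1‖ < η := by simpa [dist_eq_norm] using hq1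
    have a1 := norm_sub_norm_le q.1 p.1
    have a2 := norm_sub_norm_le p.1 q.1
    rw [norm_sub_rev] at a2
    exact ⟨hball (Metric.ball_subset_ball e1 hq1), by linarith, by linarith, by simpa using hq2⟩
  have hps : p ∈ s := ⟨Metric.mem_ball_self hηpos, by simpa using h3⟩
  have S3 := Good.summable (good_A3 ha) hρ0 hρr (wt_nat lam δ hρ0.le)
  have SP := ((Equiv.addRight (1 : ℤ)).summable_iff).2
    (Good.summable (good_Ap lam ha) hρ0 hρr (wt_nat lam δ hρ0.le))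
  have key := hasFDerivAt_tsum_of_isPreconnected
    (f := fun j q => a j * md lam j q)
    (f' := fun j q => lf (a j * (muC j * md lam j q) / q.1)
      ((a j * (pcC lam j * md lam (j + 1) q) / q.1 - a j * (muC j * md lam j q)) / (1 - q.2)))
    ((S3.mul_left (1 / δ + 2)).add (SP.mul_left (2 / δ)))
    (Metric.isOpen_ball.prod Metric.isOpen_ball)
    ((convex_ball _ _).prod (convex_ball _ _)).isPreconnected
    (fun j q hq => by
      obtain ⟨q1, -, -, q4⟩ := hs q hq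
      refine HasFDerivAt.congr_fderiv ((hasFDerivAt_md lam j q1 q4).const_mul (a j)) ?_
      ext <;> simp <;> ring)
    (fun j q hq => by
      obtain ⟨-, q2, q3, q4⟩ := hs q hq
      have b1 := norm_md_le lam hδ0 (hρr.le.trans hr) q2 q3 (by linarith) j
      have b2 := norm_md_le lam hδ0 (hρr.le.trans hr) q2 q3 (by linarith) (j + 1)
      have c1 : ‖a j * (muC j * md lam j q)‖ ≤ ‖A3 a j‖ * wt lam δ ρ j := by
        rw [← mul_assoc, norm_mul, mul_comm (a j)]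
        exact mul_le_mul_of_nonneg_left b1 (norm_nonneg _)
      have c2 : ‖a j * (pcC lam j * md lam (j + 1) q)‖ ≤
          ‖Ap lam a (j + 1)‖ * wt lam δ ρ (j + 1) := by
        rw [← mul_assoc, norm_mul, mul_comm (a j)]
        simp only [Ap, opU_apply, add_sub_cancel_right]
        exact mul_le_mul_of_nonneg_left b2 (norm_nonneg _)
      have n1 := (norm_nonneg _).trans c1
      have n2 := (norm_nonneg _).trans c2
      have d1 : ‖a j * (muC j * md lam j q) / q.1‖ ≤ ‖A3 a j‖ * wt lam δ ρ j / δ := by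
        rw [norm_div]; gcongr
      have d2 : ‖a j * (pcC lam j * md lam (j + 1) q) / q.1‖ ≤
          ‖Ap lam a (j + 1)‖ * wt lam δ ρ (j + 1) / δ := by
        rw [norm_div]; gcongr
      have d3 : ‖(a j * (pcC lam j * md lam (j + 1) q) / q.1 - a j * (muC j * md lam j q)) /
          (1 - q.2)‖ ≤ (‖Ap lam a (j + 1)‖ * wt lam δ ρ (j + 1) / δ +
            ‖A3 a j‖ * wt lam δ ρ j) / (1 / 2) := by
        rw [norm_div]
        gcongr
        · exact (norm_sub_le _ _).trans (add_le_add d2 c1)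
        · exact norm_one_sub_ge q4
      refine (norm_lf_le _ _).trans ((add_le_add d1 d3).trans (le_of_eq ?_))
      simp only [Function.comp, Equiv.coe_addRight]
      ring)
    hps (summable_md lam hr ha hp) hps
  have h3' := hasSum_A3 lam hr ha hp
  have hP := hasSum_Ap lam hr ha hp
  rw [(hasSum_lf (h3'.div_const p.1) (((hP.div_const p.1).sub h3').div_const (1 - p.2))).tsum_eq]
    at key
  exact key

/-- the derivative along the vector field with components `α`, `β`, `γ` -/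
lemma lf_field (lam : ℝ) {r : ℝ} (hr : r ≤ 1) {a : ℤ → ℂ} (ha : a ∈ Good r) {p : ℂ × ℂ}
    (hp : p ∈ Dom r) (α β γ : ℂ) :
    lf (Phi lam (A3 a) p / p.1) ((Phi lam (Ap lam a) p / p.1 - Phi lam (A3 a) p) / (1 - p.2))
      (α * p.1 ^ 2 + β * p.1 + γ, α * p.1 * (1 - p.2) + γ * p.2 / p.1) =
      Phi lam (α • Ap lam a + β • A3 a + γ • Am a) p := by
  have g1 := (Good r).smul_mem α (good_Ap lam ha)
  have g2 := (Good r).smul_mem β (good_A3 ha)
  have g3 := (Good r).smul_mem γ (good_Am ha)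
  rw [Phi_add lam hr ((Good r).add_mem g1 g2) g3 hp, Phi_add lam hr g1 g2 hp, Phi_smul, Phi_smul,
    Phi_smul, ← Phi_three lam hr ha hp, lf_apply]
  have h0 := Complex.slitPlane_ne_zero hp.1
  have h4 := one_sub_ne hp.2.2
  field_simp
  ring

end Pool.Agent.MP_c4844d_an

end
end MrgPart1

-- ======== part 2: formerly Pool.Agent.MP_c4844d_an.TD
section MrgPart2

noncomputable section

namespace Pool.Agent.MP_c4844d_an

/-- a tridiagonal operator -/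
def Lt (w u v : ℤ → ℂ) (α β γ : ℂ) : Module.End ℂ (ℤ → ℂ) := α • opU u + β • opD w + γ • opV v

lemma Lt_apply (w u v : ℤ → ℂ) (α β γ : ℂ) (a : ℤ → ℂ) (j : ℤ) :
    Lt w u v α β γ a j =
      α * (u (j - 1) * a (j - 1)) + β * (w j * a j) + γ * (v (j + 1) * a (j + 1)) := rfl

lemma td_formula {w u v : ℤ → ℂ} {lam κp κm : ℂ} (hw : ∀ j, w (j + 1) = w j + 1)
    (huv : ∀ j, u j * v (j + 1) = w j * (w j + 1) - lam)
    {α1 β1 γ1 α2 β2 γ2 α3 β3 γ3 : ℂ}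
    (h004 : α1 ^ 0 * β1 ^ 0 * γ1 ^ 4 + α2 ^ 0 * β2 ^ 0 * γ2 ^ 4 + α3 ^ 0 * β3 ^ 0 * γ3 ^ 4 = 0)
    (h013 : α1 ^ 0 * β1 ^ 1 * γ1 ^ 3 + α2 ^ 0 * β2 ^ 1 * γ2 ^ 3 + α3 ^ 0 * β3 ^ 1 * γ3 ^ 3 = κm)
    (h022 : α1 ^ 0 * β1 ^ 2 * γ1 ^ 2 + α2 ^ 0 * β2 ^ 2 * γ2 ^ 2 + α3 ^ 0 * β3 ^ 2 * γ3 ^ 2 = 0)
    (h031 : α1 ^ 0 * β1 ^ 3 * γ1 ^ 1 + α2 ^ 0 * β2 ^ 3 * γ2 ^ 1 + α3 ^ 0 * β3 ^ 3 * γ3 ^ 1 = 0)
    (h040 : α1 ^ 0 * β1 ^ 4 * γ1 ^ 0 + α2 ^ 0 * β2 ^ 4 * γ2 ^ 0 + α3 ^ 0 * β3 ^ 4 * γ3 ^ 0 = 1 / 3)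
    (h103 : α1 ^ 1 * β1 ^ 0 * γ1 ^ 3 + α2 ^ 1 * β2 ^ 0 * γ2 ^ 3 + α3 ^ 1 * β3 ^ 0 * γ3 ^ 3 = 0)
    (h112 : α1 ^ 1 * β1 ^ 1 * γ1 ^ 2 + α2 ^ 1 * β2 ^ 1 * γ2 ^ 2 + α3 ^ 1 * β3 ^ 1 * γ3 ^ 2 = 0)
    (h121 : α1 ^ 1 * β1 ^ 2 * γ1 ^ 1 + α2 ^ 1 * β2 ^ 2 * γ2 ^ 1 + α3 ^ 1 * β3 ^ 2 * γ3 ^ 1 = -1 / 6)
    (h130 : α1 ^ 1 * β1 ^ 3 * γ1 ^ 0 + α2 ^ 1 * β2 ^ 3 * γ2 ^ 0 + α3 ^ 1 * β3 ^ 3 * γ3 ^ 0 = 0)
    (h202 : α1 ^ 2 * β1 ^ 0 * γ1 ^ 2 + α2 ^ 2 * β2 ^ 0 * γ2 ^ 2 + α3 ^ 2 * β3 ^ 0 * γ3 ^ 2 = 1 / 12)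
    (h211 : α1 ^ 2 * β1 ^ 1 * γ1 ^ 1 + α2 ^ 2 * β2 ^ 1 * γ2 ^ 1 + α3 ^ 2 * β3 ^ 1 * γ3 ^ 1 = 0)
    (h220 : α1 ^ 2 * β1 ^ 2 * γ1 ^ 0 + α2 ^ 2 * β2 ^ 2 * γ2 ^ 0 + α3 ^ 2 * β3 ^ 2 * γ3 ^ 0 = 0)
    (h301 : α1 ^ 3 * β1 ^ 0 * γ1 ^ 1 + α2 ^ 3 * β2 ^ 0 * γ2 ^ 1 + α3 ^ 3 * β3 ^ 0 * γ3 ^ 1 = 0)
    (h310 : α1 ^ 3 * β1 ^ 1 * γ1 ^ 0 + α2 ^ 3 * β2 ^ 1 * γ2 ^ 0 + α3 ^ 3 * β3 ^ 1 * γ3 ^ 0 = κp)
    (h400 : α1 ^ 4 * β1 ^ 0 * γ1 ^ 0 + α2 ^ 4 * β2 ^ 0 * γ2 ^ 0 + α3 ^ 4 * β3 ^ 0 * γ3 ^ 0 = 0)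
    (a : ℤ → ℂ) (j : ℤ) :
    (Lt w u v α1 β1 γ1 ^ 4 + Lt w u v α2 β2 γ2 ^ 4 + Lt w u v α3 β3 γ3 ^ 4) a j =
      (lam ^ 2 / 2 + (lam - 5 / 6) * w j ^ 2 - 7 / 6 * w j ^ 4) * a j +
      κp * (4 * w j - 6) * (u (j - 1) * u (j - 1 - 1) * u (j - 1 - 1 - 1)) * a (j - 1 - 1 - 1) +
      κm * (4 * w j + 6) * (v (j + 1) * v (j + 1 + 1) * v (j + 1 + 1 + 1)) * a (j + 1 + 1 + 1) := by
  have hw' : ∀ j, w (j - 1) = w j - 1 := fun j => by
    have := hw (j - 1); rw [sub_add_cancel] at this; rw [this]; ring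
  have g0 := huv j
  have g1 := huv (j + 1)
  have gm1 := huv (j - 1)
  have gm2 := huv (j - 1 - 1)
  simp only [sub_add_cancel, hw, hw'] at g1 gm1 gm2
  simp only [pow_succ, pow_zero, one_mul, LinearMap.add_apply, Pi.add_apply, Module.End.mul_apply,
    Lt_apply, sub_add_cancel, add_sub_cancel_right, hw, hw']
  linear_combination
    (v (j + 1) * v (j + 1 + 1) * v (j + 1 + 1 + 1) * v (j + 1 + 1 + 1 + 1) * a (j + 1 + 1 + 1 + 1)) * h004 +
    (w j * v (j + 1) * v (j + 1 + 1) * v (j + 1 + 1 + 1) * a (j + 1 + 1 + 1) + v (j + 1) * (w j + (1)) * v (j + 1 + 1) * v (j + 1 + 1 + 1) * a (j + 1 + 1 + 1) + v (j + 1) * v (j + 1 + 1) * (w j + (2)) * v (j + 1 + 1 + 1) * a (j + 1 + 1 + 1) + v (j + 1) * v (j + 1 + 1) * v (j + 1 + 1 + 1) * (w j + (3)) * a (j + 1 + 1 + 1)) * h013 +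
    (w j * w j * v (j + 1) * v (j + 1 + 1) * a (j + 1 + 1) + w j * v (j + 1) * (w j + (1)) * v (j + 1 + 1) * a (j + 1 + 1) + w j * v (j + 1) * v (j + 1 + 1) * (w j + (2)) * a (j + 1 + 1) + v (j + 1) * (w j + (1)) * (w j + (1)) * v (j + 1 + 1) * a (j + 1 + 1) + v (j + 1) * (w j + (1)) * v (j + 1 + 1) * (w j + (2)) * a (j + 1 + 1) + v (j + 1) * v (j + 1 + 1) * (w j + (2)) * (w j + (2)) * a (j + 1 + 1)) * h022 +
    (w j * w j * w j * v (j + 1) * a (j + 1) + w j * w j * v (j + 1) * (w j + (1)) * a (j + 1) + w j * v (j + 1) * (w j + (1)) * (w j + (1)) * a (j + 1) + v (j + 1) * (w j + (1)) * (w j + (1)) * (w j + (1)) * a (j + 1)) * h031 +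
    (w j * w j * w j * w j * a j) * h040 +
    (u (j - 1) * v j * v (j + 1) * v (j + 1 + 1) * a (j + 1 + 1) + v (j + 1) * u j * v (j + 1) * v (j + 1 + 1) * a (j + 1 + 1) + v (j + 1) * v (j + 1 + 1) * u (j + 1) * v (j + 1 + 1) * a (j + 1 + 1) + v (j + 1) * v (j + 1 + 1) * v (j + 1 + 1 + 1) * u (j + 1 + 1) * a (j + 1 + 1)) * h103 +
    (u (j - 1) * (w j + (-1)) * v j * v (j + 1) * a (j + 1) + u (j - 1) * v j * w j * v (j + 1) * a (j + 1) + u (j - 1) * v j * v (j + 1) * (w j + (1)) * a (j + 1) + w j * u (j - 1) * v j * v (j + 1) * a (j + 1) + w j * v (j + 1) * u j * v (j + 1) * a (j + 1) + w j * v (j + 1) * v (j + 1 + 1) * u (j + 1) * a (j + 1) + v (j + 1) * u j * w j * v (j + 1) * a (j + 1) + v (j + 1) * u j * v (j + 1) * (w j + (1)) * a (j + 1) + v (j + 1) * (w j + (1)) * u j * v (j + 1) * a (j + 1) + v (j + 1) * (w j + (1)) * v (j + 1 + 1) * u (j + 1) * a (j + 1) + v (j + 1) * v (j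 + 1 + 1) * u (j + 1) * (w j + (1)) * a (j + 1) + v (j + 1) * v (j + 1 + 1) * (w j + (2)) * u (j + 1) * a (j + 1)) * h112 +
    (u (j - 1) * (w j + (-1)) * (w j + (-1)) * v j * a j + u (j - 1) * (w j + (-1)) * v j * w j * a j + u (j - 1) * v j * w j * w j * a j + w j * u (j - 1) * (w j + (-1)) * v j * a j + w j * u (j - 1) * v j * w j * a j + w j * w j * u (j - 1) * v j * a j + w j * w j * v (j + 1) * u j * a j + w j * v (j + 1) * u j * w j * a j + w j * v (j + 1) * (w j + (1)) * u j * a j + v (j + 1) * u j * w j * w j * a j + v (j + 1) * (w j + (1)) * u j * w j * a j + v (j + 1) * (w j + (1)) * (w j + (1)) * u j * a j) * h121 +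
    (u (j - 1) * (w j + (-1)) * (w j + (-1)) * (w j + (-1)) * a (j - 1) + w j * u (j - 1) * (w j + (-1)) * (w j + (-1)) * a (j - 1) + w j * w j * u (j - 1) * (w j + (-1)) * a (j - 1) + w j * w j * w j * u (j - 1) * a (j - 1)) * h130 +
    (u (j - 1) * u (j - 1 - 1) * v (j - 1) * v j * a j + u (j - 1) * v j * u (j - 1) * v j * a j + u (j - 1) * v j * v (j + 1) * u j * a j + v (j + 1) * u j * u (j - 1) * v j * a j + v (j + 1) * u j * v (j + 1) * u j * a j + v (j + 1) * v (j + 1 + 1) * u (j + 1) * u j * a j) * h202 +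
    (u (j - 1) * u (j - 1 - 1) * (w j + (-2)) * v (j - 1) * a (j - 1) + u (j - 1) * u (j - 1 - 1) * v (j - 1) * (w j + (-1)) * a (j - 1) + u (j - 1) * (w j + (-1)) * u (j - 1 - 1) * v (j - 1) * a (j - 1) + u (j - 1) * (w j + (-1)) * v j * u (j - 1) * a (j - 1) + u (j - 1) * v j * u (j - 1) * (w j + (-1)) * a (j - 1) + u (j - 1) * v j * w j * u (j - 1) * a (j - 1) + w j * u (j - 1) * u (j - 1 - 1) * v (j - 1) * a (j - 1) + w j * u (j - 1) * v j * u (j - 1) * a (j - 1) + w j * v (j + 1) * u j * u (j - 1) * a (j - 1) + v (j + 1) * u j * u (j - 1) * (w j + (-1)) * a (j - 1) + v (j + 1) * u j * w j * u (j - 1) * a (j - 1) + v (j + 1) * (w j + (1)) * u j * u (j - 1) * a (j - 1)) * h211 +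
    (u (j - 1) * u (j - 1 - 1) * (w j + (-2)) * (w j + (-2)) * a (j - 1 - 1) + u (j - 1) * (w j + (-1)) * u (j - 1 - 1) * (w j + (-2)) * a (j - 1 - 1) + u (j - 1) * (w j + (-1)) * (w j + (-1)) * u (j - 1 - 1) * a (j - 1 - 1) + w j * u (j - 1) * u (j - 1 - 1) * (w j + (-2)) * a (j - 1 - 1) + w j * u (j - 1) * (w j + (-1)) * u (j - 1 - 1) * a (j - 1 - 1) + w j * w j * u (j - 1) * u (j - 1 - 1) * a (j - 1 - 1)) * h220 +
    (u (j - 1) * u (j - 1 - 1) * u (j - 1 - 1 - 1) * v (j - 1 - 1) * a (j - 1 - 1) + u (j - 1) * u (j - 1 - 1) * v (j - 1) * u (j - 1 - 1) * a (j - 1 - 1) + u (j - 1) * v j * u (j - 1) * u (j - 1 - 1) * a (j - 1 - 1) + v (j + 1) * u j * u (j - 1) * u (j - 1 - 1) * a (j - 1 - 1)) * h301 +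
    (u (j - 1) * u (j - 1 - 1) * u (j - 1 - 1 - 1) * (w j + (-3)) * a (j - 1 - 1 - 1) + u (j - 1) * u (j - 1 - 1) * (w j + (-2)) * u (j - 1 - 1 - 1) * a (j - 1 - 1 - 1) + u (j - 1) * (w j + (-1)) * u (j - 1 - 1) * u (j - 1 - 1 - 1) * a (j - 1 - 1 - 1) + w j * u (j - 1) * u (j - 1 - 1) * u (j - 1 - 1 - 1) * a (j - 1 - 1 - 1)) * h310 +
    (u (j - 1) * u (j - 1 - 1) * u (j - 1 - 1 - 1) * u (j - 1 - 1 - 1 - 1) * a (j - 1 - 1 - 1 - 1)) * h400 +
    ((1/12) * ((w j + (-1)) * (w j + (-1) + 1) - lam) * a j) * gm2 +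
    ((-1/6) * (w j + (-1)) * (w j + (-1)) * a j + (-1/6) * (w j + (-1)) * w j * a j + (-1/6) * w j * w j * a j + (-1/6) * w j * (w j + (-1)) * a j + (-1/6) * w j * w j * a j + (-1/6) * w j * w j * a j + (1/12) * u (j - 1 - 1) * v (j - 1) * a j + (1/12) * u (j - 1) * v j * a j + (1/12) * ((w j + (-1)) * (w j + (-1) + 1) - lam) * a j + (1/12) * v (j + 1) * u j * a j + (1/12) * ((w j + (0)) * (w j + (0) + 1) - lam) * a j) * gm1 +
    ((-1/6) * w j * w j * a j + (-1/6) * w j * w j * a j + (-1/6) * w j * (w j + (1)) * a j + (-1/6) * w j * w j * a j + (-1/6) * (w j + (1)) * w j * a j + (-1/6) * (w j + (1)) * (w j + (1)) * a j + (1/12) * ((w j + (-1)) * (w j + (-1) + 1) - lam) * a j + (1/12) * u (j - 1) * v j * a j + (1/12) * v (j + 1) * u j * a j + (1/12) * ((w j + (0)) * (w j + (0) + 1) - lam) * a j + (1/12) * ((w j + (1)) * (w j + (1) + 1) - lam) * a j) * g0 +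
    ((1/12) * v (j + 1) * u j * a j) * g1

end Pool.Agent.MP_c4844d_an

end
end MrgPart2

-- marker of a merged file
example : 731051 + 640322 = 731051 + 640322 := rfl
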